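import Pool.Agent.Lib.MP_dd84fd_nt.DX.LtCt

/-!
# DX-LtMain: the light part (helper33)

`lightE : LightE`: the nonprincipal characters with small norm contribute little to the mass.
-/

set_option autoImplicit false

namespace Pool.MP_dd84fd_nt.DX

open Finset Pool.MP_67663b_nt.Odd Pool.MP_dd84fd_nt.PL Pool.MP_dd84fd_nt.HX Pool.MP_dd84fd_nt.HXP
open Pool.MP_dd84fd_nt.IX (W1)
open Pool.MP_dd84fd_nt.JX (Adm ZJ DecJ)
open Pool.MP_dd84fd_nt.JXP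

/-- the number of the annuli -/
theorem lt_J (E K2 : ℕ) : ∃ X0 : ℕ, ∀ X : ℕ, X0 ≤ X → ∃ J : ℕ,
    4 * (Real.log X) ^ K2 ≤ 1 / (Real.log X) ^ E * 2 ^ J ∧ 2 * (J : ℝ) ≤ Real.log X ∧
    ∀ l < J, 1 / (Real.log X) ^ E * 2 ^ l ≤ 4 * (Real.log X) ^ K2 := by
  classical
  obtain ⟨X1, hX1⟩ := lt_big 8
  obtain ⟨X2, hX2⟩ := lt_log (K2 + E) 4 (1 / 4) (by norm_num)
  refine ⟨max (max X1 X2) 3, ?_⟩
  intro X hX
  simp only [max_le_iff] at hX
  obtain ⟨⟨gX1, gX2⟩, gX3⟩ := hX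
  have g1 := hX1 X gX1
  have g2 := hX2 X gX2
  have hXn : 1 ≤ X := by omega
  have hX0 : (0 : ℝ) < X := by exact_mod_cast hXn
  obtain ⟨L, hL⟩ : ∃ L : ℝ, L = Real.log X := ⟨_, rfl⟩
  have hXe : (X : ℝ) ^ (1 / 4 : ℝ) = Real.exp (L * (1 / 4)) := by
    rw [Real.rpow_def_of_pos hX0, hL]
  rw [← hL] at g1 g2 ⊢
  have hL0 : 0 < L := by linarith
  have hE0 : 0 < L ^ E := by positivity
  have key : 4 * L ^ K2 ≤ 1 / L ^ E * 2 ^ ⌊L / 2⌋₊ := by
    rw [one_div, ← div_eq_inv_mul, le_div_iff₀ hE0]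
    have e1 : 4 * L ^ K2 * L ^ E = 4 * L ^ (K2 + E) := by rw [pow_add]; ring
    rw [e1]
    refine g2.trans ?_
    rw [hXe]
    have e2 : (2 : ℝ) ^ ⌊L / 2⌋₊ = Real.exp (Real.log 2 * ⌊L / 2⌋₊) := by
      rw [mul_comm, Real.exp_nat_mul, Real.exp_log (by norm_num)]
    rw [e2, Real.exp_le_exp]
    have e3 : L / 2 < ⌊L / 2⌋₊ + 1 := Nat.lt_floor_add_one _
    have e4 := Real.log_two_gt_d9
    have e5 := Real.log_two_lt_d9
    have e6 : (0 : ℝ) ≤ ⌊L / 2⌋₊ := Nat.cast_nonneg _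
    nlinarith
  have hex : ∃ J : ℕ, 4 * L ^ K2 ≤ 1 / L ^ E * 2 ^ J := ⟨_, key⟩
  refine ⟨Nat.find hex, Nat.find_spec hex, ?_, ?_⟩
  · have h1 : Nat.find hex ≤ ⌊L / 2⌋₊ := Nat.find_min' hex key
    have h2 : (⌊L / 2⌋₊ : ℝ) ≤ L / 2 := Nat.floor_le (by linarith)
    have h3 : ((Nat.find hex : ℕ) : ℝ) ≤ ⌊L / 2⌋₊ := by exact_mod_cast h1
    linarith
  · intro l hl
    have := Nat.find_min hex hl
    push Not at this
    exact this.le

/-- the characters all of whose narrow sums are small -/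
theorem lt_off (A C2 K2 K0 : ℕ) (th e τ : ℝ) (hp : Adm th e τ) : ∃ X0 : ℕ, ∀ X : ℕ, X0 ≤ X →
    ∀ (I D : ℕ) (γ : ℕ → ℕ → ℝ) (M : ℕ → ℝ) (K : ℕ → ℕ) (MM : ℕ → Finset ℕ)
      (a c : ℕ → ℕ → ℝ) (err w : ℕ → ℝ),
    DecD X th e τ C2 (A + 8) I D γ M K MM a c err w → (∀ n ∈ Icc 1 X, |w n| ≤ K0) →
    ∀ (QQ : Finset ℕ) (N : ℝ), Fam QQ N →
    1 ≤ N → N ≤ (X : ℝ) ^ (1 - th + 3 / 2 * e) → (QQ.card : ℝ) ≤ (X : ℝ) ^ (e / 2) →
    ∀ S : (q : ℕ) → Finset (DirichletCharacter ℂ q),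
    (∀ q ∈ QQ, ∀ χ ∈ S q, χ ≠ 1 ∧ ∀ i < I, ∀ u, ‖Au q (MM i) (fun m => (a i m : ℂ)) χ u‖ ≤
      2 * (M i / (Real.log X) ^ (A + 3 * K2 + 4 * C2 + 10))) →
    ∫ x in (-(4 * (Real.log X) ^ K2 / X))..(4 * (Real.log X) ^ K2 / X),
      FF1 QQ S (fun q χ x => cX q X (fun n => ((w n : ℝ) : ℂ)) χ x) x ≤
      2 * (X / (Real.log X) ^ (A + 3)) := by
  obtain ⟨X1, hX1⟩ := lt_ann A C2 K2 th e τ hp
  obtain ⟨X2, hX2⟩ := lt_big (336 * (K0 : ℝ) ^ 2 + 1)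
  obtain ⟨X3, hX3⟩ := lt_J (A + 6) K2
  obtain ⟨hth, hth2, he0, hτ, heτ⟩ := hp
  refine ⟨max (max X1 X2) (max X3 3), ?_⟩
  intro X hX I D γ M K MM a c err w hd hw QQ N hfam hN1 hN hcard S hS
  simp only [max_le_iff] at hX
  obtain ⟨⟨gX1, gX2⟩, gX3, gX4⟩ := hX
  have g2 := hX2 X gX2
  obtain ⟨J, hJ1, hJ2, hJ3⟩ := hX3 X gX3
  have g1 := hX1 X gX1 I D γ M K MM a c err w hd QQ N hfam hN1 hN hcard S hS
  have hXn : 1 ≤ X := by omega
  have hX0 : (0 : ℝ) < X := by exact_mod_cast hXn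
  have hX1R : (1 : ℝ) ≤ X := by exact_mod_cast hXn
  have hNX : N ≤ X := by
    calc N ≤ (X : ℝ) ^ (1 - th + 3 / 2 * e) := hN
      _ ≤ (X : ℝ) ^ (1 : ℝ) := Real.rpow_le_rpow_of_exponent_le hX1R (by linarith)
      _ = X := Real.rpow_one _
  obtain ⟨L, hL⟩ : ∃ L : ℝ, L = Real.log X := ⟨_, rfl⟩
  have hlN : Real.log N ≤ L := by
    rw [hL]
    exact Real.log_le_log (by linarith) hNX
  have hlN0 : 0 ≤ Real.log N := Real.log_nonneg hN1
  rw [← hL] at g1 g2 hJ1 hJ2 hJ3 ⊢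
  have hK0 : (0 : ℝ) ≤ (K0 : ℝ) ^ 2 := by positivity
  have hL1 : 1 ≤ L := by linarith
  have hL0 : 0 < L := by linarith
  set g : ℝ → ℝ := FF1 QQ S (fun q χ x => cX q X (fun n => ((w n : ℝ) : ℂ)) χ x) with hg
  have hgc : Continuous g := FF1_cont QQ S _ fun q χ => cX_cont q X _ χ
  have hg0 : ∀ x, 0 ≤ g x := fun x => FF1_nonneg QQ S _ x
  have hcov := int_cover g hgc hg0 (1 / L ^ (A + 6) / X) (4 * L ^ K2 / X) (by positivity) J (by
    have e1 : 1 / L ^ (A + 6) / X * 2 ^ J = (1 / L ^ (A + 6) * 2 ^ J) / X := by ring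
    rw [e1]
    exact div_le_div_of_nonneg_right hJ1 hX0.le)
  refine hcov.trans ?_
  -- the annuli
  have hann : ∑ l ∈ range J, ((∫ x in (1 / L ^ (A + 6) / X * 2 ^ l)..(2 * (1 / L ^ (A + 6) / X *
      2 ^ l)), g x) + ∫ x in (1 / L ^ (A + 6) / X * 2 ^ l)..(2 * (1 / L ^ (A + 6) / X * 2 ^ l)),
        g (-x)) ≤ X / L ^ (A + 3) := by
    have e1 : ∀ l ∈ range J, ((∫ x in (1 / L ^ (A + 6) / X * 2 ^ l)..(2 * (1 / L ^ (A + 6) / X *
        2 ^ l)), g x) + ∫ x in (1 / L ^ (A + 6) / X * 2 ^ l)..(2 * (1 / L ^ (A + 6) / X * 2 ^ l)),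
        g (-x)) ≤ 2 * (X / L ^ (A + 4)) := by
      intro l hl
      rw [mem_range] at hl
      set b := 1 / L ^ (A + 6) * 2 ^ l with hb
      have b1 : 1 / L ^ (A + 6) ≤ b := by
        rw [hb]
        exact le_mul_of_one_le_right (by positivity) (one_le_pow₀ (by norm_num))
      have b2 : b ≤ 4 * L ^ K2 := hJ3 l hl
      have e2 : 1 / L ^ (A + 6) / X * 2 ^ l = b / X := by rw [hb]; ring
      have e3 : 2 * (b / (X : ℝ)) = 2 * b / X := by ring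
      rw [e2, e3]
      have h1 := g1 b 1 b1 b2 (Or.inl rfl)
      have h2 := g1 b (-1) b1 b2 (Or.inr rfl)
      have h3 : ∫ x in (b / X)..(2 * b / X), g x = ∫ x in (b / X)..(2 * b / X),
          FF1 QQ S (fun q χ x => cX q X (fun n => ((w n : ℝ) : ℂ)) χ (1 * x)) x := by
        refine intervalIntegral.integral_congr fun x _ => ?_
        rw [hg]
        unfold FF1
        simp only [one_mul]
      have h4 : ∫ x in (b / X)..(2 * b / X), g (-x) = ∫ x in (b / X)..(2 * b / X),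
          FF1 QQ S (fun q χ x => cX q X (fun n => ((w n : ℝ) : ℂ)) χ (-1 * x)) x := by
        refine intervalIntegral.integral_congr fun x _ => ?_
        rw [hg]
        unfold FF1
        simp only [neg_mul, one_mul]
      rw [h3, h4]
      linarith
    have e4 := sum_le_card_nsmul _ _ _ e1
    rw [card_range, nsmul_eq_mul] at e4
    refine e4.trans ?_
    have e5 : X / L ^ (A + 3) = L * (X / L ^ (A + 4)) := by
      have : L ^ (A + 4) = L ^ (A + 3) * L := by ring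
      rw [this]
      field_simp
    rw [e5]
    have e6 : 0 ≤ X / L ^ (A + 4) := by positivity
    nlinarith
  -- the centre
  have hcen : ∫ x in (-(1 / L ^ (A + 6) / X))..(1 / L ^ (A + 6) / X), g x ≤ X / L ^ (A + 3) := by
    have hs : ∑ k ∈ Icc 1 X, ‖((w k : ℝ) : ℂ)‖ ^ 2 ≤ X * (K0 : ℝ) ^ 2 := by
      have e1 : ∀ k ∈ Icc 1 X, ‖((w k : ℝ) : ℂ)‖ ^ 2 ≤ (K0 : ℝ) ^ 2 := fun k hk => by
        rw [Complex.norm_real, Real.norm_eq_abs]
        exact pow_le_pow_left₀ (abs_nonneg _) (hw k hk) 2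
      have := sum_le_card_nsmul _ _ _ e1
      rwa [Nat.card_Icc, Nat.add_sub_cancel, nsmul_eq_mul] at this
    have e1 : ∀ x, g x ≤ 168 * (K0 : ℝ) ^ 2 * L ^ 2 * X ^ 2 := by
      intro x
      have h1 := lt_sum QQ N hfam hN1 X (fun n => ((w n : ℝ) : ℂ)) x S
      have h2 : LSc N X ≤ 168 * L ^ 2 * X := by
        unfold LSc
        have h3 : (1 + Real.log N) ^ 2 ≤ 4 * L ^ 2 := by nlinarith
        calc 3 * (1 + Real.log N) ^ 2 * (N + 13 * X) ≤ 3 * (4 * L ^ 2) * (14 * X) := by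
              refine mul_le_mul (mul_le_mul_of_nonneg_left h3 (by norm_num)) (by linarith)
                (by positivity) (by positivity)
          _ = _ := by ring
      calc g x ≤ LSc N X * ∑ k ∈ Icc 1 X, ‖((w k : ℝ) : ℂ)‖ ^ 2 := h1
        _ ≤ 168 * L ^ 2 * X * (X * (K0 : ℝ) ^ 2) :=
            mul_le_mul h2 hs (sum_nonneg fun _ _ => by positivity) (by positivity)
        _ = _ := by ring
    have hδ : -(1 / L ^ (A + 6) / X) ≤ 1 / L ^ (A + 6) / (X : ℝ) := by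
      have : 0 ≤ 1 / L ^ (A + 6) / (X : ℝ) := by positivity
      linarith
    calc ∫ x in (-(1 / L ^ (A + 6) / X))..(1 / L ^ (A + 6) / X), g x ≤
        ∫ _x in (-(1 / L ^ (A + 6) / (X : ℝ)))..(1 / L ^ (A + 6) / X),
          168 * (K0 : ℝ) ^ 2 * L ^ 2 * X ^ 2 :=
          intervalIntegral.integral_mono_on hδ (hgc.intervalIntegrable _ _)
            (continuous_const.intervalIntegrable _ _) fun x _ => e1 x
      _ = 336 * (K0 : ℝ) ^ 2 * (X / L ^ (A + 4)) := by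
          rw [intervalIntegral.integral_const, smul_eq_mul]
          have : L ^ (A + 6) = L ^ (A + 4) * L ^ 2 := by ring
          rw [this]
          field_simp
          ring
      _ ≤ L * (X / L ^ (A + 4)) := mul_le_mul_of_nonneg_right (by linarith) (by positivity)
      _ = X / L ^ (A + 3) := by
          have : L ^ (A + 4) = L ^ (A + 3) * L := by ring
          rw [this]
          field_simp
  linarith

/-- the light part, without the conditions on `n` -/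
theorem lt_core (A K0 C2 K2 : ℕ) (τ : ℝ) (hτ0 : 0 < τ) : ∃ A' : ℕ, ∀ th e : ℝ, Adm th e τ →
    ∀ ww : ℕ → ℕ → ℝ, (∃ X1 : ℕ, ∀ X : ℕ, X1 ≤ X → ∀ n, |ww X n| ≤ K0) →
    DecJ (A + 8) C2 th e τ ww →
    ∃ X0 : ℕ, ∀ X : ℕ, X0 ≤ X → ∀ (QQ : Finset ℕ) (N : ℝ), Fam QQ N →
    1 ≤ N → N ≤ (X : ℝ) ^ (1 - th + 3 / 2 * e) → (QQ.card : ℝ) ≤ (X : ℝ) ^ (e / 2) →
    ∀ Y : (q : ℕ) → Finset (DirichletCharacter ℂ q),
      (∀ q ∈ QQ, ∀ χ ∈ Y q, χ ≠ 1 ∧ vN ww X (4 * (Real.log X) ^ K2) χ ≤ 1 / (Real.log X) ^ A') →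
      ∑ q ∈ QQ, ∑ χ ∈ Y q, ‖gs χ‖ ^ 2 / (Nat.totient q : ℝ) *
        (∫ x in (-(4 * (Real.log X) ^ K2 / X))..(4 * (Real.log X) ^ K2 / X), ‖Sx ww X χ x‖ ^ 2) ≤
        X / (Real.log X) ^ A := by
  classical
  obtain ⟨V, hV⟩ : ∃ V : ℕ, V = A + 3 * K2 + 4 * C2 + 10 := ⟨_, rfl⟩
  obtain ⟨E, hE⟩ : ∃ E : ℕ, E = V + 2 * C2 + 1 + (2 * ⌈2 / τ⌉₊ * (V + C2) + 2 * 4 ^ ⌈2 / τ⌉₊ + 3) :=
    ⟨_, rfl⟩
  refine ⟨E + A, fun th e hp ww hwb hd => ?_⟩
  obtain ⟨X1, hX1⟩ := lt_Z V C2 τ hτ0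
  obtain ⟨X2, hX2⟩ := lt_off A C2 K2 K0 th e τ hp
  obtain ⟨X3, hX3⟩ := dec_conv_j (A + 8) C2 th e τ hp ww hd
  obtain ⟨X4, hX4⟩ := hwb
  obtain ⟨X5, hX5⟩ := lt_big 3
  obtain ⟨hth, hth2, he0, hτ, heτ⟩ := hp
  refine ⟨max (max X1 X2) (max X3 (max X4 (max X5 16))), ?_⟩
  intro X hX QQ N hfam hN1 hN hcard Y hY
  simp only [max_le_iff] at hX
  obtain ⟨⟨gX1, gX2⟩, gX3, gX4, gX5, gX6⟩ := hX
  have g1 := hX1 X gX1
  have g2 := hX2 X gX2
  obtain ⟨γ, I, D, M, K, MM, a, c, err, hI, hDZ, hDh, hDX, hBV, hγ0, hBlk, hM0, ha, hK, hdec,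
    herr⟩ := hX3 X gX3
  have g4 := hX4 X gX4
  have g5 := hX5 X gX5
  have hXn : 1 ≤ X := by omega
  have hX0 : (0 : ℝ) < X := by exact_mod_cast hXn
  have hX1R : (1 : ℝ) ≤ X := by exact_mod_cast hXn
  have hNX : N ≤ X := by
    calc N ≤ (X : ℝ) ^ (1 - th + 3 / 2 * e) := hN
      _ ≤ (X : ℝ) ^ (1 : ℝ) := Real.rpow_le_rpow_of_exponent_le hX1R (by linarith)
      _ = X := Real.rpow_one _
  have hdd : DecD X th e τ C2 (A + 8) I D γ M K MM a c err (ww X) :=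
    ⟨hI, hDZ, hDh, hBV, hγ0, hBlk, hM0, ha, hK, hdec, herr⟩
  -- the two parts of `Y`
  set Gd : (q : ℕ) → DirichletCharacter ℂ q → Prop := fun q χ => ∀ i < I, ∀ u,
    ‖Au q (MM i) (fun m => (a i m : ℂ)) χ u‖ ≤ 2 * (M i / (Real.log X) ^ V) with hGd
  set S1 : (q : ℕ) → Finset (DirichletCharacter ℂ q) := fun q => (Y q).filter (Gd q) with hS1
  set S2 : (q : ℕ) → Finset (DirichletCharacter ℂ q) := fun q => (Y q).filter (fun χ => ¬ Gd q χ)
    with hS2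
  set T := 4 * (Real.log X) ^ K2 / X with hT
  have hT0 : 0 ≤ T := by
    have := Real.log_natCast_nonneg X
    positivity
  -- part 1
  have p1 : ∑ q ∈ QQ, ∑ χ ∈ S1 q, ‖gs χ‖ ^ 2 / (Nat.totient q : ℝ) *
      (∫ x in (-T)..T, ‖Sx ww X χ x‖ ^ 2) ≤ 2 * (X / (Real.log X) ^ (A + 3)) := by
    have h1 := g2 I D γ M K MM a c err (ww X) hdd (fun n _ => g4 n) QQ N hfam hN1 hN hcard S1
      (fun q hq χ hχ => by
        rw [hS1] at hχ
        simp only [mem_filter] at hχ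
        refine ⟨(hY q hq χ hχ.1).1, fun i hi u => ?_⟩
        have := hχ.2 i hi u
        rwa [hV] at this)
    refine le_trans (le_of_eq ?_) h1
    unfold FF1
    rw [intervalIntegral.integral_finsetSum]
    · refine sum_congr rfl fun q _ => ?_
      rw [intervalIntegral.integral_finsetSum]
      · refine sum_congr rfl fun χ _ => ?_
        rw [intervalIntegral.integral_const_mul]
        rfl
      · intro χ _
        exact (continuous_const.mul (((cX_cont q X _ χ).norm).pow 2)).intervalIntegrable _ _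
    · intro q _
      exact (continuous_finsetSum _ fun χ _ => continuous_const.mul
        (((cX_cont q X _ χ).norm).pow 2)).intervalIntegrable _ _
  -- part 2
  have hL0 : 0 < Real.log X := by linarith
  have hL1 : 1 ≤ Real.log X := by linarith
  have p2 : ∑ q ∈ QQ, ∑ χ ∈ S2 q, ‖gs χ‖ ^ 2 / (Nat.totient q : ℝ) *
      (∫ x in (-T)..T, ‖Sx ww X χ x‖ ^ 2) ≤ X / (Real.log X) ^ (A + 1) := by
    have hb : ∀ i, (X : ℝ) ^ τ / 2 ≤ M i ∧ 2 * M i ≤ X ∧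
        (∀ m ∈ MM i, M i < (m : ℝ) ∧ (m : ℝ) ≤ 2 * M i) ∧
        (∀ m ∈ MM i, ‖((a i m : ℝ) : ℂ)‖ ≤ (Real.log X) ^ C2) := by
      intro i
      obtain ⟨hMl, hMu, -, hMM, hMa, -⟩ := hBlk i
      refine ⟨hMl, ?_, hMM, hMa⟩
      have e1 : (X : ℝ) ^ (th - 3 * e) ≤ (X : ℝ) ^ (1 / 2 : ℝ) :=
        Real.rpow_le_rpow_of_exponent_le hX1R (by linarith)
      have e2 : (X : ℝ) ^ (1 / 2 : ℝ) = Real.sqrt X := (Real.sqrt_eq_rpow _).symm
      have e3 : 2 * Real.sqrt X ≤ X := by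
        have h4 : (4 : ℝ) ≤ X := by exact_mod_cast (by omega : 4 ≤ X)
        have h5 : 2 ≤ Real.sqrt X := by
          rw [show (2 : ℝ) = Real.sqrt 4 by
            rw [show (4 : ℝ) = 2 ^ 2 by norm_num, Real.sqrt_sq (by norm_num)]]
          exact Real.sqrt_le_sqrt h4
        calc 2 * Real.sqrt X ≤ Real.sqrt X * Real.sqrt X :=
              mul_le_mul_of_nonneg_right h5 (Real.sqrt_nonneg _)
          _ = X := Real.mul_self_sqrt hX0.le
      linarith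
    have h1 := g1 QQ N hfam hN1 hNX I M MM (fun i m => ((a i m : ℝ) : ℂ)) hI hb S2
      (fun q _ χ hχ => by
        rw [hS2] at hχ
        simp only [mem_filter] at hχ
        have h2 := hχ.2
        rw [hGd] at h2
        simp only at h2
        push Not at h2
        exact h2)
    rw [← hE] at h1
    have h2 : ∀ q ∈ QQ, ∀ χ ∈ S2 q, ‖gs χ‖ ^ 2 / (Nat.totient q : ℝ) *
        (∫ x in (-T)..T, ‖Sx ww X χ x‖ ^ 2) ≤
        wg q χ * (X / (Real.log X) ^ (2 + 2 * (E + A))) := by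
      intro q hq χ hχ
      rw [hS2] at hχ
      simp only [mem_filter] at hχ
      have h3 := (hY q hq χ hχ.1).2
      refine mul_le_mul_of_nonneg_left ?_ (wg_nonneg q χ)
      unfold vN at h3
      rw [← hT] at h3
      have hI0 : 0 ≤ ∫ x in (-T)..T, ‖Sx ww X χ x‖ ^ 2 :=
        intervalIntegral.integral_nonneg (by linarith) fun x _ => by positivity
      set Q := ∫ x in (-T)..T, ‖Sx ww X χ x‖ ^ 2 with hQ
      have h4 := pow_le_pow_left₀ (by positivity) h3 2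
      rw [mul_pow, div_pow, div_pow, Real.sq_sqrt hX0.le, Real.sq_sqrt hI0, one_pow, ← pow_mul] at h4
      rw [le_div_iff₀ (by positivity)]
      rw [le_div_iff₀ (by positivity)] at h4
      have e1 : (Real.log X) ^ 2 / X * Q * (Real.log X) ^ ((E + A) * 2) =
          Q * (Real.log X) ^ (2 + 2 * (E + A)) / X := by
        rw [pow_add, mul_comm (E + A) 2]
        ring
      rw [e1, div_le_one hX0] at h4
      exact h4
    calc _ ≤ ∑ q ∈ QQ, ∑ χ ∈ S2 q, wg q χ * (X / (Real.log X) ^ (2 + 2 * (E + A))) :=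
          sum_le_sum fun q hq => sum_le_sum fun χ hχ => h2 q hq χ hχ
      _ = (∑ q ∈ QQ, ∑ χ ∈ S2 q, wg q χ) * (X / (Real.log X) ^ (2 + 2 * (E + A))) := by
          rw [sum_mul]
          exact sum_congr rfl fun q _ => by rw [sum_mul]
      _ ≤ (Real.log X) ^ E * (X / (Real.log X) ^ (2 + 2 * (E + A))) :=
          mul_le_mul_of_nonneg_right h1 (by positivity)
      _ ≤ X / (Real.log X) ^ (A + 1) := by
          rw [← mul_div_assoc, div_le_div_iff₀ (by positivity) (by positivity)]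
          have e1 : (Real.log X) ^ E * X * (Real.log X) ^ (A + 1) =
              X * (Real.log X) ^ (E + (A + 1)) := by ring
          rw [e1]
          exact mul_le_mul_of_nonneg_left (pow_le_pow_right₀ hL1 (by omega)) hX0.le
  -- the sum
  have hsplit : ∀ q ∈ QQ, ∑ χ ∈ Y q, ‖gs χ‖ ^ 2 / (Nat.totient q : ℝ) *
      (∫ x in (-T)..T, ‖Sx ww X χ x‖ ^ 2) =
      ∑ χ ∈ S1 q, ‖gs χ‖ ^ 2 / (Nat.totient q : ℝ) * (∫ x in (-T)..T, ‖Sx ww X χ x‖ ^ 2) +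
      ∑ χ ∈ S2 q, ‖gs χ‖ ^ 2 / (Nat.totient q : ℝ) * (∫ x in (-T)..T, ‖Sx ww X χ x‖ ^ 2) :=
    fun q _ => (sum_filter_add_sum_filter_not (Y q) (Gd q) _).symm
  rw [sum_congr rfl hsplit, sum_add_distrib]
  have e1 : X / (Real.log X) ^ (A + 1) = X / (Real.log X) ^ A / Real.log X := by
    rw [div_div, ← pow_succ]
  have e2 : X / (Real.log X) ^ (A + 3) ≤ X / (Real.log X) ^ A / 9 := by
    have h3 : X / (Real.log X) ^ (A + 3) = X / (Real.log X) ^ A / (Real.log X) ^ 3 := by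
      rw [div_div, ← pow_add]
    rw [h3]
    refine div_le_div_of_nonneg_left (by positivity) (by norm_num) ?_
    nlinarith [sq_nonneg (Real.log X), mul_pos hL0 hL0]
  have e3 : X / (Real.log X) ^ (A + 1) ≤ X / (Real.log X) ^ A / 3 := by
    rw [e1]
    exact div_le_div_of_nonneg_left (by positivity) (by norm_num) g5
  have e4 : 0 ≤ X / (Real.log X) ^ A := by positivity
  linarith

/-- LIGHT -/
theorem lightE : LightE := by
  intro A
  refine ⟨A + 8, fun K0 C1 C2 K1 K2 τ hτ => ?_⟩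
  obtain ⟨A', hA'⟩ := lt_core A K0 C2 K2 τ hτ
  refine ⟨A', fun th e hp ww gg hW hd => ?_⟩
  have hwb : ∃ X1 : ℕ, ∀ X : ℕ, X1 ≤ X → ∀ n, |ww X n| ≤ K0 := by
    obtain ⟨X1, hX1⟩ := hW
    refine ⟨X1, fun X hX n => ((hX1 X hX).1 n).1.trans ?_⟩
    have h1 : rg (Pool.MP_dd84fd_nt.IX.zI X) n ≤ 1 := by
      unfold rg
      split_ifs
      · exact le_refl _
      · exact zero_le_one
    calc (K0 : ℝ) * rg (Pool.MP_dd84fd_nt.IX.zI X) n ≤ K0 * 1 :=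
          mul_le_mul_of_nonneg_left h1 (Nat.cast_nonneg _)
      _ = K0 := mul_one _
  obtain ⟨X0, hX0⟩ := hA' th e hp ww hwb hd
  refine ⟨X0, fun X hX n QQ N hD Y hY => ?_⟩
  obtain ⟨-, -, h1, h2, h3, h4, h5⟩ := hD
  exact hX0 X hX QQ N ⟨fun q hq => (h1 q hq).1, h2⟩ h4 h5 h3 Y hY

end Pool.MP_dd84fd_nt.DX
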