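import Pool.Agent.Lib.MP_dd84fd_nt.LX.PwDefs
import Pool.Agent.Lib.MP_dd84fd_nt.IX.FaDefs

/-!
# Project ED: explicit exceptional moduli (exponents 1/3, 1/5, 1/7), definitions and interface

Paper: /team-store/DX_paper.md (helper44).  `prS ψ y = ∑_{p ≤ y} ψ(p)`.  A primitive character is bad
(`BadC B X ψ`) if one of these sums, `X^(1/11) ≤ y ≤ X`, is larger than `y / (log X)^B`.
`Sx ww X χ x = ∑_{n ≤ X} ww(n) χ(n) e(n x)`, `vN` its normalised `L²` norm on `|x| ≤ T/X`, `gs` the Gauss sum.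
`Dsk`: hypotheses on a family of moduli.  `MassE`: a narrow family whose nonprincipal character sums are
small has small `L²` mass on the discs around the fractions with denominator in the family.
-/

set_option autoImplicit false

namespace Pool.MP_dd84fd_nt.DX

open Finset Pool.MP_67663b_nt.Odd Pool.MP_dd84fd_nt.En Pool.MP_dd84fd_nt.E2 Pool.MP_dd84fd_nt.LS
open Pool.MP_dd84fd_nt.L2G (nrm)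
open Pool.MP_dd84fd_nt.GX Pool.MP_dd84fd_nt.HX Pool.MP_dd84fd_nt.IX
open Pool.MP_dd84fd_nt.PL (rr)
open Pool.MP_dd84fd_nt.JX (Adm ZJ DecJ wP gP)
open Pool.MP_dd84fd_nt.LX (DecW FFL)

/-! ### Characters -/

/-- `∑_{p ≤ y} ψ(p)` -/
noncomputable def prS {r : ℕ} (ψ : DirichletCharacter ℂ r) (y : ℕ) : ℂ :=
  ∑ p ∈ (Icc 1 y).filter Nat.Prime, ψ (p : ZMod r)

/-- some sum over primes `p ≤ y`, `X^(1/11) ≤ y ≤ X`, is larger than `y / (log X)^B` -/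
def BadC (B X : ℕ) {r : ℕ} (ψ : DirichletCharacter ℂ r) : Prop :=
  ∃ y : ℕ, (X : ℝ) ^ (1 / 11 : ℝ) ≤ y ∧ y ≤ X ∧ (y : ℝ) / (Real.log X) ^ B < ‖prS ψ y‖

/-- no nonprincipal character modulo `q` is induced by a bad character -/
def GoodQ (B X q : ℕ) : Prop :=
  ∀ χ : DirichletCharacter ℂ q, χ ≠ 1 → ¬ BadC B X χ.primitiveCharacter

/-- `d = r/h`, `h ≤ (log X)^C`, `r` the conductor of a bad character -/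
def ExD (C X d : ℕ) : Prop :=
  ∃ r h : ℕ, d * h = r ∧ (h : ℝ) ≤ (Real.log X) ^ C ∧
    ∃ ψ : DirichletCharacter ℂ r, ψ.IsPrimitive ∧ BadC C X ψ

/-- `∑_{n ≤ X} ww(n) χ(n) e(n x)` -/
noncomputable def Sx (ww : ℕ → ℕ → ℝ) (X : ℕ) {q : ℕ} (χ : DirichletCharacter ℂ q) (x : ℝ) : ℂ :=
  ∑ n ∈ Icc 1 X, ((ww X n : ℝ) : ℂ) * χ (n : ZMod q) * ee ((n : ℝ) * x)

/-- `(L / √X) ‖Sx‖` in `L²(|x| ≤ T/X)` -/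
noncomputable def vN (ww : ℕ → ℕ → ℝ) (X : ℕ) (T : ℝ) {q : ℕ} (χ : DirichletCharacter ℂ q) : ℝ :=
  Real.log X / Real.sqrt X * Real.sqrt (∫ x in (-(T / X))..(T / X), ‖Sx ww X χ x‖ ^ 2)

/-- the Gauss sum -/
noncomputable def gs {q : ℕ} (χ : DirichletCharacter ℂ q) : ℂ :=
  ∑ a ∈ rr q, χ (a : ZMod q) * ee ((a : ℝ) / q)

/-- the sums of `ww` against characters which are not bad are small -/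
def GdB (Bb A B : ℕ) (ww : ℕ → ℕ → ℝ) : Prop := ∃ X0 : ℕ, ∀ X : ℕ, X0 ≤ X → ∀ q : ℕ, 1 ≤ q →
  q ≤ X → ∀ χ : DirichletCharacter ℂ q, χ ≠ 1 → ¬ BadC Bb X χ.primitiveCharacter →
  ∀ x : ℝ, |x| ≤ (Real.log X) ^ B / X → ‖Sx ww X χ x‖ ≤ X / (Real.log X) ^ A

/-! ### Families of moduli -/

/-- the hypotheses on the moduli: `q ≤ L^K1 (q,n)`, small least common multiples, few moduli -/
def Dsk (th e : ℝ) (X n K1 : ℕ) (QQ : Finset ℕ) (N : ℝ) : Prop :=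
  X < 2 * n ∧ n ≤ X ∧ (∀ q ∈ QQ, 1 ≤ q ∧ (q : ℝ) ≤ (Real.log X) ^ K1 * (Nat.gcd q n : ℝ)) ∧
    (∀ q ∈ QQ, ∀ q' ∈ QQ, (Nat.lcm q q' : ℝ) ≤ N) ∧ (QQ.card : ℝ) ≤ (X : ℝ) ^ (e / 2) ∧
    1 ≤ N ∧ N ≤ (X : ℝ) ^ (1 - th + 3 / 2 * e)

/-- (LIGHT) the nonprincipal characters with small norm contribute little to the mass of a narrow
function -/
def LightE : Prop := ∀ A : ℕ, ∃ B : ℕ, ∀ K0 C1 C2 K1 K2 : ℕ, ∀ τ : ℝ, 0 < τ → ∃ A' : ℕ,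
  ∀ th e : ℝ, Adm th e τ → ∀ ww gg : ℕ → ℕ → ℝ, W1 K0 C1 ww gg → DecJ B C2 th e τ ww →
  ∃ X0 : ℕ, ∀ X : ℕ, X0 ≤ X → ∀ (n : ℕ) (QQ : Finset ℕ) (N : ℝ), Dsk th e X n K1 QQ N →
  ∀ Y : (q : ℕ) → Finset (DirichletCharacter ℂ q),
    (∀ q ∈ QQ, ∀ χ ∈ Y q, χ ≠ 1 ∧ vN ww X (4 * (Real.log X) ^ K2) χ ≤ 1 / (Real.log X) ^ A') →
    ∑ q ∈ QQ, ∑ χ ∈ Y q, ‖gs χ‖ ^ 2 / (Nat.totient q : ℝ) *
      (∫ x in (-(4 * (Real.log X) ^ K2 / X))..(4 * (Real.log X) ^ K2 / X), ‖Sx ww X χ x‖ ^ 2) ≤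
      X / (Real.log X) ^ A

/-- (MASS) the mass of `W_-` on the discs, if all nonprincipal characters have small norm -/
def MassE : Prop := ∀ A : ℕ, ∃ B : ℕ, ∀ K0 C1 C2 K1 K2 : ℕ, ∀ τ : ℝ, 0 < τ → ∃ A' : ℕ,
  ∀ th e : ℝ, Adm th e τ → ∀ ww gg : ℕ → ℕ → ℝ, W1 K0 C1 ww gg → DecJ B C2 th e τ ww →
  MajI ww gg → ∃ D0 : ℕ, ∀ D' : ℕ, D0 ≤ D' → ∃ X0 : ℕ, ∀ X : ℕ, X0 ≤ X →
  ∀ (n : ℕ) (QQ : Finset ℕ) (N : ℝ), Dsk th e X n K1 QQ N →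
    (∀ q ∈ QQ, ∀ χ : DirichletCharacter ℂ q, χ ≠ 1 →
      vN ww X (4 * (Real.log X) ^ K2) χ ≤ 1 / (Real.log X) ^ A') →
    ∑ q ∈ QQ, ∑ a ∈ rr q,
      (∫ x in (-(4 * (Real.log X) ^ K2 / X))..(4 * (Real.log X) ^ K2 / X),
        ‖WI ww gg (-1) (wX D' X) X ((a : ℝ) / q + x)‖ ^ 2) ≤
      X / (Real.log X) ^ A

/-! ### The exceptional moduli -/

/-- for given parameters there are few explicit moduli such that the moduli `q` with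
`q ≤ L^K1 (q,n)` have no bad characters if `n` is not divisible by one of them -/
def DSetE : Prop := ∀ Bb K1 : ℕ, ∃ C : ℕ, ∀ K : ℕ, ∃ X0 : ℕ, ∀ X : ℕ, X0 ≤ X → ∀ R : ℝ,
  R ≤ X → ∃ D : Finset ℕ, (D.card : ℝ) ≤ (Real.log X) ^ C ∧
    (∀ d ∈ D, (Real.log X) ^ K ≤ (d : ℝ) ∧ (d : ℝ) ≤ R ∧ ExD C X d) ∧
    ∀ n : ℕ, 1 ≤ n → (∀ d ∈ D, ¬ d ∣ n) → ∀ q : ℕ, 1 ≤ q → (q : ℝ) ≤ R →
      (q : ℝ) ≤ (Real.log X) ^ K1 * (Nat.gcd q n : ℝ) → GoodQ Bb X q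

/-! ### Plug-in -/

/-- the discs with `q ≤ L^K1 (q,n)`, radii `≤ 4 L^K2 / X`: total `≤ R` -/
def GoodE (th e : ℝ) (ww1 gg1 : ℕ → ℕ → ℝ) (s1 : ℝ) (ww2 gg2 : ℕ → ℕ → ℝ) (s2 : ℝ)
    (w X n K1 K2 : ℕ) (R : ℝ) : Prop :=
  ∀ (QQ : Finset ℕ) (N : ℝ) (ρ : ℕ → ℝ), Dsk th e X n K1 QQ N →
    (∀ q ∈ QQ, 0 ≤ ρ q ∧ ρ q ≤ 4 * (Real.log X) ^ K2) →
    ‖∑ q ∈ QQ, dsc (FFL ww1 gg1 s1 ww2 gg2 s2 w X n) X q (ρ q)‖ ≤ R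

/-- PLUG-IN: outside a small set the convolution of `ww1 + s1 gg1 f1` and `ww2 + s2 gg2 f1` is
bounded by the discs with `q ≤ L^K1 (q,n)` -/
def PlugE : Prop := ∀ A : ℕ, ∃ B : ℕ, ∀ K0 C1 C2 : ℕ, ∃ K1 K2 : ℕ, ∀ th e τ : ℝ, Adm th e τ →
  ∀ ww1 gg1 ww2 gg2 : ℕ → ℕ → ℝ, W1 K0 C1 ww1 gg1 → DecW B C2 th e τ ww1 → W1 K0 C1 ww2 gg2 →
  DecJ B C2 th e τ ww2 → ∀ D' : ℕ, 1 ≤ D' → ∃ X0 : ℕ, ∀ X : ℕ, X0 ≤ X → ∀ s1 s2 : ℝ,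
    |s1| ≤ 1 → |s2| ≤ 1 → ∀ R : ℕ → ℝ, ∃ Ex : Finset ℕ, (Ex.card : ℝ) ≤ (X : ℝ) ^ (th - e / 4) ∧
    ∀ n : ℕ, X < 2 * n → n ≤ X → n ∉ Ex →
      GoodE th e ww1 gg1 s1 ww2 gg2 s2 (wX D' X) X n K1 K2 (R n) →
      |cvv (fun m => ww1 X m + s1 * fI gg1 X (wX D' X) m)
        (fun m => ww2 X m + s2 * fI gg2 X (wX D' X) m) n| ≤ X / (Real.log X) ^ A + R n

/-- GEN with explicit moduli -/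
def GenE : Prop := ∀ A : ℕ, ∃ B : ℕ, ∀ K0 C1 C2 : ℕ, ∀ τ : ℝ, 0 < τ → ∃ A' B' : ℕ, ∀ Bb : ℕ,
  ∃ C : ℕ, ∀ th e : ℝ, Adm th e τ → ∀ ww1 gg1 ww2 gg2 : ℕ → ℕ → ℝ, W1 K0 C1 ww1 gg1 →
  DecW B C2 th e τ ww1 → W1 K0 C1 ww2 gg2 → DecJ B C2 th e τ ww2 → MajI ww2 gg2 →
  GdB Bb A' B' ww2 → ∀ s1 : ℝ, |s1| ≤ 1 → ∀ K : ℕ,
  ∃ D0 : ℕ, ∀ D' : ℕ, D0 ≤ D' → ∃ X0 : ℕ, ∀ X : ℕ, X0 ≤ X → ∃ D Ex : Finset ℕ,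
    (D.card : ℝ) ≤ (Real.log X) ^ C ∧
    (∀ d ∈ D, (Real.log X) ^ K ≤ (d : ℝ) ∧ (d : ℝ) ≤ (X : ℝ) ^ (1 - th + 3 * e) ∧ ExD C X d) ∧
    (Ex.card : ℝ) ≤ (X : ℝ) ^ (th - e / 4) ∧
    ∀ n : ℕ, X < 2 * n → n ≤ X → n ∉ Ex → (∀ d ∈ D, ¬ d ∣ n) →
      |cvv (fun m => ww1 X m + s1 * fI gg1 X (wX D' X) m)
        (fun m => ww2 X m - fI gg2 X (wX D' X) m) n| ≤ X / (Real.log X) ^ A

/-- `(P - f_P) * f'` is small for every `n` -/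
def PfE : Prop := ∀ A K0 C1 : ℕ, ∃ D0 : ℕ, ∀ D' : ℕ, D0 ≤ D' → ∀ gg : ℕ → ℕ → ℝ,
  (∃ X1 : ℕ, ∀ X : ℕ, X1 ≤ X → (∀ n, |gg X n| ≤ K0) ∧
    ∑ n ∈ Ico 1 X, |gg X (n + 1) - gg X n| ≤ (Real.log X) ^ C1) →
  ∃ X0 : ℕ, ∀ X : ℕ, X0 ≤ X → ∀ n : ℕ, n ≤ X →
    |cvv (uI wP gP X (wX D' X)) (fI gg X (wX D' X)) n| ≤ X / (Real.log X) ^ A

end Pool.MP_dd84fd_nt.DX
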