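import Pool.Agent.Lib.MP_dd84fd_nt.DX.MsA
import Pool.Agent.Lib.MP_dd84fd_nt.JX.PlT2
import Pool.Agent.Lib.MP_dd84fd_nt.IX.PlMod
import Pool.Agent.Lib.MP_dd84fd_nt.LX.Cen
import Pool.Agent.Lib.MP_dd84fd_nt.HX.DcRg

/-!
# DX-ArF: the nonprincipal part of the model is small

`F = tp X (fI gg X w)`.  By `model_i`: `F = ∑_(d ≤ V0) iw X d (Γ d) + tp X e`, `∑ ‖e‖² ≤ X^(1-η)`; `tp X e`: `ms_ls`,
`np_le`.  Cover `|x| ≤ 4 L^K2 / X` by the centre `|x| ≤ L^(-A0)/X` (`LX.centre_l` for the family `ww = 0`, `s = 1`, `A0` for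
`A + 4`; `np_le`) and by `≤ (A0 + K2 + 2) log log X + 4` pairs of half annuli `[b/X, 2b/X]`, `σ = ±1`, `b ≥ L^(-A0)`, which are
`StdJ` families with `bq = b` (`N b ≤ X^(1-th+3e/2)` fails by a power of `L`: use `e' = e + tiny`, or `N` from `Dsk` with
`Adm th e' τ'`, `e' = 101/100 e`, `τ' = τ` needs `1000 e' ≤ τ`: so apply `t2j_N2` with `e' = e` and `th' = th - e/4`:
`1 - th' + 3/2 e > 1 - th + 3/2 e`, `Adm th' e τ` as `th > 1/8` is open; fix `th'` in terms of `th`, `e` with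
`1/8 < th'`).  On a half annulus
`∑_(d ≤ V0) iw X d (Γ d) (a/q + σx) = T2j + [case A] ∑_(d ≤ V0, q | d) iw X d (Γ d) (σ x)`, the second part does not depend on
`a` (`e(d a / q) = 1`), so its `np` vanishes; `t2j_N2` (with `D = ⌊X^(1/2)⌋₊ + 1`).  `np` of `T2j` is `≤` its mass.
-/

set_option autoImplicit false

namespace Pool.MP_dd84fd_nt.DX

open Finset Pool.MP_67663b_nt.Odd Pool.MP_dd84fd_nt.En Pool.MP_dd84fd_nt.E2 Pool.MP_dd84fd_nt.LS
open Pool.MP_dd84fd_nt.GX Pool.MP_dd84fd_nt.HX Pool.MP_dd84fd_nt.IX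
open Pool.MP_dd84fd_nt.PL (rr tp)
open Pool.MP_dd84fd_nt.JX (Adm)
open Pool.MP_dd84fd_nt.HXP (iw iw_cont BVw)
open Pool.MP_dd84fd_nt.PL (V0 N2 Fam)

private theorem arf_ee_int (m : ℤ) : ee (m : ℝ) = 1 := by
  unfold ee
  have h : (2 * (Real.pi : ℂ) * ((m : ℝ) : ℂ) * Complex.I) = (m : ℂ) * (2 * Real.pi * Complex.I) := by
    push_cast
    ring
  rw [h]
  exact Complex.exp_int_mul_two_pi_mul_I m

private theorem arf_ee_add (x y : ℝ) : ee (x + y) = ee x * ee y := by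
  unfold ee
  rw [← Complex.exp_add]
  congr 1
  push_cast
  ring

private theorem arf_tp_cont (K : ℕ) (c : ℕ → ℂ) : Continuous (tp K c) := by
  unfold tp
  refine continuous_finsetSum _ fun k _ => ?_
  have h : Continuous ee := by
    unfold ee
    fun_prop
  exact continuous_const.mul (h.comp (continuous_const.mul continuous_id))

/-- on the multiples of `q` the sum does not see the fraction -/
private theorem arf_dvd (X d q a : ℕ) (γ : ℕ → ℝ) (y : ℝ) (hq : 1 ≤ q) (hdv : q ∣ d) :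
    iw X d γ ((a : ℝ) / q + y) = iw X d γ y := by
  have hq0 : (q : ℝ) ≠ 0 := by
    have : (0 : ℝ) < q := by exact_mod_cast hq
    exact this.ne'
  obtain ⟨e, rfl⟩ := hdv
  unfold iw
  refine sum_congr rfl fun k _ => ?_
  congr 1
  have h1 : (((q * e * k : ℕ) : ℝ)) * ((a : ℝ) / q + y) =
      ((q * e * k : ℕ) : ℝ) * y + (((e * k * a : ℕ) : ℤ) : ℝ) := by
    push_cast
    field_simp
    ring
  rw [h1, arf_ee_add, arf_ee_int, mul_one]

/-- the type I part of the model -/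
private noncomputable def Sg (X : ℕ) (γ : ℕ → ℕ → ℝ) (θ : ℝ) : ℂ := ∑ d ∈ Icc 1 (V0 X), iw X d (γ d) θ

private theorem arf_Sg_cont (X : ℕ) (γ : ℕ → ℕ → ℝ) : Continuous (Sg X γ) := by
  unfold Sg
  exact continuous_finsetSum _ fun d _ => iw_cont X d (γ d)

private theorem arf_card (q : ℕ) : (rr q).card = Nat.totient q := by
  unfold rr
  rw [Nat.totient_eq_card_coprime]
  congr 1
  refine Finset.filter_congr fun a _ => ?_
  exact Nat.coprime_comm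

/-- the variance is at most the second moment -/
private theorem arf_var (q : ℕ) (hq : 1 ≤ q) (u : ℕ → ℂ) :
    ∑ a ∈ rr q, ‖u a - mnR q u‖ ^ 2 ≤ ∑ a ∈ rr q, ‖u a‖ ^ 2 := by
  have hφ : 0 < Nat.totient q := Nat.totient_pos.2 hq
  have hφ' : (Nat.totient q : ℂ) ≠ 0 := by exact_mod_cast hφ.ne'
  set m := mnR q u with hm
  have h1 : ∑ a ∈ rr q, u a = (Nat.totient q : ℂ) * m := by
    rw [hm, mnR, ← mul_assoc, mul_one_div_cancel hφ', one_mul]
  have h2 : ∀ a, ‖u a - m‖ ^ 2 = ‖u a‖ ^ 2 - 2 * inner ℝ (u a) m + ‖m‖ ^ 2 := fun a =>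
    norm_sub_sq_real (u a) m
  simp_rw [h2]
  rw [sum_add_distrib, sum_sub_distrib, ← mul_sum, ← sum_inner, h1, sum_const, arf_card, nsmul_eq_mul]
  have h3 : inner ℝ ((Nat.totient q : ℂ) * m) m = (Nat.totient q : ℝ) * ‖m‖ ^ 2 := by
    have h4 : (Nat.totient q : ℂ) * m = (Nat.totient q : ℝ) • m := by
      rw [Complex.real_smul]
      push_cast
      rfl
    rw [h4, real_inner_smul_left, real_inner_self_eq_norm_sq]
  rw [h3]
  have h4 : 0 ≤ (Nat.totient q : ℝ) * ‖m‖ ^ 2 := by positivity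
  linarith

private theorem arf_mn_add (q : ℕ) (hq : 1 ≤ q) (u : ℕ → ℂ) (r : ℂ) :
    mnR q (fun a => u a + r) = mnR q u + r := by
  have hφ : 0 < Nat.totient q := Nat.totient_pos.2 hq
  have hφ' : (Nat.totient q : ℂ) ≠ 0 := by exact_mod_cast hφ.ne'
  unfold mnR
  rw [sum_add_distrib, sum_const, arf_card, nsmul_eq_mul, mul_add, ← mul_assoc (1 / (Nat.totient q : ℂ)),
    one_div_mul_cancel hφ', one_mul]

/-- the half annulus -/
private theorem arf_ann (X D : ℕ) (hX : 1 ≤ X) (b : ℝ) (hb : 0 < b) (γ : ℕ → ℕ → ℝ) (σ : ℝ)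
    (QQ : Finset ℕ) (hQ : ∀ q ∈ QQ, 1 ≤ q) :
    ∑ q ∈ QQ, ∑ a ∈ rr q, ∫ x in (b / X)..(2 * b / X),
      ‖Sg X γ ((a : ℝ) / q + σ * x) - mnR q (fun a' => Sg X γ ((a' : ℝ) / q + σ * x))‖ ^ 2 ≤
      N2 X (fun _ => b) QQ (JXP.T2j X D b γ σ) := by
  classical
  unfold N2
  refine sum_le_sum fun q hq => ?_
  have hq1 := hQ q hq
  have hXp : (0 : ℝ) < X := by exact_mod_cast hX
  have hle : b / X ≤ 2 * b / X := by
    gcongr
    linarith
  -- the decomposition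
  have hdec : ∀ (a : ℕ) (x : ℝ), Sg X γ ((a : ℝ) / q + σ * x) = JXP.T2j X D b γ σ q a x +
      ∑ d ∈ (Icc 1 (V0 X)).filter (fun d => ¬ (JXP.cA X D b q → ¬ q ∣ d)), iw X d (γ d) (σ * x) := by
    intro a x
    unfold Sg JXP.T2j
    rw [← sum_filter_add_sum_filter_not (Icc 1 (V0 X)) (fun d => JXP.cA X D b q → ¬ q ∣ d)]
    congr 1
    refine sum_congr rfl fun d hd => ?_
    rw [mem_filter] at hd
    have h1 : q ∣ d := by
      by_contra h
      exact hd.2 fun _ => h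
    exact arf_dvd X d q a (γ d) (σ * x) hq1 h1
  have hc1 : ∀ a : ℕ, Continuous fun x : ℝ => Sg X γ ((a : ℝ) / q + σ * x) := fun a =>
    (arf_Sg_cont X γ).comp (by fun_prop)
  have hc2 : Continuous fun x : ℝ => mnR q (fun a' => Sg X γ ((a' : ℝ) / q + σ * x)) := by
    unfold mnR
    exact continuous_const.mul (continuous_finsetSum _ fun a _ => hc1 a)
  rw [← intervalIntegral.integral_finsetSum, ← intervalIntegral.integral_finsetSum]
  · refine intervalIntegral.integral_mono_on hle ?_ ?_ fun x _ => ?_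
    · exact (continuous_finsetSum _ fun a _ => ((hc1 a).sub hc2).norm.pow 2).intervalIntegrable _ _
    · exact (continuous_finsetSum _ fun a _ =>
        (JXP.t2j_cont X D b γ σ q a).norm.pow 2).intervalIntegrable _ _
    · set r := ∑ d ∈ (Icc 1 (V0 X)).filter (fun d => ¬ (JXP.cA X D b q → ¬ q ∣ d)),
        iw X d (γ d) (σ * x) with hr
      have h1 : (fun a' : ℕ => Sg X γ ((a' : ℝ) / q + σ * x)) =
          fun a' : ℕ => JXP.T2j X D b γ σ q a' x + r := by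
        funext a'
        exact hdec a' x
      rw [h1, arf_mn_add q hq1 (fun a => JXP.T2j X D b γ σ q a x) r]
      refine le_trans (le_of_eq ?_) (arf_var q hq1 fun a => JXP.T2j X D b γ σ q a x)
      refine sum_congr rfl fun a _ => ?_
      rw [hdec a x, add_sub_add_right_eq_sub]
  · intro a _
    exact ((JXP.t2j_cont X D b γ σ q a).norm.pow 2).intervalIntegrable _ _
  · intro a _
    exact (((hc1 a).sub hc2).norm.pow 2).intervalIntegrable _ _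

/-- covering of an interval by dyadic half annuli -/
private theorem arf_cover (f : ℝ → ℝ) (hf : Continuous f) (h0 : ∀ x, 0 ≤ f x) (X : ℕ) (hX : 1 ≤ X)
    (T0 T : ℝ) (hT : 0 ≤ T) (I : ℕ) (hI : T ≤ T0 * 2 ^ I) :
    ∫ x in (-(T / X))..(T / X), f x ≤ (∫ x in (-(T0 / X))..(T0 / X), f x) +
      ∑ i ∈ range I, ((∫ x in (T0 * 2 ^ i / X)..(2 * (T0 * 2 ^ i) / X), f (1 * x)) +
        ∫ x in (T0 * 2 ^ i / X)..(2 * (T0 * 2 ^ i) / X), f (-1 * x)) := by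
  have hXp : (0 : ℝ) < X := by exact_mod_cast hX
  have hi : ∀ a b : ℝ, IntervalIntegrable f MeasureTheory.volume a b := fun a b =>
    hf.intervalIntegrable a b
  have h1 : ∫ x in (-(T / X))..(T / X), f x ≤ ∫ x in (-(T0 * 2 ^ I / X))..(T0 * 2 ^ I / X), f x := by
    have h2 : T / X ≤ T0 * 2 ^ I / X := by gcongr
    have h3 : 0 ≤ T / X := by positivity
    exact intervalIntegral.integral_mono_interval (by linarith) (by linarith) h2
      (Filter.Eventually.of_forall h0) (hi _ _)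
  refine h1.trans (le_of_eq ?_)
  clear h1 hI
  induction I with
  | zero => simp
  | succ I ih =>
    rw [sum_range_succ, ← add_assoc, ← ih]
    have e1 : T0 * 2 ^ (I + 1) / X = 2 * (T0 * 2 ^ I) / X := by
      rw [pow_succ]
      ring
    have e2 : ∫ x in (T0 * 2 ^ I / X)..(2 * (T0 * 2 ^ I) / X), f (-1 * x) =
        ∫ x in (-(2 * (T0 * 2 ^ I) / X))..(-(T0 * 2 ^ I / X)), f x := by
      rw [← intervalIntegral.integral_comp_neg (fun x => f x)]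
      refine intervalIntegral.integral_congr fun x _ => ?_
      simp only [neg_mul, one_mul]
    rw [e1, e2]
    simp only [one_mul]
    rw [← intervalIntegral.integral_add_adjacent_intervals (hi (-(2 * (T0 * 2 ^ I) / X))
      (-(T0 * 2 ^ I / X))) (hi (-(T0 * 2 ^ I / X)) (2 * (T0 * 2 ^ I) / X)),
      ← intervalIntegral.integral_add_adjacent_intervals (hi (-(T0 * 2 ^ I / X))
      (T0 * 2 ^ I / X)) (hi (T0 * 2 ^ I / X) (2 * (T0 * 2 ^ I) / X))]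
    ring

/-- `npM` of the type I part: centre and half annuli -/
private theorem arf_np (X : ℕ) (hX : 1 ≤ X) (γ : ℕ → ℕ → ℝ) (QQ : Finset ℕ) (hQ : ∀ q ∈ QQ, 1 ≤ q)
    (T0 T : ℝ) (hT0 : 0 < T0) (hT : 0 ≤ T) (I D : ℕ) (hI : T ≤ T0 * 2 ^ I) (R : ℝ)
    (hR : ∀ i ∈ range I, ∀ σ : ℝ, (σ = 1 ∨ σ = -1) →
      N2 X (fun _ => T0 * 2 ^ i) QQ (JXP.T2j X D (T0 * 2 ^ i) γ σ) ≤ R) :
    npM X T QQ (Sg X γ) ≤ npM X T0 QQ (Sg X γ) + 2 * I * R := by
  have hc1 : ∀ (q a : ℕ), Continuous fun x : ℝ => Sg X γ ((a : ℝ) / q + x) := fun q a =>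
    (arf_Sg_cont X γ).comp (by fun_prop)
  have hc2 : ∀ q : ℕ, Continuous fun x : ℝ => mnR q (fun a' => Sg X γ ((a' : ℝ) / q + x)) := by
    intro q
    unfold mnR
    exact continuous_const.mul (continuous_finsetSum _ fun a _ => hc1 q a)
  set f : ℕ → ℕ → ℝ → ℝ := fun q a x =>
    ‖Sg X γ ((a : ℝ) / q + x) - mnR q (fun a' => Sg X γ ((a' : ℝ) / q + x))‖ ^ 2 with hf
  have hfc : ∀ q a, Continuous (f q a) := fun q a => ((hc1 q a).sub (hc2 q)).norm.pow 2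
  have h1 : npM X T QQ (Sg X γ) ≤ ∑ q ∈ QQ, ∑ a ∈ rr q, ((∫ x in (-(T0 / X))..(T0 / X), f q a x) +
      ∑ i ∈ range I, ((∫ x in (T0 * 2 ^ i / X)..(2 * (T0 * 2 ^ i) / X), f q a (1 * x)) +
        ∫ x in (T0 * 2 ^ i / X)..(2 * (T0 * 2 ^ i) / X), f q a (-1 * x))) := by
    unfold npM
    refine sum_le_sum fun q _ => sum_le_sum fun a _ => ?_
    exact arf_cover (f q a) (hfc q a) (fun x => sq_nonneg _) X hX T0 T hT I hI
  refine h1.trans ?_
  simp_rw [sum_add_distrib]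
  refine add_le_add le_rfl ?_
  have h2 : ∀ σ : ℝ, (σ = 1 ∨ σ = -1) → ∑ q ∈ QQ, ∑ a ∈ rr q, ∑ i ∈ range I,
      ∫ x in (T0 * 2 ^ i / X)..(2 * (T0 * 2 ^ i) / X), f q a (σ * x) ≤ I * R := by
    intro σ hσ
    have e1 : ∑ q ∈ QQ, ∑ a ∈ rr q, ∑ i ∈ range I,
        ∫ x in (T0 * 2 ^ i / X)..(2 * (T0 * 2 ^ i) / X), f q a (σ * x) =
        ∑ i ∈ range I, ∑ q ∈ QQ, ∑ a ∈ rr q,
        ∫ x in (T0 * 2 ^ i / X)..(2 * (T0 * 2 ^ i) / X), f q a (σ * x) := by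
      rw [sum_congr rfl fun q _ => sum_comm]
      rw [sum_comm]
    rw [e1]
    have h3 : ∀ i ∈ range I, ∑ q ∈ QQ, ∑ a ∈ rr q,
        ∫ x in (T0 * 2 ^ i / X)..(2 * (T0 * 2 ^ i) / X), f q a (σ * x) ≤ R := fun i hi =>
      (arf_ann X D hX (T0 * 2 ^ i) (by positivity) γ σ QQ hQ).trans (hR i hi σ hσ)
    refine (sum_le_sum h3).trans (le_of_eq ?_)
    rw [sum_const, card_range, nsmul_eq_mul]
  have h3 := h2 1 (Or.inl rfl)
  have h4 := h2 (-1) (Or.inr rfl)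
  linarith

theorem ar_f (A K0 C1 K1 K2 : ℕ) (th e τ : ℝ) (hA : Adm th e τ) (ww gg : ℕ → ℕ → ℝ)
    (hw : W1 K0 C1 ww gg) (D' : ℕ) (hD : 1 ≤ D') : ∃ X0 : ℕ, ∀ X : ℕ, X0 ≤ X →
    ∀ (n : ℕ) (QQ : Finset ℕ) (N : ℝ), Dsk th e X n K1 QQ N →
    npM X (4 * (Real.log X) ^ K2) QQ (tp X (fun k => (fI gg X (wX D' X) k : ℂ))) ≤
      X / (Real.log X) ^ A := by
  obtain ⟨ht1, ht2, he0, hτ, het⟩ := id hA
  have hA' : Adm ((th + 1 / 8) / 2) e τ := ⟨by linarith, by linarith, he0, hτ, het⟩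
  obtain ⟨η, hη, X1, hm⟩ := IXP.model_i K0 C1 ww gg hw D' hD
  obtain ⟨A0, hcen⟩ := LX.centre_l (A + 4)
  have hw0 : W1 K0 C1 (fun _ _ => 0) gg := by
    obtain ⟨X0, h⟩ := hw
    refine ⟨X0, fun X hX => ⟨fun n => ⟨?_, ((h X hX).1 n).2⟩, (h X hX).2⟩⟩
    rw [abs_zero]
    exact mul_nonneg (Nat.cast_nonneg _) (rg_nonneg _ _).1
  obtain ⟨X2, hc⟩ := hcen K0 C1 _ gg hw0 D' hD
  obtain ⟨X3, ht2j⟩ := JXP.t2j_N2 ((th + 1 / 8) / 2) e τ A0 (C1 + 2) hA'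
  obtain ⟨X4, hX4⟩ := MP_log_large 2
  obtain ⟨X5, hX5⟩ := MP_log_pow 4 K2 (ε := (th - 1 / 8) / 2) (by linarith)
  obtain ⟨X6, hX6⟩ := MP_log_pow 64 (K2 + A0 + A) (ε := 5 * e) (by linarith)
  obtain ⟨X7, hX7⟩ := MP_log_pow 72 A hη
  obtain ⟨X8, hX8⟩ := MP_log_pow 4 K2 (ε := 1 / 10) (by norm_num)
  refine ⟨max (max (max X1 X2) (max X3 X4)) (max (max X5 X6) (max (max X7 X8) 2)), ?_⟩
  intro X hX n QQ N hDs
  simp only [max_le_iff] at hX
  obtain ⟨⟨⟨g1, g2⟩, ⟨g3, g4⟩⟩, ⟨⟨g5, g6⟩, ⟨⟨g7, g8⟩, g9⟩⟩⟩ := hX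
  obtain ⟨hn1, hn2, hq, hl, hcard, hN1, hN⟩ := hDs
  obtain ⟨Γ, e', hΓ, he', hF⟩ := hm X g1
  have k4 := hX4 X g4
  have k5 := hX5 X g5
  have k6 := hX6 X g6
  have k7 := hX7 X g7
  have k8 := hX8 X g8
  have hX1 : 1 ≤ X := by omega
  have hXp : (0 : ℝ) < X := by exact_mod_cast hX1
  have hX1R : (1 : ℝ) ≤ X := by exact_mod_cast hX1
  set L := Real.log (X : ℝ) with hLd
  have hL0 : 0 < L := by linarith
  have hL1 : 1 ≤ L := by linarith
  have hQ : ∀ q ∈ QQ, 1 ≤ q := fun q hq' => (hq q hq').1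
  have hFam : Fam QQ N := ⟨hQ, hl⟩
  -- exponents
  have hNX : N ≤ X := by
    refine hN.trans ?_
    calc (X : ℝ) ^ (1 - th + 3 / 2 * e) ≤ (X : ℝ) ^ (1 : ℝ) :=
          Real.rpow_le_rpow_of_exponent_le hX1R (by linarith)
      _ = X := Real.rpow_one _
  have hTN : 4 * L ^ K2 * N / X ≤ 1 := by
    rw [div_le_one hXp]
    calc 4 * L ^ K2 * N ≤ (X : ℝ) ^ (1 / 10 : ℝ) * (X : ℝ) ^ (1 - th + 3 / 2 * e) :=
          mul_le_mul k8 hN (by linarith) (by positivity)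
      _ = (X : ℝ) ^ (1 / 10 + (1 - th + 3 / 2 * e)) := (Real.rpow_add hXp _ _).symm
      _ ≤ (X : ℝ) ^ (1 : ℝ) := Real.rpow_le_rpow_of_exponent_le hX1R (by linarith)
      _ = X := Real.rpow_one _
  set T0 : ℝ := 1 / L ^ A0 with hT0d
  have hT0 : 0 < T0 := by positivity
  have hT01 : T0 ≤ 1 := by
    rw [hT0d, div_le_one (by positivity)]
    exact one_le_pow₀ hL1
  have hT : 0 ≤ 4 * L ^ K2 := by positivity
  have hK21 : 1 ≤ L ^ K2 := one_le_pow₀ hL1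
  have hT0T : T0 ≤ 4 * L ^ K2 := by linarith
  have hXη : (X : ℝ) ^ (1 - η) = X / (X : ℝ) ^ η := by
    rw [Real.rpow_sub hXp, Real.rpow_one]
  have hXe : (X : ℝ) ^ (1 - 5 * e) = X / (X : ℝ) ^ (5 * e) := by
    rw [Real.rpow_sub hXp, Real.rpow_one]
  -- the error term
  have hmsE : ∀ (T : ℝ) (c : ℕ → ℂ), 0 ≤ T → T ≤ 4 * L ^ K2 → (∀ k, ‖c k‖ = ‖e' k‖) →
      msM X T QQ (tp X c) ≤ 3 * (X : ℝ) ^ (1 - η) := by
    intro T c hT0' hTT hce
    refine (ms_ls X T N hT0' QQ hFam hN1 c).trans ?_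
    have h1 : ∑ k ∈ Icc 1 X, ‖c k‖ ^ 2 = ∑ k ∈ Icc 1 X, ‖e' k‖ ^ 2 :=
      sum_congr rfl fun k _ => by rw [hce k]
    rw [h1]
    have h2 : 2 * T * N / X + 1 ≤ 3 := by
      have h3 : T * N / X ≤ 4 * L ^ K2 * N / X := by gcongr
      have h4 : 2 * T * N / X = 2 * (T * N / X) := by ring
      rw [h4]
      linarith
    exact mul_le_mul h2 he' (sum_nonneg fun _ _ => by positivity) (by norm_num)
  have hFe : (tp X fun k => (fI gg X (wX D' X) k : ℂ)) = fun θ => Sg X Γ θ + tp X e' θ := by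
    funext θ
    exact hF θ
  -- the centre
  have hcen1 : msM X T0 QQ (tp X fun k => (fI gg X (wX D' X) k : ℂ)) ≤ X / L ^ (A + 4) := by
    have h1 := hc X g2 1 (by norm_num) QQ N hQ hl hNX
    refine le_trans (le_of_eq ?_) h1
    unfold msM
    refine sum_congr rfl fun q _ => sum_congr rfl fun a _ => ?_
    rw [neg_div, ← hLd, ← hT0d]
    refine intervalIntegral.integral_congr fun x _ => ?_
    congr 2
    unfold tp WI
    refine sum_congr rfl fun k _ => ?_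
    change ((fI gg X (wX D' X) k : ℝ) : ℂ) * ee ((k : ℝ) * ((a : ℝ) / q + x)) =
      ((0 + 1 * fI gg X (wX D' X) k : ℝ) : ℂ) * ee ((k : ℝ) * ((a : ℝ) / q + x))
    rw [zero_add, one_mul]
  have hcen2 : npM X T0 QQ (Sg X Γ) ≤ 2 * (X / L ^ (A + 4)) + 2 * (3 * (X : ℝ) ^ (1 - η)) := by
    refine (np_le X T0 hT0.le QQ hQ (Sg X Γ) (arf_Sg_cont X Γ)).trans ?_
    have e1 : Sg X Γ = fun θ => tp X (fun k => (fI gg X (wX D' X) k : ℂ)) θ +
        tp X (fun k => -e' k) θ := by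
      funext θ
      rw [hF θ]
      have : tp X (fun k => -e' k) θ = -tp X e' θ := by
        unfold tp
        rw [← sum_neg_distrib]
        refine sum_congr rfl fun k _ => ?_
        rw [neg_mul]
      rw [this]
      unfold Sg
      ring
    rw [e1]
    refine (ms_add X T0 hT0.le QQ _ _ (arf_tp_cont _ _) (arf_tp_cont _ _)).trans ?_
    have h1 := hmsE T0 (fun k => -e' k) hT0.le hT0T fun k => norm_neg _
    linarith
  -- the number of annuli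
  have hx1 : 1 ≤ 4 * L ^ (K2 + A0) := by
    have : 1 ≤ L ^ (K2 + A0) := one_le_pow₀ hL1
    linarith
  obtain ⟨k, hk1, hk2⟩ := exists_nat_pow_near hx1 one_lt_two
  have hTx : T0 * (4 * L ^ (K2 + A0)) = 4 * L ^ K2 := by
    rw [hT0d, pow_add]
    field_simp
  have hI : 4 * L ^ K2 ≤ T0 * 2 ^ (k + 1) := by
    rw [← hTx]
    exact mul_le_mul_of_nonneg_left hk2.le hT0.le
  have hkI : ((k + 1 : ℕ) : ℝ) ≤ 4 * L ^ (K2 + A0) := by
    refine le_trans ?_ hk1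
    have : k + 1 ≤ 2 ^ k := Nat.lt_two_pow_self
    exact_mod_cast this
  have hR : ∀ i ∈ range (k + 1), ∀ σ : ℝ, (σ = 1 ∨ σ = -1) →
      N2 X (fun _ => T0 * 2 ^ i) QQ (JXP.T2j X ⌈(X : ℝ) ^ (1 / 2 : ℝ)⌉₊ (T0 * 2 ^ i) Γ σ) ≤
        (X : ℝ) ^ (1 - 5 * e) := by
    intro i hi σ hσ
    have hik : i ≤ k := Nat.lt_succ_iff.1 (mem_range.1 hi)
    have hb0 : 0 < T0 * 2 ^ i := by positivity
    have hb1 : T0 * 2 ^ i ≤ 4 * L ^ K2 := by
      rw [← hTx]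
      refine mul_le_mul_of_nonneg_left (le_trans ?_ hk1) hT0.le
      exact pow_le_pow_right₀ one_le_two hik
    have hb2 : T0 ≤ T0 * 2 ^ i := le_mul_of_one_le_right hT0.le (one_le_pow₀ one_le_two)
    have hstd : JXP.StdJ X n ((th + 1 / 8) / 2) e A0 (T0 * 2 ^ i) N σ QQ (fun _ => T0 * 2 ^ i) := by
      refine ⟨hn1, hn2, hσ, ?_, hN1, ?_, hFam, hcard, fun q _ => ⟨le_rfl, by linarith⟩⟩
      · rw [Real.rpow_neg hL0.le, Real.rpow_natCast]
        refine le_trans (le_of_eq ?_) hb2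
        rw [hT0d, one_div]
      · calc N * (T0 * 2 ^ i) ≤ (X : ℝ) ^ (1 - th + 3 / 2 * e) * (X : ℝ) ^ ((th - 1 / 8) / 2) :=
              mul_le_mul hN (hb1.trans k5) hb0.le (by positivity)
          _ = (X : ℝ) ^ (1 - th + 3 / 2 * e + (th - 1 / 8) / 2) := (Real.rpow_add hXp _ _).symm
          _ ≤ _ := Real.rpow_le_rpow_of_exponent_le hX1R (by linarith)
    have hDZ : ((⌈(X : ℝ) ^ (1 / 2 : ℝ)⌉₊ : ℕ) : ℝ) ≤ JX.ZJ ((th + 1 / 8) / 2) e X := by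
      have h1 := (Nat.ceil_lt_add_one (show 0 ≤ (X : ℝ) ^ (1 / 2 : ℝ) by positivity)).le
      have h2 : (1 : ℝ) ≤ (X : ℝ) ^ (1 / 2 : ℝ) := Real.one_le_rpow hX1R (by norm_num)
      have h3 : (X : ℝ) ^ (1 / 2 : ℝ) ≤ (X : ℝ) ^ (JX.lv ((th + 1 / 8) / 2) e) := by
        refine Real.rpow_le_rpow_of_exponent_le hX1R ?_
        unfold JX.lv
        exact le_min (by linarith) (by linarith)
      unfold JX.ZJ
      linarith
    exact ht2j X g3 n (T0 * 2 ^ i) N σ QQ (fun _ => T0 * 2 ^ i) hstd _ Γ hDZ (Nat.le_ceil _) hΓ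
  have hS := arf_np X hX1 Γ QQ hQ T0 (4 * L ^ K2) hT0 hT (k + 1) _ hI _ hR
  rw [hFe]
  refine ((np_sub X (4 * L ^ K2) hT QQ (Sg X Γ) (tp X e') (arf_Sg_cont X Γ)
    (arf_tp_cont X e')).2).trans ?_
  have hE1 := (np_le X (4 * L ^ K2) hT QQ hQ (tp X e') (arf_tp_cont X e')).trans
    (hmsE (4 * L ^ K2) e' hT le_rfl fun k => rfl)
  -- the final inequality
  have hLA : 0 < L ^ A := by positivity
  have f1 : 4 * (X / L ^ (A + 4)) ≤ X / L ^ A / 4 := by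
    have h1 : (16 : ℝ) ≤ L ^ 4 := by
      calc (16 : ℝ) = 2 ^ 4 := by norm_num
        _ ≤ L ^ 4 := pow_le_pow_left₀ (by norm_num) k4 4
    have h2 : X / L ^ (A + 4) = X / L ^ A / L ^ 4 := by
      rw [pow_add, div_div]
    rw [h2]
    have h3 : 0 ≤ X / L ^ A := by positivity
    rw [← mul_div_assoc, div_le_div_iff₀ (by positivity) (by norm_num)]
    nlinarith
  have f2 : 18 * (X : ℝ) ^ (1 - η) ≤ X / L ^ A / 4 := by
    rw [hXη, div_div, ← mul_div_assoc, div_le_div_iff₀ (by positivity) (by positivity)]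
    have h1 : (X : ℝ) * (72 * L ^ A) ≤ X * (X : ℝ) ^ η := mul_le_mul_of_nonneg_left k7 hXp.le
    linarith
  have f3 : 4 * ((k + 1 : ℕ) : ℝ) * (X : ℝ) ^ (1 - 5 * e) ≤ X / L ^ A / 4 := by
    have h0 : 4 * ((k + 1 : ℕ) : ℝ) * (X : ℝ) ^ (1 - 5 * e) ≤
        4 * (4 * L ^ (K2 + A0)) * (X : ℝ) ^ (1 - 5 * e) := by gcongr
    refine h0.trans ?_
    rw [hXe, div_div, ← mul_div_assoc, div_le_div_iff₀ (by positivity) (by positivity)]
    have h1 : (X : ℝ) * (64 * L ^ (K2 + A0 + A)) ≤ X * (X : ℝ) ^ (5 * e) :=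
      mul_le_mul_of_nonneg_left k6 hXp.le
    rw [pow_add] at h1
    linarith
  have f4 : 0 ≤ X / L ^ A := by positivity
  linarith

end Pool.MP_dd84fd_nt.DX
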