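import Pool.Agent.Lib.MP_dd84fd_nt.DX.MsDefs
import Pool.Agent.Lib.BV.DivMom

/-!
# DX-QS: the moduli with a prime factor larger than `w`

`w = wX D' X`, `L^D' - 1 < w ≤ L^D'`.  Let `p > w` be a prime factor of `q`, `h = q/(q,n) ≤ L^K1 < w`: `p ∤ h`, so `p | n`; `n ≤ X` has
at most `2 L` prime factors.  For fixed `p`, `q = p q1`: `τ(q) ≤ 2 τ(q1)`, `φ(q) ≥ (p-1) φ(q1)`, hence the sum over these `q` is
at most `4/(p-1)` times the sum over all `q1 ≤ X`, which is at most `L^C` (`q1/φ(q1) ≤ τ(q1)` and `Pool.BV.div_mom`).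
-/

set_option autoImplicit false

namespace Pool.MP_dd84fd_nt.DX

open Finset Pool.MP_67663b_nt.Odd Pool.MP_dd84fd_nt.En Pool.MP_dd84fd_nt.E2 Pool.MP_dd84fd_nt.LS
open Pool.MP_dd84fd_nt.GX Pool.MP_dd84fd_nt.HX Pool.MP_dd84fd_nt.IX

private theorem QS_logbig (K : ℝ) : ∃ X0 : ℕ, ∀ X : ℕ, X0 ≤ X → K ≤ Real.log (X : ℝ) := by
  have h : Filter.Tendsto (fun n : ℕ => Real.log (n : ℝ)) Filter.atTop Filter.atTop :=
    Real.tendsto_log_atTop.comp tendsto_natCast_atTop_atTop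
  exact Filter.eventually_atTop.1 (h.eventually_ge_atTop K)

private theorem QS_tau (r : ℕ) : r ≤ r.divisors.card * Nat.totient r := by
  rcases Nat.eq_zero_or_pos r with h | h
  · subst h; simp
  calc r = ∑ d ∈ r.divisors, Nat.totient d := (Nat.sum_totient r).symm
    _ ≤ ∑ d ∈ r.divisors, Nat.totient r := by
        refine Finset.sum_le_sum ?_
        intro d hd
        exact Nat.le_of_dvd (Nat.totient_pos.2 h) (Nat.totient_dvd_of_dvd (Nat.dvd_of_mem_divisors hd))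
    _ = r.divisors.card * Nat.totient r := by rw [Finset.sum_const, smul_eq_mul]

private theorem QS_F (q : ℕ) (hq : 1 ≤ q) :
    (q.divisors.card : ℝ) ^ 2 / (Nat.totient q : ℝ) ≤ (q.divisors.card : ℝ) ^ 3 / q := by
  have h1 : (0 : ℝ) < Nat.totient q := by exact_mod_cast Nat.totient_pos.2 hq
  have h2 : (0 : ℝ) < q := by exact_mod_cast hq
  have h3 : (q : ℝ) ≤ (q.divisors.card : ℝ) * Nat.totient q := by exact_mod_cast QS_tau q
  rw [div_le_div_iff₀ h1 h2]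
  calc (q.divisors.card : ℝ) ^ 2 * q ≤ (q.divisors.card : ℝ) ^ 2 *
        ((q.divisors.card : ℝ) * Nat.totient q) := mul_le_mul_of_nonneg_left h3 (by positivity)
    _ = (q.divisors.card : ℝ) ^ 3 * Nat.totient q := by ring

/-- the sum over all moduli -/
private theorem QS_sum : ∃ C : ℕ, ∀ X : ℕ, 2 ≤ Real.log (X : ℝ) →
    ∑ q ∈ Icc 1 X, (q.divisors.card : ℝ) ^ 2 / (Nat.totient q : ℝ) ≤ (Real.log X) ^ C := by
  obtain ⟨C, hC⟩ := Pool.BV.div_mom 3
  refine ⟨2 * C, fun X hX => ?_⟩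
  have hX1 : 1 ≤ X := by
    by_contra h
    have : X = 0 := by omega
    subst this
    simp at hX
    linarith
  calc ∑ q ∈ Icc 1 X, (q.divisors.card : ℝ) ^ 2 / (Nat.totient q : ℝ)
      ≤ ∑ q ∈ Icc 1 X, (q.divisors.card : ℝ) ^ 3 / q :=
        Finset.sum_le_sum fun q hq => QS_F q (Finset.mem_Icc.1 hq).1
    _ ≤ (1 + Real.log X) ^ C := (hC X hX1).2
    _ ≤ ((Real.log X) ^ 2) ^ C := pow_le_pow_left₀ (by linarith) (by nlinarith) C
    _ = (Real.log X) ^ (2 * C) := by rw [← pow_mul]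

private theorem QS_mul (p q : ℕ) (hp : p.Prime) (hq : 1 ≤ q) :
    (((p * q).divisors.card : ℕ) : ℝ) ^ 2 / (Nat.totient (p * q) : ℝ) ≤
      4 / ((p : ℝ) - 1) * ((q.divisors.card : ℝ) ^ 2 / (Nat.totient q : ℝ)) := by
  have h1 : (0 : ℝ) < Nat.totient q := by exact_mod_cast Nat.totient_pos.2 hq
  have hp2 : (2 : ℝ) ≤ p := by exact_mod_cast hp.two_le
  have h2 : ((p : ℝ) - 1) * Nat.totient q ≤ (Nat.totient (p * q) : ℝ) := by
    have h3 := Nat.totient_super_multiplicative p q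
    rw [Nat.totient_prime hp] at h3
    have h4 : (((p - 1) * Nat.totient q : ℕ) : ℝ) ≤ (Nat.totient (p * q) : ℝ) := by exact_mod_cast h3
    rwa [Nat.cast_mul, Nat.cast_sub hp.one_lt.le, Nat.cast_one] at h4
  have h3 : (((p * q).divisors.card : ℕ) : ℝ) ≤ 2 * (q.divisors.card : ℝ) := by
    have h4 : (p * q).divisors.card ≤ p.divisors.card * q.divisors.card := by
      rw [Nat.divisors_mul]
      exact Finset.card_mul_le
    have h5 : p.divisors.card = 2 := by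
      rw [hp.divisors, Finset.card_pair hp.one_lt.ne]
    rw [h5] at h4
    exact_mod_cast h4
  have h4 : (0 : ℝ) < (p : ℝ) - 1 := by linarith
  have h5 : 0 < ((p : ℝ) - 1) * Nat.totient q := mul_pos h4 h1
  calc (((p * q).divisors.card : ℕ) : ℝ) ^ 2 / (Nat.totient (p * q) : ℝ)
      ≤ (2 * (q.divisors.card : ℝ)) ^ 2 / (((p : ℝ) - 1) * Nat.totient q) :=
        div_le_div₀ (by positivity) (pow_le_pow_left₀ (Nat.cast_nonneg _) h3 2) h5 h2
    _ = 4 / ((p : ℝ) - 1) * ((q.divisors.card : ℝ) ^ 2 / (Nat.totient q : ℝ)) := by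
        field_simp
        ring

private theorem QS_fix (p X : ℕ) (hp : p.Prime) :
    ∑ q ∈ Icc 1 X, (if p ∣ q then (q.divisors.card : ℝ) ^ 2 / (Nat.totient q : ℝ) else 0) ≤
      4 / ((p : ℝ) - 1) * ∑ q ∈ Icc 1 X, (q.divisors.card : ℝ) ^ 2 / (Nat.totient q : ℝ) := by
  rw [← Finset.sum_filter]
  have hsub : (Icc 1 X).filter (fun q => p ∣ q) ⊆ (Icc 1 X).image (fun q => p * q) := by
    intro q hq
    rw [Finset.mem_filter, Finset.mem_Icc] at hq
    obtain ⟨⟨h1, h2⟩, r, rfl⟩ := hq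
    refine Finset.mem_image.2 ⟨r, Finset.mem_Icc.2 ⟨?_, ?_⟩, rfl⟩
    · by_contra h
      have : r = 0 := by omega
      subst this
      simp at h1
    · exact (Nat.le_mul_of_pos_left r hp.pos).trans h2
  refine (Finset.sum_le_sum_of_subset_of_nonneg hsub fun q _ _ => by positivity).trans ?_
  rw [Finset.sum_image fun a _ b _ h => Nat.eq_of_mul_eq_mul_left hp.pos h, Finset.mul_sum]
  exact Finset.sum_le_sum fun q hq => QS_mul p q hp (Finset.mem_Icc.1 hq).1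

private theorem QS_card (n X : ℕ) (hn : 1 ≤ n) (hX : n ≤ X) :
    ((n.primeFactors.card : ℕ) : ℝ) ≤ 2 * Real.log X := by
  have h4 : 2 ^ n.primeFactors.card ≤ n := by
    calc 2 ^ n.primeFactors.card ≤ ∏ p ∈ n.primeFactors, p :=
          Finset.pow_card_le_prod _ _ _ fun p hp => (Nat.prime_of_mem_primeFactors hp).two_le
      _ ≤ n := Nat.le_of_dvd hn (Nat.prod_primeFactors_dvd n)
  have h5 : ((2 : ℝ)) ^ n.primeFactors.card ≤ X := by exact_mod_cast h4.trans hX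
  have h6 := Real.log_le_log (by positivity) h5
  rw [Real.log_pow] at h6
  have h7 : (1 : ℝ) / 2 ≤ Real.log 2 := by linarith [Real.log_two_gt_d9]
  have h8 : (0 : ℝ) ≤ (n.primeFactors.card : ℕ) := Nat.cast_nonneg _
  nlinarith

theorem qs : ∃ C : ℕ, ∀ K1 D' : ℕ, K1 + 1 ≤ D' → ∃ X0 : ℕ, ∀ X : ℕ, X0 ≤ X → ∀ n : ℕ, 1 ≤ n →
    n ≤ X → ∀ QQ : Finset ℕ, (∀ q ∈ QQ, 1 ≤ q ∧ q ≤ X ∧
      (q : ℝ) ≤ (Real.log X) ^ K1 * (Nat.gcd q n : ℝ) ∧ ∃ p : ℕ, p.Prime ∧ p ∣ q ∧ wX D' X < p) →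
    ∑ q ∈ QQ, (q.divisors.card : ℝ) ^ 2 / (Nat.totient q : ℝ) ≤
      (Real.log X) ^ C / (Real.log X) ^ D' := by
  obtain ⟨C, hC⟩ := QS_sum
  obtain ⟨X0, hX0⟩ := QS_logbig 16
  refine ⟨C + 2, fun K1 D' hK => ⟨X0, fun X hX n hn hnX QQ hQQ => ?_⟩⟩
  have hL := hX0 X hX
  have hT := hC X (by linarith)
  set L : ℝ := Real.log (X : ℝ) with hLdef
  set F : ℕ → ℝ := fun q => (q.divisors.card : ℝ) ^ 2 / (Nat.totient q : ℝ) with hF
  have hF0 : ∀ q, 0 ≤ F q := fun q => by positivity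
  set w := wX D' X with hw
  -- the size of w
  have hLD1 : L ^ (K1 + 1) ≤ L ^ D' := pow_le_pow_right₀ (by linarith) hK
  have hLK1 : 1 ≤ L ^ K1 := one_le_pow₀ (by linarith)
  have hLK : 16 * L ^ K1 ≤ L ^ (K1 + 1) := by
    rw [pow_succ]
    nlinarith
  have hw1 : L ^ D' - 1 < (w : ℝ) := by
    rw [hw]
    unfold wX
    rw [← hLdef]
    linarith [Nat.lt_floor_add_one (L ^ D')]
  have hLD16 : 16 ≤ L ^ D' := by linarith
  have hw2 : L ^ D' / 2 ≤ (w : ℝ) := by linarith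
  have hw3 : L ^ K1 < (w : ℝ) := by linarith
  set P := n.primeFactors.filter (fun p => w < p) with hP
  -- a large prime factor of `q` divides `n`
  have hcov : ∀ q ∈ QQ, ∃ p ∈ P, p ∣ q := by
    intro q hq
    obtain ⟨h1, h2, h3, p, hp, hpq, hpw⟩ := hQQ q hq
    refine ⟨p, ?_, hpq⟩
    rw [hP, Finset.mem_filter, Nat.mem_primeFactors]
    refine ⟨⟨hp, ?_, by omega⟩, hpw⟩
    have hg : 0 < Nat.gcd q n := Nat.gcd_pos_of_pos_left n h1
    obtain ⟨h, hh⟩ := Nat.gcd_dvd_left q n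
    have hhpos : 0 < h := by
      rcases Nat.eq_zero_or_pos h with h0 | h0
      · rw [h0, mul_zero] at hh
        omega
      · exact h0
    have hhle : (h : ℝ) ≤ L ^ K1 := by
      have e1 : (q : ℝ) = (Nat.gcd q n : ℝ) * h := by exact_mod_cast hh
      have e2 : (0 : ℝ) < (Nat.gcd q n : ℝ) := by exact_mod_cast hg
      rw [e1, mul_comm (L ^ K1)] at h3
      exact le_of_mul_le_mul_left h3 e2
    have hhp : h < p := by
      have e1 : (h : ℝ) < (w : ℝ) := by linarith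
      have e2 : h < w := by exact_mod_cast e1
      omega
    rw [hh] at hpq
    rcases hp.dvd_mul.1 hpq with h4 | h4
    · exact h4.trans (Nat.gcd_dvd_right q n)
    · exact absurd (Nat.le_of_dvd hhpos h4) (by omega)
  have hstep1 : ∑ q ∈ QQ, F q ≤ ∑ q ∈ QQ, ∑ p ∈ P, if p ∣ q then F q else 0 := by
    refine Finset.sum_le_sum fun q hq => ?_
    obtain ⟨p, hp, hpq⟩ := hcov q hq
    have h1 := Finset.single_le_sum (f := fun p => if p ∣ q then F q else 0)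
      (fun p _ => by
        show 0 ≤ (if p ∣ q then F q else 0)
        split_ifs
        · exact hF0 q
        · exact le_rfl) hp
    simpa [hpq] using h1
  have hstep2 : ∀ p ∈ P, ∑ q ∈ QQ, (if p ∣ q then F q else 0) ≤ 8 / L ^ D' * L ^ C := by
    intro p hp
    rw [hP, Finset.mem_filter, Nat.mem_primeFactors] at hp
    have hpw : (w : ℝ) ≤ (p : ℝ) - 1 := by
      have : w + 1 ≤ p := hp.2
      have h1 : ((w + 1 : ℕ) : ℝ) ≤ p := by exact_mod_cast this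
      push_cast at h1
      linarith
    have hsub : QQ ⊆ Icc 1 X := fun q hq => Finset.mem_Icc.2 ⟨(hQQ q hq).1, (hQQ q hq).2.1⟩
    have h1 : ∑ q ∈ QQ, (if p ∣ q then F q else 0) ≤ ∑ q ∈ Icc 1 X, (if p ∣ q then F q else 0) :=
      Finset.sum_le_sum_of_subset_of_nonneg hsub fun q _ _ => by
        split_ifs
        · exact hF0 q
        · exact le_rfl
    refine h1.trans ((QS_fix p X hp.1.1).trans ?_)
    have h2 : 4 / ((p : ℝ) - 1) ≤ 8 / L ^ D' := by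
      have h3 : (0 : ℝ) < L ^ D' := by linarith
      rw [div_le_div_iff₀ (by linarith) h3]
      nlinarith
    exact mul_le_mul h2 hT (Finset.sum_nonneg fun q _ => hF0 q) (by positivity)
  have hcard : ((P.card : ℕ) : ℝ) ≤ 2 * L := by
    refine le_trans ?_ (QS_card n X hn hnX)
    exact_mod_cast Finset.card_filter_le _ _
  calc ∑ q ∈ QQ, F q ≤ ∑ q ∈ QQ, ∑ p ∈ P, (if p ∣ q then F q else 0) := hstep1
    _ = ∑ p ∈ P, ∑ q ∈ QQ, (if p ∣ q then F q else 0) := Finset.sum_comm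
    _ ≤ ∑ p ∈ P, 8 / L ^ D' * L ^ C := Finset.sum_le_sum hstep2
    _ = (P.card : ℝ) * (8 / L ^ D' * L ^ C) := by rw [Finset.sum_const, nsmul_eq_mul]
    _ ≤ (2 * L) * (8 / L ^ D' * L ^ C) := mul_le_mul_of_nonneg_right hcard (by positivity)
    _ = 16 * (L ^ (C + 1) / L ^ D') := by ring
    _ ≤ L * (L ^ (C + 1) / L ^ D') := mul_le_mul_of_nonneg_right hL (by positivity)
    _ = L ^ (C + 2) / L ^ D' := by ring

theorem qs_all : ∃ C X0 : ℕ, ∀ X : ℕ, X0 ≤ X →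
    ∑ q ∈ Icc 1 X, (q.divisors.card : ℝ) ^ 2 / (Nat.totient q : ℝ) ≤ (Real.log X) ^ C := by
  obtain ⟨C, hC⟩ := QS_sum
  obtain ⟨X0, hX0⟩ := QS_logbig 2
  exact ⟨C, X0, fun X hX => hC X (hX0 X hX)⟩

end Pool.MP_dd84fd_nt.DX
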