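import Pool.Agent.Lib.MP_dd84fd_nt.DX.MnS
import Pool.Agent.Lib.MP_dd84fd_nt.DX.QS
import Pool.Agent.Lib.MP_dd84fd_nt.IX.GrCf

/-!
# DX-MnE: the means of `W_-`

`W_- = tp X c`, `c n = ww n - fI gg n`, supported on the `n` without prime factor `≤ w` (`ww` is `zI X`-rough supported by `W1`,
`zI X > w`; `f1 w n = 0` if a prime `p ≤ w` divides `n`), `|c n| ≤ K0 + K0 · 2 L ≤ 3 K0 L` (`f1_le`).  `mnM = ∑_q (1/φ(q)) ∫ |∑_a W_-|²`.
* `q` without prime factor `> w`: `|∑_a W_-(a/q + x)| ≤ |W_-(x)| ≤ X/L^A'` by `MajI` (`Ht ((log X)^B) X x` for `|x| ≤ 4 L^K2/X`, i.e.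
  height of `x` `≤ L^B`, `B = K2 + 3`); total `≤ qs_all · 8 L^K2/X · X²/L^(2A')`;
* the other `q`: `mn_triv`: `≤ τ(q) 3 K0 L X`; total `≤ 9 K0² L² X² · 8 L^K2/X · ∑ τ(q)²/φ(q) ≤ X L^(C + K2 + 4 - D')` (`qs`), `D' ≥ D0`.
`q ≤ N ≤ X`.
-/

set_option autoImplicit false

namespace Pool.MP_dd84fd_nt.DX

open Finset Pool.MP_67663b_nt.Odd Pool.MP_dd84fd_nt.En Pool.MP_dd84fd_nt.E2 Pool.MP_dd84fd_nt.LS
open Pool.MP_dd84fd_nt.GX Pool.MP_dd84fd_nt.HX Pool.MP_dd84fd_nt.IX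
open Pool.MP_dd84fd_nt.PL (rr tp)
open Pool.MP_dd84fd_nt.JX (Adm)

private theorem mne_wz (D' : ℕ) : ∃ X0 : ℕ, ∀ X : ℕ, X0 ≤ X → wX D' X < zI X := by
  have hlit : (fun x : ℝ => Real.log x ^ (D' : ℝ)) =o[Filter.atTop] fun x => x ^ (1 / 10 : ℝ) :=
    isLittleO_log_rpow_rpow_atTop (D' : ℝ) (by norm_num)
  have hev2 : ∀ᶠ X : ℕ in Filter.atTop, Real.log X ^ D' ≤ 1 / 2 * (X : ℝ) ^ (1 / 10 : ℝ) := by
    have h1 : ∀ᶠ x : ℝ in Filter.atTop, Real.log x ^ D' ≤ 1 / 2 * x ^ (1 / 10 : ℝ) := by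
      filter_upwards [hlit.bound (show (0 : ℝ) < 1 / 2 by norm_num),
        Filter.eventually_ge_atTop (1 : ℝ)] with x hx hx1
      rw [Real.rpow_natCast, Real.norm_of_nonneg (by have := Real.log_nonneg hx1; positivity),
        Real.norm_of_nonneg (by positivity)] at hx
      exact hx
    exact tendsto_natCast_atTop_atTop.eventually h1
  obtain ⟨X4, hX4⟩ := Filter.eventually_atTop.1 hev2
  refine ⟨max X4 1, fun X hX => ?_⟩
  have e4 : X4 ≤ X := (le_max_left _ _).trans hX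
  have e5 : 1 ≤ X := (le_max_right _ _).trans hX
  have hL1 : 0 ≤ Real.log X := Real.log_nonneg (by exact_mod_cast e5)
  have hwle : ((wX D' X : ℕ) : ℝ) ≤ Real.log X ^ D' := by
    unfold wX
    exact Nat.floor_le (by positivity)
  have h1 : ((wX D' X : ℕ) : ℝ) < zI X := by
    have h2 : (X : ℝ) ^ (1 / 10 : ℝ) ≤ zI X := by
      unfold zI
      exact Nat.le_ceil _
    have h3 : (0 : ℝ) < (X : ℝ) ^ (1 / 10 : ℝ) := by
      have : (0 : ℝ) < X := by exact_mod_cast e5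
      positivity
    have h4 := hX4 X e4
    linarith
  exact_mod_cast h1

private theorem mne_supp {K0 w X n p : ℕ} {ww gg : ℕ → ℕ → ℝ}
    (hb : |ww X n| ≤ K0 * rg (zI X) n) (hwz : w < zI X) (hp : p.Prime) (hpw : p ≤ w)
    (hpn : p ∣ n) : ww X n + (-1) * fI gg X w n = 0 := by
  have h1 : rg (zI X) n = 0 := by
    unfold rg
    rw [if_neg]
    rintro ⟨h0, h2⟩
    have h3 := h2 p (Nat.mem_primeFactors.2 ⟨hp, hpn, h0⟩)
    omega
  have h2 : ww X n = 0 := by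
    rw [h1, mul_zero] at hb
    exact abs_nonpos_iff.1 hb
  have h3 : f1 w n = 0 := by
    unfold f1
    rw [if_neg]
    intro h
    have h4 : p ∣ primorial w := by
      unfold primorial
      exact Finset.dvd_prod_of_mem _ (Finset.mem_filter.2 ⟨Finset.mem_range.2 (by omega), hp⟩)
    exact hp.one_lt.ne' (Nat.dvd_one.1 (h ▸ Nat.dvd_gcd hpn h4))
  rw [h2, fI, h3]
  ring

private theorem mne_int (X q : ℕ) (T B : ℝ) (hT : 0 ≤ T) (hq : 1 ≤ q)
    (F : ℝ → ℂ) (hB : ∀ x : ℝ, |x| ≤ T / X → ‖∑ a ∈ rr q, F ((a : ℝ) / q + x)‖ ≤ B) :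
    (Nat.totient q : ℝ) * ∫ x in (-(T / X))..(T / X),
      ‖mnR q (fun b => F ((b : ℝ) / q + x))‖ ^ 2 ≤
      2 * T / X * (B ^ 2 / Nat.totient q) := by
  have hφ : (0 : ℝ) < Nat.totient q := by exact_mod_cast Nat.totient_pos.2 hq
  have hTX : 0 ≤ T / X := div_nonneg hT (Nat.cast_nonneg _)
  have h1 : ∀ x ∈ Set.uIoc (-(T / X)) (T / X),
      ‖‖mnR q (fun b => F ((b : ℝ) / q + x))‖ ^ 2‖ ≤ (B / Nat.totient q) ^ 2 := by
    intro x hx
    rw [Set.uIoc_of_le (by linarith)] at hx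
    have hx2 : |x| ≤ T / X := abs_le.2 ⟨hx.1.le, hx.2⟩
    rw [Real.norm_eq_abs, abs_of_nonneg (by positivity)]
    refine pow_le_pow_left₀ (norm_nonneg _) ?_ 2
    unfold mnR
    rw [norm_mul, norm_div, norm_one, Complex.norm_natCast, one_div, inv_mul_eq_div]
    exact div_le_div_of_nonneg_right (hB x hx2) hφ.le
  have h2 := intervalIntegral.norm_integral_le_of_norm_le_const h1
  have h3 := (Real.le_norm_self _).trans h2
  have h4 : |T / X - -(T / X)| = 2 * T / X := by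
    rw [abs_of_nonneg (by linarith)]
    ring
  rw [h4] at h3
  calc (Nat.totient q : ℝ) * ∫ x in (-(T / X))..(T / X),
        ‖mnR q (fun b => F ((b : ℝ) / q + x))‖ ^ 2
      ≤ (Nat.totient q : ℝ) * ((B / Nat.totient q) ^ 2 * (2 * T / X)) :=
        mul_le_mul_of_nonneg_left h3 hφ.le
    _ = 2 * T / X * (B ^ 2 / Nat.totient q) := by
        field_simp

theorem mn_e (A K0 C1 K1 K2 : ℕ) (ww gg : ℕ → ℕ → ℝ) (hw : W1 K0 C1 ww gg) (hm : MajI ww gg) :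
    ∃ D0 : ℕ, ∀ D' : ℕ, D0 ≤ D' → ∀ th e τ : ℝ, Adm th e τ → ∃ X0 : ℕ, ∀ X : ℕ, X0 ≤ X →
    ∀ (n : ℕ) (QQ : Finset ℕ) (N : ℝ), Dsk th e X n K1 QQ N →
    mnM X (4 * (Real.log X) ^ K2) QQ (WI ww gg (-1) (wX D' X) X) ≤ X / (Real.log X) ^ A := by
  obtain ⟨C, hC⟩ := qs
  obtain ⟨C', X9, hC'⟩ := qs_all
  obtain ⟨Dm, hDm⟩ := hm (A + K2 + C' + 4) (K2 + 1)
  refine ⟨max Dm (max (K1 + 1) (A + K2 + C + 8)), fun D' hD' th e τ hadm => ?_⟩
  have hD1 : Dm ≤ D' := (le_max_left _ _).trans hD'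
  have hD2 : K1 + 1 ≤ D' := ((le_max_left _ _).trans (le_max_right _ _)).trans hD'
  have hD3 : A + K2 + C + 8 ≤ D' := ((le_max_right _ _).trans (le_max_right _ _)).trans hD'
  obtain ⟨X1, hX1⟩ := hDm D' hD1
  obtain ⟨X2, hX2⟩ := hC K1 D' hD2
  obtain ⟨X3, hX3⟩ := cf_le K0 C1 D' ww gg hw
  obtain ⟨X4, hX4⟩ := mne_wz D'
  obtain ⟨X5, hX5⟩ := MP_log_large 5
  obtain ⟨X6, hX6⟩ := hw
  refine ⟨max (max (max X1 X2) (max X3 X4)) (max (max X5 X6) (max X9 1)),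
    fun X hX n QQ N hDs => ?_⟩
  simp only [max_le_iff] at hX
  obtain ⟨⟨⟨g1, g2⟩, g3, g4⟩, ⟨g5, g6⟩, g9, g0⟩ := hX
  obtain ⟨hn1, hn2, hq, hlcm, -, hN1, hN2⟩ := hDs
  have hL5 := hX5 X g5
  set L := Real.log (X : ℝ) with hLd
  have hL0 : 0 < L := by linarith
  have hL1 : 1 ≤ L := by linarith
  have hX0 : (0 : ℝ) < X := by exact_mod_cast g0
  have hX1r : (1 : ℝ) ≤ X := by exact_mod_cast g0
  set w := wX D' X with hwd
  have hwz := hX4 X g4
  -- the moduli are at most `X`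
  have hqX : ∀ q ∈ QQ, q ≤ X := by
    intro q hqm
    have h1 := hlcm q hqm q hqm
    rw [Nat.lcm_self] at h1
    have h2 : (X : ℝ) ^ (1 - th + 3 / 2 * e) ≤ X := by
      have h3 : (X : ℝ) ^ (1 - th + 3 / 2 * e) ≤ (X : ℝ) ^ (1 : ℝ) := by
        refine Real.rpow_le_rpow_of_exponent_le hX1r ?_
        obtain ⟨a1, a2, a3, a4, a5⟩ := hadm
        linarith
      rwa [Real.rpow_one] at h3
    exact_mod_cast h1.trans (hN2.trans h2)
  have hn0 : 1 ≤ n := by omega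
  -- the two bounds
  set T : ℝ := 4 * L ^ K2 with hT
  have hT0 : 0 ≤ T := by positivity
  have hmaj : ∀ x : ℝ, |x| ≤ T / X → ‖WI ww gg (-1) w X x‖ ≤ X / L ^ (A + K2 + C' + 4) := by
    intro x hx
    refine hX1 X g1 x ⟨1, 0, one_pos, by simp, ?_⟩
    simp only [Nat.cast_one, Int.cast_zero, zero_div, sub_zero, one_mul]
    have h1 : (X : ℝ) * |x| ≤ T := by
      calc (X : ℝ) * |x| ≤ X * (T / X) := mul_le_mul_of_nonneg_left hx hX0.le
        _ = T := by field_simp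
    have h2 : (1 : ℝ) ≤ L ^ K2 := one_le_pow₀ hL1
    calc 1 + (X : ℝ) * |x| ≤ L ^ K2 + 4 * L ^ K2 := by
          rw [hT] at h1
          linarith
      _ = L ^ K2 * 5 := by ring
      _ ≤ L ^ K2 * L := mul_le_mul_of_nonneg_left hL5 (by positivity)
      _ = L ^ (K2 + 1) := by rw [pow_succ]
  have hsum : ∀ q : ℕ, ∀ x : ℝ, ∑ a ∈ rr q, WI ww gg (-1) w X ((a : ℝ) / q + x) =
      ∑ a ∈ rr q, tp X (fun m => ((ww X m + (-1) * fI gg X w m : ℝ) : ℂ)) ((a : ℝ) / q + x) :=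
    fun q x => rfl
  have hsm : ∀ q ∈ QQ, (∀ p : ℕ, p.Prime → p ∣ q → p ≤ w) → ∀ x : ℝ, |x| ≤ T / X →
      ‖∑ a ∈ rr q, WI ww gg (-1) w X ((a : ℝ) / q + x)‖ ≤ X / L ^ (A + K2 + C' + 4) := by
    intro q hqm hqp x hx
    rw [hsum, mn_smooth q w X (hq q hqm).1 hqp _ ?_ x, norm_mul]
    · have h1 : ‖((ArithmeticFunction.moebius q : ℤ) : ℂ)‖ ≤ 1 := by
        rw [Complex.norm_intCast]
        exact_mod_cast ArithmeticFunction.abs_moebius_le_one
      have h2 := hmaj x hx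
      calc ‖((ArithmeticFunction.moebius q : ℤ) : ℂ)‖ *
            ‖tp X (fun m => ((ww X m + (-1) * fI gg X w m : ℝ) : ℂ)) x‖
          ≤ 1 * (X / L ^ (A + K2 + C' + 4)) :=
            mul_le_mul h1 h2 (norm_nonneg _) zero_le_one
        _ = _ := one_mul _
    · intro m _ hm0 p hp hpw hpm
      apply hm0
      rw [mne_supp ((hX6 X g6).1 m).1 hwz hp hpw hpm]
      simp
  have hrg : ∀ q ∈ QQ, ∀ x : ℝ, |x| ≤ T / X →
      ‖∑ a ∈ rr q, WI ww gg (-1) w X ((a : ℝ) / q + x)‖ ≤ (q.divisors.card : ℝ) * L ^ 2 * X := by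
    intro q hqm x _
    rw [hsum]
    refine mn_triv q X (hq q hqm).1 _ (L ^ 2) ?_ x
    intro m _
    rw [Complex.norm_real, Real.norm_eq_abs]
    exact (hX3 X g3 (-1) (by norm_num)).1 m
  classical
  set P : ℕ → Prop := fun q => ∀ p : ℕ, p.Prime → p ∣ q → p ≤ w with hP
  unfold mnM
  rw [← Finset.sum_filter_add_sum_filter_not QQ P]
  have hτ : ∀ q : ℕ, 1 ≤ q → (1 : ℝ) ≤ (q.divisors.card : ℝ) ^ 2 := by
    intro q hq1
    have h1 : 1 ≤ q.divisors.card := Finset.card_pos.2 ⟨1, Nat.one_mem_divisors.2 (by omega)⟩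
    exact one_le_pow₀ (by exact_mod_cast h1)
  have hTX : 0 ≤ 2 * T / X := by positivity
  have hs1 : ∑ q ∈ QQ.filter P, (Nat.totient q : ℝ) * ∫ x in (-(T / X))..(T / X),
      ‖mnR q (fun b => WI ww gg (-1) w X ((b : ℝ) / q + x))‖ ^ 2 ≤
      2 * T / X * (X / L ^ (A + K2 + C' + 4)) ^ 2 * L ^ C' := by
    calc ∑ q ∈ QQ.filter P, (Nat.totient q : ℝ) * ∫ x in (-(T / X))..(T / X),
          ‖mnR q (fun b => WI ww gg (-1) w X ((b : ℝ) / q + x))‖ ^ 2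
        ≤ ∑ q ∈ QQ.filter P, 2 * T / X * (X / L ^ (A + K2 + C' + 4)) ^ 2 *
            ((q.divisors.card : ℝ) ^ 2 / (Nat.totient q : ℝ)) := by
          refine Finset.sum_le_sum fun q hqm => ?_
          obtain ⟨hqm, hqP⟩ := Finset.mem_filter.1 hqm
          have hφ : (0 : ℝ) < Nat.totient q := by
            exact_mod_cast Nat.totient_pos.2 (hq q hqm).1
          refine (mne_int X q T _ hT0 (hq q hqm).1 _ (hsm q hqm hqP)).trans ?_
          rw [mul_assoc]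
          refine mul_le_mul_of_nonneg_left ?_ hTX
          rw [← mul_div_assoc]
          refine div_le_div_of_nonneg_right ?_ hφ.le
          exact le_mul_of_one_le_right (by positivity) (hτ q (hq q hqm).1)
      _ ≤ ∑ q ∈ Icc 1 X, 2 * T / X * (X / L ^ (A + K2 + C' + 4)) ^ 2 *
            ((q.divisors.card : ℝ) ^ 2 / (Nat.totient q : ℝ)) := by
          refine Finset.sum_le_sum_of_subset_of_nonneg ?_ fun q _ _ => by positivity
          intro q hqm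
          obtain ⟨hqm, -⟩ := Finset.mem_filter.1 hqm
          exact Finset.mem_Icc.2 ⟨(hq q hqm).1, hqX q hqm⟩
      _ ≤ 2 * T / X * (X / L ^ (A + K2 + C' + 4)) ^ 2 * L ^ C' := by
          rw [← Finset.mul_sum]
          exact mul_le_mul_of_nonneg_left (hC' X g9) (by positivity)
  have hs2 : ∑ q ∈ QQ.filter (fun q => ¬ P q), (Nat.totient q : ℝ) *
      ∫ x in (-(T / X))..(T / X),
      ‖mnR q (fun b => WI ww gg (-1) w X ((b : ℝ) / q + x))‖ ^ 2 ≤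
      2 * T / X * (L ^ 2 * X) ^ 2 * (L ^ C / L ^ D') := by
    calc ∑ q ∈ QQ.filter (fun q => ¬ P q), (Nat.totient q : ℝ) *
          ∫ x in (-(T / X))..(T / X),
          ‖mnR q (fun b => WI ww gg (-1) w X ((b : ℝ) / q + x))‖ ^ 2
        ≤ ∑ q ∈ QQ.filter (fun q => ¬ P q), 2 * T / X * (L ^ 2 * X) ^ 2 *
            ((q.divisors.card : ℝ) ^ 2 / (Nat.totient q : ℝ)) := by
          refine Finset.sum_le_sum fun q hqm => ?_
          obtain ⟨hqm, hqP⟩ := Finset.mem_filter.1 hqm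
          refine (mne_int X q T _ hT0 (hq q hqm).1 _ (hrg q hqm)).trans (le_of_eq ?_)
          ring
      _ ≤ 2 * T / X * (L ^ 2 * X) ^ 2 * (L ^ C / L ^ D') := by
          rw [← Finset.mul_sum]
          refine mul_le_mul_of_nonneg_left ?_ (by positivity)
          refine hX2 X g2 n hn0 hn2 _ ?_
          intro q hqm
          obtain ⟨hqm, hqP⟩ := Finset.mem_filter.1 hqm
          refine ⟨(hq q hqm).1, hqX q hqm, (hq q hqm).2, ?_⟩
          rw [hP] at hqP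
          push Not at hqP
          obtain ⟨p, h1, h2, h3⟩ := hqP
          exact ⟨p, h1, h2, h3⟩
  have hf1 : 2 * T / X * (X / L ^ (A + K2 + C' + 4)) ^ 2 * L ^ C' ≤ X / L ^ A / 2 := by
    have h1 : (16 : ℝ) ≤ L ^ (A + K2 + C' + 8) := by
      calc (16 : ℝ) ≤ 5 ^ 2 := by norm_num
        _ ≤ L ^ 2 := pow_le_pow_left₀ (by norm_num) hL5 2
        _ ≤ L ^ (A + K2 + C' + 8) := pow_le_pow_right₀ hL1 (by omega)
    have h2 : L ^ (A + K2 + C' + 4) * L ^ (A + K2 + C' + 4) =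
        L ^ (A + K2 + C') * L ^ (A + K2 + C' + 8) := by
      rw [← pow_add, ← pow_add]
      congr 1
      omega
    have h3 : 2 * T / X * (X / L ^ (A + K2 + C' + 4)) ^ 2 * L ^ C' =
        X * (8 * (L ^ K2 * L ^ C')) / (L ^ (A + K2 + C' + 4) * L ^ (A + K2 + C' + 4)) := by
      rw [hT]
      field_simp
      ring
    rw [h3, h2, div_div, div_le_div_iff₀ (by positivity) (by positivity)]
    have h4 : L ^ (A + K2 + C') = L ^ A * (L ^ K2 * L ^ C') := by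
      rw [pow_add, pow_add]
      ring
    rw [h4]
    have h5 : 0 ≤ X * (L ^ A * (L ^ K2 * L ^ C')) := by positivity
    nlinarith [mul_le_mul_of_nonneg_left h1 h5]
  have hf2 : 2 * T / X * (L ^ 2 * X) ^ 2 * (L ^ C / L ^ D') ≤ X / L ^ A / 2 := by
    have h1 : (16 : ℝ) ≤ L ^ 4 := by
      calc (16 : ℝ) ≤ 5 ^ 4 := by norm_num
        _ ≤ L ^ 4 := pow_le_pow_left₀ (by norm_num) hL5 4
    have h2 : 16 * (L ^ K2 * L ^ 4 * L ^ C * L ^ A) ≤ L ^ D' := by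
      calc 16 * (L ^ K2 * L ^ 4 * L ^ C * L ^ A) ≤ L ^ 4 * (L ^ K2 * L ^ 4 * L ^ C * L ^ A) :=
            mul_le_mul_of_nonneg_right h1 (by positivity)
        _ = L ^ (A + K2 + C + 8) := by
            rw [← pow_add, ← pow_add, ← pow_add, ← pow_add]
            congr 1
            omega
        _ ≤ L ^ D' := pow_le_pow_right₀ hL1 hD3
    have h3 : 2 * T / X * (L ^ 2 * X) ^ 2 * (L ^ C / L ^ D') =
        X * (8 * (L ^ K2 * L ^ 4 * L ^ C)) / L ^ D' := by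
      rw [hT]
      field_simp
      ring
    rw [h3, div_div, div_le_div_iff₀ (by positivity) (by positivity)]
    nlinarith [mul_le_mul_of_nonneg_left h2 hX0.le]
  linarith

end Pool.MP_dd84fd_nt.DX
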