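import Pool.Agent.Lib.MP_dd84fd_nt.DX.ScQ
import Pool.Agent.Lib.MP_dd84fd_nt.LX.LScale

/-!
# DX-GenX: the pairs of families, with explicit moduli

`NarX`: a narrow family with small character sums.  `gen_p`: the primes and a narrow family;
`gen_n`: two narrow families.
`ww1 * ww2 - f1 * f2 = (1/2) ((ww1 + f1) * (ww2 - f2) + (ww2 + f2) * (ww1 - f1))`,
`P * ww - fP * f = P * (ww - f) + (P - fP) * f`.
-/

set_option autoImplicit false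

namespace Pool.MP_dd84fd_nt.DX

open Finset Pool.MP_67663b_nt.Odd Pool.MP_dd84fd_nt.En Pool.MP_dd84fd_nt.E2 Pool.MP_dd84fd_nt.LS
open Pool.MP_dd84fd_nt.GX Pool.MP_dd84fd_nt.HX Pool.MP_dd84fd_nt.IX
open Pool.MP_dd84fd_nt.JX (Adm ZJ DecJ wP gP)
open Pool.MP_dd84fd_nt.LX (DecW decJ_W)

/-- a narrow family with small character sums -/
def NarX (K0 C1 B C2 A' B' Bb : ℕ) (th e τ : ℝ) (ww gg : ℕ → ℕ → ℝ) : Prop :=
  W1 K0 C1 ww gg ∧ DecJ B C2 th e τ ww ∧ MajI ww gg ∧ GdB Bb A' B' ww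

/-- the conclusion for one pair -/
def ConX (A C K : ℕ) (th e : ℝ) (ww1 gg1 ww2 gg2 : ℕ → ℕ → ℝ) : Prop :=
  ∃ D0 : ℕ, ∀ D' : ℕ, D0 ≤ D' → ∃ X0 : ℕ, ∀ X : ℕ, X0 ≤ X → ∃ D Ex : Finset ℕ,
    (D.card : ℝ) ≤ (Real.log X) ^ C ∧
    (∀ d ∈ D, (Real.log X) ^ K ≤ (d : ℝ) ∧ ExD C X d) ∧
    (Ex.card : ℝ) ≤ 2 * (X : ℝ) ^ (th - e / 4) ∧
    ∀ n : ℕ, X < 2 * n → n ≤ X → n ∉ Ex → (∀ d ∈ D, ¬ d ∣ n) →
      |cvv (ww1 X) (ww2 X) n - cvv (fI gg1 X (wX D' X)) (fI gg2 X (wX D' X)) n| ≤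
        X / (Real.log X) ^ A

theorem cvv_comm (f h : ℕ → ℝ) (n : ℕ) : cvv f h n = cvv h f n := by
  unfold cvv
  refine sum_nbij' (fun m => n - m) (fun m => n - m) ?_ ?_ ?_ ?_ ?_
  · intro m hm
    rw [mem_Icc] at hm ⊢
    omega
  · intro m hm
    rw [mem_Icc] at hm ⊢
    omega
  · intro m hm
    rw [mem_Icc] at hm
    omega
  · intro m hm
    rw [mem_Icc] at hm
    omega
  · intro m hm
    rw [mem_Icc] at hm
    rw [show n - (n - m) = m by omega]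
    ring

theorem cvv_add_l (f f' h : ℕ → ℝ) (n : ℕ) :
    cvv (fun m => f m + f' m) h n = cvv f h n + cvv f' h n := by
  unfold cvv
  rw [← sum_add_distrib]
  refine sum_congr rfl fun m _ => by ring

theorem cvv_sub_r (f h h' : ℕ → ℝ) (n : ℕ) :
    cvv f (fun m => h m - h' m) n = cvv f h n - cvv f h' n := by
  unfold cvv
  rw [← sum_sub_distrib]
  refine sum_congr rfl fun m _ => by ring

theorem cvv_sub_l (f f' h : ℕ → ℝ) (n : ℕ) :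
    cvv (fun m => f m - f' m) h n = cvv f h n - cvv f' h n := by
  unfold cvv
  rw [← sum_sub_distrib]
  refine sum_congr rfl fun m _ => by ring

/-- `P * ww - fP * f = P * (ww - f) + (P - fP) * f` -/
theorem id_p (p fp w f : ℕ → ℝ) (n : ℕ) :
    cvv p w n - cvv fp f n =
      cvv (fun m => p m + 0 * fp m) (fun m => w m - f m) n + cvv (fun m => p m - fp m) f n := by
  rw [cvv_sub_r, cvv_sub_l]
  have h : (fun m => p m + 0 * fp m) = p := by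
    funext m
    ring
  rw [h]
  ring

/-- `2 (a * b - f * h) = (a + f) * (b - h) + (b + h) * (a - f)` -/
theorem id_n (a f b h : ℕ → ℝ) (n : ℕ) :
    2 * (cvv a b n - cvv f h n) =
      cvv (fun m => a m + 1 * f m) (fun m => b m - h m) n +
        cvv (fun m => b m + 1 * h m) (fun m => a m - f m) n := by
  have e1 : (fun m => a m + 1 * f m) = fun m => a m + f m := by
    funext m
    ring
  have e2 : (fun m => b m + 1 * h m) = fun m => b m + h m := by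
    funext m
    ring
  rw [e1, e2, cvv_sub_r, cvv_sub_r, cvv_add_l, cvv_add_l, cvv_add_l, cvv_add_l, cvv_comm b a,
    cvv_comm h a, cvv_comm b f, cvv_comm h f]
  ring

/-- the primes and a narrow family -/
theorem gen_p (HG : GenE) (HP : PfE) : ∀ A : ℕ, ∃ B : ℕ, ∀ K0 C1 C2 : ℕ, ∀ τ : ℝ, 0 < τ →
    ∃ A' B' : ℕ, ∀ Bb : ℕ, ∃ C : ℕ, ∀ th e : ℝ, Adm th e τ → W1 K0 C1 wP gP →
    DecW B C2 th e τ wP → ∀ ww gg : ℕ → ℕ → ℝ, NarX K0 C1 B C2 A' B' Bb th e τ ww gg →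
    ∀ K : ℕ, ConX A C K th e wP gP ww gg := by
  intro A
  obtain ⟨B, hB⟩ := HG (A + 1)
  refine ⟨B, fun K0 C1 C2 τ hτ => ?_⟩
  obtain ⟨A', B', h1⟩ := hB K0 C1 C2 τ hτ
  refine ⟨A', B', fun Bb => ?_⟩
  obtain ⟨C, h2⟩ := h1 Bb
  refine ⟨C, fun th e hA hw hd ww gg hN K => ?_⟩
  obtain ⟨n1, n2, n3, n4⟩ := hN
  obtain ⟨D1, h3⟩ := h2 th e hA wP gP ww gg hw hd n1 n2 n3 n4 0 (by norm_num) K
  obtain ⟨D2, h4⟩ := HP (A + 1) K0 C1
  refine ⟨max D1 D2, fun D' hD' => ?_⟩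
  obtain ⟨X1, h5⟩ := h3 D' ((le_max_left _ _).trans hD')
  obtain ⟨X2, h6⟩ := h4 D' ((le_max_right _ _).trans hD') gg (by
    obtain ⟨X1, hX1⟩ := n1
    exact ⟨X1, fun X hX => ⟨fun n => ((hX1 X hX).1 n).2, (hX1 X hX).2⟩⟩)
  obtain ⟨X3, h7⟩ := MP_log_large 2
  refine ⟨max X1 (max X2 (max X3 1)), fun X hX => ?_⟩
  simp only [max_le_iff] at hX
  obtain ⟨x1, x2, x3, x4⟩ := hX
  obtain ⟨D, Ex, d1, d2, d3, d4⟩ := h5 X x1
  have hf := h6 X x2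
  have hL := h7 X x3
  have hX0 : (0 : ℝ) < X := by exact_mod_cast (by omega : 0 < X)
  refine ⟨D, Ex, d1, fun d hd => ⟨(d2 d hd).1, (d2 d hd).2.2⟩, ?_, fun n m1 m2 m3 m4 => ?_⟩
  · have : 0 ≤ (X : ℝ) ^ (th - e / 4) := by positivity
    linarith
  · have q1 := d4 n m1 m2 m3 m4
    have q2 := hf n m2
    rw [id_p]
    unfold uI at q2
    have q3 : (X : ℝ) / (Real.log X) ^ (A + 1) + X / (Real.log X) ^ (A + 1) ≤
        X / (Real.log X) ^ A := by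
      have hp : 0 < (Real.log X) ^ A := by positivity
      have hl : 0 < Real.log X := by linarith
      rw [pow_succ, ← add_div, div_le_div_iff₀ (by positivity) hp]
      nlinarith [mul_pos hX0 hp]
    exact (abs_add_le _ _).trans ((add_le_add q1 q2).trans q3)

/-- two narrow families -/
theorem gen_n (HG : GenE) : ∀ A : ℕ, ∃ B : ℕ, ∀ K0 C1 C2 : ℕ, ∀ τ : ℝ, 0 < τ →
    ∃ A' B' : ℕ, ∀ Bb : ℕ, ∃ C : ℕ, ∀ th e : ℝ, Adm th e τ →
    ∀ ww1 gg1 ww2 gg2 : ℕ → ℕ → ℝ, NarX K0 C1 B C2 A' B' Bb th e τ ww1 gg1 →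
    NarX K0 C1 B C2 A' B' Bb th e τ ww2 gg2 →
    ∀ K : ℕ, ConX A C K th e ww1 gg1 ww2 gg2 := by
  intro A
  obtain ⟨B, hB⟩ := HG A
  refine ⟨B, fun K0 C1 C2 τ hτ => ?_⟩
  obtain ⟨A', B', h1⟩ := hB K0 C1 C2 τ hτ
  refine ⟨A', B', fun Bb => ?_⟩
  obtain ⟨C, h2⟩ := h1 Bb
  refine ⟨C + 1, fun th e hA ww1 gg1 ww2 gg2 hN1 hN2 K => ?_⟩
  obtain ⟨n1, n2, n3, n4⟩ := hN1
  obtain ⟨p1, p2, p3, p4⟩ := hN2
  obtain ⟨D1, h3⟩ := h2 th e hA ww1 gg1 ww2 gg2 n1 (decJ_W hA n2) p1 p2 p3 p4 1 (by norm_num) K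
  obtain ⟨D2, h4⟩ := h2 th e hA ww2 gg2 ww1 gg1 p1 (decJ_W hA p2) n1 n2 n3 n4 1 (by norm_num) K
  refine ⟨max D1 D2, fun D' hD' => ?_⟩
  obtain ⟨X1, h5⟩ := h3 D' ((le_max_left _ _).trans hD')
  obtain ⟨X2, h6⟩ := h4 D' ((le_max_right _ _).trans hD')
  obtain ⟨X3, h7⟩ := MP_log_large 2
  refine ⟨max X1 (max X2 (max X3 1)), fun X hX => ?_⟩
  simp only [max_le_iff] at hX
  obtain ⟨x1, x2, x3, x4⟩ := hX
  obtain ⟨D, Ex, d1, d2, d3, d4⟩ := h5 X x1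
  obtain ⟨D2', Ex2, f1, f2, f3, f4⟩ := h6 X x2
  have hL := h7 X x3
  have hX0 : (0 : ℝ) < X := by exact_mod_cast (by omega : 0 < X)
  classical
  refine ⟨D ∪ D2', Ex ∪ Ex2, ?_, ?_, ?_, fun n m1 m2 m3 m4 => ?_⟩
  · have i1 : ((D ∪ D2').card : ℝ) ≤ D.card + D2'.card := by
      exact_mod_cast card_union_le D D2'
    have i2 : (0 : ℝ) ≤ Real.log X ^ C := by positivity
    calc ((D ∪ D2').card : ℝ) ≤ 2 * Real.log X ^ C := by linarith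
      _ ≤ Real.log X * Real.log X ^ C := mul_le_mul_of_nonneg_right hL i2
      _ = Real.log X ^ (C + 1) := by ring
  · intro d hd
    rcases mem_union.1 hd with hd | hd
    · exact ⟨(d2 d hd).1, exD_mono (d2 d hd).2.2 (by omega) (by linarith)⟩
    · exact ⟨(f2 d hd).1, exD_mono (f2 d hd).2.2 (by omega) (by linarith)⟩
  · have i1 : ((Ex ∪ Ex2).card : ℝ) ≤ Ex.card + Ex2.card := by
      exact_mod_cast card_union_le Ex Ex2
    linarith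
  · rw [mem_union, not_or] at m3
    have q1 := d4 n m1 m2 m3.1 fun d hd => m4 d (mem_union_left _ hd)
    have q2 := f4 n m1 m2 m3.2 fun d hd => m4 d (mem_union_right _ hd)
    have q3 := id_n (ww1 X) (fI gg1 X (wX D' X)) (ww2 X) (fI gg2 X (wX D' X)) n
    have q4 := (abs_add_le _ _).trans (add_le_add q1 q2)
    rw [← q3, abs_mul, abs_two] at q4
    linarith

end Pool.MP_dd84fd_nt.DX
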