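import Pool.Agent.Lib.MP_dd84fd_nt.LX.FaFin
import Pool.Agent.Lib.MP_dd84fd_nt.LX.STr
import Pool.Agent.Lib.MP_dd84fd_nt.LX.Cen
import Pool.Agent.Lib.MP_dd84fd_nt.LX.PlAll
import Pool.Agent.Lib.MP_dd84fd_nt.JX.GStrW
import Pool.Agent.Lib.MP_dd84fd_nt.DX.PgBd

/-!
# DX-PgGen: the plug-in

As one of the two terms of `LX.gen_l`, with `discs_boundE`: outside an exceptional set of size
`X^(th-e/4)` the convolution of `ww1 + s1 gg1 f1` and `ww2 + s2 gg2 f1` is bounded by the discs with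
`q ≤ L^K1 (q,n)` and radii `≤ 4 L^K2 / X`.
-/

set_option autoImplicit false

namespace Pool.MP_dd84fd_nt.DX

open Finset Pool.MP_67663b_nt.Odd Pool.MP_dd84fd_nt.En Pool.MP_dd84fd_nt.E2 Pool.MP_dd84fd_nt.LS
  Pool.MP_dd84fd_nt.GX Pool.MP_dd84fd_nt.HX Pool.MP_dd84fd_nt.IX

open Pool.MP_dd84fd_nt.L2G (nrm)

open Pool.MP_dd84fd_nt.PL (rr Fam)

open Pool.MP_dd84fd_nt.JX (Adm ZJ DecJ Str StrWJ decJ_mono)

open Pool.MP_dd84fd_nt.LX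

private theorem pu_logpow (A : ℕ) : ∃ X0 : ℕ, ∀ X : ℕ, X0 ≤ X → (Real.log (X : ℝ)) ^ A ≤ X := by
  have h3 : ∀ᶠ x : ℝ in Filter.atTop, (Real.log x) ^ A ≤ x := by
    have h4 := (Real.isLittleO_pow_log_id_atTop (n := A)).bound one_pos
    filter_upwards [h4, Filter.eventually_ge_atTop 1] with x hx hx1
    rw [one_mul, Real.norm_eq_abs, Real.norm_eq_abs, id, abs_of_pos (by linarith : 0 < x)] at hx
    exact (le_abs_self _).trans hx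
  exact Filter.eventually_atTop.1 ((tendsto_natCast_atTop_atTop (R := ℝ)).eventually h3)

private theorem pu_wSI_le (G : ℕ) (th e : ℝ) (X Λ : ℕ) (bb : ℝ) (j : ZMod G) :
    ‖wSI G th e X Λ bb j‖ ≤ 1 := by
  unfold wSI
  split_ifs <;> simp

theorem plug_e (hSt : StrWJ) (hT : TreeL) (hP : PlL) (hC : CentreL) : PlugE := by
  classical
  intro A
  obtain ⟨A1, hA1⟩ : ∃ A1 : ℕ, A1 = A + 2 := ⟨_, rfl⟩
  obtain ⟨Bs, hs⟩ := hSt (2 * A1 + 6)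
  obtain ⟨Bp, hp⟩ := hP (A1 + 4)
  obtain ⟨A0, hc⟩ := hC (2 * (A1 + 4) + 6)
  refine ⟨max Bs Bp, fun K0 C1 C2 => ?_⟩
  obtain ⟨Cs, hs⟩ := hs K0 C1 C2
  obtain ⟨K1, K2, hp⟩ := hp K0 C1 C2
  refine ⟨K1, K2, fun th e τ hA ww1 gg1 ww2 gg2 hW1 hDec1 hW2 hDec2 D' hD3 => ?_⟩
  have hDw : DecW Bp C2 th e τ ww1 := decW_mono (le_max_right _ _) hDec1
  have hDs : DecJ Bs C2 th e τ ww2 := decJ_mono (le_max_left _ _) hDec2
  have hDp : DecJ Bp C2 th e τ ww2 := decJ_mono (le_max_right _ _) hDec2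
  obtain ⟨Xt, hXt⟩ := hT A1 Cs 4 th e τ hA
  obtain ⟨Xs, hXs⟩ := hs th e τ hA ww2 gg2 hW2 hDs D' hD3
  obtain ⟨Xp, hXp⟩ := hp th e τ hA ww1 gg1 ww2 gg2 hW1 hDw hW2 hDp D' (A0 + 1) hD3
  obtain ⟨Xc, hXc⟩ := hc K0 C1 ww2 gg2 hW2 D' hD3
  obtain ⟨Xa, hXa⟩ := phU_discs K0 C1 ww1 gg1 ww2 gg2 hW1 hW2 th e τ hA D'
  obtain ⟨Xb, hXb⟩ := discs_boundE th e τ hA A1 K1 K2 A0
  obtain ⟨Xe, hXe⟩ := centre_of th e τ hA (A1 + 4) A0
  obtain ⟨Xv, hXv⟩ := vbh_cf K0 C1 ww1 gg1 hW1 D'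
  obtain ⟨Xq, hXq⟩ := cf_sq K0 C1 ww1 gg1 hW1 D'
  obtain ⟨Xl, hXl⟩ := MP_log_large 4
  obtain ⟨Xm, hXm⟩ := pu_logpow A1
  refine ⟨max (max (max Xt Xs) (max Xp (max Xc Xa)))
    (max (max Xb (max Xe Xv)) (max (max Xq Xl) (max Xm 2))), fun X hX s1 s2 hs1 hs2 R => ?_⟩
  simp only [max_le_iff] at hX
  obtain ⟨⟨⟨g3, g4⟩, g5, g7, g8⟩, ⟨g9, g11, g12⟩, ⟨g13, g16⟩, g17, g18⟩ := hX
  have hXt := hXt X g3
  have hXs := hXs X g4
  have hXp := hXp X g5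
  have hXc := hXc X g7
  have hXa := hXa X g8
  have hXb := hXb X g9
  have hXe := hXe X g11
  have hXv := hXv X g12
  have hXq := hXq X g13
  have hL := hXl X g16
  have hLm := hXm X g17
  obtain ⟨w, hw⟩ : ∃ w : ℕ, w = wX D' X := ⟨_, rfl⟩
  rw [← hw] at hXs hXp hXc hXa hXv hXq ⊢
  set L : ℝ := Real.log (X : ℝ) with hLd
  have hX11 : (1 : ℝ) ≤ X := by exact_mod_cast (by omega : 1 ≤ X)
  have hX0 : (0 : ℝ) < X := by linarith
  have hL0 : 0 < L := by linarith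
  have hXz : X ≠ 0 := by omega
  -- the modulus
  obtain ⟨G, hGe⟩ : ∃ G : ℕ, G = X ^ 10 := ⟨_, rfl⟩
  have hGz : NeZero G := ⟨by rw [hGe]; positivity⟩
  have hG3 : 3 * X ≤ G := by
    rw [hGe]
    have h1 : 2 ^ 9 ≤ X ^ 9 := Nat.pow_le_pow_left g18 9
    calc 3 * X ≤ X ^ 9 * X := Nat.mul_le_mul_right X (by omega)
      _ = X ^ 10 := by ring
  have hG5 : X ^ 5 ≤ G := by
    rw [hGe]
    exact Nat.pow_le_pow_right (by omega) (by norm_num)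
  have hXG : X < G := by omega
  obtain ⟨v, err, hv, hve, herr⟩ := hXs s2 hs2
  have hvb := hXv s1 hs1 G hG3
  obtain ⟨c1, hc1⟩ : ∃ c1 : ℕ → ℝ, c1 = cfI ww1 gg1 s1 w X := ⟨_, rfl⟩
  obtain ⟨c2, hc2⟩ : ∃ c2 : ℕ → ℝ, c2 = cfI ww2 gg2 s2 w X := ⟨_, rfl⟩
  have hsq := hXq s1 hs1
  rw [← hc1] at hvb hsq
  obtain ⟨U, hU⟩ : ∃ U : ZMod G → ℂ, U = tr G X c1 := ⟨_, rfl⟩
  rw [← hU] at hvb
  obtain ⟨Ex, hEx⟩ : ∃ Ex : Finset ℕ, Ex = (Icc 1 X).filter (fun n => ∀ (Λ : ℕ) (bb : ℝ),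
      1 ≤ Λ → 1 ≤ bb → (Λ : ℝ) * bb ≤ 2 * (X : ℝ) ^ (1 - th + e) →
      (X : ℝ) / L ^ A1 < ‖PhU G X U v (wSI G th e X Λ bb) n‖) := ⟨_, rfl⟩
  refine ⟨Ex, ?_, ?_⟩
  · refine hXt G hG5 U hvb v hv Ex ?_ ?_
    · rw [hEx]
      exact Finset.filter_subset _ _
    · intro n hn Λ bb h1 h2 h3
      rw [hEx, Finset.mem_filter] at hn
      exact hn.2 Λ bb h1 h2 h3
  · intro n hn1 hn2 hnEx hgE
    have hn0 : 1 ≤ n := by omega
    have hex : ∃ (Λ : ℕ) (bb : ℝ), 1 ≤ Λ ∧ 1 ≤ bb ∧ (Λ : ℝ) * bb ≤ 2 * (X : ℝ) ^ (1 - th + e) ∧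
        ‖PhU G X U v (wSI G th e X Λ bb) n‖ ≤ (X : ℝ) / L ^ A1 := by
      by_contra hcc
      apply hnEx
      rw [hEx, Finset.mem_filter]
      refine ⟨Finset.mem_Icc.2 ⟨hn0, hn2⟩, fun Λ bb h1 h2 h3 => ?_⟩
      by_contra h4
      exact hcc ⟨Λ, bb, h1, h2, h3, not_lt.1 h4⟩
    obtain ⟨Λ, bb, hΛ, hbb, hΛb, hsmall⟩ := hex
    obtain ⟨F, hF⟩ : ∃ F : ℝ → ℂ, F = FFL ww1 gg1 s1 ww2 gg2 s2 w X n := ⟨_, rfl⟩
    have hFc : Continuous F := by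
      rw [hF]
      exact ffl_cont ww1 gg1 ww2 gg2 s1 s2 w X n
    have hFn : ∀ θ, ‖F θ‖ = ‖ES X c1 θ‖ * ‖ES X c2 θ‖ := by
      intro θ
      rw [hF, ffl_norm, hc1, hc2]
      rfl
    have hcen : ∀ (QQ : Finset ℕ) (N : ℝ), (∀ q ∈ QQ, 1 ≤ q) →
        (∀ q ∈ QQ, ∀ q' ∈ QQ, (Nat.lcm q q' : ℝ) ≤ N) → N ≤ X →
        ∑ q ∈ QQ, WtE X c2 c2 (1 / L ^ A0) q ≤ X / L ^ (2 * (A1 + 4) + 6) := by
      intro QQ N h1 h2 h3
      have h4 := hXc s2 hs2 QQ N h1 h2 h3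
      refine le_trans (le_of_eq ?_) h4
      refine Finset.sum_congr rfl fun q _ => ?_
      rw [hc2]
      exact wt_sq ww2 gg2 s2 w X (1 / L ^ A0) q
    have hcentre := hXe c1 c2 hsq F hFn hcen
    have hpl : ∀ (QQ : Finset ℕ) (N b : ℝ) (bq : ℕ → ℝ),
        (∀ q ∈ QQ, 1 ≤ q ∧ b ≤ bq q ∧ bq q ≤ 2 * b) →
        (∀ q ∈ QQ, ∀ q' ∈ QQ, (Nat.lcm q q' : ℝ) ≤ N) → (QQ.card : ℝ) ≤ (X : ℝ) ^ (e / 2) →
        1 / L ^ (A0 + 1) ≤ b → N * b ≤ (X : ℝ) ^ (1 - th + 3 / 2 * e) →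
        (L ^ K2 < b ∨ ∀ q ∈ QQ, L ^ K1 * (Nat.gcd q n : ℝ) < q) →
        ∑ q ∈ QQ, ‖∑ a ∈ rr q, ((∫ x in (bq q / X)..(2 * bq q / X), F ((a : ℝ) / q + x)) +
          ∫ x in (bq q / X)..(2 * bq q / X), F ((a : ℝ) / q - x))‖ ≤ X / L ^ (A1 + 4) := by
      rw [hF]
      exact hXp s1 s2 hs1 hs2 n hn1 hn2
    have hdisc := hXb n F hFc hpl hcentre (R n) (by
      intro QQ N ρ h1 h2 h3 h4 h5 h6
      rw [hF]
      exact hgE QQ N ρ ⟨hn1, hn2, h1, h3, h4, h5, h6⟩ h2) Λ bb hΛ hbb hΛb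
    have hph := hXa s1 s2 hs1 hs2 Λ bb hΛ hbb hΛb G (by rw [hGe]) n hn2
    rw [← hF, ← hc1, ← hc2, ← hU] at hph
    have hone := phU_one G th e X Λ n bb U c2
    have hadd := phU_add G X n U c2 v err (wSI G th e X Λ bb) (fun m hm => by
      rw [← hve m hm, hc2]
      rfl)
    have hco := phU_co G X (by omega) c1 c2 n hn2
    rw [← hU] at hco
    -- the error part
    have hcau := phU_cauchy G X U err (wSI G th e X Λ bb) (fun j => pu_wSI_le G th e X Λ bb j) n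
    have hE : nm2 G (tr G X err) ≤ X / L ^ (2 * A1 + 6) := by
      unfold nm2
      rw [parseval G X hXG]
      exact herr
    have hE0 : 0 ≤ nm2 G (tr G X err) := by
      unfold nm2
      positivity
    have hVe : ‖PhU G X U err (wSI G th e X Λ bb) n‖ ≤ X / L ^ A1 := by
      have h1 : ‖PhU G X U err (wSI G th e X Λ bb) n‖ ^ 2 ≤ (X / L ^ (A1 + 1)) ^ 2 := by
        calc ‖PhU G X U err (wSI G th e X Λ bb) n‖ ^ 2 ≤ nm2 G U * nm2 G (tr G X err) := hcau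
          _ ≤ (X * L ^ 4) * (X / L ^ (2 * A1 + 6)) := mul_le_mul hvb.1 hE hE0 (by positivity)
          _ = (X / L ^ (A1 + 1)) ^ 2 := by
              have h2 : L ^ (2 * A1 + 6) = L ^ 4 * (L ^ (A1 + 1)) ^ 2 := by
                rw [← pow_mul, ← pow_add]
                congr 1
                ring
              rw [h2]
              field_simp
      have h3 : ‖PhU G X U err (wSI G th e X Λ bb) n‖ ≤ X / L ^ (A1 + 1) :=
        (sq_le_sq₀ (norm_nonneg _) (by positivity)).1 h1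
      refine h3.trans ?_
      exact div_le_div_of_nonneg_left hX0.le (by positivity)
        (pow_le_pow_right₀ (by linarith) (by omega))
    have hE1 : 1 ≤ X / L ^ A1 := by
      rw [le_div_iff₀ (by positivity), one_mul]
      exact hLm
    have htot : ‖PhU G X U c2 (fun _ => 1) n‖ ≤ 4 * (X / L ^ A1) + R n := by
      rw [hone, hadd]
      have h5 : ‖PhU G X U c2 (fun j => 1 - wSI G th e X Λ bb j) n‖ ≤
          1 + (X / L ^ A1 + R n) := by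
        have h6 : PhU G X U c2 (fun j => 1 - wSI G th e X Λ bb j) n =
            (PhU G X U c2 (fun j => 1 - wSI G th e X Λ bb j) n -
              ∑ q ∈ QQi th e X Λ, dsc F X q (rdi th e X Λ bb q)) +
            ∑ q ∈ QQi th e X Λ, dsc F X q (rdi th e X Λ bb q) := by ring
        rw [h6]
        exact (norm_add_le _ _).trans (add_le_add hph hdisc)
      refine (norm_add_le _ _).trans ?_
      have h7 := norm_add_le (PhU G X U v (wSI G th e X Λ bb) n)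
        (PhU G X U err (wSI G th e X Λ bb) n)
      linarith
    rw [hco, Complex.norm_real, Real.norm_eq_abs] at htot
    have hcv : cvv (fun m => ww1 X m + s1 * fI gg1 X w m) (fun m => ww2 X m + s2 * fI gg2 X w m) n =
        cvv c1 c2 n := by rw [hc1, hc2]; rfl
    rw [hcv]
    refine htot.trans (add_le_add ?_ le_rfl)
    have h8 : L ^ A1 = L ^ 2 * L ^ A := by
      rw [hA1]
      ring
    rw [h8, mul_div_assoc', div_le_div_iff₀ (by positivity) (by positivity)]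
    have h9 : 4 ≤ L ^ 2 := by nlinarith
    have h10 : 0 ≤ X * L ^ A := by positivity
    calc 4 * (X : ℝ) * L ^ A = 4 * (X * L ^ A) := by ring
      _ ≤ L ^ 2 * (X * L ^ A) := mul_le_mul_of_nonneg_right h9 h10
      _ = X * (L ^ 2 * L ^ A) := by ring

/-- (PLUG-IN) -/
theorem plugE : PlugE :=
  plug_e Pool.MP_dd84fd_nt.JX.strWJ tree_l_all Pool.MP_dd84fd_nt.LXP.plL centre_l

end Pool.MP_dd84fd_nt.DX
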