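import Pool.Agent.Lib.MP_dd84fd_nt.DX.Defs
import Pool.Agent.Lib.BV.LSChar
import Pool.Agent.Lib.BV.DivMom

/-!
# DX-Cnt1: few primitive characters have a large sum over the primes `p ≤ y`

`j = 23`, `N = y^23 ≥ (X^(1/11)/2)^23 ≥ X²`.  `(prS ψ y)^23 = ∑_(n ≤ N) a_n ψ(n)`, `a_n` the number of 23-tuples of primes `≤ y` with
product `n`, `0 ≤ a_n ≤ τ(n)^23` (each entry is a divisor); as in `JX/LvPow.lean` (`bb`, `pow_expand`, `bb_le` with `M = 1`, `t = 0`: copy).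
`Pool.BV.ls_char` with `Q = X`: `∑_(2 ≤ r ≤ X) ∑_(ψ ∈ prim r) |prS ψ y|^46 ≤ 13 (X² + N) ∑_(n ≤ N) a_n²` (`r/φ(r) ≥ 1`), and
`∑_(n ≤ N) a_n² ≤ ∑ τ(n)^46 ≤ N (1 + log N)^C1` (`Pool.BV.div_mom 46`).  Every `ψ ∈ S r` contributes `≥ (y/(2 L^B))^46 = N² / (2 L^B)^46`:
`#≤ 26 (2 L^B)^46 (1 + 23 L)^C1 ≤ L^C`.
-/

set_option autoImplicit false

namespace Pool.MP_dd84fd_nt.DX

open Finset

/-- the number of `k`-tuples of primes `≤ y` with product `n` -/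
private noncomputable def cnA (k y n : ℕ) : ℕ :=
  ((Fintype.piFinset (fun _ : Fin k => (Icc 1 y).filter Nat.Prime)).filter
    (fun p => ∏ i, p i = n)).card

private theorem cn_pow (k y : ℕ) {r : ℕ} (ψ : DirichletCharacter ℂ r) :
    (prS ψ y) ^ k = ∑ n ∈ Icc 1 (y ^ k), (cnA k y n : ℂ) * ψ (n : ZMod r) := by
  classical
  have h1 : (prS ψ y) ^ k =
      ∏ _i : Fin k, ∑ p ∈ (Icc 1 y).filter Nat.Prime, ψ (p : ZMod r) := by
    rw [Finset.prod_const, Finset.card_univ, Fintype.card_fin, prS]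
  rw [h1, Finset.prod_univ_sum]
  have h2 : ∀ p ∈ Fintype.piFinset (fun _ : Fin k => (Icc 1 y).filter Nat.Prime),
      ∏ i, ψ ((p i : ℕ) : ZMod r) = ψ (((∏ i, p i : ℕ)) : ZMod r) := by
    intro p _
    rw [Nat.cast_prod, map_prod]
  rw [Finset.sum_congr rfl h2]
  have h3 : ∀ p ∈ Fintype.piFinset (fun _ : Fin k => (Icc 1 y).filter Nat.Prime),
      (∏ i, p i) ∈ Icc 1 (y ^ k) := by
    intro p hp
    rw [Fintype.mem_piFinset] at hp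
    have h4 : ∀ i, 1 ≤ p i ∧ p i ≤ y := fun i => Finset.mem_Icc.1 (Finset.mem_filter.1 (hp i)).1
    rw [Finset.mem_Icc]
    constructor
    · exact Nat.succ_le_of_lt (Finset.prod_pos fun i _ => (h4 i).1)
    · calc ∏ i, p i ≤ ∏ _i : Fin k, y := Finset.prod_le_prod' fun i _ => (h4 i).2
        _ = y ^ k := by rw [Finset.prod_const, Finset.card_univ, Fintype.card_fin]
  rw [← Finset.sum_fiberwise_of_maps_to h3]
  refine Finset.sum_congr rfl fun n _ => ?_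
  rw [Finset.sum_congr rfl (g := fun _ => ψ (n : ZMod r))
    (fun p hp => by rw [(Finset.mem_filter.1 hp).2]), Finset.sum_const, nsmul_eq_mul, cnA]

private theorem cn_le (k y n : ℕ) (hn : n ≠ 0) : cnA k y n ≤ n.divisors.card ^ k := by
  classical
  have h2 : (Fintype.piFinset (fun _ : Fin k => (Icc 1 y).filter Nat.Prime)).filter
      (fun p => ∏ i, p i = n) ⊆ Fintype.piFinset (fun _ : Fin k => n.divisors) := by
    intro p hp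
    rw [Fintype.mem_piFinset]
    intro i
    rw [Nat.mem_divisors]
    refine ⟨?_, hn⟩
    rw [← (Finset.mem_filter.1 hp).2]
    exact Finset.dvd_prod_of_mem _ (Finset.mem_univ i)
  have h3 := Finset.card_le_card h2
  rwa [Fintype.card_piFinset_const] at h3

private theorem cn_sum (k X y : ℕ) :
    ∑ r ∈ Icc 2 X, ∑ ψ ∈ Pool.BV.prim r, ‖prS ψ y‖ ^ (2 * k) ≤
      13 * ((X : ℝ) ^ 2 + ((y ^ k : ℕ) : ℝ)) *
        ∑ n ∈ Icc 1 (y ^ k), (n.divisors.card : ℝ) ^ (2 * k) := by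
  have h1 := Pool.BV.ls_char X (y ^ k) (fun n => (cnA k y n : ℂ))
  have h2 : ∑ r ∈ Icc 2 X, ∑ ψ ∈ Pool.BV.prim r, ‖prS ψ y‖ ^ (2 * k) ≤
      ∑ q ∈ Icc 2 X, (q : ℝ) / Nat.totient q * ∑ χ ∈ Pool.BV.prim q,
        ‖∑ n ∈ Icc 1 (y ^ k), (cnA k y n : ℂ) * χ n‖ ^ 2 := by
    refine Finset.sum_le_sum fun q hq => ?_
    have hq2 : 2 ≤ q := (Finset.mem_Icc.1 hq).1
    have e1 : ∀ χ ∈ Pool.BV.prim q, ‖prS χ y‖ ^ (2 * k) =
        ‖∑ n ∈ Icc 1 (y ^ k), (cnA k y n : ℂ) * χ n‖ ^ 2 := by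
      intro χ _
      rw [← cn_pow, norm_pow, ← pow_mul, mul_comm]
    rw [Finset.sum_congr rfl e1]
    have e2 : (0 : ℝ) ≤ ∑ χ ∈ Pool.BV.prim q,
        ‖∑ n ∈ Icc 1 (y ^ k), (cnA k y n : ℂ) * χ n‖ ^ 2 :=
      Finset.sum_nonneg fun _ _ => by positivity
    have e3 : (1 : ℝ) ≤ (q : ℝ) / Nat.totient q := by
      have t1 : 0 < Nat.totient q := Nat.totient_pos.2 (by omega)
      rw [one_le_div (by exact_mod_cast t1)]
      exact_mod_cast Nat.totient_le q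
    nlinarith
  refine h2.trans (h1.trans ?_)
  refine mul_le_mul_of_nonneg_left ?_ (by positivity)
  refine Finset.sum_le_sum fun n hn => ?_
  have hn1 : n ≠ 0 := by
    have := (Finset.mem_Icc.1 hn).1
    omega
  have e4 : ‖((cnA k y n : ℕ) : ℂ)‖ ≤ (n.divisors.card : ℝ) ^ k := by
    rw [Complex.norm_natCast]
    exact_mod_cast cn_le k y n hn1
  calc ‖((cnA k y n : ℕ) : ℂ)‖ ^ 2 ≤ ((n.divisors.card : ℝ) ^ k) ^ 2 :=
        pow_le_pow_left₀ (norm_nonneg _) e4 2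
    _ = (n.divisors.card : ℝ) ^ (2 * k) := by rw [← pow_mul, mul_comm]

theorem cnt_y (B : ℕ) : ∃ C X0 : ℕ, ∀ X : ℕ, X0 ≤ X → ∀ y : ℕ, (X : ℝ) ^ (1 / 11 : ℝ) / 2 ≤ y →
    y ≤ X → ∀ S : (r : ℕ) → Finset (DirichletCharacter ℂ r),
    (∀ r ∈ Icc 2 X, ∀ ψ ∈ S r, ψ.IsPrimitive ∧ (y : ℝ) / (2 * (Real.log X) ^ B) ≤ ‖prS ψ y‖) →
    ∑ r ∈ Icc 2 X, ((S r).card : ℝ) ≤ (Real.log X) ^ C := by
  obtain ⟨C1, hC1⟩ := Pool.BV.div_mom 46
  refine ⟨46 * B + C1 + (51 + 5 * C1), 2 ^ 253, ?_⟩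
  intro X hX y hy hyX S hS
  set L := Real.log X with hL
  have hXr : (2 : ℝ) ^ 253 ≤ X := by exact_mod_cast hX
  have hX1 : (1 : ℝ) ≤ X := le_trans (by norm_num) hXr
  have hX0 : (0 : ℝ) < X := by linarith
  have hL2 : (2 : ℝ) ≤ L := by
    have h1 : Real.log ((2 : ℝ) ^ 253) ≤ L := Real.log_le_log (by positivity) hXr
    rw [Real.log_pow] at h1
    have h2 := Real.log_two_gt_d9
    push_cast at h1
    linarith
  have hL0 : (0 : ℝ) < L := by linarith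
  -- `y ≥ 2^22`
  have hx11 : (2 : ℝ) ^ 23 ≤ (X : ℝ) ^ (1 / 11 : ℝ) := by
    have h1 : ((2 : ℝ) ^ 253) ^ (1 / 11 : ℝ) ≤ (X : ℝ) ^ (1 / 11 : ℝ) :=
      Real.rpow_le_rpow (by positivity) hXr (by norm_num)
    have h2 : ((2 : ℝ) ^ 253) ^ (1 / 11 : ℝ) = (2 : ℝ) ^ 23 := by
      rw [← Real.rpow_natCast, ← Real.rpow_mul (by norm_num), ← Real.rpow_natCast]
      norm_num
    rwa [h2] at h1
  have hy0 : (0 : ℝ) < y := by
    have : (0 : ℝ) < (X : ℝ) ^ (1 / 11 : ℝ) / 2 := by positivity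
    linarith
  have hyn : 0 < y := by exact_mod_cast hy0
  -- `N ≥ X^2`
  have hN : (X : ℝ) ^ 2 ≤ ((y ^ 23 : ℕ) : ℝ) := by
    have h1 : ((X : ℝ) ^ (1 / 11 : ℝ) / 2) ^ 23 ≤ (y : ℝ) ^ 23 :=
      pow_le_pow_left₀ (by positivity) hy 23
    have h2 : ((X : ℝ) ^ (1 / 11 : ℝ)) ^ 22 = (X : ℝ) ^ 2 := by
      rw [← Real.rpow_natCast, ← Real.rpow_mul hX0.le, ← Real.rpow_natCast]
      norm_num
    have h3 : (X : ℝ) ^ 2 ≤ ((X : ℝ) ^ (1 / 11 : ℝ) / 2) ^ 23 := by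
      have e1 : ((X : ℝ) ^ (1 / 11 : ℝ) / 2) ^ 23 =
          ((X : ℝ) ^ (1 / 11 : ℝ)) ^ 22 * ((X : ℝ) ^ (1 / 11 : ℝ) / 2 ^ 23) := by ring
      rw [e1, h2]
      have e2 : (1 : ℝ) ≤ (X : ℝ) ^ (1 / 11 : ℝ) / 2 ^ 23 := by
        rw [one_le_div (by positivity)]
        exact hx11
      have e3 : (0 : ℝ) ≤ (X : ℝ) ^ 2 := by positivity
      nlinarith
    push_cast
    linarith
  set N : ℕ := y ^ 23 with hNdef
  have hN1 : 1 ≤ N := Nat.one_le_pow _ _ hyn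
  have hNr : (0 : ℝ) < (N : ℝ) := by exact_mod_cast hN1
  have hlogN : Real.log N ≤ 23 * L := by
    rw [hNdef, Nat.cast_pow, Real.log_pow]
    have : Real.log y ≤ L := Real.log_le_log hy0 (by exact_mod_cast hyX)
    push_cast
    linarith
  have hlogN0 : 0 ≤ Real.log N := Real.log_nonneg (by exact_mod_cast hN1)
  have hsum := cn_sum 23 X y
  rw [← hNdef] at hsum
  norm_num only at hsum
  have hdm := (hC1 N hN1).1
  -- lower bound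
  set V : ℝ := (y : ℝ) / (2 * L ^ B) with hV
  have hV0 : 0 < V := by positivity
  have hlow : (∑ r ∈ Icc 2 X, ((S r).card : ℝ)) * V ^ 46 ≤
      ∑ r ∈ Icc 2 X, ∑ ψ ∈ Pool.BV.prim r, ‖prS ψ y‖ ^ 46 := by
    rw [Finset.sum_mul]
    refine Finset.sum_le_sum fun r hr => ?_
    have hsub : S r ⊆ Pool.BV.prim r := by
      intro ψ hψ
      rw [Pool.BV.mem_prim]
      exact (hS r hr ψ hψ).1
    calc ((S r).card : ℝ) * V ^ 46 = ∑ ψ ∈ S r, V ^ 46 := by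
          rw [Finset.sum_const, nsmul_eq_mul]
      _ ≤ ∑ ψ ∈ S r, ‖prS ψ y‖ ^ 46 :=
          Finset.sum_le_sum fun ψ hψ => pow_le_pow_left₀ hV0.le (hS r hr ψ hψ).2 46
      _ ≤ ∑ ψ ∈ Pool.BV.prim r, ‖prS ψ y‖ ^ 46 :=
          Finset.sum_le_sum_of_subset_of_nonneg hsub fun _ _ _ => by positivity
  have hup : 13 * ((X : ℝ) ^ 2 + (N : ℝ)) * ∑ n ∈ Icc 1 N, (n.divisors.card : ℝ) ^ 46 ≤
      26 * (N : ℝ) ^ 2 * (24 * L) ^ C1 := by
    have e1 : (1 + Real.log N) ^ C1 ≤ (24 * L) ^ C1 :=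
      pow_le_pow_left₀ (by linarith) (by linarith) C1
    have e2 : ∑ n ∈ Icc 1 N, (n.divisors.card : ℝ) ^ 46 ≤ N * (24 * L) ^ C1 :=
      hdm.trans (mul_le_mul_of_nonneg_left e1 hNr.le)
    calc 13 * ((X : ℝ) ^ 2 + (N : ℝ)) * ∑ n ∈ Icc 1 N, (n.divisors.card : ℝ) ^ 46
        ≤ (26 * (N : ℝ)) * (N * (24 * L) ^ C1) := by
          refine mul_le_mul (by linarith) e2 (Finset.sum_nonneg fun _ _ => by positivity)
            (by positivity)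
      _ = _ := by ring
  have hmain : (∑ r ∈ Icc 2 X, ((S r).card : ℝ)) * V ^ 46 ≤ 26 * (N : ℝ) ^ 2 * (24 * L) ^ C1 :=
    hlow.trans (hsum.trans hup)
  have hV46 : V ^ 46 = (N : ℝ) ^ 2 / (2 * L ^ B) ^ 46 := by
    rw [hV, div_pow, hNdef]
    congr 1
    push_cast
    ring
  rw [hV46] at hmain
  have hpos : (0 : ℝ) < (2 * L ^ B) ^ 46 := by positivity
  have hN2 : (0 : ℝ) < (N : ℝ) ^ 2 := by positivity
  have hfin : (∑ r ∈ Icc 2 X, ((S r).card : ℝ)) ≤ 26 * (24 * L) ^ C1 * (2 * L ^ B) ^ 46 := by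
    rw [mul_div_assoc', div_le_iff₀ hpos] at hmain
    have e1 : (∑ r ∈ Icc 2 X, ((S r).card : ℝ)) * (N : ℝ) ^ 2 ≤
        (26 * (24 * L) ^ C1 * (2 * L ^ B) ^ 46) * (N : ℝ) ^ 2 := by
      calc (∑ r ∈ Icc 2 X, ((S r).card : ℝ)) * (N : ℝ) ^ 2 ≤
          26 * (N : ℝ) ^ 2 * (24 * L) ^ C1 * (2 * L ^ B) ^ 46 := hmain
        _ = _ := by ring
    exact le_of_mul_le_mul_right e1 hN2
  refine hfin.trans ?_
  have e5 : 26 * (24 * L) ^ C1 * (2 * L ^ B) ^ 46 =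
      (26 * 2 ^ 46 * 24 ^ C1) * (L ^ (46 * B) * L ^ C1) := by
    rw [mul_pow, mul_pow, ← pow_mul, mul_comm B 46]
    ring
  have e6 : (26 * 2 ^ 46 * 24 ^ C1 : ℝ) ≤ L ^ (51 + 5 * C1) := by
    have f1 : (24 : ℝ) ^ C1 ≤ 2 ^ (5 * C1) := by
      rw [pow_mul]
      exact pow_le_pow_left₀ (by norm_num) (by norm_num) C1
    have f2 : (2 : ℝ) ^ (51 + 5 * C1) ≤ L ^ (51 + 5 * C1) :=
      pow_le_pow_left₀ (by norm_num) hL2 _
    have f3 : (26 * 2 ^ 46 * 24 ^ C1 : ℝ) ≤ 2 ^ (51 + 5 * C1) := by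
      rw [pow_add]
      refine mul_le_mul (by norm_num) f1 (by positivity) (by positivity)
    exact f3.trans f2
  rw [e5]
  calc (26 * 2 ^ 46 * 24 ^ C1 : ℝ) * (L ^ (46 * B) * L ^ C1) ≤
      L ^ (51 + 5 * C1) * (L ^ (46 * B) * L ^ C1) :=
        mul_le_mul_of_nonneg_right e6 (by positivity)
    _ = L ^ (46 * B + C1 + (51 + 5 * C1)) := by
        rw [pow_add, pow_add]
        ring

end Pool.MP_dd84fd_nt.DX
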