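import Pool.Agent.Lib.MP_dd84fd_nt.DX.Cnt1

/-!
# DX-Cnt2: there are few bad characters

`BadC B X ψ`: `|prS ψ y| > y/L^B` for some `X^(1/11) ≤ y ≤ X`.  Grid: `G = {y_i = ⌊X^(1/11) (1 + 1/(4 L^B))^i⌋ , i ≤ I}`, `I ≤ L^(B+3)`, the last
one `≥ X` replaced by what is needed (or: `G` = set of the `⌊exp(i/(8 L^B))⌋₊`, `i ≤ 8 L^(B+1)`, which are in `[X^(1/11)/2, X]`): for every
`y` there is `y' ∈ G`, `y' ≤ y`, `y - y' ≤ y/(4 L^B) + 1 ≤ y/(2 L^B)` (`y ≥ X^(1/11)` is large), `y' ≥ X^(1/11)/2`; then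
`|prS ψ y'| ≥ |prS ψ y| - (y - y') ≥ y/(2 L^B) ≥ y'/(2 L^B)`.  So `S r ⊆ ⋃_(y' ∈ G) S_(y') r` with the filtered sets; `cnt_y` for each `y'`.
-/

set_option autoImplicit false

namespace Pool.MP_dd84fd_nt.DX

open Finset

private theorem Cnt2_step {r : ℕ} (ψ : DirichletCharacter ℂ r) {y y' : ℕ} (h : y' ≤ y) :
    ‖prS ψ y‖ ≤ ‖prS ψ y'‖ + ((y : ℝ) - y') := by
  have h1 : (Icc 1 y).filter Nat.Prime =
      (Icc 1 y').filter Nat.Prime ∪ (Ioc y' y).filter Nat.Prime := by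
    ext p
    simp only [mem_filter, mem_Icc, mem_union, mem_Ioc]
    constructor
    · rintro ⟨⟨h1, h2⟩, h3⟩
      by_cases h4 : p ≤ y'
      · exact Or.inl ⟨⟨h1, h4⟩, h3⟩
      · exact Or.inr ⟨⟨by omega, h2⟩, h3⟩
    · rintro (⟨⟨h1, h2⟩, h3⟩ | ⟨⟨h1, h2⟩, h3⟩)
      · exact ⟨⟨h1, by omega⟩, h3⟩
      · exact ⟨⟨by omega, h2⟩, h3⟩
  have h2 : Disjoint ((Icc 1 y').filter Nat.Prime) ((Ioc y' y).filter Nat.Prime) := by
    rw [Finset.disjoint_left]
    intro p hp hq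
    simp only [mem_filter, mem_Icc, mem_Ioc] at hp hq
    omega
  unfold prS
  rw [h1, sum_union h2]
  refine (norm_add_le _ _).trans (add_le_add le_rfl ?_)
  refine (norm_sum_le _ _).trans ?_
  calc ∑ p ∈ (Ioc y' y).filter Nat.Prime, ‖ψ (p : ZMod r)‖
      ≤ ∑ p ∈ (Ioc y' y).filter Nat.Prime, (1 : ℝ) :=
        sum_le_sum fun p _ => DirichletCharacter.norm_le_one ψ _
    _ = (((Ioc y' y).filter Nat.Prime).card : ℝ) := by simp
    _ ≤ ((Ioc y' y).card : ℝ) := by exact_mod_cast card_filter_le _ _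
    _ = (y : ℝ) - y' := by rw [Nat.card_Ioc, Nat.cast_sub h]

/-- the grid -/
private theorem Cnt2_grid {K : ℕ} (hK : 1 ≤ K) (y : ℕ) :
    ∃ a j : ℕ, a < 2 * K ∧ j ≤ Nat.log 2 y ∧ a * 2 ^ j ≤ y ∧
      (y : ℝ) - ((a * 2 ^ j : ℕ) : ℝ) ≤ y / K := by
  have hK0 : (0 : ℝ) < K := by exact_mod_cast hK
  by_cases h : y / K = 0
  · have h1 : y < K := by
      rcases Nat.div_eq_zero_iff.mp h with h2 | h2
      · omega
      · exact h2
    refine ⟨y, 0, by omega, Nat.zero_le _, by simp, ?_⟩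
    simp only [pow_zero, mul_one, sub_self]
    positivity
  · set j := Nat.log 2 (y / K) with hj
    have h1 : 2 ^ j ≤ y / K := Nat.pow_log_le_self 2 h
    have h2 : y / K < 2 ^ (j + 1) := Nat.lt_pow_succ_log_self (by norm_num) _
    have h3 : y < 2 ^ (j + 1) * K := (Nat.div_lt_iff_lt_mul (by omega)).mp h2
    have hp : 0 < 2 ^ j := by positivity
    refine ⟨y / 2 ^ j, j, ?_, Nat.log_mono_right (Nat.div_le_self _ _), Nat.div_mul_le_self _ _, ?_⟩
    · rw [Nat.div_lt_iff_lt_mul hp]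
      calc y < 2 ^ (j + 1) * K := h3
        _ = 2 * K * 2 ^ j := by ring
    · have h4 : y = y / 2 ^ j * 2 ^ j + y % 2 ^ j := by
        have := Nat.div_add_mod y (2 ^ j)
        rw [mul_comm] at this
        exact this.symm
      have h5 : y % 2 ^ j < 2 ^ j := Nat.mod_lt _ hp
      have h6 : y - y / 2 ^ j * 2 ^ j ≤ y / K := by omega
      have h7 : ((y / K : ℕ) : ℝ) ≤ (y : ℝ) / K := Nat.cast_div_le
      have h8 : (y : ℝ) - ((y / 2 ^ j * 2 ^ j : ℕ) : ℝ) = ((y - y / 2 ^ j * 2 ^ j : ℕ) : ℝ) := by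
        rw [Nat.cast_sub (Nat.div_mul_le_self _ _)]
      rw [h8]
      exact (by exact_mod_cast h6 : ((y - y / 2 ^ j * 2 ^ j : ℕ) : ℝ) ≤ ((y / K : ℕ) : ℝ)).trans h7

theorem cnt_bad (B : ℕ) : ∃ C X0 : ℕ, ∀ X : ℕ, X0 ≤ X →
    ∀ S : (r : ℕ) → Finset (DirichletCharacter ℂ r),
    (∀ r ∈ Icc 2 X, ∀ ψ ∈ S r, ψ.IsPrimitive ∧ BadC B X ψ) →
    ∑ r ∈ Icc 2 X, ((S r).card : ℝ) ≤ (Real.log X) ^ C := by
  classical
  obtain ⟨C, X0, h⟩ := cnt_y B
  refine ⟨C + B + 2, max X0 ⌈Real.exp 30⌉₊, fun X hX S hS => ?_⟩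
  have hX1 : X0 ≤ X := (le_max_left _ _).trans hX
  have hX2 : Real.exp 30 ≤ X := (Nat.le_ceil _).trans (by exact_mod_cast (le_max_right _ _).trans hX)
  have hXpos : (0 : ℝ) < X := (Real.exp_pos _).trans_le hX2
  set L := Real.log X with hLdef
  have hL : 30 ≤ L := by
    rw [hLdef, Real.le_log_iff_exp_le hXpos]
    exact hX2
  have hL0 : 0 < L := by linarith
  have hLB : 1 ≤ L ^ B := one_le_pow₀ (by linarith)
  set K := ⌈4 * L ^ B⌉₊ with hK
  have hK1 : 4 * L ^ B ≤ K := Nat.le_ceil _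
  have hK2 : (K : ℝ) ≤ 5 * L ^ B := by
    have := (Nat.ceil_lt_add_one (show (0 : ℝ) ≤ 4 * L ^ B by positivity)).le
    rw [← hK] at this
    linarith
  have hK3 : 1 ≤ K := by
    have : (1 : ℝ) ≤ K := by linarith
    exact_mod_cast this
  have hK0 : (0 : ℝ) < K := by exact_mod_cast hK3
  set J := Nat.log 2 X + 1 with hJ
  have hJ1 : (J : ℝ) ≤ 3 * L := by
    have h1 : (Nat.log 2 X : ℝ) ≤ Real.log X / Real.log 2 := by
      have := Real.natLog_le_logb X 2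
      rwa [Real.logb] at this
    have h2 : 0.6931471803 < Real.log 2 := Real.log_two_gt_d9
    have h3 : Real.log X / Real.log 2 ≤ 2 * L := by
      rw [div_le_iff₀ (by linarith)]
      nlinarith
    rw [hJ]
    push_cast
    linarith
  set T : ℕ → (r : ℕ) → Finset (DirichletCharacter ℂ r) := fun y' r =>
    (S r).filter fun ψ => (X : ℝ) ^ (1 / 11 : ℝ) / 2 ≤ y' ∧ y' ≤ X ∧
      (y' : ℝ) / (2 * L ^ B) ≤ ‖prS ψ y'‖ with hT
  have hTc : ∀ y' : ℕ, ∑ r ∈ Icc 2 X, ((T y' r).card : ℝ) ≤ L ^ C := by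
    intro y'
    by_cases hy : (X : ℝ) ^ (1 / 11 : ℝ) / 2 ≤ y' ∧ y' ≤ X
    · refine h X hX1 y' hy.1 hy.2 (T y') fun r hr ψ hψ => ?_
      simp only [hT, mem_filter] at hψ
      exact ⟨(hS r hr ψ hψ.1).1, hψ.2.2.2⟩
    · have h1 : ∀ r ∈ Icc 2 X, ((T y' r).card : ℝ) = 0 := by
        intro r _
        have h2 : T y' r = ∅ := by
          simp only [hT]
          rw [Finset.filter_eq_empty_iff]
          rintro ψ _ ⟨h3, h4, _⟩
          exact hy ⟨h3, h4⟩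
        rw [h2]
        simp
      rw [sum_congr rfl h1, sum_const_zero]
      positivity
  have hcov : ∀ r ∈ Icc 2 X, S r ⊆ (range (2 * K) ×ˢ range J).biUnion
      fun p => T (p.1 * 2 ^ p.2) r := by
    intro r hr ψ hψ
    obtain ⟨-, y, hy1, hy2, hy3⟩ := hS r hr ψ hψ
    obtain ⟨a, j, ha, hj, haj, hd⟩ := Cnt2_grid hK3 y
    rw [mem_biUnion]
    refine ⟨(a, j), ?_, ?_⟩
    · rw [mem_product, mem_range, mem_range]
      refine ⟨ha, ?_⟩
      have : Nat.log 2 y ≤ Nat.log 2 X := Nat.log_mono_right hy2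
      show j < J
      omega
    · simp only [hT, mem_filter]
      have hy0 : (0 : ℝ) ≤ y := Nat.cast_nonneg _
      have h1 : (y : ℝ) / K ≤ y / (4 * L ^ B) := by
        gcongr
      have h2 := Cnt2_step ψ haj
      have h3 : (y : ℝ) / (4 * L ^ B) ≤ y / 4 := by
        apply div_le_div_of_nonneg_left hy0 (by norm_num)
        linarith
      have h4 : (y : ℝ) / (4 * L ^ B) = (y / L ^ B) / 4 := by
        field_simp
      refine ⟨hψ, ?_, haj.trans hy2, ?_⟩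
      · linarith
      · have h5 : ((a * 2 ^ j : ℕ) : ℝ) / (2 * L ^ B) ≤ y / L ^ B / 2 := by
          have h6 : ((a * 2 ^ j : ℕ) : ℝ) ≤ y := by exact_mod_cast haj
          rw [div_div, mul_comm (L ^ B)]
          gcongr
        have h7 : 0 ≤ (y : ℝ) / L ^ B := by positivity
        linarith
  calc ∑ r ∈ Icc 2 X, ((S r).card : ℝ)
      ≤ ∑ r ∈ Icc 2 X, ∑ p ∈ range (2 * K) ×ˢ range J, ((T (p.1 * 2 ^ p.2) r).card : ℝ) := by
        refine sum_le_sum fun r hr => ?_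
        have h1 := (card_le_card (hcov r hr)).trans card_biUnion_le
        exact_mod_cast h1
    _ = ∑ p ∈ range (2 * K) ×ˢ range J, ∑ r ∈ Icc 2 X, ((T (p.1 * 2 ^ p.2) r).card : ℝ) :=
        sum_comm
    _ ≤ ∑ p ∈ range (2 * K) ×ˢ range J, L ^ C := sum_le_sum fun p _ => hTc _
    _ = (2 * K * J : ℝ) * L ^ C := by
        rw [sum_const, card_product, card_range, card_range, nsmul_eq_mul]
        push_cast
        ring
    _ ≤ (L ^ (B + 2)) * L ^ C := by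
        gcongr
        calc (2 * K * J : ℝ) ≤ 2 * (5 * L ^ B) * (3 * L) := by gcongr
          _ = 30 * L ^ (B + 1) := by ring
          _ ≤ L * L ^ (B + 1) := by gcongr
          _ = L ^ (B + 2) := by ring
    _ = L ^ (C + B + 2) := by ring

end Pool.MP_dd84fd_nt.DX
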