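import Pool.Agent.Lib.MP_dd84fd_nt.DX.SWb
import Pool.Agent.Lib.MP_dd84fd_nt.DX.Cnt2

/-!
# DX-DSet: the exceptional moduli

`C0` of `cnt_bad Bb`; `C = C0 + K1 + Bb + 1`.  `D =` the `d ∈ Icc 1 ⌊R⌋₊` with `L^K ≤ d` for which there are `1 ≤ h`, `h ≤ L^K1` with
`d h ≤ X` and a bad primitive `ψ` modulo `d h`, `d h ≥ 2`.  Card: `d ↦ (d h, h)` is injective into pairs `(r, h)`, `r` with `S r ≠ ∅`
(`S r` = the bad primitive characters, all of `Icc 2 X`), so `#D ≤ L^C0 · L^K1`.  `ExD C X d`: `h ≤ L^K1 ≤ L^C`, `BadC Bb X ψ → BadC C X ψ`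
(`Bb ≤ C`, `log X ≥ 1`).
Let `n` be not divisible by any `d ∈ D`, `q ≤ R`, `q ≤ L^K1 (q,n)`, `χ ≠ 1` modulo `q`, `r` its conductor (`r ∣ q`, `r ≥ 2`, `r ≤ q ≤ R ≤ X`),
`ψ = χ.primitiveCharacter` bad; `ψ ≠ 1` as `r ≥ 2` is its conductor.  By `sw_bad Bb (K + K1)`: `r > L^(K+K1)`.  `d := (r, n)`, `h := r/d`: `h ∣ q/(q,n)`
(`r/(r,n)` divides `q/(q,n)` if `r ∣ q`: prime by prime, or: `q/(q,n)` is the least `t ≥ 1` with `q ∣ t n`, and `r ∣ q ∣ t n`, so
`r/(r,n) ∣ t`), so `h ≤ L^K1`, `d = r/h ≥ L^K`, `d ∣ n`, `d ≤ R`: `d ∈ D`, a contradiction.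
-/

set_option autoImplicit false

namespace Pool.MP_dd84fd_nt.DX

open Finset

/-- the bad primitive characters -/
private noncomputable def dsS (B X : ℕ) (r : ℕ) : Finset (DirichletCharacter ℂ r) :=
  open Classical in
  if h : r = 0 then ∅ else
    haveI : NeZero r := ⟨h⟩
    univ.filter (fun ψ => ψ.IsPrimitive ∧ BadC B X ψ)

private theorem mem_dsS {B X r : ℕ} (hr : r ≠ 0) (ψ : DirichletCharacter ℂ r) :
    ψ ∈ dsS B X r ↔ ψ.IsPrimitive ∧ BadC B X ψ := by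
  classical
  unfold dsS
  rw [dif_neg hr]
  simp

theorem dset_e : DSetE := by
  classical
  intro Bb K1
  obtain ⟨C0, X1, hcnt⟩ := cnt_bad Bb
  refine ⟨C0 + K1 + Bb + 1, fun K => ?_⟩
  obtain ⟨X2, hsw⟩ := sw_bad Bb (K + K1)
  refine ⟨max (max X1 X2) 3, fun X hX R hR => ?_⟩
  have hX1 : X1 ≤ X := le_trans (le_trans (le_max_left _ _) (le_max_left _ _)) hX
  have hX2 : X2 ≤ X := le_trans (le_trans (le_max_right _ _) (le_max_left _ _)) hX
  have hX3 : 3 ≤ X := le_trans (le_max_right _ _) hX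
  set L := Real.log X with hL
  have hL1 : 1 ≤ L := by
    have h3 : Real.exp 1 ≤ (X : ℝ) := by
      have := Real.exp_one_lt_d9
      have h4 : (3 : ℝ) ≤ (X : ℝ) := by exact_mod_cast hX3
      linarith
    rw [hL, Real.le_log_iff_exp_le (by linarith [Real.exp_pos 1])]
    exact h3
  have hL0 : 0 < L := by linarith
  -- the pairs
  let T : Finset (ℕ × ℕ) := (((Icc 2 X).filter (fun r => (dsS Bb X r).Nonempty)) ×ˢ
    (Icc 1 ⌊L ^ K1⌋₊)).filter (fun rh => rh.2 ∣ rh.1 ∧ L ^ K ≤ ((rh.1 / rh.2 : ℕ) : ℝ) ∧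
      ((rh.1 / rh.2 : ℕ) : ℝ) ≤ R)
  refine ⟨T.image (fun rh => rh.1 / rh.2), ?_, ?_, ?_⟩
  · have h1 : (T.image (fun rh => rh.1 / rh.2)).card ≤
        ((Icc 2 X).filter (fun r => (dsS Bb X r).Nonempty)).card * ⌊L ^ K1⌋₊ := by
      refine Finset.card_image_le.trans ((Finset.card_filter_le _ _).trans ?_)
      rw [Finset.card_product, Nat.card_Icc, Nat.add_sub_cancel]
    have h2 : (((Icc 2 X).filter (fun r => (dsS Bb X r).Nonempty)).card : ℝ) ≤
        ∑ r ∈ Icc 2 X, ((dsS Bb X r).card : ℝ) := by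
      rw [Finset.card_filter]
      push_cast
      refine Finset.sum_le_sum fun r _ => ?_
      split_ifs with h
      · exact_mod_cast Finset.card_pos.mpr h
      · positivity
    have h3 := hcnt X hX1 (dsS Bb X) (fun r hr ψ hψ =>
      (mem_dsS (by rw [Finset.mem_Icc] at hr; omega) ψ).mp hψ)
    have h4 : (⌊L ^ K1⌋₊ : ℝ) ≤ L ^ K1 := Nat.floor_le (by positivity)
    calc ((T.image (fun rh => rh.1 / rh.2)).card : ℝ)
        ≤ (((Icc 2 X).filter (fun r => (dsS Bb X r).Nonempty)).card : ℝ) * (⌊L ^ K1⌋₊ : ℝ) := by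
          exact_mod_cast h1
      _ ≤ L ^ C0 * L ^ K1 := mul_le_mul (h2.trans h3) h4 (by positivity) (by positivity)
      _ = L ^ (C0 + K1) := (pow_add _ _ _).symm
      _ ≤ L ^ (C0 + K1 + Bb + 1) := pow_le_pow_right₀ hL1 (by omega)
  · intro d hd
    rw [Finset.mem_image] at hd
    obtain ⟨⟨r, h⟩, hrh, hdd⟩ := hd
    simp only [T, Finset.mem_filter, Finset.mem_product, Finset.mem_Icc] at hrh hdd
    obtain ⟨⟨⟨⟨hr2, hrX⟩, ψ, hψ⟩, h1, hh⟩, hdvd, hlo, hhi⟩ := hrh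
    rw [hdd] at hlo hhi
    refine ⟨hlo, hhi, r, h, ?_, ?_, ψ, ?_, ?_⟩
    · rw [← hdd]
      exact Nat.div_mul_cancel hdvd
    · calc (h : ℝ) ≤ (⌊L ^ K1⌋₊ : ℝ) := by exact_mod_cast hh
        _ ≤ L ^ K1 := Nat.floor_le (by positivity)
        _ ≤ L ^ (C0 + K1 + Bb + 1) := pow_le_pow_right₀ hL1 (by omega)
    · exact ((mem_dsS (by omega) ψ).mp hψ).1
    · obtain ⟨y, hy1, hy2, hy3⟩ := ((mem_dsS (by omega) ψ).mp hψ).2
      refine ⟨y, hy1, hy2, lt_of_le_of_lt ?_ hy3⟩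
      exact div_le_div_of_nonneg_left (by positivity) (by positivity)
        (pow_le_pow_right₀ hL1 (by omega))
  · intro n hn hnd q hq hqR hqn χ hχ hbad
    have hq0 : q ≠ 0 := by omega
    haveI : NeZero q := ⟨hq0⟩
    set r := χ.conductor with hr
    have hrq : r ∣ q := χ.conductor_dvd_level
    have hr0 : r ≠ 0 := fun h0 => hq0 (zero_dvd_iff.mp (h0 ▸ hrq))
    haveI : NeZero χ.conductor := ⟨hr0⟩
    have hr1 : r ≠ 1 := by
      intro h1
      exact hχ ((DirichletCharacter.eq_one_iff_conductor_eq_one (χ := χ)).mpr h1)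
    have hr2 : 2 ≤ r := by omega
    have hrleq : r ≤ q := Nat.le_of_dvd (by omega) hrq
    have hprim : χ.primitiveCharacter.IsPrimitive := χ.primitiveCharacter_isPrimitive
    have hψ1 : χ.primitiveCharacter ≠ 1 := by
      intro h1
      have h2 : χ.primitiveCharacter.conductor = 1 :=
        DirichletCharacter.eq_one_iff_conductor_eq_one.mp h1
      rw [DirichletCharacter.IsPrimitive] at hprim
      exact hr1 (hprim.symm.trans h2)
    have hbig : L ^ (K + K1) < (r : ℝ) := by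
      by_contra hcon
      exact hsw X hX2 r (by omega) (not_lt.mp hcon) χ.primitiveCharacter hψ1 hbad
    have hg0 : 0 < Nat.gcd q n := Nat.gcd_pos_of_pos_left _ (by omega)
    have hd0 : 0 < Nat.gcd r n := Nat.gcd_pos_of_pos_left _ (by omega)
    have hdiv : r * Nat.gcd q n ≤ q * Nat.gcd r n := by
      apply Nat.le_of_dvd (Nat.mul_pos (by omega) hd0)
      rw [← Nat.gcd_mul_left, ← Nat.gcd_mul_left]
      apply Nat.dvd_gcd
      · have := Nat.gcd_dvd_left (r * q) (r * n)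
        rwa [mul_comm r q] at this ⊢
      · exact (Nat.gcd_dvd_right (r * q) (r * n)).trans (Nat.mul_dvd_mul_right hrq n)
    have hrle : (r : ℝ) ≤ L ^ K1 * (Nat.gcd r n : ℝ) := by
      have h1 : (r : ℝ) * (Nat.gcd q n : ℝ) ≤ (q : ℝ) * (Nat.gcd r n : ℝ) := by exact_mod_cast hdiv
      have h2 : (q : ℝ) * (Nat.gcd r n : ℝ) ≤ L ^ K1 * (Nat.gcd q n : ℝ) * (Nat.gcd r n : ℝ) :=
        mul_le_mul_of_nonneg_right hqn (by positivity)
      have h3 : (0 : ℝ) < (Nat.gcd q n : ℝ) := by exact_mod_cast hg0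
      have h4 : (r : ℝ) * (Nat.gcd q n : ℝ) ≤ (L ^ K1 * (Nat.gcd r n : ℝ)) * (Nat.gcd q n : ℝ) := by
        calc (r : ℝ) * (Nat.gcd q n : ℝ) ≤ _ := h1
          _ ≤ _ := h2
          _ = _ := by ring
      exact le_of_mul_le_mul_right h4 h3
    have hdr : Nat.gcd r n ∣ r := Nat.gcd_dvd_left r n
    obtain ⟨h, hh⟩ := hdr
    have hh0 : h ≠ 0 := by
      rintro rfl
      rw [mul_zero] at hh
      exact hr0 hh
    have hrd : r / h = Nat.gcd r n := by
      conv_lhs => rw [hh]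
      exact Nat.mul_div_cancel _ (Nat.pos_of_ne_zero hh0)
    refine hnd (Nat.gcd r n) ?_ (Nat.gcd_dvd_right r n)
    rw [Finset.mem_image]
    refine ⟨(r, h), ?_, hrd⟩
    simp only [T, Finset.mem_filter, Finset.mem_product, Finset.mem_Icc]
    have hhr : (h : ℝ) ≤ L ^ K1 := by
      have h1 : (Nat.gcd r n : ℝ) * (h : ℝ) ≤ (Nat.gcd r n : ℝ) * L ^ K1 := by
        calc (Nat.gcd r n : ℝ) * (h : ℝ) = (r : ℝ) := by
              have := congrArg (fun t : ℕ => (t : ℝ)) hh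
              simp only [Nat.cast_mul] at this
              exact this.symm
          _ ≤ _ := by rw [mul_comm (Nat.gcd r n : ℝ)]; exact hrle
      exact le_of_mul_le_mul_left h1 (by exact_mod_cast hd0)
    have hrR : (r : ℝ) ≤ R := le_trans (by exact_mod_cast hrleq) hqR
    refine ⟨⟨⟨⟨hr2, ?_⟩, χ.primitiveCharacter, (mem_dsS hr0 _).mpr ⟨hprim, hbad⟩⟩,
      by omega, ?_⟩, ⟨Nat.gcd r n, by rw [mul_comm]; exact hh⟩, ?_, ?_⟩
    · have : (r : ℝ) ≤ (X : ℝ) := hrR.trans hR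
      exact_mod_cast this
    · exact Nat.le_floor hhr
    · rw [hrd]
      have h1 : L ^ K1 * L ^ K ≤ L ^ K1 * (Nat.gcd r n : ℝ) := by
        calc L ^ K1 * L ^ K = L ^ (K + K1) := by rw [pow_add]; ring
          _ ≤ (r : ℝ) := hbig.le
          _ ≤ _ := hrle
      exact le_of_mul_le_mul_left h1 (by positivity)
    · rw [hrd]
      refine le_trans ?_ hrR
      exact_mod_cast Nat.le_of_dvd (by omega) (Nat.gcd_dvd_left r n)

end Pool.MP_dd84fd_nt.DX
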