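import Pool.Agent.Lib.MP_dd84fd_nt.DX.Defs
import Pool.Agent.Lib.MP_dd84fd_nt.IY.CW

/-!
# DX-SDefs: the character sums of the families

`GdP`: the primes; `GdT`: the functions given by types (`K0` bounds the type function).  Owner of the
proofs: helper96.
-/

set_option autoImplicit false

namespace Pool.MP_dd84fd_nt.DX

open Finset Pool.MP_67663b_nt.Odd Pool.MP_dd84fd_nt.En Pool.MP_dd84fd_nt.E2 Pool.MP_dd84fd_nt.LS
open Pool.MP_dd84fd_nt.GX Pool.MP_dd84fd_nt.HX Pool.MP_dd84fd_nt.IX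
open Pool.MP_dd84fd_nt.JX (wP gP)

/-- the sums of the primes against characters which are not bad are small -/
def GdP : Prop := ∀ A B : ℕ, ∃ Bb : ℕ, GdB Bb A B wP

/-- the sums of a function given by types against characters which are not bad are small -/
def GdT : Prop := ∀ A B B' K0 : ℕ, ∃ Bb : ℕ, ∀ W : ℕ → Finset ℕ → ℝ, (∀ X T, |W X T| ≤ K0) →
  GdB Bb A B (fun X => IY.wty (IY.kp B' X) X (W X))

/-- monotonicity in `Bb` -/
theorem GdB.mono {Bb Bb' A B : ℕ} {ww : ℕ → ℕ → ℝ} (h : GdB Bb A B ww) (hB : Bb ≤ Bb') :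
    GdB Bb' A B ww := by
  obtain ⟨X1, hX1⟩ := h
  obtain ⟨X2, hX2⟩ := MP_log_large 1
  refine ⟨max X1 X2, fun X hX q hq hqX χ hχ hbad x hx => ?_⟩
  simp only [max_le_iff] at hX
  refine hX1 X hX.1 q hq hqX χ hχ (fun hb => hbad ?_) x hx
  obtain ⟨y, y1, y2, y3⟩ := hb
  have hL := hX2 X hX.2
  refine ⟨y, y1, y2, lt_of_le_of_lt ?_ y3⟩
  exact div_le_div_of_nonneg_left (Nat.cast_nonneg _) (by positivity) (pow_le_pow_right₀ hL hB)

/-- `GdT` for type functions which are bounded for large `X` -/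
theorem GdT.ev (h : GdT) (A B B' K0 : ℕ) : ∃ Bb : ℕ, ∀ (W : ℕ → Finset ℕ → ℝ) (X1 : ℕ),
    (∀ X, X1 ≤ X → ∀ T, |W X T| ≤ K0) → GdB Bb A B (fun X => IY.wty (IY.kp B' X) X (W X)) := by
  obtain ⟨Bb, hBb⟩ := h A B B' K0
  refine ⟨Bb, fun W X1 hW => ?_⟩
  obtain ⟨X0, h0⟩ := hBb (fun X => if X1 ≤ X then W X else fun _ => 0) (by
    intro X T
    by_cases hX : X1 ≤ X
    · simp only [hX, if_true]
      exact hW X hX T
    · simp only [hX, if_false, abs_zero]
      exact Nat.cast_nonneg _)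
  refine ⟨max X0 X1, fun X hX => ?_⟩
  have h1 := h0 X ((le_max_left _ _).trans hX)
  have h2 : X1 ≤ X := (le_max_right _ _).trans hX
  unfold Sx at h1 ⊢
  simp only [h2, if_true] at h1
  exact h1

end Pool.MP_dd84fd_nt.DX
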