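import Pool.Agent.Lib.MP_dd84fd_nt.DX.GenX
import Pool.Agent.Lib.MP_dd84fd_nt.DX.SDefs
import Pool.Agent.Lib.MP_dd84fd_nt.JX.JF2

/-!
# DX-FinJ: the asymptotic formula with explicit moduli, exponent 1/3

From `GenE` and `GdP`: `scaleJQ`, `finJQ`.
-/

set_option autoImplicit false

namespace Pool.MP_dd84fd_nt.DX

open Finset Pool.MP_67663b_nt.Odd Pool.MP_dd84fd_nt.En Pool.MP_dd84fd_nt.E2 Pool.MP_dd84fd_nt.LS
open Pool.MP_dd84fd_nt.GX Pool.MP_dd84fd_nt.HX Pool.MP_dd84fd_nt.IX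
open Pool.MP_dd84fd_nt.JX (Adm AdmP DecP wP gP w1P majP mainP)

/-- one scale -/
theorem scaleJQ (HG : GenE) (HD : DecP) (HC : GdP) (A : ℕ) : ∃ C : ℕ, ∀ th e : ℝ, AdmP th e →
    ScQ (Exc A) (ExD C) C th := by
  classical
  obtain ⟨B, hB⟩ := gen_n HG (A + 1)
  obtain ⟨C2, hC2⟩ := HD B
  obtain ⟨A', B', h1⟩ := hB 2 1 C2 (1 / 10) (by norm_num)
  obtain ⟨Bb, hBb⟩ := HC A' B'
  obtain ⟨C, hC⟩ := h1 Bb
  refine ⟨C, fun th e he K => ?_⟩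
  obtain ⟨k1, k2, k3, k4, k5⟩ := he
  have hA : Adm th e (1 / 10) := ⟨by linarith, k2, k3, le_rfl, by linarith⟩
  have hN : NarX 2 1 B C2 A' B' Bb th e (1 / 10) wP gP :=
    ⟨w1P, hC2 th e (1 / 10) hA k4, majP, hBb⟩
  obtain ⟨D0, hD0⟩ := hC th e hA wP gP wP gP hN hN K
  obtain ⟨X1, hX1⟩ := hD0 (max D0 (A + 1 + 5)) (le_max_left _ _)
  obtain ⟨X2, hX2⟩ := mainP (A + 1) (max D0 (A + 1 + 5)) (le_max_right _ _)
  obtain ⟨X3, hX3⟩ := MP_log_large 3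
  obtain ⟨X4, hX4⟩ : ∃ X4 : ℕ, ∀ X : ℕ, X4 ≤ X → (2 : ℝ) ≤ (X : ℝ) ^ (e / 4) := by
    have h := ((tendsto_rpow_atTop (by positivity : (0 : ℝ) < e / 4)).comp
      (tendsto_natCast_atTop_atTop (R := ℝ))).eventually_ge_atTop 2
    obtain ⟨X0, h1⟩ := Filter.eventually_atTop.1 h
    exact ⟨X0, fun X hX => h1 X hX⟩
  refine ⟨max X1 (max X2 (max X3 (max X4 1))), fun X hX => ?_⟩
  simp only [max_le_iff] at hX
  obtain ⟨hXa, hXb, hXc, hXe, hXd⟩ := hX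
  obtain ⟨D, Ex, d1, d2, d3, d4⟩ := hX1 X hXa
  have hm := hX2 X hXb
  have hL := hX3 X hXc
  have hXR : (1 : ℝ) ≤ X := by exact_mod_cast hXd
  have hXp : (0 : ℝ) < X := by linarith
  have hpow : 2 * (X : ℝ) ^ (th - e / 4) ≤ (X : ℝ) ^ th := by
    have i2 : (X : ℝ) ^ th = (X : ℝ) ^ (e / 4) * (X : ℝ) ^ (th - e / 4) := by
      rw [← Real.rpow_add hXp]
      congr 1
      ring
    rw [i2]
    exact mul_le_mul_of_nonneg_right (hX4 X hXe) (by positivity)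
  refine ⟨D, d1, d2, le_trans ?_ (d3.trans hpow)⟩
  have h5 : (Icc 1 X).filter (fun n => X < 2 * n ∧ Even n ∧ (∀ d ∈ D, ¬ d ∣ n) ∧ Exc A n) ⊆
      Ex := by
    intro n hn
    rw [mem_filter, mem_Icc] at hn
    obtain ⟨⟨n1, n2⟩, n3, n4, n5, n6⟩ := hn
    by_contra hEx
    have e1 := d4 n n3 n2 hEx n5
    have e2 := hm n n4 (by omega) n2
    have hnR : (X : ℝ) < 2 * n := by exact_mod_cast n3
    have hnX : (n : ℝ) ≤ X := by exact_mod_cast n2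
    have hn2 : 2 ≤ n := by
      obtain ⟨k, hk⟩ := n4
      omega
    have hn2R : (2 : ℝ) ≤ n := by exact_mod_cast hn2
    have hlogn : 0 < Real.log n := Real.log_pos (by linarith)
    have hlogle : Real.log n ≤ Real.log X := Real.log_le_log (by linarith) hnX
    have hp0 : 0 < (Real.log n) ^ A := by positivity
    have hp1 : (Real.log n) ^ A ≤ (Real.log X) ^ A := pow_le_pow_left₀ hlogn.le hlogle A
    have hp2 : 0 < (Real.log X) ^ A := by linarith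
    have e3 : (X : ℝ) / (Real.log X) ^ (A + 1) + X / (2 * (Real.log X) ^ (A + 1)) ≤
        (X / 2) / (Real.log X) ^ A := by
      have e4 : (X : ℝ) / (Real.log X) ^ (A + 1) + X / (2 * (Real.log X) ^ (A + 1)) =
          (X / 2) / (Real.log X) ^ A * (3 / Real.log X) := by
        rw [pow_succ]
        field_simp
        ring
      rw [e4]
      have e5 : 3 / Real.log X ≤ 1 := by
        rw [div_le_one (by linarith)]
        exact hL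
      exact mul_le_of_le_one_right (by positivity) e5
    have e4 : (X / 2 : ℝ) / (Real.log X) ^ A ≤ n / (Real.log n) ^ A := by
      rw [div_le_div_iff₀ hp2 hp0]
      have : (X : ℝ) / 2 ≤ n := by linarith
      exact mul_le_mul this hp1 hp0.le (by linarith)
    unfold Exc at n6
    linarith
  exact_mod_cast card_le_card h5

/-- a larger exponent -/
theorem ScQ.mono {Bad : ℕ → Prop} {Q : ℕ → ℕ → Prop} {C : ℕ} {θ θ' : ℝ} (h : ScQ Bad Q C θ)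
    (hθ : θ ≤ θ') : ScQ Bad Q C θ' := by
  intro K
  obtain ⟨X0, hX0⟩ := h K
  refine ⟨max X0 1, fun X hX => ?_⟩
  simp only [max_le_iff] at hX
  obtain ⟨D, d1, d2, d3⟩ := hX0 X hX.1
  have hX1 : (1 : ℝ) ≤ X := by exact_mod_cast hX.2
  exact ⟨D, d1, d2, d3.trans (Real.rpow_le_rpow_of_exponent_le hX1 hθ)⟩

/-- fewer bad numbers -/
theorem ScQ.bad {Bad Bad' : ℕ → Prop} {Q : ℕ → ℕ → Prop} {C : ℕ} {θ : ℝ} (h : ScQ Bad Q C θ)
    (hB : ∀ n, Bad' n → Bad n) : ScQ Bad' Q C θ := by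
  classical
  intro K
  obtain ⟨X0, hX0⟩ := h K
  refine ⟨X0, fun X hX => ?_⟩
  obtain ⟨D, d1, d2, d3⟩ := hX0 X hX
  refine ⟨D, d1, d2, le_trans ?_ d3⟩
  refine Nat.cast_le.2 (card_le_card ?_)
  intro n hn
  rw [mem_filter] at hn ⊢
  obtain ⟨n1, n2, n3, n4, n5⟩ := hn
  exact ⟨n1, n2, n3, n4, hB n n5⟩

/-- all scales, `ExF` with the constant of the number of moduli -/
theorem allF (Bad : ℕ → Prop) (C : ℕ) (θ ε : ℝ) (h1 : 1 / 8 ≤ θ) (h2 : θ ≤ 1) (hε : 0 < ε)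
    (H : ScQ Bad (ExD C) C (θ + ε / 4)) : ∀ K : ℕ,
    ∃ X0 : ℕ, ∀ X : ℕ, X0 ≤ X → ∃ D : Finset ℕ,
      (D.card : ℝ) ≤ (Real.log X) ^ (C + 2) ∧
      (∀ d ∈ D, (Real.log X) ^ K ≤ (d : ℝ) ∧ (d : ℝ) ≤ (X : ℝ) ^ (1 - θ) ∧ ExF (C + 2) X d) ∧
      ∀ P : ℕ → Prop, ∀ _ : DecidablePred P,
        (∀ n, P n → Even n ∧ (∀ d ∈ D, (d : ℝ) ≤ (n : ℝ) ^ (1 - θ) → ¬ d ∣ n) ∧ Bad n) →
        (((Icc 1 X).filter P).card : ℝ) ≤ (X : ℝ) ^ (θ + ε) := by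
  refine allQ8 Bad (ExD C) (ExF (C + 2)) (fun X Y d k1 k2 k3 k4 => ?_) C θ ε h1 h2 hε H
  exact (exD_exF C X Y d k1 k2 k3 k4).mono (by omega) (by linarith)

/-- Theorem J with explicit moduli -/
theorem finJQ (HG : GenE) (HD : DecP) (HC : GdP) (A : ℕ) : ∃ C : ℕ, ∀ θ ε : ℝ,
    1 / 3 ≤ θ → θ ≤ 1 → 0 < ε → ∀ K : ℕ, ∃ X0 : ℕ, ∀ X : ℕ, X0 ≤ X → ∃ D : Finset ℕ,
      (D.card : ℝ) ≤ (Real.log X) ^ C ∧
      (∀ d ∈ D, (Real.log X) ^ K ≤ (d : ℝ) ∧ (d : ℝ) ≤ (X : ℝ) ^ (1 - θ) ∧ ExF C X d) ∧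
      ∀ P : ℕ → Prop, ∀ _ : DecidablePred P,
        (∀ n, P n → Even n ∧ (∀ d ∈ D, (d : ℝ) ≤ (n : ℝ) ^ (1 - θ) → ¬ d ∣ n) ∧ Exc A n) →
        (((Icc 1 X).filter P).card : ℝ) ≤ (X : ℝ) ^ (θ + ε) := by
  obtain ⟨C, hC⟩ := scaleJQ HG HD HC A
  refine ⟨C + 2, fun θ ε h1 h2 hε => allF (Exc A) C θ ε (by linarith) h2 hε ?_⟩
  obtain ⟨t, ht⟩ : ∃ t : ℝ, t = min (θ + ε / 4) (1 / 2) := ⟨_, rfl⟩
  have ht1 : t ≤ θ + ε / 4 := by rw [ht]; exact min_le_left _ _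
  have ht2 : t ≤ 1 / 2 := by rw [ht]; exact min_le_right _ _
  have ht3 : 1 / 3 < t := by rw [ht]; exact lt_min (by linarith) (by norm_num)
  obtain ⟨e, he⟩ : ∃ e : ℝ, e = (t - 1 / 3) / 10000 := ⟨_, rfl⟩
  have he0 : 0 < e := by rw [he]; linarith
  exact (hC t e ⟨ht3, ht2, he0, by rw [he]; linarith, by rw [he]; linarith⟩).mono ht1

end Pool.MP_dd84fd_nt.DX
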