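import Pool.Agent.Lib.MP_dd84fd_nt.DX.FinJ

/-!
# DX-FinL: exponents `1/5 ≤ θ < 1/3` with explicit moduli

As `LX/LScale.lean`, from `GenE`, `PfE`, `GdT`.
-/

set_option autoImplicit false

namespace Pool.MP_dd84fd_nt.DX

open Finset Pool.MP_67663b_nt.Odd Pool.MP_dd84fd_nt.En Pool.MP_dd84fd_nt.E2 Pool.MP_dd84fd_nt.LS
open Pool.MP_dd84fd_nt.GX Pool.MP_dd84fd_nt.HX Pool.MP_dd84fd_nt.IX
open Pool.MP_dd84fd_nt.JX (wP gP Adm ZJ DecJ)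
open Pool.MP_dd84fd_nt.KX (lK)
open Pool.MP_dd84fd_nt.IY (bI)
open Pool.MP_dd84fd_nt.LX

/-- `DecJ` is monotone in `B` -/
theorem decJ_monoB {B B' C : ℕ} (hB : B' ≤ B) {th e τ : ℝ} {ww : ℕ → ℕ → ℝ}
    (h : DecJ B C th e τ ww) : DecJ B' C th e τ ww := by
  obtain ⟨X1, hX1⟩ := h
  obtain ⟨X2, hX2⟩ := MP_log_large 1
  refine ⟨max X1 X2, fun X hX => ?_⟩
  simp only [max_le_iff] at hX
  obtain ⟨I, γ, al, M, K, a, c, err, p1, p2, p3, p4, p5, p6, p7, p8, p9⟩ := hX1 X hX.1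
  have hL := hX2 X hX.2
  have hL2 : (Real.log X) ^ B' ≤ (Real.log X) ^ B := pow_le_pow_right₀ hL hB
  exact ⟨I, γ, al, M, K, a, c, err, p1, p2, p3, p4, p5, p6, p7, p8,
    p9.trans (div_le_div_of_nonneg_left (Nat.cast_nonneg _) (by positivity) hL2)⟩

/-- `DecW` is monotone in `B` -/
theorem decW_monoB {B B' C : ℕ} (hB : B' ≤ B) {th e τ : ℝ} {ww : ℕ → ℕ → ℝ}
    (h : DecW B C th e τ ww) : DecW B' C th e τ ww := by
  obtain ⟨X1, hX1⟩ := h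
  obtain ⟨X2, hX2⟩ := MP_log_large 1
  refine ⟨max X1 X2, fun X hX => ?_⟩
  simp only [max_le_iff] at hX
  obtain ⟨I, γ, al, M, K, a, c, err, p1, p2, p3, p4, p5, p6, p7, p8, p9⟩ := hX1 X hX.1
  have hL := hX2 X hX.2
  have hL2 : (Real.log X) ^ B' ≤ (Real.log X) ^ B := pow_le_pow_right₀ hL hB
  exact ⟨I, γ, al, M, K, a, c, err, p1, p2, p3, p4, p5, p6, p7, p8,
    p9.trans (div_le_div_of_nonneg_left (Nat.cast_nonneg _) (by positivity) hL2)⟩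

private theorem w1_ev (B' K0 : ℕ) (hK : 1 ≤ K0) (W : ℕ → Finset ℕ → ℝ) (X1 : ℕ)
    (hW : ∀ X, X1 ≤ X → ∀ T, |W X T| ≤ K0) :
    W1 K0 (B' + 3) (fun X => IY.wty (IY.kp B' X) X (W X))
      (fun X => IY.gty (IY.kp B' X) X (W X)) := by
  obtain ⟨X0, h⟩ := IY.w1_i B' K0 hK (fun X => if X1 ≤ X then W X else fun _ => 0) (by
    intro X T
    by_cases hX : X1 ≤ X
    · simp only [hX, if_true]
      exact hW X hX T
    · simp only [hX, if_false, abs_zero]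
      exact Nat.cast_nonneg _)
  refine ⟨max X0 X1, fun X hX => ?_⟩
  have h1 := h X ((le_max_left _ _).trans hX)
  have h2 : X1 ≤ X := (le_max_right _ _).trans hX
  simp only [h2, if_true] at h1
  exact h1

private theorem majI_ev (B' K0 : ℕ) (W : ℕ → Finset ℕ → ℝ) (X1 : ℕ)
    (hW : ∀ X, X1 ≤ X → ∀ T, |W X T| ≤ K0) :
    MajI (fun X => IY.wty (IY.kp B' X) X (W X))
      (fun X => IY.gty (IY.kp B' X) X (W X)) := by
  have h0 := IY.majI_i B' K0 (fun X => if X1 ≤ X then W X else fun _ => 0) (by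
    intro X T
    by_cases hX : X1 ≤ X
    · simp only [hX, if_true]
      exact hW X hX T
    · simp only [hX, if_false, abs_zero]
      exact Nat.cast_nonneg _)
  intro A B
  obtain ⟨D0, h⟩ := h0 A B
  refine ⟨D0, fun D' hD' => ?_⟩
  obtain ⟨X0, h⟩ := h D' hD'
  refine ⟨max X0 X1, fun X hX θ hθ => ?_⟩
  have h1 := h X ((le_max_left _ _).trans hX) θ hθ
  have h2 : X1 ≤ X := (le_max_right _ _).trans hX
  unfold WI fI at h1 ⊢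
  simp only [h2, if_true] at h1
  exact h1

private theorem ls_JJ (n : ℕ) : 0 ≤ JJ n := by
  unfold JJ
  refine Finset.sum_nonneg fun m _ => ?_
  exact div_nonneg zero_le_one (mul_nonneg (Real.log_natCast_nonneg _) (Real.log_natCast_nonneg _))

private theorem ls_SJ (n : ℕ) : 0 ≤ SS n * JJ n := by
  have s1 : 2 * Pool.MP_dd84fd_nt.En.C2 ≤ SS n := SS_ge n
  have s2 : 0 < Pool.MP_dd84fd_nt.En.C2 := C2_pos
  exact mul_nonneg (by linarith) (ls_JJ n)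

/-- one scale -/
theorem scaleLQ (k : ℝ) (HG : GenE) (HF : PfE) (HC : GdT) (hP : DecPW) (hN : NumL k) :
    ∀ th : ℝ, 1 / 5 < th → th < 1 / 3 → ∃ C : ℕ, ScQ (BadL k th) (ExD C) C th := by
  classical
  obtain ⟨Bp, hBp⟩ := gen_p HG HF 5
  obtain ⟨Bn, hBn⟩ := gen_n HG 5
  obtain ⟨B, hB1, hB2⟩ : ∃ B : ℕ, Bp ≤ B ∧ Bn ≤ B := ⟨max Bp Bn, le_max_left _ _, le_max_right _ _⟩
  obtain ⟨B0, hB0⟩ := decL B
  obtain ⟨Cp, hCp⟩ := hP B
  obtain ⟨B', hB'0, hB'1⟩ : ∃ B' : ℕ, B0 ≤ B' ∧ 1 ≤ B' := ⟨max B0 1, le_max_left _ _, le_max_right _ _⟩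
  obtain ⟨Cs, hCs⟩ := hB0 B' hB'0
  obtain ⟨C2, hC2, hC2'⟩ : ∃ C2 : ℕ, Cp ≤ C2 ∧ Cs ≤ C2 :=
    ⟨max Cp Cs, le_max_left _ _, le_max_right _ _⟩
  intro th hth hth2
  obtain ⟨τ0, a, b, hτ0, ha, ha1, hb1, hl, hu, hnum⟩ := hN th hth hth2
  obtain ⟨τ, hτ⟩ : ∃ τ : ℝ, τ = min τ0 (min ((th - 1 / 5) / 16) ((1 / 3 - th) / 16)) := ⟨_, rfl⟩
  have t0 : 0 < τ := by
    rw [hτ]
    exact lt_min hτ0 (lt_min (by linarith) (by linarith))
  have t1 : τ ≤ τ0 := by rw [hτ]; exact min_le_left _ _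
  have t2 : τ ≤ (th - 1 / 5) / 16 := by
    rw [hτ]; exact (min_le_right _ _).trans (min_le_left _ _)
  have t3 : τ ≤ (1 / 3 - th) / 16 := by
    rw [hτ]; exact (min_le_right _ _).trans (min_le_right _ _)
  obtain ⟨e, he⟩ : ∃ e : ℝ, e = τ / 1000 := ⟨_, rfl⟩
  have he0 : 0 < e := by rw [he]; positivity
  have hAK : AdmX th e τ := ⟨hth, hth2, he0, by rw [he]; linarith, by linarith, by linarith⟩
  have hA : Adm th e τ := hAK.adm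
  obtain ⟨Ap', Bp', hp1⟩ := hBp (2 ^ 24) (B' + 3) C2 τ t0
  obtain ⟨An', Bn', hn1⟩ := hBn (2 ^ 24) (B' + 3) C2 τ t0
  obtain ⟨Bbp, hBbp⟩ := HC.ev Ap' Bp' B' (2 ^ 24)
  obtain ⟨Bbn, hBbn⟩ := HC.ev An' Bn' B' (2 ^ 24)
  obtain ⟨Kp, hKp⟩ := hp1 Bbp
  obtain ⟨Kn, hKn⟩ := hn1 Bbn
  obtain ⟨C, hKC1, hKC2⟩ : ∃ C : ℕ, Kp ≤ C ∧ Kn ≤ C := ⟨max Kp Kn, le_max_left _ _, le_max_right _ _⟩
  refine ⟨C + 1, fun K => ?_⟩
  obtain ⟨d1, d2, -⟩ := hCs th e τ hAK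
  replace d1 := decJ_monoC hC2' d1
  replace d2 := decJ_monoC hC2' d2
  have d0 : DecW B C2 th e τ wP := decW_monoC hC2 (hCp th e τ hA)
  have hw0 : W1 (2 ^ 24) (B' + 3) wP gP := w1_monoL (by norm_num) (by omega) JX.w1P
  obtain ⟨Xb, hXb⟩ := bdL hAK B'
  have bA : ∀ X : ℕ, Xb ≤ X → ∀ T : Finset ℕ,
      |amL τ (bI th e) (lK th τ) (IY.kp B' X) X T| ≤ ((2 ^ 24 : ℕ) : ℝ) :=
    fun X hX T => (hXb X hX T).1.trans (by norm_num)
  have bB : ∀ X : ℕ, Xb ≤ X → ∀ T : Finset ℕ,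
      |bmL τ (bI th e) (lK th τ) (IY.kp B' X) X T| ≤ ((2 ^ 24 : ℕ) : ℝ) :=
    fun X hX T => (hXb X hX T).2.trans (by norm_num)
  have hwA := w1_ev B' (2 ^ 24) (by norm_num)
    (fun X => amL τ (bI th e) (lK th τ) (IY.kp B' X) X) Xb bA
  have hwB := w1_ev B' (2 ^ 24) (by norm_num)
    (fun X => bmL τ (bI th e) (lK th τ) (IY.kp B' X) X) Xb bB
  have hmA := majI_ev B' (2 ^ 24)
    (fun X => amL τ (bI th e) (lK th τ) (IY.kp B' X) X) Xb bA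
  have hmB := majI_ev B' (2 ^ 24)
    (fun X => bmL τ (bI th e) (lK th τ) (IY.kp B' X) X) Xb bB
  have npA := (⟨hwA, decJ_monoB hB1 d1, hmA, hBbp (fun X => amL τ (bI th e) (lK th τ)
    (IY.kp B' X) X) Xb bA⟩ : NarX (2 ^ 24) (B' + 3) Bp C2 Ap' Bp' Bbp th e τ _ _)
  have npB := (⟨hwB, decJ_monoB hB1 d2, hmB, hBbp (fun X => bmL τ (bI th e) (lK th τ)
    (IY.kp B' X) X) Xb bB⟩ : NarX (2 ^ 24) (B' + 3) Bp C2 Ap' Bp' Bbp th e τ _ _)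
  have nnA := (⟨hwA, decJ_monoB hB2 d1, hmA, hBbn (fun X => amL τ (bI th e) (lK th τ)
    (IY.kp B' X) X) Xb bA⟩ : NarX (2 ^ 24) (B' + 3) Bn C2 An' Bn' Bbn th e τ _ _)
  have nnB := (⟨hwB, decJ_monoB hB2 d2, hmB, hBbn (fun X => bmL τ (bI th e) (lK th τ)
    (IY.kp B' X) X) Xb bB⟩ : NarX (2 ^ 24) (B' + 3) Bn C2 An' Bn' Bbn th e τ _ _)
  obtain ⟨D1, hD1⟩ := hKp th e hA hw0 (decW_monoB hB1 d0) _ _ npA K
  obtain ⟨D2, hD2⟩ := hKp th e hA hw0 (decW_monoB hB1 d0) _ _ npB K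
  obtain ⟨D3, hD3⟩ := hKn th e hA _ _ _ _ nnA nnA K
  obtain ⟨D4, hD4⟩ := hKn th e hA _ _ _ _ nnA nnB K
  obtain ⟨δ, hδ, hab, hc⟩ : ∃ δ : ℝ, 0 < δ ∧
      (1 - a) ^ 2 + δ ≤ k * (1 - 3 * th) ^ 3 ∧ (b - 1) * (1 - a) + δ ≤ k * (1 - 3 * th) ^ 3 := by
    refine ⟨min (k * (1 - 3 * th) ^ 3 - (1 - a) * (1 - a)) (k * (1 - 3 * th) ^ 3 - (1 - a) * (b - 1)),
      lt_min (by linarith) (by linarith), ?_, ?_⟩
    · have := min_le_left (k * (1 - 3 * th) ^ 3 - (1 - a) * (1 - a))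
        (k * (1 - 3 * th) ^ 3 - (1 - a) * (b - 1))
      rw [sq]
      linarith
    · have := min_le_right (k * (1 - 3 * th) ^ 3 - (1 - a) * (1 - a))
        (k * (1 - 3 * th) ^ 3 - (1 - a) * (b - 1))
      rw [mul_comm (b - 1)]
      linarith
  obtain ⟨D5, hD5⟩ := final_l B' hB'1 a b δ hδ ha ha1 hb1
  obtain ⟨D', hD'⟩ : ∃ D' : ℕ, D' = max (max D1 D2) (max (max D3 D4) D5) := ⟨_, rfl⟩
  obtain ⟨X1, h1⟩ := hD1 D' (by rw [hD']; omega)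
  obtain ⟨X2, h2⟩ := hD2 D' (by rw [hD']; omega)
  obtain ⟨X3, h3⟩ := hD3 D' (by rw [hD']; omega)
  obtain ⟨X4, h4⟩ := hD4 D' (by rw [hD']; omega)
  obtain ⟨X5', h5⟩ := hD5 D' (by rw [hD']; omega)
  obtain ⟨X6, h6⟩ := hnum e τ hAK t1 B' hB'1
  obtain ⟨X7, h7⟩ := tyL hAK B' hB'1
  obtain ⟨X8, h8⟩ := MP_log_large 4
  obtain ⟨X9, h9⟩ : ∃ X9 : ℕ, ∀ X : ℕ, X9 ≤ X → (8 : ℝ) ≤ (X : ℝ) ^ (e / 4) := by
    have h := ((tendsto_rpow_atTop (by positivity : (0 : ℝ) < e / 4)).comp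
      (tendsto_natCast_atTop_atTop (R := ℝ))).eventually_ge_atTop 8
    obtain ⟨X0, h1⟩ := Filter.eventually_atTop.1 h
    exact ⟨X0, fun X hX => h1 X hX⟩
  refine ⟨max (max (max X1 X2) (max X3 X4)) (max (max X5' X6) (max (max X7 X8) (max (max X9 Xb) 1))),
    fun X hX => ?_⟩
  simp only [max_le_iff] at hX
  obtain ⟨⟨⟨x1, x2⟩, x3, x4⟩, ⟨x5, x6⟩, ⟨x7, x8⟩, ⟨x9, xb⟩, x10⟩ := hX
  obtain ⟨Da, Ea, a1, a2, a3, a4⟩ := h1 X x1
  obtain ⟨Db, Eb, b1, b2, b3, b4⟩ := h2 X x2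
  obtain ⟨Dc, Ec, c1, c2, c3, c4⟩ := h3 X x3
  obtain ⟨Dd, Ed, e1, e2, e3, e4⟩ := h4 X x4
  have hL : 4 ≤ Real.log (X : ℝ) := h8 X x8
  have hX0 : (0 : ℝ) < X := by exact_mod_cast (by omega : 0 < X)
  refine ⟨(Da ∪ Db) ∪ (Dc ∪ Dd), ?_, ?_, ?_⟩
  · have i1 : (((Da ∪ Db) ∪ (Dc ∪ Dd)).card : ℝ) ≤ (Da.card + Db.card) + (Dc.card + Dd.card) := by
      have := (card_union_le (Da ∪ Db) (Dc ∪ Dd)).trans
        (Nat.add_le_add (card_union_le Da Db) (card_union_le Dc Dd))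
      exact_mod_cast this
    have i2 : (0 : ℝ) ≤ Real.log X ^ C := by positivity
    have i3 : Real.log X ^ Kp ≤ Real.log X ^ C := pow_le_pow_right₀ (by linarith) hKC1
    have i4 : Real.log X ^ Kn ≤ Real.log X ^ C := pow_le_pow_right₀ (by linarith) hKC2
    calc (((Da ∪ Db) ∪ (Dc ∪ Dd)).card : ℝ) ≤ 4 * Real.log X ^ C := by linarith
      _ ≤ Real.log X * Real.log X ^ C := mul_le_mul_of_nonneg_right hL i2
      _ = Real.log X ^ (C + 1) := by ring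
  · intro d hd
    rcases mem_union.1 hd with hd | hd
    · rcases mem_union.1 hd with hd | hd
      · exact ⟨(a2 d hd).1, exD_mono (a2 d hd).2 (by omega) (by linarith)⟩
      · exact ⟨(b2 d hd).1, exD_mono (b2 d hd).2 (by omega) (by linarith)⟩
    · rcases mem_union.1 hd with hd | hd
      · exact ⟨(c2 d hd).1, exD_mono (c2 d hd).2 (by omega) (by linarith)⟩
      · exact ⟨(e2 d hd).1, exD_mono (e2 d hd).2 (by omega) (by linarith)⟩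
  · have hsub : (Icc 1 X).filter (fun n => X < 2 * n ∧ Even n ∧
        (∀ d ∈ (Da ∪ Db) ∪ (Dc ∪ Dd), ¬ d ∣ n) ∧ BadL k th n) ⊆ (Ea ∪ Eb) ∪ (Ec ∪ Ed) := by
      intro n hn
      rw [mem_filter, mem_Icc] at hn
      obtain ⟨⟨n1, n2⟩, n3, n4, n5, n6⟩ := hn
      by_contra hcon
      rw [mem_union, mem_union, mem_union, not_or, not_or, not_or] at hcon
      obtain ⟨⟨k1, k2⟩, k3, k4⟩ := hcon
      have q1 := a4 n n3 n2 k1 fun d hd => n5 d (mem_union_left _ (mem_union_left _ hd))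
      have q2 := b4 n n3 n2 k2 fun d hd => n5 d (mem_union_left _ (mem_union_right _ hd))
      have q3 := c4 n n3 n2 k3 fun d hd => n5 d (mem_union_right _ (mem_union_left _ hd))
      have q4 := e4 n n3 n2 k4 fun d hd => n5 d (mem_union_right _ (mem_union_right _ hd))
      obtain ⟨r1, r2⟩ := h5 X x5 (amL τ (bI th e) (lK th τ) (IY.kp B' X) X)
        (bmL τ (bI th e) (lK th τ) (IY.kp B' X) X) (h7 X x7)
        (fun T => ⟨(hXb X xb T).1.trans (by norm_num), (hXb X xb T).2.trans (by norm_num)⟩)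
        (fun m hm hmX => h6 X x6 m hm hmX) n n3 n2 n4 q1 q2 q3 q4
      have hSJ := ls_SJ n
      have r3 : (1 - k * (1 - 3 * th) ^ 3) * (SS n * JJ n) ≤ g n :=
        (mul_le_mul_of_nonneg_right (by linarith) hSJ).trans r1
      have r4 : (g n : ℝ) ≤ (1 + k * (1 - 3 * th) ^ 3) * (SS n * JJ n) :=
        r2.trans (mul_le_mul_of_nonneg_right (by linarith) hSJ)
      unfold BadL at n6
      have r5 : |(g n : ℝ) - SS n * JJ n| ≤ k * (1 - 3 * th) ^ 3 * (SS n * JJ n) := by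
        rw [abs_le]
        constructor
        · linarith
        · linarith
      exact absurd n6 (not_lt.2 r5)
    have i1 : (((Icc 1 X).filter (fun n => X < 2 * n ∧ Even n ∧
        (∀ d ∈ (Da ∪ Db) ∪ (Dc ∪ Dd), ¬ d ∣ n) ∧ BadL k th n)).card : ℝ) ≤
        (Ea.card + Eb.card) + (Ec.card + Ed.card) := by
      have := (card_le_card hsub).trans ((card_union_le (Ea ∪ Eb) (Ec ∪ Ed)).trans
        (Nat.add_le_add (card_union_le Ea Eb) (card_union_le Ec Ed)))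
      exact_mod_cast this
    have i2 : (X : ℝ) ^ th = (X : ℝ) ^ (e / 4) * (X : ℝ) ^ (th - e / 4) := by
      rw [← Real.rpow_add hX0]
      congr 1
      ring
    rw [i2]
    have i3 : 0 ≤ (X : ℝ) ^ (th - e / 4) := by positivity
    calc _ ≤ 8 * (X : ℝ) ^ (th - e / 4) := by linarith
      _ ≤ _ := mul_le_mul_of_nonneg_right (h9 X x9) i3

/-- Theorem L with explicit moduli -/
theorem finLQ (k : ℝ) (hk : 0 ≤ k) (HG : GenE) (HF : PfE) (HC : GdT) (hP : DecPW) (hN : NumL k) :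
    ∀ θ ε : ℝ, 1 / 5 ≤ θ → θ < 1 / 3 → 0 < ε → ∃ C : ℕ, ∀ K : ℕ, ∃ X0 : ℕ, ∀ X : ℕ, X0 ≤ X →
    ∃ D : Finset ℕ, (D.card : ℝ) ≤ (Real.log X) ^ C ∧
      (∀ d ∈ D, (Real.log X) ^ K ≤ (d : ℝ) ∧ (d : ℝ) ≤ (X : ℝ) ^ (1 - θ) ∧ ExF C X d) ∧
      ∀ P : ℕ → Prop, ∀ _ : DecidablePred P,
        (∀ n, P n → Even n ∧ (∀ d ∈ D, (d : ℝ) ≤ (n : ℝ) ^ (1 - θ) → ¬ d ∣ n) ∧
          BadL k θ n) →
        (((Icc 1 X).filter P).card : ℝ) ≤ (X : ℝ) ^ (θ + ε) := by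
  classical
  intro θ ε h1 h2 hε
  obtain ⟨t, ht⟩ : ∃ t : ℝ, t = min (θ + ε / 4) ((θ + 1 / 3) / 2) := ⟨_, rfl⟩
  have t1 : t ≤ θ + ε / 4 := by rw [ht]; exact min_le_left _ _
  have t2 : t < 1 / 3 := by rw [ht]; exact (min_le_right _ _).trans_lt (by linarith)
  have t3 : θ < t := by rw [ht]; exact lt_min (by linarith) (by linarith)
  obtain ⟨C, hC⟩ := scaleLQ k HG HF HC hP hN t (by linarith) t2
  refine ⟨C + 2, allF (BadL k θ) C θ ε (by linarith) (by linarith) hε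
    ((hC.mono t1).bad fun n n5 => ?_)⟩
  have hSJ := ls_SJ n
  have e1 : (1 - 3 * t) ^ 3 ≤ (1 - 3 * θ) ^ 3 := by
    apply pow_le_pow_left₀ (by linarith) (by linarith)
  have e2 : k * (1 - 3 * t) ^ 3 * (SS n * JJ n) ≤ k * (1 - 3 * θ) ^ 3 * (SS n * JJ n) :=
    mul_le_mul_of_nonneg_right (mul_le_mul_of_nonneg_left e1 hk) hSJ
  unfold BadL at n5 ⊢
  linarith

end Pool.MP_dd84fd_nt.DX
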