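import Pool.Agent.Lib.MP_dd84fd_nt.DX.FinL
import Pool.Agent.Lib.MP_dd84fd_nt.MX.MFin

/-!
# DX-FinM: exponents `1/7 ≤ θ ≤ 1` with explicit moduli

As `MX/MScale.lean`, `MX/MFin.lean`, from `GenE`, `PfE`, `GdT`.
-/

set_option autoImplicit false

namespace Pool.MP_dd84fd_nt.DX

open Finset Pool.MP_67663b_nt.Odd Pool.MP_dd84fd_nt.En Pool.MP_dd84fd_nt.E2 Pool.MP_dd84fd_nt.LS
open Pool.MP_dd84fd_nt.GX Pool.MP_dd84fd_nt.HX Pool.MP_dd84fd_nt.IX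
open Pool.MP_dd84fd_nt.JX (wP gP Adm ZJ DecJ)
open Pool.MP_dd84fd_nt.KX (lK)
open Pool.MP_dd84fd_nt.IY (bI)
open Pool.MP_dd84fd_nt.LX Pool.MP_dd84fd_nt.MX

private theorem w1_ev (B' K0 : ℕ) (hK : 1 ≤ K0) (W : ℕ → Finset ℕ → ℝ) (X1 : ℕ)
    (hW : ∀ X, X1 ≤ X → ∀ T, |W X T| ≤ K0) :
    W1 K0 (B' + 3) (fun X => IY.wty (IY.kp B' X) X (W X))
      (fun X => IY.gty (IY.kp B' X) X (W X)) := by
  obtain ⟨X0, h⟩ := IY.w1_i B' K0 hK (fun X => if X1 ≤ X then W X else fun _ => 0) (by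
    intro X T
    by_cases hX : X1 ≤ X
    · simp only [hX, if_true]
      exact hW X hX T
    · simp only [hX, if_false, abs_zero]
      exact Nat.cast_nonneg _)
  refine ⟨max X0 X1, fun X hX => ?_⟩
  have h1 := h X ((le_max_left _ _).trans hX)
  have h2 : X1 ≤ X := (le_max_right _ _).trans hX
  simp only [h2, if_true] at h1
  exact h1

private theorem majI_ev (B' K0 : ℕ) (W : ℕ → Finset ℕ → ℝ) (X1 : ℕ)
    (hW : ∀ X, X1 ≤ X → ∀ T, |W X T| ≤ K0) :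
    MajI (fun X => IY.wty (IY.kp B' X) X (W X))
      (fun X => IY.gty (IY.kp B' X) X (W X)) := by
  have h0 := IY.majI_i B' K0 (fun X => if X1 ≤ X then W X else fun _ => 0) (by
    intro X T
    by_cases hX : X1 ≤ X
    · simp only [hX, if_true]
      exact hW X hX T
    · simp only [hX, if_false, abs_zero]
      exact Nat.cast_nonneg _)
  intro A B
  obtain ⟨D0, h⟩ := h0 A B
  refine ⟨D0, fun D' hD' => ?_⟩
  obtain ⟨X0, h⟩ := h D' hD'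
  refine ⟨max X0 X1, fun X hX θ hθ => ?_⟩
  have h1 := h X ((le_max_left _ _).trans hX) θ hθ
  have h2 : X1 ≤ X := (le_max_right _ _).trans hX
  unfold WI fI at h1 ⊢
  simp only [h2, if_true] at h1
  exact h1

private theorem ls_JJ (n : ℕ) : 0 ≤ JJ n := by
  unfold JJ
  refine Finset.sum_nonneg fun m _ => ?_
  exact div_nonneg zero_le_one (mul_nonneg (Real.log_natCast_nonneg _) (Real.log_natCast_nonneg _))

private theorem ls_SJ (n : ℕ) : 0 ≤ SS n * JJ n := by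
  have s1 : 2 * Pool.MP_dd84fd_nt.En.C2 ≤ SS n := SS_ge n
  have s2 : 0 < Pool.MP_dd84fd_nt.En.C2 := C2_pos
  exact mul_nonneg (by linarith) (ls_JJ n)

/-- one scale -/
theorem scaleMQ (lo hi : ℝ) (cl cu : ℝ → ℝ) (Ad : ℝ → ℝ → ℝ → Prop)
    (bm : ℝ → ℝ → ℝ → ℕ → ℕ → Finset ℕ → ℝ)
    (hM : MajSet lo hi cl cu Ad bm) (HG : GenE) (HF : PfE) (HC : GdT) (hP : DecPW) :
    ∀ th : ℝ, lo < th → th < hi → ∃ C : ℕ, ScQ (BadM (cl th) (cu th)) (ExD C) C th := by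
  classical
  obtain ⟨Bp, hBp⟩ := gen_p HG HF 5
  obtain ⟨Bn, hBn⟩ := gen_n HG 5
  obtain ⟨B, hB1, hB2⟩ : ∃ B : ℕ, Bp ≤ B ∧ Bn ≤ B := ⟨max Bp Bn, le_max_left _ _, le_max_right _ _⟩
  obtain ⟨B0, hB0⟩ := hM.dec B
  obtain ⟨Cp, hCp⟩ := hP B
  obtain ⟨B', hB'0, hB'1⟩ : ∃ B' : ℕ, B0 ≤ B' ∧ 1 ≤ B' :=
    ⟨max B0 1, le_max_left _ _, le_max_right _ _⟩
  obtain ⟨Cs, hCs⟩ := hB0 B' hB'0
  obtain ⟨C2, hC2, hC2'⟩ : ∃ C2 : ℕ, Cp ≤ C2 ∧ Cs ≤ C2 :=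
    ⟨max Cp Cs, le_max_left _ _, le_max_right _ _⟩
  intro th hth hth2
  obtain ⟨τ0, b, hτ0, hb1, hu, hu2, hnum⟩ := hM.num th hth hth2
  obtain ⟨e, τ, hAK, t1⟩ := hM.ex th hth hth2 τ0 hτ0
  have hA : Adm th e τ := hM.adm th e τ hAK
  have he0 : 0 < e := hA.2.2.1
  have hτp : 0 < τ := by
    have := hA.2.2.2.2
    linarith
  obtain ⟨Ap', Bp', hp1⟩ := hBp (2 ^ 24) (B' + 3) C2 τ hτp
  obtain ⟨An', Bn', hn1⟩ := hBn (2 ^ 24) (B' + 3) C2 τ hτp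
  obtain ⟨Bbp, hBbp⟩ := HC.ev Ap' Bp' B' (2 ^ 24)
  obtain ⟨Bbn, hBbn⟩ := HC.ev An' Bn' B' (2 ^ 24)
  obtain ⟨Kp, hKp⟩ := hp1 Bbp
  obtain ⟨Kn, hKn⟩ := hn1 Bbn
  obtain ⟨C, hKC1, hKC2⟩ : ∃ C : ℕ, Kp ≤ C ∧ Kn ≤ C :=
    ⟨max Kp Kn, le_max_left _ _, le_max_right _ _⟩
  refine ⟨C + 1, fun K => ?_⟩
  have d2 := decJ_monoC hC2' (hCs th e τ hAK)
  have d0 : DecW B C2 th e τ wP := decW_monoC hC2 (hCp th e τ hA)
  have hw0 : W1 (2 ^ 24) (B' + 3) wP gP := w1_monoL (by norm_num) (by omega) JX.w1P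
  obtain ⟨Xb, hXb⟩ := hM.bd th e τ hAK B'
  have bB : ∀ X : ℕ, Xb ≤ X → ∀ T : Finset ℕ, |bm th e τ B' X T| ≤ ((2 ^ 24 : ℕ) : ℝ) :=
    fun X hX T => (hXb X hX T).trans (by norm_num)
  have hwB := w1_ev B' (2 ^ 24) (by norm_num) (fun X => bm th e τ B' X) Xb bB
  have hmB := majI_ev B' (2 ^ 24) (fun X => bm th e τ B' X) Xb bB
  have npB := (⟨hwB, decJ_monoB hB1 d2, hmB, hBbp (fun X => bm th e τ B' X) Xb bB⟩ :
    NarX (2 ^ 24) (B' + 3) Bp C2 Ap' Bp' Bbp th e τ _ _)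
  have nnB := (⟨hwB, decJ_monoB hB2 d2, hmB, hBbn (fun X => bm th e τ B' X) Xb bB⟩ :
    NarX (2 ^ 24) (B' + 3) Bn C2 An' Bn' Bbn th e τ _ _)
  obtain ⟨D2, hD2⟩ := hKp th e hA hw0 (decW_monoB hB1 d0) _ _ npB K
  obtain ⟨D4, hD4⟩ := hKn th e hA _ _ _ _ nnB nnB K
  obtain ⟨δ, hδ, hab, hab2⟩ : ∃ δ : ℝ, 0 < δ ∧ (b - 1) ^ 2 + δ ≤ 1 - cl th ∧ b + δ ≤ cu th := by
    refine ⟨min (1 - cl th - (b - 1) ^ 2) (cu th - b), lt_min (by linarith) (by linarith), ?_, ?_⟩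
    · have := min_le_left (1 - cl th - (b - 1) ^ 2) (cu th - b)
      linarith
    · have := min_le_right (1 - cl th - (b - 1) ^ 2) (cu th - b)
      linarith
  obtain ⟨D5, hD5⟩ := final_mb B' hB'1 b δ hδ hb1
  obtain ⟨D', hD'⟩ : ∃ D' : ℕ, D' = max D2 (max D4 D5) := ⟨_, rfl⟩
  obtain ⟨X2, h2⟩ := hD2 D' (by rw [hD']; omega)
  obtain ⟨X4, h4⟩ := hD4 D' (by rw [hD']; omega)
  obtain ⟨X5', h5⟩ := hD5 D' (by rw [hD']; omega)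
  obtain ⟨X6, h6⟩ := hnum e τ hAK t1 B' hB'1
  obtain ⟨X7, h7⟩ := hM.ty th e τ hAK B' hB'1
  obtain ⟨X8, h8⟩ := MP_log_large 4
  obtain ⟨X9, h9⟩ : ∃ X9 : ℕ, ∀ X : ℕ, X9 ≤ X → (8 : ℝ) ≤ (X : ℝ) ^ (e / 4) := by
    have h := ((tendsto_rpow_atTop (by positivity : (0 : ℝ) < e / 4)).comp
      (tendsto_natCast_atTop_atTop (R := ℝ))).eventually_ge_atTop 8
    obtain ⟨X0, h1⟩ := Filter.eventually_atTop.1 h
    exact ⟨X0, fun X hX => h1 X hX⟩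
  refine ⟨max (max X2 X4) (max (max X5' X6) (max (max X7 X8) (max (max X9 Xb) 1))),
    fun X hX => ?_⟩
  simp only [max_le_iff] at hX
  obtain ⟨⟨x2, x4⟩, ⟨x5, x6⟩, ⟨x7, x8⟩, ⟨x9, xb⟩, x10⟩ := hX
  obtain ⟨Db, Eb, b1, b2, b3, b4⟩ := h2 X x2
  obtain ⟨Dd, Ed, e1, e2, e3, e4⟩ := h4 X x4
  have hL : 4 ≤ Real.log (X : ℝ) := h8 X x8
  have hX0 : (0 : ℝ) < X := by exact_mod_cast (by omega : 0 < X)
  refine ⟨Db ∪ Dd, ?_, ?_, ?_⟩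
  · have i1 : ((Db ∪ Dd).card : ℝ) ≤ Db.card + Dd.card := by
      exact_mod_cast card_union_le Db Dd
    have i2 : (0 : ℝ) ≤ Real.log X ^ C := by positivity
    have i3 : Real.log X ^ Kp ≤ Real.log X ^ C := pow_le_pow_right₀ (by linarith) hKC1
    have i4 : Real.log X ^ Kn ≤ Real.log X ^ C := pow_le_pow_right₀ (by linarith) hKC2
    calc ((Db ∪ Dd).card : ℝ) ≤ 4 * Real.log X ^ C := by linarith
      _ ≤ Real.log X * Real.log X ^ C := mul_le_mul_of_nonneg_right hL i2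
      _ = Real.log X ^ (C + 1) := by ring
  · intro d hd
    rcases mem_union.1 hd with hd | hd
    · exact ⟨(b2 d hd).1, exD_mono (b2 d hd).2 (by omega) (by linarith)⟩
    · exact ⟨(e2 d hd).1, exD_mono (e2 d hd).2 (by omega) (by linarith)⟩
  · have hsub : (Icc 1 X).filter (fun n => X < 2 * n ∧ Even n ∧
        (∀ d ∈ Db ∪ Dd, ¬ d ∣ n) ∧ BadM (cl th) (cu th) n) ⊆ Eb ∪ Ed := by
      intro n hn
      rw [mem_filter, mem_Icc] at hn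
      obtain ⟨⟨n1, n2⟩, n3, n4, n5, n6⟩ := hn
      by_contra hcon
      rw [mem_union, not_or] at hcon
      obtain ⟨k2, k4⟩ := hcon
      have q2 := b4 n n3 n2 k2 fun d hd => n5 d (mem_union_left _ hd)
      have q4 := e4 n n3 n2 k4 fun d hd => n5 d (mem_union_right _ hd)
      obtain ⟨r1, r2⟩ := h5 X x5 (bm th e τ B' X) (h7 X x7) (fun T => hXb X xb T)
        (fun m hm hmX => h6 X x6 m hm hmX) n n3 n2 n4 q2 q4
      have hSJ := ls_SJ n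
      have r3 : cl th * (SS n * JJ n) ≤ g n :=
        (mul_le_mul_of_nonneg_right (by linarith) hSJ).trans r1
      have r4 : (g n : ℝ) ≤ cu th * (SS n * JJ n) :=
        r2.trans (mul_le_mul_of_nonneg_right (by linarith) hSJ)
      rcases n6 with n6 | n6
      · exact absurd n6 (not_lt.2 r3)
      · exact absurd n6 (not_lt.2 r4)
    have i1 : (((Icc 1 X).filter (fun n => X < 2 * n ∧ Even n ∧
        (∀ d ∈ Db ∪ Dd, ¬ d ∣ n) ∧ BadM (cl th) (cu th) n)).card : ℝ) ≤ Eb.card + Ed.card := by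
      have := (card_le_card hsub).trans (card_union_le Eb Ed)
      exact_mod_cast this
    have i2 : (X : ℝ) ^ th = (X : ℝ) ^ (e / 4) * (X : ℝ) ^ (th - e / 4) := by
      rw [← Real.rpow_add hX0]
      congr 1
      ring
    rw [i2]
    have i3 : 0 ≤ (X : ℝ) ^ (th - e / 4) := by positivity
    calc _ ≤ 8 * (X : ℝ) ^ (th - e / 4) := by linarith
      _ ≤ _ := mul_le_mul_of_nonneg_right (h9 X x9) i3

/-- all scales -/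
theorem finMQ (lo hi : ℝ) (cl cu : ℝ → ℝ) (Ad : ℝ → ℝ → ℝ → Prop)
    (bm : ℝ → ℝ → ℝ → ℕ → ℕ → Finset ℕ → ℝ)
    (hM : MajSet lo hi cl cu Ad bm) (hlo : 1 / 8 ≤ lo) (hhi : hi ≤ 1)
    (hcl : ∀ θ t : ℝ, lo ≤ θ → θ < t → t < hi → cl θ ≤ cl t)
    (hcu : ∀ θ t : ℝ, lo ≤ θ → θ < t → t < hi → cu t ≤ cu θ) (HG : GenE) (HF : PfE) (HC : GdT)
    (hP : DecPW) : ∀ θ ε : ℝ, lo ≤ θ → θ < hi → 0 < ε → ∃ C : ℕ, ∀ K : ℕ, ∃ X0 : ℕ,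
    ∀ X : ℕ, X0 ≤ X → ∃ D : Finset ℕ, (D.card : ℝ) ≤ (Real.log X) ^ C ∧
      (∀ d ∈ D, (Real.log X) ^ K ≤ (d : ℝ) ∧ (d : ℝ) ≤ (X : ℝ) ^ (1 - θ) ∧ ExF C X d) ∧
      ∀ P : ℕ → Prop, ∀ _ : DecidablePred P,
        (∀ n, P n → Even n ∧ (∀ d ∈ D, (d : ℝ) ≤ (n : ℝ) ^ (1 - θ) → ¬ d ∣ n) ∧
          BadM (cl θ) (cu θ) n) →
        (((Icc 1 X).filter P).card : ℝ) ≤ (X : ℝ) ^ (θ + ε) := by
  classical
  intro θ ε h1 h2 hε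
  obtain ⟨t, ht⟩ : ∃ t : ℝ, t = min (θ + ε / 4) ((θ + hi) / 2) := ⟨_, rfl⟩
  have t1 : t ≤ θ + ε / 4 := by rw [ht]; exact min_le_left _ _
  have t2 : t < hi := by rw [ht]; exact (min_le_right _ _).trans_lt (by linarith)
  have t3 : θ < t := by rw [ht]; exact lt_min (by linarith) (by linarith)
  obtain ⟨C, hC⟩ := scaleMQ lo hi cl cu Ad bm hM HG HF HC hP t (by linarith) t2
  refine ⟨C + 2, allF (BadM (cl θ) (cu θ)) C θ ε (by linarith) (by linarith) hε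
    ((hC.mono t1).bad fun n n5 => ?_)⟩
  have hSJ := ls_SJ n
  have e1 := mul_le_mul_of_nonneg_right (hcl θ t h1 t3 t2) hSJ
  have e2 := mul_le_mul_of_nonneg_right (hcu θ t h1 t3 t2) hSJ
  rcases n5 with n5 | n5
  · exact Or.inl (by linarith)
  · exact Or.inr (by linarith)

/-- Theorem M with explicit moduli -/
theorem finMQ1 (hadm : ∀ th e τ : ℝ, AdmM th e τ → Adm th e τ) (c C' b : ℝ) (hb : 1 ≤ b)
    (hbc : (b - 1) ^ 2 < 1 - c) (hbC : b < C') (hN : Num1 b) (HG : GenE) (HF : PfE) (HC : GdT)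
    (hP : DecPW) : ∀ ε : ℝ, 0 < ε → ∃ C : ℕ, ∀ θ : ℝ, 1 / 7 ≤ θ → θ ≤ 1 → ∀ K : ℕ, ∃ X0 : ℕ,
    ∀ X : ℕ, X0 ≤ X → ∃ D : Finset ℕ, (D.card : ℝ) ≤ (Real.log X) ^ C ∧
      (∀ d ∈ D, (Real.log X) ^ K ≤ (d : ℝ) ∧ (d : ℝ) ≤ (X : ℝ) ^ (1 - θ) ∧ ExF C X d) ∧
      ∀ P : ℕ → Prop, ∀ _ : DecidablePred P,
        (∀ n, P n → Even n ∧ (∀ d ∈ D, (d : ℝ) ≤ (n : ℝ) ^ (1 - θ) → ¬ d ∣ n) ∧
          BadM c C' n) →
        (((Icc 1 X).filter P).card : ℝ) ≤ (X : ℝ) ^ (θ + ε) := by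
  intro ε hε
  obtain ⟨hi, h1, h2, hM⟩ := majSet hadm c C' b hb hbc hbC hN
  obtain ⟨C, hC⟩ := finMQ (1 / 7) hi (fun _ => c) (fun _ => C') AdmM bmT hM (by norm_num)
    (by linarith) (fun _ _ _ _ _ => le_rfl) (fun _ _ _ _ _ => le_rfl) HG HF HC hP
    (1 / 7) (ε / 2) le_rfl h1 (by linarith)
  exact ⟨C, ext_q (BadM c C') (ExF C) C (1 / 7) ε (by norm_num) hε hC⟩

end Pool.MP_dd84fd_nt.DX
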