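import Pool.Agent.Lib.MP_dd84fd_nt.DX.MsA
import Pool.Agent.Lib.MP_dd84fd_nt.IX.PlMod

/-!
# DX-GdC: small mass of `W2` gives small discs

`|dsc (W1 W2 e(-n .))| ≤ ∑_a ∫_(|x| ≤ ρ_q/X) |W1| |W2|`, enlarge to `|x| ≤ 4 L^K2/X`, Cauchy-Schwarz:
`≤ (msM W1)^(1/2) (msM W2)^(1/2)`; `W1 = tp X e`, `∑ ‖e‖² ≤ X L^3` (`IX.WI_l2`), `ms_ls` with `2 T N / X ≤ 1`
(`N ≤ X^(1-th+3e/2)`, `th > 1/8`, `e ≤ 1/10000`): `msM W1 ≤ 2 X L^3`.  `A'' = 2 A + 5`.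
-/

set_option autoImplicit false

namespace Pool.MP_dd84fd_nt.DX

open Finset Pool.MP_67663b_nt.Odd Pool.MP_dd84fd_nt.En Pool.MP_dd84fd_nt.E2 Pool.MP_dd84fd_nt.LS
open Pool.MP_dd84fd_nt.GX Pool.MP_dd84fd_nt.HX Pool.MP_dd84fd_nt.IX
open Pool.MP_dd84fd_nt.PL (rr tp)
open Pool.MP_dd84fd_nt.JX (Adm)

private theorem gdc_cont (ww gg : ℕ → ℕ → ℝ) (s : ℝ) (w X : ℕ) : Continuous (WI ww gg s w X) := by
  unfold WI
  refine continuous_finsetSum _ fun n _ => continuous_const.mul ?_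
  unfold ee
  fun_prop

private theorem gdc_dsc (X q : ℕ) (hX : 1 ≤ X) (F U V : ℝ → ℂ) (hF : Continuous F) (hU : Continuous U)
    (hV : Continuous V) (hn : ∀ θ, ‖F θ‖ = ‖U θ‖ * ‖V θ‖) (v T lam : ℝ) (hv : 0 ≤ v) (hvT : v ≤ T)
    (hlam : 0 < lam) : ‖dsc F X q v‖ ≤ ∑ a ∈ rr q,
      (lam / 2 * (∫ x in (-(T / X))..(T / X), ‖U ((a : ℝ) / q + x)‖ ^ 2) +
        1 / (2 * lam) * (∫ x in (-(T / X))..(T / X), ‖V ((a : ℝ) / q + x)‖ ^ 2)) := by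
  have hX0 : (0 : ℝ) < X := by exact_mod_cast hX
  unfold dsc
  refine (norm_sum_le _ _).trans (sum_le_sum fun a _ => ?_)
  obtain ⟨g, hg⟩ : ∃ g : ℝ → ℝ, g = fun x : ℝ => ‖F ((a : ℝ) / q + x)‖ := ⟨_, rfl⟩
  have hgc : Continuous g := by rw [hg]; fun_prop
  have hg0 : ∀ x, 0 ≤ g x := fun x => by rw [hg]; positivity
  have hi : ∀ s t : ℝ, IntervalIntegrable g MeasureTheory.volume s t := fun s t =>
    hgc.intervalIntegrable s t
  have hvX : v / X ≤ T / X := div_le_div_of_nonneg_right hvT hX0.le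
  have hv0 : 0 ≤ v / X := by positivity
  have hT0 : -(T / X) ≤ T / X := by linarith
  have h1 : ‖∫ x in (-(v / X))..(v / X), F ((a : ℝ) / q + x)‖ ≤ ∫ x in (-(v / X))..(v / X), g x := by
    refine (intervalIntegral.norm_integral_le_integral_norm (by linarith)).trans (le_of_eq ?_)
    rw [hg]
  have h3 : ∫ x in (-(v / X))..(v / X), g x ≤ ∫ x in (-(T / X))..(T / X), g x :=
    intervalIntegral.integral_mono_interval (by linarith) (by linarith) hvX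
      (Filter.Eventually.of_forall hg0) (hi _ _)
  have hUc : Continuous fun x : ℝ => ‖U ((a : ℝ) / q + x)‖ ^ 2 := by fun_prop
  have hVc : Continuous fun x : ℝ => ‖V ((a : ℝ) / q + x)‖ ^ 2 := by fun_prop
  have h4 : ∫ x in (-(T / X))..(T / X), g x ≤ ∫ x in (-(T / X))..(T / X),
      (lam / 2 * ‖U ((a : ℝ) / q + x)‖ ^ 2 + 1 / (2 * lam) * ‖V ((a : ℝ) / q + x)‖ ^ 2) := by
    refine intervalIntegral.integral_mono_on hT0 (hi _ _)
      (((hUc.const_mul _).add (hVc.const_mul _)).intervalIntegrable _ _) fun x _ => ?_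
    rw [hg]
    simp only
    rw [hn]
    have h5 : 0 ≤ (lam * ‖U ((a : ℝ) / q + x)‖ - ‖V ((a : ℝ) / q + x)‖) ^ 2 / (2 * lam) := by positivity
    have h6 : (lam * ‖U ((a : ℝ) / q + x)‖ - ‖V ((a : ℝ) / q + x)‖) ^ 2 / (2 * lam) =
        lam / 2 * ‖U ((a : ℝ) / q + x)‖ ^ 2 + 1 / (2 * lam) * ‖V ((a : ℝ) / q + x)‖ ^ 2 -
          ‖U ((a : ℝ) / q + x)‖ * ‖V ((a : ℝ) / q + x)‖ := by
      field_simp
      ring
    linarith
  have h7 : ∫ x in (-(T / X))..(T / X),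
      (lam / 2 * ‖U ((a : ℝ) / q + x)‖ ^ 2 + 1 / (2 * lam) * ‖V ((a : ℝ) / q + x)‖ ^ 2) =
      lam / 2 * (∫ x in (-(T / X))..(T / X), ‖U ((a : ℝ) / q + x)‖ ^ 2) +
        1 / (2 * lam) * (∫ x in (-(T / X))..(T / X), ‖V ((a : ℝ) / q + x)‖ ^ 2) := by
    rw [intervalIntegral.integral_add ((hUc.const_mul _).intervalIntegrable _ _)
      ((hVc.const_mul _).intervalIntegrable _ _), intervalIntegral.integral_const_mul,
      intervalIntegral.integral_const_mul]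
  rw [h7] at h4
  exact h1.trans (h3.trans h4)

theorem gd_c (A K0 C1 K1 K2 : ℕ) (th e τ : ℝ) (hA : Adm th e τ) (ww1 gg1 : ℕ → ℕ → ℝ)
    (hw : W1 K0 C1 ww1 gg1) (D' : ℕ) (hD : 1 ≤ D') : ∃ X0 : ℕ, ∀ X : ℕ, X0 ≤ X →
    ∀ s1 : ℝ, |s1| ≤ 1 → ∀ (ww2 gg2 : ℕ → ℕ → ℝ) (s2 : ℝ) (n : ℕ),
    (∀ (QQ : Finset ℕ) (N : ℝ), Dsk th e X n K1 QQ N →
      msM X (4 * (Real.log X) ^ K2) QQ (WI ww2 gg2 s2 (wX D' X) X) ≤
        X / (Real.log X) ^ (2 * A + 5)) →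
    GoodE th e ww1 gg1 s1 ww2 gg2 s2 (wX D' X) X n K1 K2 (X / (Real.log X) ^ A) := by
  obtain ⟨X1, hX1⟩ := Pool.MP_dd84fd_nt.IXP.WI_l2 K0 C1 ww1 gg1 hw D' hD
  obtain ⟨hth, hth2, he0, hτ, heτ⟩ := hA
  have he : e ≤ 1 / 10000 := by linarith
  obtain ⟨X2, hX2⟩ := MP_log_pow (2 * 4) K2 (ε := th - 3 / 2 * e) (by linarith)
  obtain ⟨X3, hX3⟩ := MP_log_large 2
  refine ⟨max (max X1 X2) (max X3 1), fun X hX s1 hs1 ww2 gg2 s2 n hm => ?_⟩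
  simp only [max_le_iff] at hX
  obtain ⟨⟨hX1', hX2'⟩, hX3', hXone⟩ := hX
  have hX0 : (0 : ℝ) < X := by exact_mod_cast hXone
  have hL2 := hX3 X hX3'
  have hpow := hX2 X hX2'
  obtain ⟨c, hc1, hc2⟩ := hX1 X hX1' s1 hs1
  intro QQ N ρ hD' hρ
  have hmass := hm QQ N hD'
  obtain ⟨hn1, hn2, hq, hlcm, hcard, hN1, hN2⟩ := hD'
  obtain ⟨L, hL⟩ : ∃ L : ℝ, L = Real.log X := ⟨_, rfl⟩
  rw [← hL] at hL2 hpow hc1 hmass hρ ⊢
  have hL0 : 0 < L := by linarith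
  obtain ⟨T, hT⟩ : ∃ T : ℝ, T = 4 * L ^ K2 := ⟨_, rfl⟩
  rw [← hT] at hmass hρ
  have hT0 : 0 ≤ T := by rw [hT]; positivity
  obtain ⟨U, hU⟩ : ∃ U : ℝ → ℂ, U = WI ww1 gg1 s1 (wX D' X) X := ⟨_, rfl⟩
  obtain ⟨V, hV⟩ : ∃ V : ℝ → ℂ, V = WI ww2 gg2 s2 (wX D' X) X := ⟨_, rfl⟩
  have hUc : Continuous U := by rw [hU]; exact gdc_cont _ _ _ _ _
  have hVc : Continuous V := by rw [hV]; exact gdc_cont _ _ _ _ _
  obtain ⟨F, hF⟩ : ∃ F : ℝ → ℂ, F = Pool.MP_dd84fd_nt.LX.FFL ww1 gg1 s1 ww2 gg2 s2 (wX D' X) X n := ⟨_, rfl⟩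
  have hFe : F = fun θ => U θ * V θ * ee (-((n : ℝ) * θ)) := by
    rw [hF, hU, hV]
    rfl
  have hFc : Continuous F := by
    rw [hFe]
    refine (hUc.mul hVc).mul ?_
    unfold ee
    fun_prop
  have hFn : ∀ θ, ‖F θ‖ = ‖U θ‖ * ‖V θ‖ := fun θ => by
    rw [hFe]
    simp only
    rw [norm_mul, norm_ee, mul_one, norm_mul]
  rw [← hF]
  rw [← hV] at hmass
  have hUm : msM X T QQ U ≤ 2 * (X * L ^ 3) := by
    have h1 : U = tp X c := by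
      funext θ
      rw [hU]
      exact hc2 θ
    rw [h1]
    refine (ms_ls X T N hT0 QQ ⟨fun q hq' => (hq q hq').1, hlcm⟩ hN1 c).trans ?_
    have h2 : 2 * T * N / X ≤ 1 := by
      rw [div_le_one hX0]
      have h3 : 2 * T ≤ (X : ℝ) ^ (th - 3 / 2 * e) := by
        rw [hT]
        linarith
      calc 2 * T * N ≤ (X : ℝ) ^ (th - 3 / 2 * e) * (X : ℝ) ^ (1 - th + 3 / 2 * e) :=
            mul_le_mul h3 hN2 (by linarith) (by positivity)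
        _ = X := by
            rw [← Real.rpow_add hX0]
            have : th - 3 / 2 * e + (1 - th + 3 / 2 * e) = 1 := by ring
            rw [this, Real.rpow_one]
    have h4 : 0 ≤ ∑ n ∈ Icc 1 X, ‖c n‖ ^ 2 := Finset.sum_nonneg fun _ _ => by positivity
    calc (2 * T * N / X + 1) * ∑ n ∈ Icc 1 X, ‖c n‖ ^ 2 ≤ 2 * ∑ n ∈ Icc 1 X, ‖c n‖ ^ 2 :=
          mul_le_mul_of_nonneg_right (by linarith) h4
      _ ≤ 2 * (X * L ^ 3) := by linarith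
  obtain ⟨lam, hlam⟩ : ∃ lam : ℝ, lam = 1 / L ^ (A + 4) := ⟨_, rfl⟩
  have hlam0 : 0 < lam := by rw [hlam]; positivity
  have h1 : ‖∑ q ∈ QQ, dsc F X q (ρ q)‖ ≤ lam / 2 * msM X T QQ U + 1 / (2 * lam) * msM X T QQ V := by
    refine (norm_sum_le _ _).trans ?_
    unfold msM
    rw [Finset.mul_sum, Finset.mul_sum, ← Finset.sum_add_distrib]
    refine Finset.sum_le_sum fun q hq' => ?_
    refine (gdc_dsc X q hXone F U V hFc hUc hVc hFn (ρ q) T lam (hρ q hq').1 (hρ q hq').2 hlam0).trans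
      (le_of_eq ?_)
    rw [Finset.sum_add_distrib, Finset.mul_sum, Finset.mul_sum]
  refine h1.trans ?_
  have h2 : lam / 2 * msM X T QQ U ≤ X / L ^ (A + 1) := by
    calc lam / 2 * msM X T QQ U ≤ lam / 2 * (2 * (X * L ^ 3)) :=
          mul_le_mul_of_nonneg_left hUm (by positivity)
      _ = X / L ^ (A + 1) := by
          rw [hlam, show A + 4 = (A + 1) + 3 by ring, pow_add]
          field_simp
  have h3 : 1 / (2 * lam) * msM X T QQ V ≤ X / L ^ (A + 1) := by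
    calc 1 / (2 * lam) * msM X T QQ V ≤ 1 / (2 * lam) * (X / L ^ (2 * A + 5)) :=
          mul_le_mul_of_nonneg_left hmass (by positivity)
      _ = 1 / 2 * (X / L ^ (A + 1)) := by
          rw [hlam, show 2 * A + 5 = (A + 4) + (A + 1) by ring, pow_add L (A + 4)]
          field_simp
      _ ≤ X / L ^ (A + 1) := by
          have : 0 ≤ X / L ^ (A + 1) := by positivity
          linarith
  have h4 : X / L ^ (A + 1) + X / L ^ (A + 1) ≤ X / L ^ A := by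
    have e1 : X / L ^ (A + 1) + X / L ^ (A + 1) = X / L ^ A * (2 / L) := by
      rw [pow_succ]
      field_simp
      ring
    rw [e1]
    have h5 : 2 / L ≤ 1 := by
      rw [div_le_one hL0]
      exact hL2
    have h6 : 0 ≤ X / L ^ A := by positivity
    calc X / L ^ A * (2 / L) ≤ X / L ^ A * 1 := mul_le_mul_of_nonneg_left h5 h6
      _ = X / L ^ A := mul_one _
  linarith

end Pool.MP_dd84fd_nt.DX
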