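import Pool.Agent.Lib.MP_dd84fd_nt.DX.PrP

/-!
# DX-GdP: the primes

`Sx wP X χ x = ∑_(zI X ≤ m ≤ X, m prime) χ(m) e(m x)`: `pr_part` with `k = 1`, `u = zI X - 1`, `v = X`; `Bb = A + B + 2`.
-/

set_option autoImplicit false

namespace Pool.MP_dd84fd_nt.DX

open Finset Pool.MP_67663b_nt.Odd Pool.MP_dd84fd_nt.IX
open Pool.MP_dd84fd_nt.JX (wP gP)

theorem gd_p (A B : ℕ) : ∃ Bb : ℕ, GdB Bb A B wP := by
  classical
  obtain ⟨X0, hX0⟩ := pr_part B
  have h1 : ∀ᶠ y : ℝ in Filter.atTop, 22 * (Real.log y) ^ A ≤ y := by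
    have h := (Real.isLittleO_pow_log_id_atTop (n := A)).bound (c := 1 / 22) (by norm_num)
    filter_upwards [h, Filter.eventually_ge_atTop 1] with y hy hy1
    rw [Real.norm_of_nonneg (pow_nonneg (Real.log_nonneg hy1) _), id,
      Real.norm_of_nonneg (by linarith)] at hy
    linarith
  have h2 : ∀ᶠ y : ℝ in Filter.atTop, 7 ≤ Real.log y :=
    Real.tendsto_log_atTop.eventually_ge_atTop 7
  obtain ⟨X1, hX1⟩ := Filter.eventually_atTop.1
    (tendsto_natCast_atTop_atTop.eventually (h1.and h2))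
  refine ⟨A + B + 2, max (max X0 X1) 1, ?_⟩
  intro X hX q hq1 hqX χ _ hbad x hx
  have hXa : X0 ≤ X := (le_max_left _ _).trans ((le_max_left _ _).trans hX)
  have hXb : X1 ≤ X := (le_max_right _ _).trans ((le_max_left _ _).trans hX)
  have hXc : 1 ≤ X := (le_max_right _ _).trans hX
  obtain ⟨hL1, hL2⟩ := hX1 X hXb
  have hXr : (1 : ℝ) ≤ X := by exact_mod_cast hXc
  have hz : 1 ≤ zI X := by
    unfold zI
    rw [Nat.one_le_ceil_iff]
    positivity
  have hzr : (X : ℝ) ^ (1 / 10 : ℝ) ≤ ((zI X - 1 : ℕ) : ℝ) + 1 := by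
    have h3 : ((zI X - 1 : ℕ) : ℝ) + 1 = (zI X : ℝ) := by
      rw [Nat.cast_sub hz]
      push_cast
      ring
    rw [h3]
    exact Nat.le_ceil _
  have hS : Sx wP X χ x = ∑ m ∈ (Ioc (zI X - 1) X).filter Nat.Prime,
      χ (m : ZMod q) * ee (((1 * m : ℕ) : ℝ) * x) := by
    have hf : (Ioc (zI X - 1) X).filter Nat.Prime =
        (Icc 1 X).filter (fun n => n.Prime ∧ zI X ≤ n) := by
      ext n
      simp only [mem_filter, mem_Ioc, mem_Icc]
      constructor
      · rintro ⟨⟨h3, h4⟩, h5⟩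
        exact ⟨⟨h5.one_lt.le, h4⟩, h5, by omega⟩
      · rintro ⟨⟨h3, h4⟩, h5, h6⟩
        exact ⟨⟨by omega, h4⟩, h5⟩
    rw [hf, Finset.sum_filter]
    unfold Sx
    refine Finset.sum_congr rfl fun n _ => ?_
    unfold wP
    split_ifs with h3
    · rw [one_mul]
      simp
    · simp
  rw [hS]
  refine (hX0 X hXa (A + B + 2) q hq1 hqX χ hbad 1 (zI X - 1) X le_rfl hzr (by rw [one_mul]) x
    hx).trans ?_
  have hL0 : 0 < Real.log X := by linarith
  have hLA : 0 < (Real.log X) ^ A := by positivity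
  have e1 : 20 * (Real.log X) ^ B * (X / (Real.log X) ^ (A + B + 2)) =
      (20 / (Real.log X) ^ 2) * (X / (Real.log X) ^ A) := by
    rw [pow_add, pow_add]
    field_simp
  have e2 : 20 / (Real.log X) ^ 2 ≤ 1 / 2 := by
    rw [div_le_div_iff₀ (by positivity) (by norm_num)]
    nlinarith
  have e3 : 22 ≤ X / (Real.log X) ^ A := by
    rw [le_div_iff₀ hLA]
    exact hL1
  rw [e1]
  have e4 : (20 / (Real.log X) ^ 2) * (X / (Real.log X) ^ A) ≤ 1 / 2 * (X / (Real.log X) ^ A) :=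
    mul_le_mul_of_nonneg_right e2 (by positivity)
  linarith

end Pool.MP_dd84fd_nt.DX
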