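import Pool.Agent.Lib.MP_dd84fd_nt.DX.PrP
import Pool.Agent.Lib.MP_dd84fd_nt.IY.CWs
import Pool.Agent.Lib.MP_dd84fd_nt.IY.CBx

/-!
# DX-GdT: the type functions

`wty_sum` (`n = k m`, `m` prime, `m ≥ zt X ≥ X^(1/10)` in a higher box than the primes of `k`; `wty = 0` for `n ≤ X5 X`) and `vty_eq`:
`Sx = ∑_(k ≤ X) ∑_(j < NJ) vj j k χ(k) ∑_m χ(m) e(k m x)`, the inner sum over the primes `m` with
`ub j ≤ m < ub (j+1)`, `X5 X / k < m ≤ X / k`: these are the primes in some `Ioc u v` with `u + 1 ≥ zt X`, `v ≤ X/k` (empty unless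
`k ≤ X^(9/10)`, as `m ≥ X^(1/10)`); `|vj| ≤ K0`.  `pr_part`: each inner sum is `≤ 20 L^B X/(k L^Bb) + 11`; there are
`NJ ≤ L^(B'+1) + 1` boxes and `k ≤ X^(9/10)`: total `≤ K0 (L^(B'+1) + 1) (20 L^B X (1 + L)/L^Bb + 11 X^(9/10)) ≤ X/L^A` with
`Bb = A + B + B' + 5`.
-/

set_option autoImplicit false

namespace Pool.MP_dd84fd_nt.DX

open Finset Pool.MP_67663b_nt.Odd Pool.MP_dd84fd_nt.IX Pool.MP_dd84fd_nt.IY

private theorem GdT_swap (X : ℕ) (s : ℝ) (F : ℕ → ℕ → ℂ) :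
    ∑ n ∈ Icc 1 X, (if s < (n : ℝ) then
      ∑ k ∈ n.divisors.filter (fun k => (n / k).Prime), F (n / k) k else 0) =
    ∑ k ∈ Icc 1 X, ∑ p ∈ (Icc 1 (X / k)).filter (fun p => p.Prime ∧
      s < ((k * p : ℕ) : ℝ)), F p k := by
  classical
  rw [← sum_filter]
  rw [sum_comm' (t' := Icc 1 X) (s' := fun k => (Icc 1 X).filter (fun n : ℕ =>
    s < (n : ℝ) ∧ k ∣ n ∧ (n / k).Prime))]
  · refine sum_congr rfl fun k hk => ?_
    rw [mem_Icc] at hk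
    refine sum_nbij' (fun n => n / k) (fun p => k * p) ?_ ?_ ?_ ?_ ?_
    · intro n hn
      simp only [mem_filter, mem_Icc] at hn ⊢
      obtain ⟨⟨h1, h2⟩, h4, h5, h6⟩ := hn
      have h7 : k * (n / k) = n := Nat.mul_div_cancel' h5
      rw [h7]
      exact ⟨⟨h6.one_lt.le, Nat.div_le_div_right h2⟩, h6, h4⟩
    · intro p hp
      simp only [mem_filter, mem_Icc] at hp ⊢
      obtain ⟨⟨h1, h2⟩, h3, h5⟩ := hp
      have h6 : k * p ≤ X := by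
        have h7 := (Nat.le_div_iff_mul_le (by omega)).1 h2
        rw [mul_comm]; exact h7
      refine ⟨⟨Nat.mul_pos (by omega) (by omega), h6⟩, h5, dvd_mul_right _ _, ?_⟩
      rw [Nat.mul_div_cancel_left _ (by omega)]
      exact h3
    · intro n hn
      simp only [mem_filter, mem_Icc] at hn
      exact Nat.mul_div_cancel' hn.2.2.1
    · intro p hp
      exact Nat.mul_div_cancel_left _ (by omega)
    · intro n hn
      rfl
  · intro n k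
    simp only [mem_filter, mem_Icc, Nat.mem_divisors]
    constructor
    · rintro ⟨⟨⟨h1, h2⟩, h4⟩, ⟨h5, h6⟩, h7⟩
      have h8 := Nat.le_of_dvd (by omega) h5
      have h9 := Nat.pos_of_dvd_of_pos h5 (by omega)
      exact ⟨⟨⟨h1, h2⟩, h4, h5, h7⟩, by omega, by omega⟩
    · rintro ⟨⟨⟨h1, h2⟩, h4, h5, h7⟩, h8⟩
      exact ⟨⟨⟨h1, h2⟩, h4⟩, ⟨h5, by omega⟩, h7⟩

private theorem GdT_harm (X : ℕ) : ∑ k ∈ Icc 1 X, 1 / (k : ℝ) ≤ 1 + Real.log X := by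
  have h1 := harmonic_le_one_add_log X
  rw [harmonic_eq_sum_Icc] at h1
  push_cast at h1
  simpa [one_div] using h1

private theorem GdT_set (X k : ℕ) (hk : 1 ≤ k) (s a b : ℝ) (hs : 0 ≤ s) :
    (Icc 1 (X / k)).filter (fun p : ℕ => p.Prime ∧ s < ((k * p : ℕ) : ℝ) ∧ a ≤ (p : ℝ) ∧
      (p : ℝ) < b) =
    (Ioc (max ⌊s / k⌋₊ (⌈a⌉₊ - 1)) (min (X / k) (⌈b⌉₊ - 1))).filter Nat.Prime := by
  have hk0 : (0 : ℝ) < k := by exact_mod_cast hk
  ext p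
  rw [mem_filter, mem_filter, mem_Icc, mem_Ioc, max_lt_iff, le_min_iff,
    Nat.floor_lt (div_nonneg hs hk0.le)]
  have e1 : s < ((k * p : ℕ) : ℝ) ↔ s / k < p := by
    rw [div_lt_iff₀ hk0]
    push_cast
    rw [mul_comm]
  rw [e1, ← Nat.ceil_le, ← Nat.lt_ceil]
  constructor
  · rintro ⟨⟨h1, h2⟩, h3, h4, h5, h6⟩
    exact ⟨⟨⟨h4, by omega⟩, h2, by omega⟩, h3⟩
  · rintro ⟨⟨⟨h4, h5⟩, h2, h6⟩, h3⟩
    have h1 := h3.one_lt
    exact ⟨⟨by omega, h2⟩, h3, h4, by omega, by omega⟩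

theorem gd_t (A B B' K0 : ℕ) : ∃ Bb : ℕ, ∀ W : ℕ → Finset ℕ → ℝ,
    (∃ X1 : ℕ, ∀ X : ℕ, X1 ≤ X → ∀ T, |W X T| ≤ K0) →
    GdB Bb A B (fun X => wty (kp B' X) X (W X)) := by
  classical
  refine ⟨A + B + B' + 5, fun W hW => ?_⟩
  obtain ⟨X1, hX1⟩ := hW
  obtain ⟨X2, hX2⟩ := pr_part B
  obtain ⟨X3, hX3⟩ := wty_sum
  obtain ⟨X4, hX4⟩ := vty_eq B'
  obtain ⟨Y5, hY5⟩ := E2.MP_log_pow (88 * K0) (A + B' + 2) (ε := 1 / 10) (by norm_num)
  obtain ⟨Y6, hY6⟩ := E2.MP_log_large (160 * K0 + 1)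
  refine ⟨max (max (max X1 X2) (max X3 X4)) (max (max Y5 Y6) 1),
    fun X hX q hq1 hqX χ _ hbad x hx => ?_⟩
  rw [max_le_iff, max_le_iff, max_le_iff, max_le_iff, max_le_iff, max_le_iff] at hX
  obtain ⟨⟨⟨g1, g2⟩, g3, g4⟩, ⟨g5, g6⟩, g7⟩ := hX
  have hWb := hX1 X g1
  have hpr := hX2 X g2 (A + B + B' + 5) q hq1 hqX χ hbad
  have hws := hX3 X g3
  have hve := hX4 X g4
  have hpow := hY5 X g5
  have hL1 := hY6 X g6
  obtain ⟨L, hL⟩ : ∃ L, L = Real.log (X : ℝ) := ⟨_, rfl⟩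
  obtain ⟨Wx, hWx⟩ : ∃ Wx, Wx = W X := ⟨_, rfl⟩
  rw [← hWx] at hWb
  show ‖Sx (fun X => wty (kp B' X) X (W X)) X χ x‖ ≤ X / (Real.log X) ^ A
  have hX0 : (1 : ℝ) ≤ X := by exact_mod_cast g7
  have hXp : (0 : ℝ) < X := by linarith
  have hK0 : (0 : ℝ) ≤ K0 := Nat.cast_nonneg _
  rw [← hL] at hpow hL1 ⊢
  have hL2 : 1 ≤ L := by linarith
  have hLp : 0 < L := by linarith
  have hκ : 0 < kp B' X := by
    unfold kp
    rw [← hL]
    positivity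
  have hX5 : 0 ≤ X5 X := by
    unfold X5
    rw [← hL]
    positivity
  have hzt := zt_ge X
  -- step 1
  have s1 : Sx (fun X => wty (kp B' X) X (W X)) X χ x =
      ∑ k ∈ Icc 1 X, ∑ p ∈ (Icc 1 (X / k)).filter (fun p => p.Prime ∧
        X5 X < ((k * p : ℕ) : ℝ)), ((vty (kp B' X) (zt X) Wx (p : ℝ) k : ℝ) : ℂ) *
          χ ((k * p : ℕ) : ZMod q) * ee (((k * p : ℕ) : ℝ) * x) := by
    rw [← GdT_swap X (X5 X) (fun p k => ((vty (kp B' X) (zt X) Wx (p : ℝ) k : ℝ) : ℂ) *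
          χ ((k * p : ℕ) : ZMod q) * ee (((k * p : ℕ) : ℝ) * x))]
    unfold Sx
    refine sum_congr rfl fun n hn => ?_
    show ((wty (kp B' X) X (W X) n : ℝ) : ℂ) * χ (n : ZMod q) * ee ((n : ℝ) * x) = _
    rw [← hWx]
    split_ifs with h
    · rw [hws (kp B' X) hκ Wx n hn h, Complex.ofReal_sum, sum_mul, sum_mul]
      refine sum_congr rfl fun k hk => ?_
      rw [mem_filter, Nat.mem_divisors] at hk
      rw [Nat.mul_div_cancel' hk.1.1]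
    · unfold wty
      rw [if_neg (fun h' => h h'.1), Complex.ofReal_zero, zero_mul, zero_mul]
  -- step 2
  have s2 : ∀ k ∈ Icc 1 X, ∑ p ∈ (Icc 1 (X / k)).filter (fun p => p.Prime ∧
        X5 X < ((k * p : ℕ) : ℝ)), ((vty (kp B' X) (zt X) Wx (p : ℝ) k : ℝ) : ℂ) *
          χ ((k * p : ℕ) : ZMod q) * ee (((k * p : ℕ) : ℝ) * x) =
      ∑ j ∈ range (NJ B' X), ((vj (kp B' X) (zt X) Wx j k : ℝ) : ℂ) * χ (k : ZMod q) *
        ∑ p ∈ (Icc 1 (X / k)).filter (fun p : ℕ => p.Prime ∧ X5 X < ((k * p : ℕ) : ℝ) ∧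
          ub (kp B' X) (zt X) j ≤ (p : ℝ) ∧ (p : ℝ) < ub (kp B' X) (zt X) (j + 1)),
            χ (p : ZMod q) * ee (((k * p : ℕ) : ℝ) * x) := by
    intro k hk
    rw [mem_Icc] at hk
    have h1 : ∀ p ∈ (Icc 1 (X / k)).filter (fun p => p.Prime ∧
        X5 X < ((k * p : ℕ) : ℝ)), ((vty (kp B' X) (zt X) Wx (p : ℝ) k : ℝ) : ℂ) *
          χ ((k * p : ℕ) : ZMod q) * ee (((k * p : ℕ) : ℝ) * x) =
        ∑ j ∈ range (NJ B' X), if ub (kp B' X) (zt X) j ≤ (p : ℝ) ∧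
          (p : ℝ) < ub (kp B' X) (zt X) (j + 1) then
          ((vj (kp B' X) (zt X) Wx j k : ℝ) : ℂ) * χ (k : ZMod q) *
            (χ (p : ZMod q) * ee (((k * p : ℕ) : ℝ) * x)) else 0 := by
      intro p hp
      rw [mem_filter, mem_Icc] at hp
      have h2 : (p : ℝ) ≤ X := by
        have h3 : p ≤ X := hp.1.2.trans (Nat.div_le_self _ _)
        exact_mod_cast h3
      rw [hve Wx p k h2, Complex.ofReal_sum, sum_mul, sum_mul]
      refine sum_congr rfl fun j _ => ?_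
      unfold HX.ind
      split_ifs with h4
      · rw [mul_one, Nat.cast_mul, map_mul]
        ring
      · rw [mul_zero, Complex.ofReal_zero, zero_mul, zero_mul]
    rw [sum_congr rfl h1, sum_comm]
    refine sum_congr rfl fun j _ => ?_
    rw [← sum_filter, filter_filter, ← mul_sum]
    congr 1
    refine sum_congr ?_ fun p _ => rfl
    ext p
    simp only [mem_filter, and_assoc]
  -- step 3
  have s3 : ∀ k ∈ Icc 1 X, ∀ j ∈ range (NJ B' X),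
      ‖((vj (kp B' X) (zt X) Wx j k : ℝ) : ℂ) * χ (k : ZMod q) *
        ∑ p ∈ (Icc 1 (X / k)).filter (fun p : ℕ => p.Prime ∧ X5 X < ((k * p : ℕ) : ℝ) ∧
          ub (kp B' X) (zt X) j ≤ (p : ℝ) ∧ (p : ℝ) < ub (kp B' X) (zt X) (j + 1)),
            χ (p : ZMod q) * ee (((k * p : ℕ) : ℝ) * x)‖ ≤
      K0 * ((20 * X / L ^ (A + B' + 5) + 11 * (X : ℝ) ^ (9 / 10 : ℝ)) * (1 / k)) := by
    intro k hk j _
    rw [mem_Icc] at hk
    have hk0 : (0 : ℝ) < k := by exact_mod_cast (show 0 < k by omega)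
    have hv1 : ‖((vj (kp B' X) (zt X) Wx j k : ℝ) : ℂ) * χ (k : ZMod q)‖ ≤ K0 := by
      rw [norm_mul, Complex.norm_real, Real.norm_eq_abs]
      have h1 : |vj (kp B' X) (zt X) Wx j k| ≤ K0 := by
        unfold vj
        split_ifs
        · exact hWb _
        · rw [abs_zero]; exact hK0
      calc |vj (kp B' X) (zt X) Wx j k| * ‖χ (k : ZMod q)‖ ≤ K0 * 1 :=
            mul_le_mul h1 (DirichletCharacter.norm_le_one χ _) (norm_nonneg _) hK0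
        _ = K0 := mul_one _
    rw [norm_mul]
    refine mul_le_mul hv1 ?_ (norm_nonneg _) hK0
    have hub : (zt X : ℝ) ≤ ub (kp B' X) (zt X) j := by
      unfold ub
      have h1 : 1 ≤ Real.exp (kp B' X * j) := Real.one_le_exp (by positivity)
      have h2 : (0 : ℝ) ≤ zt X := Nat.cast_nonneg _
      nlinarith
    have hq10 : (X : ℝ) ^ (9 / 10 : ℝ) * (X : ℝ) ^ (1 / 10 : ℝ) = X := by
      rw [← Real.rpow_add hXp]
      norm_num
    have h9 : 0 < (X : ℝ) ^ (9 / 10 : ℝ) := Real.rpow_pos_of_pos hXp _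
    have h10 : 0 < (X : ℝ) ^ (1 / 10 : ℝ) := Real.rpow_pos_of_pos hXp _
    by_cases hkX : (k : ℝ) ≤ (X : ℝ) ^ (9 / 10 : ℝ)
    · rw [GdT_set X k hk.1 _ _ _ hX5]
      refine (hpr k _ _ hk.1 ?_ ?_ x hx).trans ?_
      · have h1 : (X : ℝ) ^ (1 / 10 : ℝ) ≤ ⌈ub (kp B' X) (zt X) j⌉₊ :=
          hzt.trans (hub.trans (Nat.le_ceil _))
        have h2 : ⌈ub (kp B' X) (zt X) j⌉₊ ≤
            max ⌊X5 X / k⌋₊ (⌈ub (kp B' X) (zt X) j⌉₊ - 1) + 1 := by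
          have := le_max_right ⌊X5 X / k⌋₊ (⌈ub (kp B' X) (zt X) j⌉₊ - 1)
          omega
        refine h1.trans ?_
        exact_mod_cast h2
      · calc k * min (X / k) (⌈ub (kp B' X) (zt X) (j + 1)⌉₊ - 1) ≤ k * (X / k) :=
              Nat.mul_le_mul_left _ (min_le_left _ _)
          _ ≤ X := Nat.mul_div_le _ _
      · rw [← hL]
        have h1 : ((min (X / k) (⌈ub (kp B' X) (zt X) (j + 1)⌉₊ - 1) : ℕ) : ℝ) ≤ X / k := by
          refine le_trans ?_ (Nat.cast_div_le (m := X) (n := k))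
          exact_mod_cast min_le_left _ _
        have h2 : 20 * L ^ B * (((min (X / k) (⌈ub (kp B' X) (zt X) (j + 1)⌉₊ - 1) : ℕ) : ℝ) /
            L ^ (A + B + B' + 5)) ≤ 20 * L ^ B * ((X / k) / L ^ (A + B + B' + 5)) := by
          gcongr
        have h3 : 20 * L ^ B * ((X / k) / L ^ (A + B + B' + 5)) =
            20 * X / L ^ (A + B' + 5) * (1 / k) := by
          have e1 : L ^ (A + B + B' + 5) = L ^ B * L ^ (A + B' + 5) := by
            rw [← pow_add]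
            congr 1
            omega
          rw [e1]
          field_simp
        have h4 : (11 : ℝ) ≤ 11 * (X : ℝ) ^ (9 / 10 : ℝ) * (1 / k) := by
          rw [mul_one_div, le_div_iff₀ hk0]
          linarith
        rw [h3] at h2
        rw [add_mul]
        exact add_le_add h2 h4
    · push Not at hkX
      have hemp : (Icc 1 (X / k)).filter (fun p : ℕ => p.Prime ∧ X5 X < ((k * p : ℕ) : ℝ) ∧
          ub (kp B' X) (zt X) j ≤ (p : ℝ) ∧ (p : ℝ) < ub (kp B' X) (zt X) (j + 1)) = ∅ := by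
        rw [filter_eq_empty_iff]
        rintro p hp ⟨_, _, h5, _⟩
        rw [mem_Icc] at hp
        have h1 : (p : ℝ) ≤ X / k := by
          refine le_trans ?_ (Nat.cast_div_le (m := X) (n := k))
          exact_mod_cast hp.2
        have h2 : (X : ℝ) / k < (X : ℝ) ^ (1 / 10 : ℝ) := by
          rw [div_lt_iff₀ hk0]
          nlinarith
        linarith
      rw [hemp, sum_empty, norm_zero]
      positivity
  -- step 4
  rw [s1, sum_congr rfl s2]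
  have s4 : ∀ k ∈ Icc 1 X, ‖∑ j ∈ range (NJ B' X),
      ((vj (kp B' X) (zt X) Wx j k : ℝ) : ℂ) * χ (k : ZMod q) *
        ∑ p ∈ (Icc 1 (X / k)).filter (fun p : ℕ => p.Prime ∧ X5 X < ((k * p : ℕ) : ℝ) ∧
          ub (kp B' X) (zt X) j ≤ (p : ℝ) ∧ (p : ℝ) < ub (kp B' X) (zt X) (j + 1)),
            χ (p : ZMod q) * ee (((k * p : ℕ) : ℝ) * x)‖ ≤
      (NJ B' X : ℝ) * (K0 * ((20 * X / L ^ (A + B' + 5) +
        11 * (X : ℝ) ^ (9 / 10 : ℝ)) * (1 / k))) := by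
    intro k hk
    refine (norm_sum_le _ _).trans ((sum_le_sum (s3 k hk)).trans ?_)
    rw [sum_const, card_range, nsmul_eq_mul]
  refine (norm_sum_le _ _).trans ((sum_le_sum s4).trans ?_)
  have s6 : ∑ k ∈ Icc 1 X, (NJ B' X : ℝ) * (K0 * ((20 * X / L ^ (A + B' + 5) +
        11 * (X : ℝ) ^ (9 / 10 : ℝ)) * (1 / (k : ℝ)))) =
      (NJ B' X : ℝ) * (K0 * (20 * X / L ^ (A + B' + 5) +
        11 * (X : ℝ) ^ (9 / 10 : ℝ))) * ∑ k ∈ Icc 1 X, 1 / (k : ℝ) := by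
    rw [mul_sum]
    refine sum_congr rfl fun k _ => ?_
    ring
  rw [s6]
  have hNJ : (NJ B' X : ℝ) ≤ 2 * L ^ (B' + 1) := by
    unfold NJ
    rw [← hL]
    push_cast
    have h1 := Nat.floor_le (show 0 ≤ L ^ (B' + 1) by positivity)
    have h2 : 1 ≤ L ^ (B' + 1) := one_le_pow₀ hL2
    linarith
  have hh : ∑ k ∈ Icc 1 X, 1 / (k : ℝ) ≤ 2 * L := by
    have := GdT_harm X
    rw [← hL] at this
    linarith
  have hh0 : 0 ≤ ∑ k ∈ Icc 1 X, 1 / (k : ℝ) := sum_nonneg fun k _ => by positivity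
  have h9 : 0 < (X : ℝ) ^ (9 / 10 : ℝ) := Real.rpow_pos_of_pos hXp _
  have hq10 : (X : ℝ) ^ (9 / 10 : ℝ) * (X : ℝ) ^ (1 / 10 : ℝ) = X := by
    rw [← Real.rpow_add hXp]
    norm_num
  have f1 : (2 * L ^ (B' + 1)) * (K0 * (20 * X / L ^ (A + B' + 5))) * (2 * L) ≤
      X / L ^ A / 2 := by
    have e1 : (2 * L ^ (B' + 1)) * (K0 * (20 * X / L ^ (A + B' + 5))) * (2 * L) =
        80 * K0 * (X / L ^ A) / L ^ 3 := by
      have e2 : L ^ (A + B' + 5) = L ^ (B' + 1) * L * (L ^ A * L ^ 3) := by ring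
      rw [e2]
      field_simp
      ring
    rw [e1, div_le_div_iff₀ (by positivity) (by norm_num)]
    have h1 : 0 ≤ (X : ℝ) / L ^ A := by positivity
    have h2 : L ≤ L ^ 3 := by nlinarith [sq_nonneg L, mul_pos hLp hLp]
    have h3 : 160 * (K0 : ℝ) ≤ L ^ 3 := by linarith
    nlinarith
  have f2 : (2 * L ^ (B' + 1)) * (K0 * (11 * (X : ℝ) ^ (9 / 10 : ℝ))) * (2 * L) ≤
      X / L ^ A / 2 := by
    rw [div_div, le_div_iff₀ (by positivity)]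
    have e1 : (2 * L ^ (B' + 1)) * (K0 * (11 * (X : ℝ) ^ (9 / 10 : ℝ))) * (2 * L) *
        (L ^ A * 2) = (X : ℝ) ^ (9 / 10 : ℝ) * (88 * K0 * L ^ (A + B' + 2)) := by ring
    rw [e1]
    calc (X : ℝ) ^ (9 / 10 : ℝ) * (88 * K0 * L ^ (A + B' + 2)) ≤
          (X : ℝ) ^ (9 / 10 : ℝ) * (X : ℝ) ^ (1 / 10 : ℝ) :=
          mul_le_mul_of_nonneg_left hpow h9.le
      _ = X := hq10
  calc (NJ B' X : ℝ) * (K0 * (20 * X / L ^ (A + B' + 5) +
        11 * (X : ℝ) ^ (9 / 10 : ℝ))) * ∑ k ∈ Icc 1 X, 1 / (k : ℝ)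
      ≤ (2 * L ^ (B' + 1)) * (K0 * (20 * X / L ^ (A + B' + 5) +
        11 * (X : ℝ) ^ (9 / 10 : ℝ))) * (2 * L) := by gcongr
    _ = (2 * L ^ (B' + 1)) * (K0 * (20 * X / L ^ (A + B' + 5))) * (2 * L) +
        (2 * L ^ (B' + 1)) * (K0 * (11 * (X : ℝ) ^ (9 / 10 : ℝ))) * (2 * L) := by ring
    _ ≤ X / L ^ A / 2 + X / L ^ A / 2 := add_le_add f1 f2
    _ = X / L ^ A := by ring

end Pool.MP_dd84fd_nt.DX
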