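import Pool.Agent.Lib.MP_dd84fd_nt.DX.GdC

/-!
# DX-GnE: GEN with explicit moduli (assembly)

`A` given; `B` = maximum of the `B` of `PlugE` at `A + 1` and of the `B` of `MassE` at `2 (A+1) + 5` (`DecJ`, `DecW` are monotone in `B`).
For `K0 C1 C2`: `K1, K2` of `PlugE`; `τ`: `A'0` of `MassE`; `A' := A'0 + K2 + 4`, `B' := K2 + 3`: `GdB` gives
`|Sx| ≤ X/L^(A'0+K2+4)` for `|x| ≤ 4 L^K2/X ≤ L^(K2+3)/X`, so `vN ≤ L/√X (8 L^K2/X)^(1/2) X/L^(A'0+K2+4) ≤ 1/L^A'0`.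
`Bb` given: `C` of `DSetE Bb K1`.  `D` of `DSetE` with `R = X^(1-th+3e)` (`≤ X`); `q ≤ N ≤ R` for `q ∈ QQ`; `GoodQ`; `GdB`; `MassE` (its
left side is `msM`, `rfl`); `gd_c` with `A + 1`; `PlugE` with `s2 = -1`, `R n = X/L^(A+1)`.
-/

set_option autoImplicit false

namespace Pool.MP_dd84fd_nt.DX

open Finset Pool.MP_67663b_nt.Odd Pool.MP_dd84fd_nt.En Pool.MP_dd84fd_nt.E2 Pool.MP_dd84fd_nt.LS
open Pool.MP_dd84fd_nt.GX Pool.MP_dd84fd_nt.HX Pool.MP_dd84fd_nt.IX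

/-- `GdB` gives small norms -/
theorem vn_small (A K2 Bb : ℕ) (ww : ℕ → ℕ → ℝ) (h : GdB Bb (A + K2 + 4) (K2 + 3) ww) :
    ∃ X0 : ℕ, ∀ X : ℕ, X0 ≤ X → ∀ q : ℕ, 1 ≤ q → q ≤ X → GoodQ Bb X q →
    ∀ χ : DirichletCharacter ℂ q, χ ≠ 1 →
      vN ww X (4 * (Real.log X) ^ K2) χ ≤ 1 / (Real.log X) ^ A := by
  obtain ⟨X1, hX1⟩ := h
  obtain ⟨X2, hX2⟩ : ∃ X2 : ℕ, ∀ X ≥ X2, 2 ≤ Real.log X :=
    Filter.eventually_atTop.1 ((Real.tendsto_log_atTop.comp tendsto_natCast_atTop_atTop).eventually_ge_atTop 2)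
  refine ⟨X1 + X2 + 1, fun X hX q hq hqX hgood χ hχ => ?_⟩
  have hL := hX2 X (by omega)
  have hX0 : (0 : ℝ) < X := by exact_mod_cast (by omega : 0 < X)
  have hb := hX1 X (by omega) q hq hqX χ hχ (hgood χ hχ)
  obtain ⟨L, hLdef⟩ : ∃ L : ℝ, L = Real.log X := ⟨_, rfl⟩
  rw [← hLdef] at hL hb
  unfold vN
  rw [← hLdef]
  have hL0 : 0 < L := by linarith
  have hL1 : 1 ≤ L := by linarith
  have hI : ∫ x in (-(4 * L ^ K2 / X))..(4 * L ^ K2 / X), ‖Sx ww X χ x‖ ^ 2 ≤ X / (L ^ (A + 1)) ^ 2 := by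
    have h1 := intervalIntegral.norm_integral_le_of_norm_le_const (a := -(4 * L ^ K2 / X)) (b := 4 * L ^ K2 / X)
      (f := fun x => ‖Sx ww X χ x‖ ^ 2) (C := (X / L ^ (A + K2 + 4)) ^ 2) (fun x hx => by
        rw [Set.uIoc_of_le (by
          have : 0 ≤ 4 * L ^ K2 / X := by positivity
          linarith)] at hx
        have h2 : |x| ≤ L ^ (K2 + 3) / X := by
          rw [abs_le]
          have h3 : 4 * L ^ K2 / X ≤ L ^ (K2 + 3) / X := by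
            refine div_le_div_of_nonneg_right ?_ hX0.le
            have h4 : (4 : ℝ) ≤ L ^ 3 := by nlinarith [sq_nonneg (L - 2)]
            calc 4 * L ^ K2 ≤ L ^ 3 * L ^ K2 := by gcongr
              _ = L ^ (K2 + 3) := by ring
          exact ⟨by linarith [hx.1.le], by linarith [hx.2]⟩
        have h3 := hb x h2
        rw [Real.norm_of_nonneg (by positivity)]
        exact pow_le_pow_left₀ (norm_nonneg _) h3 2)
    refine (le_trans (le_abs_self _) h1).trans ?_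
    have h4 : 4 * L ^ K2 / X - -(4 * L ^ K2 / X) = 8 * L ^ K2 / X := by ring
    rw [h4, abs_of_nonneg (by positivity)]
    have h5 : (X / L ^ (A + K2 + 4)) ^ 2 * (8 * L ^ K2 / X) = 8 * L ^ K2 * X / (L ^ (A + K2 + 4)) ^ 2 := by
      field_simp
    rw [h5, div_le_div_iff₀ (by positivity) (by positivity)]
    have h6 : (8 : ℝ) ≤ L ^ (K2 + 6) := by
      calc (8 : ℝ) ≤ 2 ^ 6 := by norm_num
        _ ≤ L ^ 6 := pow_le_pow_left₀ (by norm_num) hL 6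
        _ ≤ L ^ (K2 + 6) := pow_le_pow_right₀ hL1 (by omega)
    calc 8 * L ^ K2 * X * (L ^ (A + 1)) ^ 2 = 8 * (X * L ^ (K2 + 2 * A + 2)) := by ring
      _ ≤ L ^ (K2 + 6) * (X * L ^ (K2 + 2 * A + 2)) := by gcongr
      _ = X * (L ^ (A + K2 + 4)) ^ 2 := by ring
  have h2 : Real.sqrt (∫ x in (-(4 * L ^ K2 / X))..(4 * L ^ K2 / X), ‖Sx ww X χ x‖ ^ 2) ≤
      Real.sqrt X / L ^ (A + 1) := by
    calc Real.sqrt (∫ x in (-(4 * L ^ K2 / X))..(4 * L ^ K2 / X), ‖Sx ww X χ x‖ ^ 2)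
        ≤ Real.sqrt (X / (L ^ (A + 1)) ^ 2) := Real.sqrt_le_sqrt hI
      _ = Real.sqrt X / L ^ (A + 1) := by
        rw [Real.sqrt_div hX0.le, Real.sqrt_sq (by positivity)]
  have hs : 0 < Real.sqrt X := Real.sqrt_pos.2 hX0
  calc L / Real.sqrt X * Real.sqrt (∫ x in (-(4 * L ^ K2 / X))..(4 * L ^ K2 / X), ‖Sx ww X χ x‖ ^ 2)
      ≤ L / Real.sqrt X * (Real.sqrt X / L ^ (A + 1)) := by gcongr
    _ = 1 / L ^ A := by
      rw [pow_succ]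
      field_simp

private theorem decJ_mono {B B' C2 : ℕ} {th e τ : ℝ} {ww : ℕ → ℕ → ℝ} (hB : B' ≤ B)
    (h : Pool.MP_dd84fd_nt.JX.DecJ B C2 th e τ ww) : Pool.MP_dd84fd_nt.JX.DecJ B' C2 th e τ ww := by
  obtain ⟨X0, hX0⟩ := h
  refine ⟨max X0 3, fun X hX => ?_⟩
  obtain ⟨I, γ, α, M, K, a, c, err, h1, h2, h3, h4, h5, h6, h7, h8, h9⟩ := hX0 X (le_trans (le_max_left _ _) hX)
  refine ⟨I, γ, α, M, K, a, c, err, h1, h2, h3, h4, h5, h6, h7, h8, h9.trans ?_⟩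
  have hX3 : (3 : ℝ) ≤ X := by exact_mod_cast le_trans (le_max_right _ _) hX
  have hL : 1 ≤ Real.log X := by
    rw [Real.le_log_iff_exp_le (by linarith)]
    exact (Real.exp_one_lt_d9.le.trans (by norm_num)).trans hX3
  exact div_le_div_of_nonneg_left (by linarith) (by positivity) (pow_le_pow_right₀ hL hB)

private theorem decW_mono {B B' C2 : ℕ} {th e τ : ℝ} {ww : ℕ → ℕ → ℝ} (hB : B' ≤ B)
    (h : Pool.MP_dd84fd_nt.LX.DecW B C2 th e τ ww) : Pool.MP_dd84fd_nt.LX.DecW B' C2 th e τ ww := by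
  obtain ⟨X0, hX0⟩ := h
  refine ⟨max X0 3, fun X hX => ?_⟩
  obtain ⟨I, γ, α, M, K, a, c, err, h1, h2, h3, h4, h5, h6, h7, h8, h9⟩ := hX0 X (le_trans (le_max_left _ _) hX)
  refine ⟨I, γ, α, M, K, a, c, err, h1, h2, h3, h4, h5, h6, h7, h8, h9.trans ?_⟩
  have hX3 : (3 : ℝ) ≤ X := by exact_mod_cast le_trans (le_max_right _ _) hX
  have hL : 1 ≤ Real.log X := by
    rw [Real.le_log_iff_exp_le (by linarith)]
    exact (Real.exp_one_lt_d9.le.trans (by norm_num)).trans hX3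
  exact div_le_div_of_nonneg_left (by linarith) (by positivity) (pow_le_pow_right₀ hL hB)

theorem gn_e (hP : PlugE) (hM : MassE) (hD : DSetE) : GenE := by
  intro A
  obtain ⟨B1, hP1⟩ := hP (A + 1)
  obtain ⟨B2, hM1⟩ := hM (2 * (A + 1) + 5)
  refine ⟨max B1 B2, fun K0 C1 C2 τ hτ => ?_⟩
  obtain ⟨K1, K2, hP2⟩ := hP1 K0 C1 C2
  obtain ⟨A0, hM2⟩ := hM1 K0 C1 C2 K1 K2 τ hτ
  refine ⟨A0 + K2 + 4, K2 + 3, fun Bb => ?_⟩
  obtain ⟨C, hD1⟩ := hD Bb K1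
  refine ⟨C, fun th e hA ww1 gg1 ww2 gg2 hw1 hd1 hw2 hd2 hMaj hG s1 hs1 K => ?_⟩
  obtain ⟨D0, hM3⟩ := hM2 th e hA ww2 gg2 hw2 (decJ_mono (le_max_right _ _) hd2) hMaj
  refine ⟨max D0 1, fun D' hD' => ?_⟩
  have hD'0 : D0 ≤ D' := le_trans (le_max_left _ _) hD'
  have hD'1 : 1 ≤ D' := le_trans (le_max_right _ _) hD'
  obtain ⟨Xm, hM4⟩ := hM3 D' hD'0
  obtain ⟨Xp, hP3⟩ := hP2 th e τ hA ww1 gg1 ww2 gg2 hw1 (decW_mono (le_max_left _ _) hd1) hw2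
    (decJ_mono (le_max_left _ _) hd2) D' hD'1
  obtain ⟨Xd, hD2⟩ := hD1 K
  obtain ⟨Xv, hv⟩ := vn_small A0 K2 Bb ww2 hG
  obtain ⟨Xg, hg⟩ := gd_c (A + 1) K0 C1 K1 K2 th e τ hA ww1 gg1 hw1 D' hD'1
  obtain ⟨Xl, hl⟩ : ∃ X2 : ℕ, ∀ X ≥ X2, 2 ≤ Real.log X :=
    Filter.eventually_atTop.1 ((Real.tendsto_log_atTop.comp tendsto_natCast_atTop_atTop).eventually_ge_atTop 2)
  refine ⟨Xm + Xp + Xd + Xv + Xg + Xl + 1, fun X hX => ?_⟩
  have hX1 : (1 : ℝ) ≤ X := by exact_mod_cast (by omega : 1 ≤ X)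
  have hL := hl X (by omega)
  obtain ⟨hA1, hA2, hA3, hA4, hA5⟩ := hA
  have hRX : (X : ℝ) ^ (1 - th + 3 * e) ≤ X := by
    calc (X : ℝ) ^ (1 - th + 3 * e) ≤ (X : ℝ) ^ (1 : ℝ) :=
          Real.rpow_le_rpow_of_exponent_le hX1 (by linarith)
      _ = X := Real.rpow_one _
  obtain ⟨D, hDc, hDd, hDg⟩ := hD2 X (by omega) _ hRX
  obtain ⟨Ex, hEx, hmain⟩ := hP3 X (by omega) s1 (-1) hs1 (by norm_num) (fun _ => X / (Real.log X) ^ (A + 1))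
  refine ⟨D, Ex, hDc, hDd, hEx, fun n hn1 hn2 hn3 hn4 => ?_⟩
  have hgood : GoodE th e ww1 gg1 s1 ww2 gg2 (-1) (wX D' X) X n K1 K2 (X / (Real.log X) ^ (A + 1)) := by
    refine hg X (by omega) s1 hs1 ww2 gg2 (-1) n fun QQ N hDsk => ?_
    refine hM4 X (by omega) n QQ N hDsk fun q hq χ hχ => ?_
    obtain ⟨e1, e2, e3, e4, e5, e6, e7⟩ := hDsk
    obtain ⟨f1, f2⟩ := e3 q hq
    have hqN : (q : ℝ) ≤ N := by
      have := e4 q hq q hq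
      rwa [Nat.lcm_self] at this
    have hqR : (q : ℝ) ≤ (X : ℝ) ^ (1 - th + 3 * e) :=
      (hqN.trans e7).trans (Real.rpow_le_rpow_of_exponent_le hX1 (by linarith))
    have hqX : q ≤ X := by exact_mod_cast hqR.trans hRX
    exact hv X (by omega) q f1 hqX (hDg n (by omega) hn4 q f1 hqR f2) χ hχ
  have h1 := hmain n hn1 hn2 hn3 hgood
  have h2 : (fun m => ww2 X m - fI gg2 X (wX D' X) m) = fun m => ww2 X m + (-1) * fI gg2 X (wX D' X) m := by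
    funext m
    ring
  rw [h2]
  refine h1.trans ?_
  have hL0 : 0 < Real.log X := by linarith
  rw [← add_div, div_le_div_iff₀ (by positivity) (by positivity)]
  calc ((X : ℝ) + X) * Real.log X ^ A = 2 * (X * Real.log X ^ A) := by ring
    _ ≤ Real.log X * (X * Real.log X ^ A) := by gcongr
    _ = X * Real.log X ^ (A + 1) := by ring

end Pool.MP_dd84fd_nt.DX
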