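import Pool.Agent.Lib.MP_dd84fd_nt.HX.PlOvB
import Pool.Agent.Lib.MP_dd84fd_nt.HX.GrFrac
import Pool.Agent.Lib.MP_67663b_nt.OddB.LSieve
import Pool.Agent.Lib.BV.Tot

/-!
# DX-LtOv: large sieve with the condition `(k, q) = 1`, pointwise in `x` (helper33)

As `HXP.ovc` (`HX/PlOv.lean`), for fixed `x`: `ov_prod`, then `large_sieve_c` for the points
`y/r + x`, `r ∈ {q/d}`, and `BV.tot_sum`.
-/

set_option autoImplicit false

namespace Pool.MP_dd84fd_nt.DX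

open Finset Pool.MP_67663b_nt.Odd Pool.MP_dd84fd_nt.PL Pool.MP_dd84fd_nt.HX Pool.MP_dd84fd_nt.HXP

/-- large sieve for the fractions of a family -/
theorem lt_fam (QQ : Finset ℕ) (N : ℝ) (hN : Fam QQ N) (hN1 : 1 ≤ N) (K : ℕ) (c : ℕ → ℂ)
    (x : ℝ) :
    ∑ q ∈ QQ, ∑ a ∈ rr q, ‖tp K c ((a : ℝ) / q + x)‖ ^ 2 ≤
      (N + 13 * K) * ∑ k ∈ Icc 1 K, ‖c k‖ ^ 2 := by
  rcases Nat.eq_zero_or_pos K with h0 | hK
  · subst h0
    unfold tp
    simp
  have hKr : (0 : ℝ) < K := by exact_mod_cast hK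
  have hN0 : 0 < N := by linarith
  have h := large_sieve_c (QQ.sigma rr) (fun p => (p.2 : ℝ) / p.1 + x) (δ := 1 / N)
    (by positivity) (by rw [div_le_one hN0]; exact hN1) (by
      rintro ⟨q, a⟩ hp ⟨q', a'⟩ hp' hne z
      rw [mem_sigma] at hp hp'
      simp only at hp hp'
      have h5 := fr_dist (hN.1 q hp.1) (hN.1 q' hp'.1) hp.2 hp'.2 (by
        rintro ⟨e1, e2⟩
        apply hne
        rw [e1, e2]) z
      have e : (a : ℝ) / q + x - ((a' : ℝ) / q' + x) - z = (a : ℝ) / q - (a' : ℝ) / q' - z := by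
        ring
      show 1 / N ≤ |(a : ℝ) / q + x - ((a' : ℝ) / q' + x) - z|
      rw [e]
      refine le_trans ?_ h5
      have h6 : (0 : ℝ) < (Nat.lcm q q' : ℝ) := by
        have := hN.1 q hp.1
        have := hN.1 q' hp'.1
        exact_mod_cast Nat.lcm_pos (by omega) (by omega)
      exact one_div_le_one_div_of_le h6 (hN.2 q hp.1 q' hp'.1))
    (Icc 1 K) c (N := (K : ℝ)) hKr (fun n hn => by exact_mod_cast (mem_Icc.1 hn).2)
  rw [Finset.sum_sigma] at h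
  refine le_trans (le_of_eq ?_) (h.trans ?_)
  · rfl
  · refine mul_le_mul_of_nonneg_right ?_ (sum_nonneg fun _ _ => by positivity)
    have hpi : 4 * Real.pi ≤ 13 := by
      have := Real.pi_lt_d2
      linarith
    rw [one_div, inv_inv]
    have := mul_le_mul_of_nonneg_right hpi hKr.le
    linarith

/-- the large sieve with the condition `(k, q) = 1` -/
theorem lt_ov (QQ : Finset ℕ) (N : ℝ) (hN : Fam QQ N) (hN1 : 1 ≤ N) (K : ℕ) (c : ℕ → ℂ)
    (x : ℝ) :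
    ∑ q ∈ QQ, ∑ a ∈ rr q, ‖tp K (cq q c) ((a : ℝ) / q + x)‖ ^ 2 ≤
      3 * (1 + Real.log N) ^ 2 * (N + 13 * K) * ∑ k ∈ Icc 1 K, ‖c k‖ ^ 2 := by
  have hS : 0 ≤ ∑ k ∈ Icc 1 K, ‖c k‖ ^ 2 := sum_nonneg fun k _ => by positivity
  have hB : 0 ≤ N + 13 * (K : ℝ) := by positivity
  set E : ℕ → ℕ → ℝ := fun d r => ∑ y ∈ rr r, ‖tp K (cq d c) ((y : ℝ) / r + x)‖ ^ 2 with hE
  -- step 1
  have h1 : ∀ q ∈ QQ, ∑ a ∈ rr q, ‖tp K (cq q c) ((a : ℝ) / q + x)‖ ^ 2 ≤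
      ∑ d ∈ q.divisors, 1 / (Nat.totient d : ℝ) * E d (q / d) := fun q hq =>
    ov_prod q K (hN.1 q hq) c x
  -- step 2
  set Q : ℕ := ⌊N⌋₊ with hQ
  have hQ1 : 1 ≤ Q := by
    rw [hQ]
    exact Nat.le_floor (by exact_mod_cast hN1)
  have hQN : (Q : ℝ) ≤ N := Nat.floor_le (by linarith)
  have hqQ : ∀ q ∈ QQ, q ≤ Q := by
    intro q hq
    have h2 := hN.2 q hq q hq
    rw [Nat.lcm_self] at h2
    exact Nat.le_floor h2
  have h2 : ∀ q ∈ QQ, ∑ d ∈ q.divisors, 1 / (Nat.totient d : ℝ) * E d (q / d) =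
      ∑ d ∈ Icc 1 Q, if d ∣ q then 1 / (Nat.totient d : ℝ) * E d (q / d) else 0 := by
    intro q hq
    have hq1 := hN.1 q hq
    rw [← sum_filter]
    refine sum_congr ?_ fun _ _ => rfl
    ext d
    rw [Nat.mem_divisors, mem_filter, mem_Icc]
    constructor
    · rintro ⟨h3, _⟩
      exact ⟨⟨Nat.pos_of_dvd_of_pos h3 hq1, (Nat.le_of_dvd hq1 h3).trans (hqQ q hq)⟩, h3⟩
    · rintro ⟨_, h3⟩
      exact ⟨h3, by omega⟩
  -- step 3
  have h3 : ∀ d ∈ Icc 1 Q, ∑ q ∈ QQ, (if d ∣ q then 1 / (Nat.totient d : ℝ) * E d (q / d) else 0) ≤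
      1 / (Nat.totient d : ℝ) * ((N + 13 * K) * ∑ k ∈ Icc 1 K, ‖c k‖ ^ 2) := by
    intro d hd
    rw [mem_Icc] at hd
    have hd0 : 0 < d := hd.1
    rw [← sum_filter, ← mul_sum]
    refine mul_le_mul_of_nonneg_left ?_ (by positivity)
    have hinj : Set.InjOn (fun q : ℕ => q / d) ((QQ.filter (fun q => d ∣ q) : Finset ℕ) : Set ℕ) := by
      intro q hq q' hq' h
      rw [mem_coe, mem_filter] at hq hq'
      have h4 : q / d = q' / d := h
      rw [← Nat.div_mul_cancel hq.2, ← Nat.div_mul_cancel hq'.2, h4]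
    have h5 := sum_image (s := QQ.filter (fun q => d ∣ q)) (g := fun q : ℕ => q / d)
      (f := fun r => E d r) hinj
    rw [← h5]
    have hFam : Fam ((QQ.filter (fun q => d ∣ q)).image (fun q : ℕ => q / d)) N := by
      constructor
      · intro r hr
        rw [mem_image] at hr
        obtain ⟨q, hq, rfl⟩ := hr
        rw [mem_filter] at hq
        exact Nat.div_pos (Nat.le_of_dvd (hN.1 q hq.1) hq.2) hd0
      · intro r hr r' hr'
        rw [mem_image] at hr hr'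
        obtain ⟨q, hq, rfl⟩ := hr
        obtain ⟨q', hq', rfl⟩ := hr'
        rw [mem_filter] at hq hq'
        have h6 := hN.2 q hq.1 q' hq'.1
        refine le_trans ?_ h6
        have h7 : Nat.lcm (q / d) (q' / d) ∣ Nat.lcm q q' :=
          Nat.lcm_dvd ((Nat.div_dvd_of_dvd hq.2).trans (Nat.dvd_lcm_left q q'))
            ((Nat.div_dvd_of_dvd hq'.2).trans (Nat.dvd_lcm_right q q'))
        have h8 : 0 < Nat.lcm q q' := Nat.lcm_pos (hN.1 q hq.1) (hN.1 q' hq'.1)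
        exact_mod_cast Nat.le_of_dvd h8 h7
    have h6 := lt_fam _ N hFam hN1 K (cq d c) x
    refine h6.trans (mul_le_mul_of_nonneg_left ?_ hB)
    refine sum_le_sum fun k _ => ?_
    unfold cq
    split_ifs
    · exact le_refl _
    · rw [norm_zero, zero_pow two_ne_zero]
      positivity
  calc _ ≤ ∑ q ∈ QQ, ∑ d ∈ Icc 1 Q, (if d ∣ q then 1 / (Nat.totient d : ℝ) * E d (q / d) else 0) :=
        sum_le_sum fun q hq => (h1 q hq).trans (le_of_eq (h2 q hq))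
    _ = ∑ d ∈ Icc 1 Q, ∑ q ∈ QQ, (if d ∣ q then 1 / (Nat.totient d : ℝ) * E d (q / d) else 0) := sum_comm
    _ ≤ ∑ d ∈ Icc 1 Q, 1 / (Nat.totient d : ℝ) * ((N + 13 * K) * ∑ k ∈ Icc 1 K, ‖c k‖ ^ 2) :=
        sum_le_sum h3
    _ = (∑ d ∈ Icc 1 Q, 1 / (Nat.totient d : ℝ)) * ((N + 13 * K) * ∑ k ∈ Icc 1 K, ‖c k‖ ^ 2) := by
        rw [sum_mul]
    _ ≤ (3 * (1 + Real.log N) ^ 2) * ((N + 13 * K) * ∑ k ∈ Icc 1 K, ‖c k‖ ^ 2) := by
        refine mul_le_mul_of_nonneg_right ?_ (mul_nonneg hB hS)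
        refine (Pool.BV.tot_sum Q hQ1).trans ?_
        have h4 : 0 ≤ Real.log Q := Real.log_natCast_nonneg Q
        have h5 : Real.log Q ≤ Real.log N :=
          Real.log_le_log (by exact_mod_cast hQ1) hQN
        have h6 : (1 + Real.log Q) ^ 2 ≤ (1 + Real.log N) ^ 2 :=
          pow_le_pow_left₀ (by linarith) (by linarith) 2
        linarith
    _ = _ := by ring

end Pool.MP_dd84fd_nt.DX
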