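import Mathlib

/-!
# DX-LtPow: divisor moments and powers of finite sums (helper33)

`tau_div`: `∑_{n ≤ N} τ(n)^k / n ≤ (1 + log N)^(2^k)`; `tau_pow`; `bj a j`: the coefficients of the
`j`-th power of `∑ a_m m^(-s)`.
-/

set_option autoImplicit false

namespace Pool.MP_dd84fd_nt.DX

open Finset

theorem tau_mul_le (a b : ℕ) : (a * b).divisors.card ≤ a.divisors.card * b.divisors.card := by
  rw [Nat.divisors_mul]
  exact card_mul_le

/-- sums over pairs `(m, k)` collected according to `m k` -/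
theorem pairs_sum {E : Type*} [AddCommMonoid E] (U V : ℕ) (F : ℕ → ℕ → E) :
    ∑ m ∈ Icc 1 U, ∑ k ∈ Icc 1 V, F m k =
      ∑ n ∈ Icc 1 (U * V), ∑ m ∈ n.divisors.filter (fun m => m ≤ U ∧ n / m ≤ V), F m (n / m) := by
  classical
  rw [← sum_product', sum_sigma']
  refine sum_nbij' (fun p => (⟨p.1 * p.2, p.1⟩ : (_ : ℕ) × ℕ)) (fun s => (s.2, s.1 / s.2))
    ?_ ?_ ?_ ?_ ?_
  · rintro ⟨m, k⟩ h
    rw [mem_product, mem_Icc, mem_Icc] at h
    obtain ⟨⟨h1, h2⟩, h3, h4⟩ := h
    simp only at h1 h2 h3 h4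
    rw [mem_sigma, mem_Icc, mem_filter, Nat.mem_divisors]
    have h5 : m * k / m = k := Nat.mul_div_cancel_left k (by omega)
    simp only
    refine ⟨⟨Nat.mul_pos h1 h3, Nat.mul_le_mul h2 h4⟩, ⟨dvd_mul_right m k, ?_⟩, h2, ?_⟩
    · have := Nat.mul_pos h1 h3
      omega
    · rw [h5]; exact h4
  · rintro ⟨n, m⟩ h
    rw [mem_sigma, mem_Icc, mem_filter, Nat.mem_divisors] at h
    simp only at h
    obtain ⟨⟨h1, _⟩, ⟨h2, _⟩, h3, h4⟩ := h
    rw [mem_product, mem_Icc, mem_Icc]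
    have h5 : 1 ≤ m := Nat.pos_of_dvd_of_pos h2 h1
    exact ⟨⟨h5, h3⟩, Nat.div_pos (Nat.le_of_dvd h1 h2) h5, h4⟩
  · rintro ⟨m, k⟩ h
    rw [mem_product, mem_Icc, mem_Icc] at h
    simp only at h ⊢
    rw [Nat.mul_div_cancel_left k (by omega)]
  · rintro ⟨n, m⟩ h
    rw [mem_sigma, mem_Icc, mem_filter, Nat.mem_divisors] at h
    simp only at h ⊢
    rw [Nat.mul_div_cancel' h.2.1.1]
  · rintro ⟨m, k⟩ h
    rw [mem_product, mem_Icc, mem_Icc] at h
    simp only at h ⊢
    rw [Nat.mul_div_cancel_left k (by omega)]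

theorem harm_le (N : ℕ) : ∑ n ∈ Icc 1 N, 1 / (n : ℝ) ≤ 1 + Real.log N := by
  have h := harmonic_le_one_add_log N
  rw [harmonic_eq_sum_Icc] at h
  push_cast at h
  simpa [one_div] using h

/-- divisor moments -/
theorem tau_div (k N : ℕ) (hN : 1 ≤ N) :
    ∑ n ∈ Icc 1 N, (n.divisors.card : ℝ) ^ k / n ≤ (1 + Real.log N) ^ (2 ^ k) := by
  classical
  induction k with
  | zero =>
    simp only [pow_zero, pow_one]
    exact harm_le N
  | succ k ih =>
    have h0 : ∀ n : ℕ, 0 ≤ (n.divisors.card : ℝ) ^ k / n := fun n => by positivity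
    have h1 : ∀ n ∈ Icc 1 N, (n.divisors.card : ℝ) ^ (k + 1) / n ≤
        ∑ m ∈ n.divisors.filter (fun m => m ≤ N ∧ n / m ≤ N),
          (m.divisors.card : ℝ) ^ k / m * (((n / m).divisors.card : ℝ) ^ k / ((n / m : ℕ) : ℝ)) := by
      intro n hn
      rw [mem_Icc] at hn
      have hf : n.divisors.filter (fun m => m ≤ N ∧ n / m ≤ N) = n.divisors := by
        rw [filter_eq_self]
        intro m hm
        rw [Nat.mem_divisors] at hm
        exact ⟨(Nat.le_of_dvd hn.1 hm.1).trans hn.2, (Nat.div_le_self n m).trans hn.2⟩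
      rw [hf, pow_succ]
      have hn0 : (0 : ℝ) < n := by exact_mod_cast hn.1
      have e1 : (n.divisors.card : ℝ) ^ k * (n.divisors.card : ℝ) / n =
          ∑ m ∈ n.divisors, (n.divisors.card : ℝ) ^ k / n := by
        rw [sum_const, nsmul_eq_mul]
        ring
      rw [e1]
      refine sum_le_sum fun m hm => ?_
      rw [Nat.mem_divisors] at hm
      have hm0 : 0 < m := Nat.pos_of_dvd_of_pos hm.1 hn.1
      have hnm : n = m * (n / m) := (Nat.mul_div_cancel' hm.1).symm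
      have hnm0 : 0 < n / m := Nat.div_pos (Nat.le_of_dvd hn.1 hm.1) hm0
      have e2 : (n : ℝ) = (m : ℝ) * ((n / m : ℕ) : ℝ) := by exact_mod_cast hnm
      have e3 : (n.divisors.card : ℝ) ≤ (m.divisors.card : ℝ) * ((n / m).divisors.card : ℝ) := by
        have := tau_mul_le m (n / m)
        rw [← hnm] at this
        exact_mod_cast this
      have hm0r : (0 : ℝ) < m := by exact_mod_cast hm0
      have hnm0r : (0 : ℝ) < ((n / m : ℕ) : ℝ) := by exact_mod_cast hnm0
      calc (n.divisors.card : ℝ) ^ k / n ≤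
          ((m.divisors.card : ℝ) * ((n / m).divisors.card : ℝ)) ^ k / n :=
            div_le_div_of_nonneg_right (pow_le_pow_left₀ (Nat.cast_nonneg _) e3 k) hn0.le
        _ = _ := by
            rw [e2, mul_pow, mul_div_mul_comm]
    refine (sum_le_sum h1).trans ?_
    have h2 : ∑ n ∈ Icc 1 N, ∑ m ∈ n.divisors.filter (fun m => m ≤ N ∧ n / m ≤ N),
          (m.divisors.card : ℝ) ^ k / m * (((n / m).divisors.card : ℝ) ^ k / ((n / m : ℕ) : ℝ)) ≤
        ∑ n ∈ Icc 1 (N * N), ∑ m ∈ n.divisors.filter (fun m => m ≤ N ∧ n / m ≤ N),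
          (m.divisors.card : ℝ) ^ k / m * (((n / m).divisors.card : ℝ) ^ k / ((n / m : ℕ) : ℝ)) := by
      refine sum_le_sum_of_subset_of_nonneg ?_ ?_
      · refine Icc_subset_Icc_right ?_
        exact Nat.le_mul_of_pos_left N hN
      · intro n _ _
        exact sum_nonneg fun m _ => mul_nonneg (h0 m) (h0 _)
    refine h2.trans ?_
    have h3 := pairs_sum N N (fun m l => (m.divisors.card : ℝ) ^ k / m *
      ((l.divisors.card : ℝ) ^ k / (l : ℝ)))
    rw [← h3, ← sum_mul_sum, pow_succ, pow_mul, sq]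
    exact mul_le_mul ih ih (sum_nonneg fun n _ => h0 n)
      (pow_nonneg (by have := Real.log_natCast_nonneg N; linarith) _)

theorem tau_pow (k N : ℕ) (hN : 1 ≤ N) :
    ∑ n ∈ Icc 1 N, (n.divisors.card : ℝ) ^ k ≤ N * (1 + Real.log N) ^ (2 ^ k) := by
  refine le_trans ?_ (mul_le_mul_of_nonneg_left (tau_div k N hN) (Nat.cast_nonneg N))
  rw [mul_sum]
  refine sum_le_sum fun n hn => ?_
  rw [mem_Icc] at hn
  have hn0 : (0 : ℝ) < n := by exact_mod_cast hn.1
  have hnN : (n : ℝ) ≤ N := by exact_mod_cast hn.2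
  have h0 : 0 ≤ (n.divisors.card : ℝ) ^ k / n := by positivity
  calc (n.divisors.card : ℝ) ^ k = n * ((n.divisors.card : ℝ) ^ k / n) := by field_simp
    _ ≤ N * ((n.divisors.card : ℝ) ^ k / n) := mul_le_mul_of_nonneg_right hnN h0

/-- the coefficients of the `j`-th power of `∑ a_m m^(-s)` -/
noncomputable def bj (a : ℕ → ℂ) : ℕ → ℕ → ℂ
  | 0, n => if n = 1 then 1 else 0
  | j + 1, n => ∑ m ∈ n.divisors, a m * bj a j (n / m)

theorem bj_supp (a : ℕ → ℂ) (U : ℕ) (ha : ∀ m, U < m → a m = 0) :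
    ∀ j n : ℕ, U ^ j < n → bj a j n = 0 := by
  intro j
  induction j with
  | zero =>
    intro n hn
    rw [pow_zero] at hn
    unfold bj
    rw [if_neg (by omega)]
  | succ j ih =>
    intro n hn
    unfold bj
    refine sum_eq_zero fun m hm => ?_
    rw [Nat.mem_divisors] at hm
    by_cases h : U < m
    · rw [ha m h, zero_mul]
    · rw [ih (n / m), mul_zero]
      by_contra hc
      push Not at hc h
      have h1 : n = m * (n / m) := (Nat.mul_div_cancel' hm.1).symm
      have h2 : m * (n / m) ≤ U * U ^ j := Nat.mul_le_mul h hc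
      rw [← h1] at h2
      rw [pow_succ, mul_comm] at hn
      omega

theorem bj_norm (a : ℕ → ℂ) (R : ℝ) (hR : 0 ≤ R) (ha : ∀ m, ‖a m‖ ≤ R) :
    ∀ j n : ℕ, 1 ≤ n → ‖bj a j n‖ ≤ R ^ j * (n.divisors.card : ℝ) ^ j := by
  intro j
  induction j with
  | zero =>
    intro n _
    unfold bj
    split_ifs <;> simp
  | succ j ih =>
    intro n hn
    unfold bj
    refine (norm_sum_le _ _).trans ?_
    calc ∑ m ∈ n.divisors, ‖a m * bj a j (n / m)‖
        ≤ ∑ m ∈ n.divisors, R * (R ^ j * (n.divisors.card : ℝ) ^ j) := by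
          refine sum_le_sum fun m hm => ?_
          rw [Nat.mem_divisors] at hm
          have hm0 : 0 < m := Nat.pos_of_dvd_of_pos hm.1 hn
          have hnm0 : 0 < n / m := Nat.div_pos (Nat.le_of_dvd hn hm.1) hm0
          rw [norm_mul]
          refine mul_le_mul (ha m) ((ih (n / m) hnm0).trans ?_) (norm_nonneg _) hR
          have h1 : ((n / m).divisors.card : ℝ) ≤ (n.divisors.card : ℝ) := by
            exact_mod_cast card_le_card (Nat.divisors_subset_of_dvd (by omega)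
              (Nat.div_dvd_of_dvd hm.1))
          have h2 : 0 ≤ R ^ j := by positivity
          gcongr
      _ = R ^ (j + 1) * (n.divisors.card : ℝ) ^ (j + 1) := by
          rw [sum_const, nsmul_eq_mul]
          ring

/-- mean square of the coefficients -/
theorem bj_sq (a : ℕ → ℂ) (R : ℝ) (hR : 0 ≤ R) (ha : ∀ m, ‖a m‖ ≤ R) (j N : ℕ) (hN : 1 ≤ N) :
    ∑ n ∈ Icc 1 N, ‖bj a j n‖ ^ 2 ≤ R ^ (2 * j) * (N * (1 + Real.log N) ^ (2 ^ (2 * j))) := by
  calc ∑ n ∈ Icc 1 N, ‖bj a j n‖ ^ 2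
      ≤ ∑ n ∈ Icc 1 N, R ^ (2 * j) * (n.divisors.card : ℝ) ^ (2 * j) := by
        refine sum_le_sum fun n hn => ?_
        have h := bj_norm a R hR ha j n (mem_Icc.1 hn).1
        calc ‖bj a j n‖ ^ 2 ≤ (R ^ j * (n.divisors.card : ℝ) ^ j) ^ 2 :=
              pow_le_pow_left₀ (norm_nonneg _) h 2
          _ = _ := by rw [mul_pow, ← pow_mul, ← pow_mul, mul_comm j 2]
    _ = R ^ (2 * j) * ∑ n ∈ Icc 1 N, (n.divisors.card : ℝ) ^ (2 * j) := by rw [mul_sum]
    _ ≤ _ := mul_le_mul_of_nonneg_left (tau_pow (2 * j) N hN) (by positivity)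

/-- the `j`-th power of a sum with a completely multiplicative function -/
theorem bj_pow (a f : ℕ → ℂ) (U : ℕ) (ha : ∀ m, U < m → a m = 0) (hf1 : f 1 = 1)
    (hf : ∀ m n, f (m * n) = f m * f n) (j : ℕ) :
    (∑ m ∈ Icc 1 U, a m * f m) ^ j = ∑ n ∈ Icc 1 (U ^ j), bj a j n * f n := by
  classical
  induction j with
  | zero =>
    simp only [pow_zero, Icc_self, sum_singleton]
    unfold bj
    rw [if_pos rfl, hf1, one_mul]
  | succ j ih =>
    rw [pow_succ, mul_comm, ih, sum_mul_sum,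
      pairs_sum U (U ^ j) (fun m k => a m * f m * (bj a j k * f k)), pow_succ, mul_comm (U ^ j) U]
    refine sum_congr rfl fun n hn => ?_
    rw [mem_Icc] at hn
    have e : bj a (j + 1) n = ∑ m ∈ n.divisors, a m * bj a j (n / m) := rfl
    rw [e, sum_mul, sum_filter]
    refine sum_congr rfl fun m hm => ?_
    rw [Nat.mem_divisors] at hm
    have h1 : f n = f m * f (n / m) := by
      rw [← hf, Nat.mul_div_cancel' hm.1]
    split_ifs with h
    · rw [h1]; ring
    · rw [not_and_or] at h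
      rcases h with h | h
      · rw [ha m (by omega)]; ring
      · rw [bj_supp a U ha j (n / m) (by omega)]; ring

end Pool.MP_dd84fd_nt.DX
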