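import Pool.Agent.Lib.MP_dd84fd_nt.DX.LtPar
import Pool.Agent.Lib.MP_dd84fd_nt.DX.LtOv
import Pool.Agent.Lib.MP_dd84fd_nt.DX.LtPow

/-!
# DX-LtAb: blocks whose narrow variable has small character sums; the number of the others (helper33)

`lt_sum`: the large sieve for characters; `lt_abel`: partial summation in the narrow variable `m`;
`lt_meas`: the measure of the characters with a large sum, by the `2j`-th moment.
-/

set_option autoImplicit false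

namespace Pool.MP_dd84fd_nt.DX

open Finset Pool.MP_67663b_nt.Odd Pool.MP_dd84fd_nt.PL Pool.MP_dd84fd_nt.HX Pool.MP_dd84fd_nt.HXP

/-- the large sieve constant -/
noncomputable def LSc (N : ℝ) (K : ℕ) : ℝ := 3 * (1 + Real.log N) ^ 2 * (N + 13 * K)

theorem LSc_nonneg {N : ℝ} (hN1 : 1 ≤ N) (K : ℕ) : 0 ≤ LSc N K := by
  unfold LSc
  have : 0 ≤ Real.log N := Real.log_nonneg hN1
  positivity

/-- part of the characters modulo one `q` -/
theorem lt_one (q : ℕ) (hq : 1 ≤ q) (K : ℕ) (c : ℕ → ℂ) (θ : ℝ)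
    (S : Finset (DirichletCharacter ℂ q)) :
    ∑ χ ∈ S, wg q χ * ‖cX q K c χ θ‖ ^ 2 ≤ ∑ a ∈ rr q, ‖tp K (cq q c) ((a : ℝ) / q + θ)‖ ^ 2 := by
  have : NeZero q := ⟨by omega⟩
  rw [lt_parseval q K c θ]
  exact sum_le_sum_of_subset_of_nonneg (subset_univ _) fun χ _ _ =>
    mul_nonneg (wg_nonneg q χ) (by positivity)

theorem lt_one_np (q : ℕ) (hq : 1 ≤ q) (K : ℕ) (c : ℕ → ℂ) (θ : ℝ) (lam : ℂ)
    (S : Finset (DirichletCharacter ℂ q)) (hS : ∀ χ ∈ S, χ ≠ 1) :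
    ∑ χ ∈ S, wg q χ * ‖cX q K c χ θ‖ ^ 2 ≤
      ∑ a ∈ rr q, ‖tp K (cq q c) ((a : ℝ) / q + θ) - lam‖ ^ 2 := by
  have : NeZero q := ⟨by omega⟩
  refine le_trans ?_ (lt_np q K c θ lam)
  refine sum_le_sum_of_subset_of_nonneg ?_ fun χ _ _ =>
    mul_nonneg (wg_nonneg q χ) (by positivity)
  intro χ hχ
  rw [mem_filter]
  exact ⟨mem_univ _, hS χ hχ⟩

theorem lt_sum (QQ : Finset ℕ) (N : ℝ) (hN : Fam QQ N) (hN1 : 1 ≤ N) (K : ℕ) (c : ℕ → ℂ) (θ : ℝ)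
    (S : (q : ℕ) → Finset (DirichletCharacter ℂ q)) :
    ∑ q ∈ QQ, ∑ χ ∈ S q, wg q χ * ‖cX q K c χ θ‖ ^ 2 ≤ LSc N K * ∑ k ∈ Icc 1 K, ‖c k‖ ^ 2 :=
  (sum_le_sum fun q hq => lt_one q (hN.1 q hq) K c θ (S q)).trans (lt_ov QQ N hN hN1 K c θ)

/-- partial summation -/
theorem abel_range (α f : ℕ → ℂ) (U : ℕ) :
    ∑ m ∈ range (U + 1), α m * f m = (∑ m ∈ range (U + 1), α m) * f U -
      ∑ u ∈ range U, (∑ m ∈ range (u + 1), α m) * (f (u + 1) - f u) := by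
  induction U with
  | zero => simp
  | succ U ih =>
    rw [sum_range_succ (fun m => α m * f m) (U + 1), ih, sum_range_succ α (U + 1),
      sum_range_succ (fun u => (∑ m ∈ range (u + 1), α m) * (f (u + 1) - f u)) U]
    ring

private theorem ee_norm (x : ℝ) : ‖ee x‖ = 1 := by
  unfold ee
  rw [show (2 * (Real.pi : ℂ) * (x : ℂ) * Complex.I) = ((2 * Real.pi * x : ℝ) : ℂ) * Complex.I by
    push_cast; ring]
  exact Complex.norm_exp_ofReal_mul_I _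

private theorem ee_add (x y : ℝ) : ee (x + y) = ee x * ee y := by
  unfold ee
  rw [← Complex.exp_add]
  congr 1
  push_cast
  ring

/-- `|e(x) - e(y)| ≤ 2π |x - y|` -/
theorem ee_sub_le (x y : ℝ) : ‖ee x - ee y‖ ≤ 2 * Real.pi * |x - y| := by
  have h1 : ee x = ee y * ee (x - y) := by
    rw [← ee_add]
    congr 1
    ring
  have h2 : ee x - ee y = ee y * (ee (x - y) - 1) := by rw [h1]; ring
  rw [h2, norm_mul, ee_norm, one_mul]
  unfold ee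
  rw [show (2 * (Real.pi : ℂ) * ((x - y : ℝ) : ℂ) * Complex.I) =
    Complex.I * ((2 * Real.pi * (x - y) : ℝ) : ℂ) by push_cast; ring]
  refine (Real.norm_exp_I_mul_ofReal_sub_one_le).trans ?_
  rw [Real.norm_eq_abs, abs_mul, abs_of_nonneg (by positivity : 0 ≤ 2 * Real.pi)]

/-- the character sum over the part `m ≤ u` of the narrow variable -/
noncomputable def Au (q : ℕ) (MM : Finset ℕ) (a : ℕ → ℂ) (χ : DirichletCharacter ℂ q) (u : ℕ) : ℂ :=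
  ∑ m ∈ MM.filter (fun m => m ≤ u), a m * χ (m : ZMod q)

/-- a block at a character -/
noncomputable def bX (q K : ℕ) (MM : Finset ℕ) (a c : ℕ → ℂ) (χ : DirichletCharacter ℂ q) (θ : ℝ) : ℂ :=
  ∑ m ∈ MM, a m * χ (m : ZMod q) * cX q K c χ ((m : ℝ) * θ)

/-- the differences of the inner function -/
private noncomputable def dc (c : ℕ → ℂ) (θ : ℝ) (u k : ℕ) : ℂ :=
  c k * (ee ((k : ℝ) * (((u + 1 : ℕ) : ℝ) * θ)) - ee ((k : ℝ) * ((u : ℝ) * θ)))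

private theorem dc_eq (q K : ℕ) (c : ℕ → ℂ) (χ : DirichletCharacter ℂ q) (θ : ℝ) (u : ℕ) :
    cX q K c χ (((u + 1 : ℕ) : ℝ) * θ) - cX q K c χ ((u : ℝ) * θ) = cX q K (dc c θ u) χ 0 := by
  unfold cX dc
  rw [← sum_sub_distrib]
  refine sum_congr rfl fun k _ => ?_
  have : ee ((k : ℝ) * 0) = 1 := by rw [mul_zero]; unfold ee; simp
  rw [this]
  ring

private theorem dc_le (K : ℕ) (c : ℕ → ℂ) (θ : ℝ) (u : ℕ) :
    ∑ k ∈ Icc 1 K, ‖dc c θ u k‖ ^ 2 ≤ (2 * Real.pi * K * |θ|) ^ 2 * ∑ k ∈ Icc 1 K, ‖c k‖ ^ 2 := by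
  rw [mul_sum]
  refine sum_le_sum fun k hk => ?_
  rw [mem_Icc] at hk
  have hkK : (k : ℝ) ≤ K := by exact_mod_cast hk.2
  have hk0 : (0 : ℝ) ≤ k := Nat.cast_nonneg k
  unfold dc
  rw [norm_mul, mul_pow, mul_comm]
  refine mul_le_mul_of_nonneg_right ?_ (by positivity)
  refine pow_le_pow_left₀ (norm_nonneg _) ((ee_sub_le _ _).trans ?_) 2
  have e1 : (k : ℝ) * (((u + 1 : ℕ) : ℝ) * θ) - (k : ℝ) * ((u : ℝ) * θ) = k * θ := by
    push_cast; ring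
  rw [e1, abs_mul, abs_of_nonneg hk0]
  have := mul_le_mul_of_nonneg_right hkK (abs_nonneg θ)
  have hpi : 0 ≤ 2 * Real.pi := by positivity
  calc 2 * Real.pi * (k * |θ|) ≤ 2 * Real.pi * (K * |θ|) := mul_le_mul_of_nonneg_left this hpi
    _ = _ := by ring

/-- blocks whose narrow sums are small -/
theorem lt_abel (QQ : Finset ℕ) (N : ℝ) (hN : Fam QQ N) (hN1 : 1 ≤ N) (K U : ℕ)
    (MM : Finset ℕ) (hMM : ∀ m ∈ MM, m ≤ U) (a c : ℕ → ℂ) (H : ℝ)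
    (S : (q : ℕ) → Finset (DirichletCharacter ℂ q))
    (hS : ∀ q ∈ QQ, ∀ χ ∈ S q, ∀ u, ‖Au q MM a χ u‖ ≤ H) (θ : ℝ) :
    ∑ q ∈ QQ, ∑ χ ∈ S q, wg q χ * ‖bX q K MM a c χ θ‖ ^ 2 ≤
      2 * H ^ 2 * (1 + (2 * Real.pi * K * U * |θ|) ^ 2) *
        (LSc N K * ∑ k ∈ Icc 1 K, ‖c k‖ ^ 2) := by
  classical
  set Cs := ∑ k ∈ Icc 1 K, ‖c k‖ ^ 2 with hCs
  have hCs0 : 0 ≤ Cs := sum_nonneg fun k _ => by positivity
  have hLS := LSc_nonneg hN1 K
  -- one character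
  have h1 : ∀ q ∈ QQ, ∀ χ ∈ S q, wg q χ * ‖bX q K MM a c χ θ‖ ^ 2 ≤
      2 * H ^ 2 * (wg q χ * ‖cX q K c χ ((U : ℝ) * θ)‖ ^ 2) +
      2 * H ^ 2 * U * ∑ u ∈ range U, wg q χ * ‖cX q K (dc c θ u) χ 0‖ ^ 2 := by
    intro q hq χ hχ
    set α : ℕ → ℂ := fun m => if m ∈ MM then a m * χ (m : ZMod q) else 0 with hα
    set f : ℕ → ℂ := fun m => cX q K c χ ((m : ℝ) * θ) with hf
    have e1 : bX q K MM a c χ θ = ∑ m ∈ range (U + 1), α m * f m := by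
      unfold bX
      have hsub : MM ⊆ range (U + 1) := fun m hm => mem_range.2 (by have := hMM m hm; omega)
      rw [← sum_subset hsub]
      · refine sum_congr rfl fun m hm => ?_
        rw [hα]
        simp only [if_pos hm]
        rfl
      · intro m _ hm
        rw [hα]
        simp only [if_neg hm, zero_mul]
    have e2 : ∀ u, ∑ m ∈ range (u + 1), α m = Au q MM a χ u := by
      intro u
      unfold Au
      rw [hα, ← sum_filter]
      refine sum_congr ?_ fun _ _ => rfl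
      ext m
      rw [mem_filter, mem_filter, mem_range]
      constructor
      · rintro ⟨h3, h4⟩; exact ⟨h4, by omega⟩
      · rintro ⟨h3, h4⟩; exact ⟨by omega, h3⟩
    have hA : ∀ u, ‖∑ m ∈ range (u + 1), α m‖ ≤ H := fun u => by
      rw [e2]; exact hS q hq χ hχ u
    have hH0 : 0 ≤ H := (norm_nonneg _).trans (hA 0)
    rw [e1, abel_range α f U]
    have e3 : ‖(∑ m ∈ range (U + 1), α m) * f U -
        ∑ u ∈ range U, (∑ m ∈ range (u + 1), α m) * (f (u + 1) - f u)‖ ≤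
        H * ‖f U‖ + H * ∑ u ∈ range U, ‖cX q K (dc c θ u) χ 0‖ := by
      refine (norm_sub_le _ _).trans (add_le_add ?_ ?_)
      · rw [norm_mul]
        exact mul_le_mul_of_nonneg_right (hA U) (norm_nonneg _)
      · refine (norm_sum_le _ _).trans ?_
        rw [mul_sum]
        refine sum_le_sum fun u _ => ?_
        rw [norm_mul]
        have e4 : f (u + 1) - f u = cX q K (dc c θ u) χ 0 := dc_eq q K c χ θ u
        rw [e4]
        exact mul_le_mul_of_nonneg_right (hA u) (norm_nonneg _)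
    have e5 : (∑ u ∈ range U, ‖cX q K (dc c θ u) χ 0‖) ^ 2 ≤
        U * ∑ u ∈ range U, ‖cX q K (dc c θ u) χ 0‖ ^ 2 := by
      have := sq_sum_le_card_mul_sum_sq (s := range U) (f := fun u => ‖cX q K (dc c θ u) χ 0‖)
      rwa [card_range] at this
    have hw := wg_nonneg q χ
    have e6 : ‖(∑ m ∈ range (U + 1), α m) * f U -
        ∑ u ∈ range U, (∑ m ∈ range (u + 1), α m) * (f (u + 1) - f u)‖ ^ 2 ≤
        2 * H ^ 2 * ‖f U‖ ^ 2 + 2 * H ^ 2 * (U * ∑ u ∈ range U, ‖cX q K (dc c θ u) χ 0‖ ^ 2) := by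
      refine (pow_le_pow_left₀ (norm_nonneg _) e3 2).trans ?_
      have e7 : (H * ‖f U‖ + H * ∑ u ∈ range U, ‖cX q K (dc c θ u) χ 0‖) ^ 2 ≤
          2 * (H * ‖f U‖) ^ 2 + 2 * (H * ∑ u ∈ range U, ‖cX q K (dc c θ u) χ 0‖) ^ 2 := by
        nlinarith [sq_nonneg (H * ‖f U‖ - H * ∑ u ∈ range U, ‖cX q K (dc c θ u) χ 0‖)]
      refine e7.trans ?_
      rw [mul_pow, mul_pow]
      have e8 := mul_le_mul_of_nonneg_left e5 (by positivity : 0 ≤ 2 * H ^ 2)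
      linarith
    calc wg q χ * _ ≤ wg q χ * (2 * H ^ 2 * ‖f U‖ ^ 2 +
          2 * H ^ 2 * (U * ∑ u ∈ range U, ‖cX q K (dc c θ u) χ 0‖ ^ 2)) :=
          mul_le_mul_of_nonneg_left e6 hw
      _ = _ := by
          rw [← mul_sum]
          ring
  have h2 : ∑ q ∈ QQ, ∑ χ ∈ S q, wg q χ * ‖bX q K MM a c χ θ‖ ^ 2 ≤
      2 * H ^ 2 * (∑ q ∈ QQ, ∑ χ ∈ S q, wg q χ * ‖cX q K c χ ((U : ℝ) * θ)‖ ^ 2) +
      2 * H ^ 2 * U * ∑ u ∈ range U, ∑ q ∈ QQ, ∑ χ ∈ S q,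
        wg q χ * ‖cX q K (dc c θ u) χ 0‖ ^ 2 := by
    refine (sum_le_sum fun q hq => sum_le_sum fun χ hχ => h1 q hq χ hχ).trans (le_of_eq ?_)
    simp only [sum_add_distrib, ← mul_sum]
    congr 2
    rw [sum_comm]
    refine sum_congr rfl fun q _ => ?_
    rw [sum_comm]
    refine sum_congr rfl fun χ _ => ?_
    rw [mul_sum]
  refine h2.trans ?_
  have h3 := lt_sum QQ N hN hN1 K c ((U : ℝ) * θ) S
  have h4 : ∑ u ∈ range U, ∑ q ∈ QQ, ∑ χ ∈ S q, wg q χ * ‖cX q K (dc c θ u) χ 0‖ ^ 2 ≤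
      U * (LSc N K * ((2 * Real.pi * K * |θ|) ^ 2 * Cs)) := by
    have h5 : ∀ u ∈ range U, ∑ q ∈ QQ, ∑ χ ∈ S q, wg q χ * ‖cX q K (dc c θ u) χ 0‖ ^ 2 ≤
        LSc N K * ((2 * Real.pi * K * |θ|) ^ 2 * Cs) := fun u _ =>
      (lt_sum QQ N hN hN1 K (dc c θ u) 0 S).trans (mul_le_mul_of_nonneg_left (dc_le K c θ u) hLS)
    have h6 := sum_le_card_nsmul _ _ _ h5
    rwa [card_range, nsmul_eq_mul] at h6
  have hHH : 0 ≤ 2 * H ^ 2 := by positivity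
  calc _ ≤ 2 * H ^ 2 * (LSc N K * Cs) +
      2 * H ^ 2 * U * (U * (LSc N K * ((2 * Real.pi * K * |θ|) ^ 2 * Cs))) :=
        add_le_add (mul_le_mul_of_nonneg_left h3 hHH)
          (mul_le_mul_of_nonneg_left h4 (by positivity))
    _ = _ := by ring

/-- the measure of the characters with a large narrow sum -/
theorem lt_meas (QQ : Finset ℕ) (N : ℝ) (hN : Fam QQ N) (hN1 : 1 ≤ N) (j U u : ℕ) (hU : 1 ≤ U)
    (MM : Finset ℕ) (hMM : ∀ m ∈ MM, 1 ≤ m ∧ m ≤ U) (a : ℕ → ℂ) (R : ℝ) (hR : 0 ≤ R)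
    (ha : ∀ m ∈ MM, ‖a m‖ ≤ R) (h : ℝ) (hh : 0 < h)
    (S : (q : ℕ) → Finset (DirichletCharacter ℂ q))
    (hS : ∀ q ∈ QQ, ∀ χ ∈ S q, h ≤ ‖Au q MM a χ u‖) :
    ∑ q ∈ QQ, ∑ χ ∈ S q, wg q χ ≤
      (1 / h ^ (2 * j)) * (LSc N (U ^ j) * (R ^ (2 * j) * (((U ^ j : ℕ) : ℝ) *
        (1 + Real.log ((U ^ j : ℕ) : ℝ)) ^ (2 ^ (2 * j))))) := by
  classical
  set a' : ℕ → ℂ := fun m => if m ∈ MM ∧ m ≤ u then a m else 0 with ha'
  have ha1 : ∀ m, ‖a' m‖ ≤ R := by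
    intro m
    rw [ha']
    simp only
    split_ifs with h1
    · exact ha m h1.1
    · rw [norm_zero]; exact hR
  have ha2 : ∀ m, U < m → a' m = 0 := by
    intro m hm
    rw [ha']
    simp only
    rw [if_neg]
    rintro ⟨h1, -⟩
    have := (hMM m h1).2
    omega
  have h1 : ∀ q ∈ QQ, ∀ χ ∈ S q, wg q χ ≤ (1 / h ^ (2 * j)) *
      (wg q χ * ‖cX q (U ^ j) (bj a' j) χ 0‖ ^ 2) := by
    intro q hq χ hχ
    have e1 : Au q MM a χ u = ∑ m ∈ Icc 1 U, a' m * χ (m : ZMod q) := by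
      unfold Au
      have hsub : MM.filter (fun m => m ≤ u) ⊆ Icc 1 U := fun m hm => by
        rw [mem_filter] at hm
        exact mem_Icc.2 (hMM m hm.1)
      rw [← sum_subset hsub]
      · refine sum_congr rfl fun m hm => ?_
        rw [mem_filter] at hm
        rw [ha']
        simp only [if_pos hm]
      · intro m _ hm
        rw [mem_filter] at hm
        rw [ha']
        simp only [if_neg hm, zero_mul]
    have e2 : cX q (U ^ j) (bj a' j) χ 0 = (Au q MM a χ u) ^ j := by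
      rw [e1, bj_pow a' (fun m => χ (m : ZMod q)) U ha2 (by simp) (fun m n => by
        push_cast; rw [map_mul]) j]
      unfold cX
      refine sum_congr rfl fun k _ => ?_
      have : ee ((k : ℝ) * 0) = 1 := by rw [mul_zero]; unfold ee; simp
      rw [this, mul_one]
    rw [e2, norm_pow, ← pow_mul, mul_comm j 2]
    have e3 : h ^ (2 * j) ≤ ‖Au q MM a χ u‖ ^ (2 * j) :=
      pow_le_pow_left₀ hh.le (hS q hq χ hχ) _
    have e4 : 0 < h ^ (2 * j) := by positivity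
    have e5 : 1 ≤ (1 / h ^ (2 * j)) * ‖Au q MM a χ u‖ ^ (2 * j) := by
      rw [one_div, ← div_eq_inv_mul, one_le_div e4]
      exact e3
    have := mul_le_mul_of_nonneg_left e5 (wg_nonneg q χ)
    calc wg q χ = wg q χ * 1 := (mul_one _).symm
      _ ≤ _ := this
      _ = _ := by ring
  have h2 := lt_sum QQ N hN hN1 (U ^ j) (bj a' j) 0 S
  have hUj : 1 ≤ U ^ j := Nat.one_le_pow _ _ hU
  have h3 := bj_sq a' R hR ha1 j (U ^ j) hUj
  calc ∑ q ∈ QQ, ∑ χ ∈ S q, wg q χ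
      ≤ ∑ q ∈ QQ, ∑ χ ∈ S q, (1 / h ^ (2 * j)) *
          (wg q χ * ‖cX q (U ^ j) (bj a' j) χ 0‖ ^ 2) :=
        sum_le_sum fun q hq => sum_le_sum fun χ hχ => h1 q hq χ hχ
    _ = (1 / h ^ (2 * j)) * ∑ q ∈ QQ, ∑ χ ∈ S q,
          wg q χ * ‖cX q (U ^ j) (bj a' j) χ 0‖ ^ 2 := by
        simp only [← mul_sum]
    _ ≤ (1 / h ^ (2 * j)) * (LSc N (U ^ j) * ∑ k ∈ Icc 1 (U ^ j), ‖bj a' j k‖ ^ 2) :=
        mul_le_mul_of_nonneg_left h2 (by positivity)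
    _ ≤ _ := by
        refine mul_le_mul_of_nonneg_left ?_ (by positivity)
        exact mul_le_mul_of_nonneg_left h3 (LSc_nonneg hN1 _)

end Pool.MP_dd84fd_nt.DX
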