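import Pool.Agent.Lib.MP_dd84fd_nt.DX.LtT1
import Pool.Agent.Lib.MP_dd84fd_nt.HX.PlAlg

/-!
# DX-LtT2: the nonprincipal part of the type I sums (helper33)
-/

set_option autoImplicit false

namespace Pool.MP_dd84fd_nt.DX

open Finset Pool.MP_67663b_nt.Odd Pool.MP_dd84fd_nt.PL Pool.MP_dd84fd_nt.HX Pool.MP_dd84fd_nt.HXP
open Pool.MP_dd84fd_nt.JX (Adm ZJ lv)
open Pool.MP_dd84fd_nt.JXP

/-- the principal part of the type I sums -/
private noncomputable def lmT (X D : ℕ) (b : ℝ) (γ : ℕ → ℕ → ℝ) (σ : ℝ) (q : ℕ) (x : ℝ) : ℂ :=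
  open Classical in
  if cA X D b q then ((ArithmeticFunction.moebius q : ℤ) : ℂ) *
    ∑ l ∈ (Icc 1 D).filter (fun l => Nat.Coprime l q), iw X (l * q) (γ l) (σ * x) else 0

private theorem lmT_eq (X D : ℕ) (b : ℝ) (γ : ℕ → ℕ → ℝ) (hγ : ∀ l, D < l → ∀ n, γ l n = 0)
    (σ : ℝ) (q a : ℕ) (hq : 1 ≤ q) (x : ℝ) :
    tp X (cq q (fun n => ((∑ l ∈ n.divisors, γ l n : ℝ) : ℂ))) ((a : ℝ) / q + σ * x) -
      lmT X D b γ σ q x = T1j X D b γ σ q a x := by
  classical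
  rw [alg_I X q D hq γ hγ ((a : ℝ) / q + σ * x)]
  unfold lmT T1j
  by_cases hc : cA X D b q
  · rw [if_pos hc, ← sum_filter_add_sum_filter_not q.divisors (fun g => g ≠ q)]
    have h5 : q.divisors.filter (fun g => cA X D b q → g ≠ q) =
        q.divisors.filter (fun g => g ≠ q) := by
      refine filter_congr fun g _ => ?_
      exact ⟨fun h => h hc, fun h _ => h⟩
    have h4 : q.divisors.filter (fun g => ¬ g ≠ q) = {q} := by
      ext g
      simp only [mem_filter, Nat.mem_divisors, not_not, mem_singleton]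
      constructor
      · exact fun h => h.2
      · rintro rfl
        exact ⟨⟨dvd_rfl, by omega⟩, rfl⟩
    rw [h5, h4, sum_singleton]
    have h1 : ∑ l ∈ (Icc 1 D).filter (fun l => Nat.Coprime l q),
        iw X (l * q) (γ l) ((a : ℝ) / q + σ * x) =
        ∑ l ∈ (Icc 1 D).filter (fun l => Nat.Coprime l q), iw X (l * q) (γ l) (σ * x) :=
      sum_congr rfl fun l _ => iw_shift X l q a hq (γ l) x σ
    rw [h1, add_sub_cancel_right]
  · rw [if_neg hc, sub_zero]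
    have h5 : q.divisors.filter (fun g => cA X D b q → g ≠ q) = q.divisors := by
      refine filter_true_of_mem fun g _ => ?_
      exact fun h => absurd h hc
    rw [h5]

/-- the nonprincipal part of the type I sums is small -/
theorem lt_TI (th e τ : ℝ) (A1 K2 C0 : ℕ) (hp : Adm th e τ) : ∃ X0 : ℕ, ∀ X : ℕ, X0 ≤ X →
    ∀ (q : ℕ) (b σ : ℝ), 1 ≤ q → (q : ℝ) ≤ (X : ℝ) ^ (1 - th + 3 / 2 * e) →
    1 / (Real.log X) ^ A1 ≤ b → b ≤ 4 * (Real.log X) ^ K2 → (σ = 1 ∨ σ = -1) →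
    ∀ (D : ℕ) (γ : ℕ → ℕ → ℝ), (D : ℝ) ≤ ZJ th e X → (X : ℝ) ^ (1 / 2 : ℝ) ≤ D →
    (∀ l, BVw X ((Real.log X) ^ C0) (γ l)) → (∀ l, D < l → ∀ n, γ l n = 0) →
    ∀ S : Finset (DirichletCharacter ℂ q), (∀ χ ∈ S, χ ≠ 1) →
    ∑ χ ∈ S, ∫ x in (b / X)..(2 * b / X), wg q χ *
      ‖cX q X (fun n => ((∑ l ∈ n.divisors, γ l n : ℝ) : ℂ)) χ (σ * x)‖ ^ 2 ≤
      (X : ℝ) ^ (1 - 6 * e) := by
  obtain ⟨X0, hX0⟩ := lt_T1 th e τ A1 K2 C0 hp
  refine ⟨max X0 3, fun X hX q b σ hq hqN hb hb2 hσ D γ hD hDs hγ hγ0 S hS => ?_⟩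
  have hX3 : 3 ≤ X := (le_max_right _ _).trans hX
  have h1 := hX0 X ((le_max_left _ _).trans hX) q b σ hq hqN hb hb2 hσ D γ hD hDs hγ
  refine le_trans ?_ h1
  have hXp : (0 : ℝ) < X := by exact_mod_cast (by omega : 0 < X)
  have hL : 0 < Real.log X := Real.log_pos (by exact_mod_cast (by omega : 1 < X))
  have hb0 : 0 < b := lt_of_lt_of_le (by positivity) hb
  have hle : b / X ≤ 2 * b / X := div_le_div_of_nonneg_right (by linarith) hXp.le
  have hc1 : ∀ χ : DirichletCharacter ℂ q, Continuous fun x : ℝ => wg q χ *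
      ‖cX q X (fun n => ((∑ l ∈ n.divisors, γ l n : ℝ) : ℂ)) χ (σ * x)‖ ^ 2 := fun χ =>
    continuous_const.mul ((((cX_cont q X _ χ).comp (continuous_const.mul continuous_id)).norm).pow 2)
  have hc2 : ∀ a : ℕ, Continuous fun x : ℝ => ‖T1j X D b γ σ q a x‖ ^ 2 := fun a =>
    ((t1j_cont X D b γ σ q a).norm).pow 2
  rw [← intervalIntegral.integral_finsetSum (fun χ _ => (hc1 χ).intervalIntegrable _ _),
    ← intervalIntegral.integral_finsetSum (fun a _ => (hc2 a).intervalIntegrable _ _)]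
  refine intervalIntegral.integral_mono_on hle
    ((continuous_finsetSum _ fun χ _ => hc1 χ).intervalIntegrable _ _)
    ((continuous_finsetSum _ fun a _ => hc2 a).intervalIntegrable _ _) ?_
  intro x _
  refine (lt_one_np q hq X _ (σ * x) (lmT X D b γ σ q x) S hS).trans (le_of_eq ?_)
  refine sum_congr rfl fun a _ => ?_
  rw [lmT_eq X D b γ hγ0 σ q a hq x]

end Pool.MP_dd84fd_nt.DX
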