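import Pool.Agent.Lib.MP_dd84fd_nt.DX.LtGr
import Pool.Agent.Lib.MP_dd84fd_nt.DX.LtT2
import Pool.Agent.Lib.MP_dd84fd_nt.HX.PlOv

/-!
# DX-LtAn: one annulus (helper33)

`F(x) = ∑_q ∑_{χ ∈ S q} wg |cX ww (σx)|²`; `ww = T1 + ∑ blocks + err`.
-/

set_option autoImplicit false

namespace Pool.MP_dd84fd_nt.DX

open Finset Pool.MP_67663b_nt.Odd Pool.MP_dd84fd_nt.PL Pool.MP_dd84fd_nt.HX Pool.MP_dd84fd_nt.HXP

/-- the mass at `x` of the characters in `S` -/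
noncomputable def FF1 (QQ : Finset ℕ) (S : (q : ℕ) → Finset (DirichletCharacter ℂ q))
    (f : (q : ℕ) → DirichletCharacter ℂ q → ℝ → ℂ) (x : ℝ) : ℝ :=
  ∑ q ∈ QQ, ∑ χ ∈ S q, wg q χ * ‖f q χ x‖ ^ 2

theorem FF1_cont (QQ : Finset ℕ) (S : (q : ℕ) → Finset (DirichletCharacter ℂ q))
    (f : (q : ℕ) → DirichletCharacter ℂ q → ℝ → ℂ) (hf : ∀ q χ, Continuous (f q χ)) :
    Continuous (FF1 QQ S f) := by
  unfold FF1
  refine continuous_finsetSum _ fun q _ => continuous_finsetSum _ fun χ _ => ?_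
  exact continuous_const.mul (((hf q χ).norm).pow 2)

theorem FF1_nonneg (QQ : Finset ℕ) (S : (q : ℕ) → Finset (DirichletCharacter ℂ q))
    (f : (q : ℕ) → DirichletCharacter ℂ q → ℝ → ℂ) (x : ℝ) : 0 ≤ FF1 QQ S f x :=
  sum_nonneg fun q _ => sum_nonneg fun χ _ => mul_nonneg (wg_nonneg q χ) (by positivity)

/-- `|u + ∑ v_i + w|² ≤ 3 (|u|² + I ∑ |v_i|² + |w|²)` -/
theorem three_sq (I : ℕ) (u w : ℂ) (v : ℕ → ℂ) :
    ‖u + ∑ i ∈ range I, v i + w‖ ^ 2 ≤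
      3 * ‖u‖ ^ 2 + 3 * (I * ∑ i ∈ range I, ‖v i‖ ^ 2) + 3 * ‖w‖ ^ 2 := by
  have h1 : ‖u + ∑ i ∈ range I, v i + w‖ ≤ ‖u‖ + ∑ i ∈ range I, ‖v i‖ + ‖w‖ :=
    (norm_add_le _ _).trans (add_le_add_left ((norm_add_le _ _).trans
      (add_le_add_right (norm_sum_le _ _) _)) _)
  have h2 : (∑ i ∈ range I, ‖v i‖) ^ 2 ≤ I * ∑ i ∈ range I, ‖v i‖ ^ 2 := by
    have := sq_sum_le_card_mul_sum_sq (s := range I) (f := fun i => ‖v i‖)
    rwa [card_range] at this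
  have h3 := pow_le_pow_left₀ (norm_nonneg _) h1 2
  set x := ‖u‖
  set y := ∑ i ∈ range I, ‖v i‖
  set z := ‖w‖
  nlinarith [sq_nonneg (x - y), sq_nonneg (y - z), sq_nonneg (x - z)]

theorem swap3 (QQ : Finset ℕ) (S : (q : ℕ) → Finset (DirichletCharacter ℂ q)) (I : ℕ)
    (F : ℕ → (q : ℕ) → DirichletCharacter ℂ q → ℝ) :
    ∑ q ∈ QQ, ∑ χ ∈ S q, ∑ i ∈ range I, F i q χ =
      ∑ i ∈ range I, ∑ q ∈ QQ, ∑ χ ∈ S q, F i q χ :=
  (sum_congr rfl fun _ _ => sum_comm).trans sum_comm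

theorem FF1_three (QQ : Finset ℕ) (S : (q : ℕ) → Finset (DirichletCharacter ℂ q)) (I : ℕ)
    (f f1 f3 : (q : ℕ) → DirichletCharacter ℂ q → ℝ → ℂ)
    (f2 : ℕ → (q : ℕ) → DirichletCharacter ℂ q → ℝ → ℂ) (x : ℝ)
    (h : ∀ q ∈ QQ, ∀ χ ∈ S q, f q χ x = f1 q χ x + ∑ i ∈ range I, f2 i q χ x + f3 q χ x) :
    FF1 QQ S f x ≤ 3 * FF1 QQ S f1 x + 3 * (I * ∑ i ∈ range I, FF1 QQ S (f2 i) x) +
      3 * FF1 QQ S f3 x := by
  unfold FF1
  have h1 : ∑ q ∈ QQ, ∑ χ ∈ S q, wg q χ * ‖f q χ x‖ ^ 2 ≤ ∑ q ∈ QQ, ∑ χ ∈ S q,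
      (3 * (wg q χ * ‖f1 q χ x‖ ^ 2) + 3 * (I * ∑ i ∈ range I, wg q χ * ‖f2 i q χ x‖ ^ 2) +
        3 * (wg q χ * ‖f3 q χ x‖ ^ 2)) := by
    refine sum_le_sum fun q hq => sum_le_sum fun χ hχ => ?_
    rw [h q hq χ hχ]
    refine (mul_le_mul_of_nonneg_left (three_sq I _ _ _) (wg_nonneg q χ)).trans (le_of_eq ?_)
    rw [← mul_sum]
    ring
  refine h1.trans (le_of_eq ?_)
  simp only [sum_add_distrib]
  have e1 : ∀ F : (q : ℕ) → DirichletCharacter ℂ q → ℝ,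
      ∑ q ∈ QQ, ∑ χ ∈ S q, 3 * F q χ = 3 * ∑ q ∈ QQ, ∑ χ ∈ S q, F q χ := by
    intro F
    simp only [mul_sum]
  have e2 : ∑ q ∈ QQ, ∑ χ ∈ S q, 3 * (I * ∑ i ∈ range I, wg q χ * ‖f2 i q χ x‖ ^ 2) =
      3 * (I * ∑ i ∈ range I, ∑ q ∈ QQ, ∑ χ ∈ S q, wg q χ * ‖f2 i q χ x‖ ^ 2) := by
    rw [← swap3 QQ S I (fun i q χ => wg q χ * ‖f2 i q χ x‖ ^ 2)]
    simp only [mul_sum]
  rw [e2, e1 (fun q χ => wg q χ * ‖f1 q χ x‖ ^ 2), e1 (fun q χ => wg q χ * ‖f3 q χ x‖ ^ 2)]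

private theorem ee_cont' : Continuous ee := by unfold ee; fun_prop

theorem bX_cont (q K : ℕ) (MM : Finset ℕ) (a c : ℕ → ℂ) (χ : DirichletCharacter ℂ q) :
    Continuous (bX q K MM a c χ) := by
  unfold bX
  refine continuous_finsetSum _ fun m _ => continuous_const.mul ?_
  exact (cX_cont q K c χ).comp (continuous_const.mul continuous_id)

/-- linearity -/
theorem cX_three (q X I : ℕ) (χ : DirichletCharacter ℂ q) (θ : ℝ) (f F1 er : ℕ → ℝ)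
    (F2 : ℕ → ℕ → ℝ) (h : ∀ n ∈ Icc 1 X, f n = F1 n + ∑ i ∈ range I, F2 i n + er n) :
    cX q X (fun n => ((f n : ℝ) : ℂ)) χ θ = cX q X (fun n => ((F1 n : ℝ) : ℂ)) χ θ +
      ∑ i ∈ range I, cX q X (fun n => ((F2 i n : ℝ) : ℂ)) χ θ +
      cX q X (fun n => ((er n : ℝ) : ℂ)) χ θ := by
  unfold cX
  rw [sum_comm, ← sum_add_distrib, ← sum_add_distrib]
  refine sum_congr rfl fun n hn => ?_
  simp only
  rw [h n hn]
  push_cast
  rw [← sum_mul, ← sum_mul]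
  ring

/-- one block on one annulus, numerical part -/
theorem blk_num (L M X N K U b H Cs : ℝ) (V K2 C2 : ℕ) (hL : 20000000 ≤ L) (hM : 0 < M)
    (hX : 0 < X) (hK0 : 0 ≤ K) (hU0 : 0 ≤ U) (hN0 : 0 ≤ N) (hKM : K * M ≤ X) (hNM : N * M ≤ X)
    (hU : U ≤ 2 * M) (hb0 : 0 < b)
    (hb : b ≤ 4 * L ^ K2) (hH : H = 2 * (M / L ^ V)) (hCs : Cs ≤ L ^ (2 * C2) * X / M)
    (hCs0 : 0 ≤ Cs) (x lN : ℝ) (hx : |x| ≤ 2 * b / X) (hlN0 : 0 ≤ lN) (hlN : lN ≤ L) :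
    (b / X) * (2 * H ^ 2 * (1 + (2 * Real.pi * K * U * |x|) ^ 2) *
      (3 * (1 + lN) ^ 2 * (N + 13 * K) * Cs)) ≤ L ^ (3 * K2 + 2 * C2 + 4) * X / L ^ (2 * V) := by
  have hL0 : 0 < L := by linarith
  have hL1 : 1 ≤ L := by linarith
  have hKd : K ≤ X / M := by rw [le_div_iff₀ hM]; exact hKM
  have hNd : N ≤ X / M := by rw [le_div_iff₀ hM]; exact hNM
  have hKU : K * U ≤ 2 * X := by
    calc K * U ≤ K * (2 * M) := mul_le_mul_of_nonneg_left hU hK0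
      _ = 2 * (K * M) := by ring
      _ ≤ _ := by linarith
  have hpi : Real.pi ≤ 3.15 := Real.pi_lt_d2.le
  have hpi0 : 0 ≤ Real.pi := Real.pi_pos.le
  have hP1 : (1 : ℝ) ≤ L ^ K2 := one_le_pow₀ hL1
  have h1 : 2 * Real.pi * K * U * |x| ≤ 101 * L ^ K2 := by
    calc 2 * Real.pi * K * U * |x| = 2 * Real.pi * (K * U) * |x| := by ring
      _ ≤ 2 * Real.pi * (2 * X) * (2 * b / X) := by
          refine mul_le_mul ?_ hx (abs_nonneg _) (by positivity)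
          exact mul_le_mul_of_nonneg_left hKU (by positivity)
      _ = 8 * Real.pi * b := by field_simp; ring
      _ ≤ 8 * 3.15 * (4 * L ^ K2) := by
          refine mul_le_mul ?_ hb hb0.le (by norm_num)
          linarith
      _ ≤ 101 * L ^ K2 := by nlinarith
  have h2 : 1 + (2 * Real.pi * K * U * |x|) ^ 2 ≤ 10202 * L ^ (2 * K2) := by
    have h3 : (2 * Real.pi * K * U * |x|) ^ 2 ≤ (101 * L ^ K2) ^ 2 :=
      pow_le_pow_left₀ (by positivity) h1 2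
    have h4 : (101 * L ^ K2) ^ 2 = 10201 * L ^ (2 * K2) := by
      rw [mul_pow, ← pow_mul, mul_comm K2 2]; norm_num
    have h5 : (1 : ℝ) ≤ L ^ (2 * K2) := one_le_pow₀ hL1
    linarith
  have h6 : 3 * (1 + lN) ^ 2 * (N + 13 * K) * Cs ≤
      168 * L ^ 2 * (X / M) * (L ^ (2 * C2) * X / M) := by
    have e1 : (1 + lN) ^ 2 ≤ 4 * L ^ 2 := by nlinarith
    have e2 : N + 13 * K ≤ 14 * (X / M) := by linarith
    calc 3 * (1 + lN) ^ 2 * (N + 13 * K) * Cs ≤ 3 * (4 * L ^ 2) * (14 * (X / M)) *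
          (L ^ (2 * C2) * X / M) := by
          refine mul_le_mul (mul_le_mul (mul_le_mul_of_nonneg_left e1 (by norm_num)) e2
            (by positivity) (by positivity)) hCs hCs0 (by positivity)
      _ = _ := by ring
  have h7 : 2 * H ^ 2 * (1 + (2 * Real.pi * K * U * |x|) ^ 2) *
      (3 * (1 + lN) ^ 2 * (N + 13 * K) * Cs) ≤
      (8 * M ^ 2 / L ^ (2 * V)) * (10202 * L ^ (2 * K2)) *
        (168 * L ^ 2 * (X / M) * (L ^ (2 * C2) * X / M)) := by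
    have e3 : 2 * H ^ 2 = 8 * M ^ 2 / L ^ (2 * V) := by
      rw [hH, mul_pow, div_pow, ← pow_mul, mul_comm V 2]
      ring
    rw [e3]
    refine mul_le_mul (mul_le_mul_of_nonneg_left h2 (by positivity)) h6 (by positivity)
      (by positivity)
  have hbX : b / X ≤ 4 * L ^ K2 / X := div_le_div_of_nonneg_right hb hX.le
  have h70 : 0 ≤ (8 * M ^ 2 / L ^ (2 * V)) * (10202 * L ^ (2 * K2)) *
        (168 * L ^ 2 * (X / M) * (L ^ (2 * C2) * X / M)) := by positivity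
  have h8 := mul_le_mul hbX h7 (by positivity) (by positivity : 0 ≤ 4 * L ^ K2 / X)
  refine h8.trans ?_
  have e9 : 4 * L ^ K2 / X * ((8 * M ^ 2 / L ^ (2 * V)) * (10202 * L ^ (2 * K2)) *
        (168 * L ^ 2 * (X / M) * (L ^ (2 * C2) * X / M))) =
      (54845952 * (L ^ K2 * L ^ (2 * K2) * L ^ 2 * L ^ (2 * C2)) * X) / L ^ (2 * V) := by
    field_simp
    ring
  rw [e9]
  refine div_le_div_of_nonneg_right ?_ (by positivity)
  refine mul_le_mul_of_nonneg_right ?_ hX.le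
  have e10 : L ^ (3 * K2 + 2 * C2 + 4) = L ^ 2 * (L ^ K2 * L ^ (2 * K2) * L ^ 2 * L ^ (2 * C2)) := by
    ring
  rw [e10]
  refine mul_le_mul_of_nonneg_right ?_ (by positivity)
  nlinarith

end Pool.MP_dd84fd_nt.DX
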