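import Pool.Agent.Lib.MP_dd84fd_nt.DX.LtAn
import Pool.Agent.Lib.MP_dd84fd_nt.JX.PlDec

/-!
# DX-LtAo: one annulus, the bound (helper33)
-/

set_option autoImplicit false

namespace Pool.MP_dd84fd_nt.DX

open Finset Pool.MP_67663b_nt.Odd Pool.MP_dd84fd_nt.PL Pool.MP_dd84fd_nt.HX Pool.MP_dd84fd_nt.HXP
open Pool.MP_dd84fd_nt.JX (Adm ZJ)
open Pool.MP_dd84fd_nt.JXP

/-- what `dec_conv_j` gives -/
structure DecD (X : ℕ) (th e τ : ℝ) (C2 B I D : ℕ) (γ : ℕ → ℕ → ℝ) (M : ℕ → ℝ) (K : ℕ → ℕ)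
    (MM : ℕ → Finset ℕ) (a c : ℕ → ℕ → ℝ) (err w : ℕ → ℝ) : Prop where
  hI : (I : ℝ) ≤ (Real.log X) ^ C2
  hDZ : (D : ℝ) ≤ ZJ th e X
  hDh : (X : ℝ) ^ (1 / 2 : ℝ) ≤ D
  hBV : ∀ l, BVw X ((Real.log X) ^ (3 * C2)) (γ l)
  hγ0 : ∀ l, D < l → ∀ n, γ l n = 0
  hBlk : ∀ i, BlkJ X th e τ (M i) (K i) (MM i) (fun m => (a i m : ℂ)) (fun k => (c i k : ℂ))
        ((Real.log X) ^ C2) ((Real.log X) ^ (2 * C2))
  hM0 : ∀ i, ∀ m ∈ MM i, 1 ≤ m
  ha : ∀ i m, a i m ≠ 0 → m ∈ MM i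
  hK : ∀ i m, a i m ≠ 0 → m * K i ≤ X
  hdec : ∀ n ∈ Icc 1 X, w n = ∑ l ∈ n.divisors, γ l n +
        ∑ i ∈ range I, ∑ m ∈ n.divisors, (if n / m ≤ K i then a i m * c i (n / m) else 0) +
        err n
  herr : ∑ n ∈ Icc 1 X, err n ^ 2 ≤ X / (Real.log X) ^ B

/-- a log power below a power of `X` -/
theorem lt_log (K : ℕ) (A η : ℝ) (hη : 0 < η) : ∃ X0 : ℕ, ∀ X : ℕ, X0 ≤ X →
    A * (Real.log X) ^ K ≤ (X : ℝ) ^ η := by
  have h1 := (isLittleO_log_rpow_rpow_atTop (K : ℝ) hη).bound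
    (show (0 : ℝ) < 1 / (|A| + 1) by positivity)
  obtain ⟨x0, hx0⟩ := Filter.eventually_atTop.1 h1
  refine ⟨max ⌈x0⌉₊ 1, fun X hX => ?_⟩
  have hX1 : 1 ≤ X := (le_max_right _ _).trans hX
  have hX2 : x0 ≤ X := (Nat.le_ceil x0).trans (by exact_mod_cast (le_max_left _ _).trans hX)
  have h2 := hx0 X hX2
  have hL : 0 ≤ Real.log X := Real.log_natCast_nonneg X
  have hXp : (0 : ℝ) ≤ (X : ℝ) ^ η := Real.rpow_nonneg (Nat.cast_nonneg X) _
  rw [Real.rpow_natCast, Real.norm_eq_abs, Real.norm_eq_abs, abs_of_nonneg (pow_nonneg hL K),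
    abs_of_nonneg hXp] at h2
  calc A * (Real.log X) ^ K ≤ |A| * (Real.log X) ^ K :=
        mul_le_mul_of_nonneg_right (le_abs_self A) (pow_nonneg hL K)
    _ ≤ |A| * (1 / (|A| + 1) * (X : ℝ) ^ η) := mul_le_mul_of_nonneg_left h2 (abs_nonneg A)
    _ = (|A| / (|A| + 1)) * (X : ℝ) ^ η := by ring
    _ ≤ 1 * (X : ℝ) ^ η := by
        apply mul_le_mul_of_nonneg_right _ hXp
        rw [div_le_one (by positivity)]
        linarith
    _ = (X : ℝ) ^ η := one_mul _

theorem lt_big (T : ℝ) : ∃ X0 : ℕ, ∀ X : ℕ, X0 ≤ X → T ≤ Real.log X := by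
  refine ⟨⌈Real.exp T⌉₊, fun X hX => ?_⟩
  have h1 : Real.exp T ≤ X := (Nat.le_ceil _).trans (by exact_mod_cast hX)
  rw [Real.le_log_iff_exp_le ((Real.exp_pos T).trans_le h1)]
  exact h1

theorem lt_ann (A C2 K2 : ℕ) (th e τ : ℝ) (hp : Adm th e τ) : ∃ X0 : ℕ, ∀ X : ℕ, X0 ≤ X →
    ∀ (I D : ℕ) (γ : ℕ → ℕ → ℝ) (M : ℕ → ℝ) (K : ℕ → ℕ) (MM : ℕ → Finset ℕ)
      (a c : ℕ → ℕ → ℝ) (err w : ℕ → ℝ),
    DecD X th e τ C2 (A + 8) I D γ M K MM a c err w → ∀ (QQ : Finset ℕ) (N : ℝ), Fam QQ N →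
    1 ≤ N → N ≤ (X : ℝ) ^ (1 - th + 3 / 2 * e) → (QQ.card : ℝ) ≤ (X : ℝ) ^ (e / 2) →
    ∀ S : (q : ℕ) → Finset (DirichletCharacter ℂ q),
    (∀ q ∈ QQ, ∀ χ ∈ S q, χ ≠ 1 ∧ ∀ i < I, ∀ u, ‖Au q (MM i) (fun m => (a i m : ℂ)) χ u‖ ≤
      2 * (M i / (Real.log X) ^ (A + 3 * K2 + 4 * C2 + 10))) →
    ∀ b σ : ℝ, 1 / (Real.log X) ^ (A + 6) ≤ b → b ≤ 4 * (Real.log X) ^ K2 → (σ = 1 ∨ σ = -1) →
    ∫ x in (b / X)..(2 * b / X),
      FF1 QQ S (fun q χ x => cX q X (fun n => ((w n : ℝ) : ℂ)) χ (σ * x)) x ≤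
      X / (Real.log X) ^ (A + 4) := by
  classical
  obtain ⟨X1, hX1⟩ := lt_TI th e τ (A + 6) K2 (3 * C2) hp
  obtain ⟨X2, hX2⟩ := lt_big 20000000
  obtain ⟨X3, hX3⟩ := lt_log (A + 6) 3 (11 / 2 * e) (by obtain ⟨-, -, h, -⟩ := hp; linarith)
  obtain ⟨X4, hX4⟩ := lt_log K2 4 (1 / 20) (by norm_num)
  obtain ⟨hth, hth2, he0, hτ, heτ⟩ := hp
  refine ⟨max (max X1 X2) (max X3 (max X4 3)), ?_⟩
  intro X hX I D γ M K MM a c err w hd QQ N hfam hN1 hN hcard S hS b σ hb1 hb2 hσ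
  simp only [max_le_iff] at hX
  obtain ⟨⟨gX1, gX2⟩, gX3, gX4, gX5⟩ := hX
  have g1 := hX1 X gX1
  have hLbig := hX2 X gX2
  have g3 := hX3 X gX3
  have g4 := hX4 X gX4
  obtain ⟨hI, hDZ, hDh, hBV, hγ0, hBlk, hM0, ha, hK, hdec, herr⟩ := hd
  obtain ⟨L, hL⟩ : ∃ L : ℝ, L = Real.log X := ⟨_, rfl⟩
  rw [← hL] at hI hLbig g3 g4 herr hS hb1 hb2 hBlk g1 hBV ⊢
  have hL0 : 0 < L := by linarith
  have hL1 : 1 ≤ L := by linarith
  have hXn : 1 ≤ X := by omega
  have hX0 : (0 : ℝ) < X := by exact_mod_cast hXn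
  have hX1R : (1 : ℝ) ≤ X := by exact_mod_cast hXn
  have hb0 : 0 < b := lt_of_lt_of_le (by positivity) hb1
  have hle : b / X ≤ 2 * b / X := div_le_div_of_nonneg_right (by linarith) hX0.le
  have hNX9 : N ≤ (X : ℝ) ^ (9 / 10 : ℝ) :=
    hN.trans (Real.rpow_le_rpow_of_exponent_le hX1R (by linarith))
  have hNX : N ≤ X := by
    calc N ≤ (X : ℝ) ^ (9 / 10 : ℝ) := hNX9
      _ ≤ (X : ℝ) ^ (1 : ℝ) := Real.rpow_le_rpow_of_exponent_le hX1R (by norm_num)
      _ = X := Real.rpow_one _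
  have hlN0 : 0 ≤ Real.log N := Real.log_nonneg hN1
  have hlN : Real.log N ≤ L := by
    rw [hL]
    exact Real.log_le_log (by linarith) hNX
  have hNb : b * N ≤ X := by
    calc b * N ≤ (X : ℝ) ^ (1 / 20 : ℝ) * (X : ℝ) ^ (9 / 10 : ℝ) :=
          mul_le_mul (hb2.trans g4) hNX9 (by linarith) (by positivity)
      _ ≤ X := by
          rw [← Real.rpow_add hX0]
          calc (X : ℝ) ^ (1 / 20 + 9 / 10 : ℝ) ≤ (X : ℝ) ^ (1 : ℝ) :=
                Real.rpow_le_rpow_of_exponent_le hX1R (by norm_num)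
            _ = X := Real.rpow_one _
  -- the three parts
  set f1 : (q : ℕ) → DirichletCharacter ℂ q → ℝ → ℂ := fun q χ x =>
    cX q X (fun n => ((∑ l ∈ n.divisors, γ l n : ℝ) : ℂ)) χ (σ * x) with hf1
  set f2 : ℕ → (q : ℕ) → DirichletCharacter ℂ q → ℝ → ℂ := fun i q χ x =>
    bX q (K i) (MM i) (fun m => (a i m : ℂ)) (fun k => (c i k : ℂ)) χ (σ * x) with hf2
  set f3 : (q : ℕ) → DirichletCharacter ℂ q → ℝ → ℂ := fun q χ x =>
    cX q X (fun n => ((err n : ℝ) : ℂ)) χ (σ * x) with hf3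
  set f : (q : ℕ) → DirichletCharacter ℂ q → ℝ → ℂ := fun q χ x =>
    cX q X (fun n => ((w n : ℝ) : ℂ)) χ (σ * x) with hf
  have hcσ : Continuous fun x : ℝ => σ * x := continuous_const.mul continuous_id
  have c1 : ∀ q χ, Continuous (f1 q χ) := fun q χ => (cX_cont q X _ χ).comp hcσ
  have c2 : ∀ i q χ, Continuous (f2 i q χ) := fun i q χ => (bX_cont q _ _ _ _ χ).comp hcσ
  have c3 : ∀ q χ, Continuous (f3 q χ) := fun q χ => (cX_cont q X _ χ).comp hcσ
  have c0 : ∀ q χ, Continuous (f q χ) := fun q χ => (cX_cont q X _ χ).comp hcσ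
  have hid : ∀ q ∈ QQ, ∀ χ ∈ S q, ∀ x, f q χ x =
      f1 q χ x + ∑ i ∈ range I, f2 i q χ x + f3 q χ x := by
    intro q _ χ _ x
    have h := cX_three q X I χ (σ * x) w (fun n => ∑ l ∈ n.divisors, γ l n) err
      (fun i n => ∑ m ∈ n.divisors, (if n / m ≤ K i then a i m * c i (n / m) else 0)) hdec
    rw [hf, hf1, hf2, hf3]
    simp only
    rw [h]
    congr 2
    refine sum_congr rfl fun i _ => ?_
    exact cX_blk q X (K i) (MM i) (a i) (c i) (hM0 i) (ha i) (hK i) χ (σ * x)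
  have C1 := FF1_cont QQ S f1 c1
  have C2' := fun i => FF1_cont QQ S (f2 i) (c2 i)
  have C3 := FF1_cont QQ S f3 c3
  have C0 := FF1_cont QQ S f c0
  have hint : ∫ x in (b / X)..(2 * b / X), FF1 QQ S f x ≤
      3 * (∫ x in (b / X)..(2 * b / X), FF1 QQ S f1 x) +
      3 * (I * ∑ i ∈ range I, ∫ x in (b / X)..(2 * b / X), FF1 QQ S (f2 i) x) +
      3 * (∫ x in (b / X)..(2 * b / X), FF1 QQ S f3 x) := by
    have e1 : ∫ x in (b / X)..(2 * b / X), FF1 QQ S f x ≤
        ∫ x in (b / X)..(2 * b / X), (3 * FF1 QQ S f1 x +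
          3 * (I * ∑ i ∈ range I, FF1 QQ S (f2 i) x) + 3 * FF1 QQ S f3 x) := by
      refine intervalIntegral.integral_mono_on hle (C0.intervalIntegrable _ _) ?_ ?_
      · refine Continuous.intervalIntegrable ?_ _ _
        exact ((continuous_const.mul C1).add (continuous_const.mul (continuous_const.mul
          (continuous_finsetSum _ fun i _ => C2' i)))).add (continuous_const.mul C3)
      · intro x _
        exact FF1_three QQ S I f f1 f3 f2 x (fun q hq χ hχ => hid q hq χ hχ x)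
    refine e1.trans (le_of_eq ?_)
    have i1 : IntervalIntegrable (fun x => 3 * FF1 QQ S f1 x) MeasureTheory.volume (b / X)
      (2 * b / X) := (continuous_const.mul C1).intervalIntegrable _ _
    have i2 : IntervalIntegrable (fun x => 3 * (I * ∑ i ∈ range I, FF1 QQ S (f2 i) x))
      MeasureTheory.volume (b / X) (2 * b / X) := (continuous_const.mul (continuous_const.mul
          (continuous_finsetSum _ fun i _ => C2' i))).intervalIntegrable _ _
    have i3 : IntervalIntegrable (fun x => 3 * FF1 QQ S f3 x) MeasureTheory.volume (b / X)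
      (2 * b / X) := (continuous_const.mul C3).intervalIntegrable _ _
    rw [intervalIntegral.integral_add (i1.add i2) i3, intervalIntegral.integral_add i1 i2,
      intervalIntegral.integral_const_mul, intervalIntegral.integral_const_mul,
      intervalIntegral.integral_const_mul, intervalIntegral.integral_const_mul,
      intervalIntegral.integral_finsetSum fun i _ => (C2' i).intervalIntegrable _ _]
  -- part 1
  have p1 : ∫ x in (b / X)..(2 * b / X), FF1 QQ S f1 x ≤ (X : ℝ) ^ (1 - 11 / 2 * e) := by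
    have e1 : ∫ x in (b / X)..(2 * b / X), FF1 QQ S f1 x = ∑ q ∈ QQ, ∑ χ ∈ S q,
        ∫ x in (b / X)..(2 * b / X), wg q χ * ‖f1 q χ x‖ ^ 2 := by
      unfold FF1
      rw [intervalIntegral.integral_finsetSum]
      · refine sum_congr rfl fun q _ => ?_
        rw [intervalIntegral.integral_finsetSum]
        intro χ _
        exact (continuous_const.mul (((c1 q χ).norm).pow 2)).intervalIntegrable _ _
      · intro q _
        exact (continuous_finsetSum _ fun χ _ => continuous_const.mul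
          (((c1 q χ).norm).pow 2)).intervalIntegrable _ _
    rw [e1]
    have e2 : ∀ q ∈ QQ, ∑ χ ∈ S q, ∫ x in (b / X)..(2 * b / X), wg q χ * ‖f1 q χ x‖ ^ 2 ≤
        (X : ℝ) ^ (1 - 6 * e) := by
      intro q hq
      have hqN : (q : ℝ) ≤ (X : ℝ) ^ (1 - th + 3 / 2 * e) := by
        have := hfam.2 q hq q hq
        rw [Nat.lcm_self] at this
        exact this.trans hN
      exact g1 q b σ (hfam.1 q hq) hqN hb1 hb2 hσ D γ hDZ hDh hBV hγ0 (S q)
        (fun χ hχ => (hS q hq χ hχ).1)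
    calc _ ≤ ∑ _q ∈ QQ, (X : ℝ) ^ (1 - 6 * e) := sum_le_sum e2
      _ = (QQ.card : ℝ) * (X : ℝ) ^ (1 - 6 * e) := by rw [sum_const, nsmul_eq_mul]
      _ ≤ (X : ℝ) ^ (e / 2) * (X : ℝ) ^ (1 - 6 * e) := by gcongr
      _ = _ := by
          rw [← Real.rpow_add hX0]
          congr 1
          ring
  have p1' : 3 * (∫ x in (b / X)..(2 * b / X), FF1 QQ S f1 x) ≤ X / L ^ (A + 6) := by
    refine (mul_le_mul_of_nonneg_left p1 (by norm_num)).trans ?_
    rw [le_div_iff₀ (by positivity)]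
    calc 3 * (X : ℝ) ^ (1 - 11 / 2 * e) * L ^ (A + 6) =
        (3 * L ^ (A + 6)) * (X : ℝ) ^ (1 - 11 / 2 * e) := by ring
      _ ≤ (X : ℝ) ^ (11 / 2 * e) * (X : ℝ) ^ (1 - 11 / 2 * e) := by gcongr
      _ = X := by
          rw [← Real.rpow_add hX0]
          have : 11 / 2 * e + (1 - 11 / 2 * e) = 1 := by ring
          rw [this, Real.rpow_one]
  -- part 2
  have p2 : ∀ i ∈ range I, ∫ x in (b / X)..(2 * b / X), FF1 QQ S (f2 i) x ≤
      X / L ^ (A + 2 * C2 + 8) := by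
    intro i hi
    rw [mem_range] at hi
    by_cases hz : ∀ m, a i m = 0
    · have e1 : ∀ x, FF1 QQ S (f2 i) x = 0 := by
        intro x
        unfold FF1
        refine sum_eq_zero fun q _ => sum_eq_zero fun χ _ => ?_
        rw [hf2]
        simp only
        unfold bX
        have : ∑ m ∈ MM i, ((a i m : ℝ) : ℂ) * χ (m : ZMod q) *
            cX q (K i) (fun k => ((c i k : ℝ) : ℂ)) χ ((m : ℝ) * (σ * x)) = 0 :=
          sum_eq_zero fun m _ => by rw [hz m]; simp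
        rw [this, norm_zero]
        ring
      have e2 : ∫ x in (b / X)..(2 * b / X), FF1 QQ S (f2 i) x = 0 := by
        rw [intervalIntegral.integral_congr (g := fun _ => (0 : ℝ)) (fun x _ => e1 x)]
        simp
      rw [e2]
      positivity
    · push Not at hz
      obtain ⟨m1, hm1⟩ := hz
      obtain ⟨hMl, hMu, -, hMM, hMa, hMc⟩ := hBlk i
      have hM00 : 0 < M i := lt_of_lt_of_le (by positivity) hMl
      have hKM : (K i : ℝ) * M i ≤ X := by
        have h1 : (m1 : ℝ) * K i ≤ X := by exact_mod_cast hK i m1 hm1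
        have h2 := (hMM m1 (ha i m1 hm1)).1
        have h3 : (0 : ℝ) ≤ K i := Nat.cast_nonneg _
        nlinarith
      have hNM : N * M i ≤ X := by
        calc N * M i ≤ (X : ℝ) ^ (1 - th + 3 / 2 * e) * (X : ℝ) ^ (th - 3 * e) :=
              mul_le_mul hN hMu hM00.le (by positivity)
          _ = (X : ℝ) ^ (1 - 3 / 2 * e) := by
              rw [← Real.rpow_add hX0]
              congr 1
              ring
          _ ≤ (X : ℝ) ^ (1 : ℝ) := Real.rpow_le_rpow_of_exponent_le hX1R (by linarith)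
          _ = X := Real.rpow_one _
      set U : ℕ := ⌊2 * M i⌋₊ with hU
      have hUle : (U : ℝ) ≤ 2 * M i := Nat.floor_le (by linarith)
      set H : ℝ := 2 * (M i / L ^ (A + 3 * K2 + 4 * C2 + 10)) with hH
      have hH0 : 0 ≤ H := by positivity
      set Cs : ℝ := ∑ k ∈ Icc 1 (K i), ‖((c i k : ℝ) : ℂ)‖ ^ 2 with hCs
      have hCs0 : 0 ≤ Cs := sum_nonneg fun _ _ => by positivity
      have hLS0 := LSc_nonneg hN1 (K i)
      set P : ℝ := 2 * H ^ 2 * (1 + (2 * Real.pi * K i * U * |2 * b / X|) ^ 2) *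
        (3 * (1 + Real.log N) ^ 2 * (N + 13 * K i) * Cs) with hP
      have e1 : ∀ x ∈ Set.Icc (b / (X : ℝ)) (2 * b / X), FF1 QQ S (f2 i) x ≤ P := by
        intro x hx
        have h1 := lt_abel QQ N hfam hN1 (K i) U (MM i) (fun m hm => Nat.le_floor (hMM m hm).2)
          (fun m => ((a i m : ℝ) : ℂ)) (fun k => ((c i k : ℝ) : ℂ)) H S
          (fun q hq χ hχ u => (hS q hq χ hχ).2 i hi u) (σ * x)
        refine h1.trans ?_
        have hx0 : 0 ≤ x := le_trans (by positivity) hx.1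
        have h2 : |σ * x| ≤ |2 * b / X| := by
          rw [abs_mul]
          have h3 : |σ| = 1 := by rcases hσ with h | h <;> rw [h] <;> norm_num
          rw [h3, one_mul, abs_of_nonneg hx0]
          exact hx.2.trans (le_abs_self _)
        have e3 : LSc N (K i) * Cs = 3 * (1 + Real.log N) ^ 2 * (N + 13 * K i) * Cs := rfl
        rw [e3, hP]
        have h4 : (2 * Real.pi * K i * U * |σ * x|) ^ 2 ≤
            (2 * Real.pi * K i * U * |2 * b / X|) ^ 2 := by
          refine pow_le_pow_left₀ (by positivity) ?_ 2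
          exact mul_le_mul_of_nonneg_left h2 (by positivity)
        have h5 : 0 ≤ 3 * (1 + Real.log N) ^ 2 * (N + 13 * K i) * Cs := mul_nonneg hLS0 hCs0
        exact mul_le_mul_of_nonneg_right (mul_le_mul_of_nonneg_left (by linarith)
          (by positivity)) h5
      have e2 : ∫ x in (b / X)..(2 * b / X), FF1 QQ S (f2 i) x ≤ (b / X) * P := by
        calc ∫ x in (b / X)..(2 * b / X), FF1 QQ S (f2 i) x ≤
            ∫ _x in (b / (X : ℝ))..(2 * b / X), P :=
              intervalIntegral.integral_mono_on hle ((C2' i).intervalIntegrable _ _)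
                (continuous_const.intervalIntegrable _ _) e1
          _ = (b / X) * P := by
              rw [intervalIntegral.integral_const, smul_eq_mul]
              ring
      refine e2.trans ?_
      have e3 := blk_num L (M i) X N (K i) U b H Cs (A + 3 * K2 + 4 * C2 + 10) K2 C2 hLbig hM00
        hX0 (Nat.cast_nonneg _) (Nat.cast_nonneg _) (by linarith) hKM hNM hUle hb0 hb2 rfl
        hMc hCs0 (2 * b / X) (Real.log N) (by rw [abs_of_nonneg (by positivity)]) hlN0 hlN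
      refine e3.trans ?_
      rw [div_le_div_iff₀ (by positivity) (by positivity)]
      have e4 : L ^ (3 * K2 + 2 * C2 + 4) * X * L ^ (A + 2 * C2 + 8) =
          X * L ^ (3 * K2 + 2 * C2 + 4 + (A + 2 * C2 + 8)) := by ring
      rw [e4]
      refine mul_le_mul_of_nonneg_left (pow_le_pow_right₀ hL1 (by omega)) hX0.le
  have p2' : 3 * (I * ∑ i ∈ range I, ∫ x in (b / X)..(2 * b / X), FF1 QQ S (f2 i) x) ≤
      3 * (X / L ^ (A + 8)) := by
    refine mul_le_mul_of_nonneg_left ?_ (by norm_num)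
    have h1 := sum_le_card_nsmul _ _ _ p2
    rw [card_range, nsmul_eq_mul] at h1
    calc (I : ℝ) * ∑ i ∈ range I, ∫ x in (b / X)..(2 * b / X), FF1 QQ S (f2 i) x
        ≤ I * (I * (X / L ^ (A + 2 * C2 + 8))) := mul_le_mul_of_nonneg_left h1 (Nat.cast_nonneg _)
      _ ≤ L ^ C2 * (L ^ C2 * (X / L ^ (A + 2 * C2 + 8))) := by
          have hI0 : (0 : ℝ) ≤ I := Nat.cast_nonneg _
          gcongr
      _ = X / L ^ (A + 8) := by
          have e5 : L ^ (A + 2 * C2 + 8) = L ^ (A + 8) * (L ^ C2 * L ^ C2) := by ring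
          rw [e5]
          field_simp
  -- part 3
  have p3 : ∫ x in (b / X)..(2 * b / X), FF1 QQ S f3 x ≤ 24 * L ^ 2 * (X / L ^ (A + 8)) := by
    have hc : ∀ q a : ℕ, Continuous fun x : ℝ =>
        ‖tp X (cq q (fun n => ((err n : ℝ) : ℂ))) ((a : ℝ) / q + σ * x)‖ ^ 2 := by
      intro q a
      have h1 : Continuous (tp X (cq q (fun n => ((err n : ℝ) : ℂ)))) := by
        unfold tp
        refine continuous_finsetSum _ fun k _ => continuous_const.mul ?_
        have : Continuous ee := by unfold ee; fun_prop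
        exact this.comp (by fun_prop)
      exact ((h1.comp (continuous_const.add hcσ)).norm).pow 2
    have e1 : ∫ x in (b / X)..(2 * b / X), FF1 QQ S f3 x ≤
        ∑ q ∈ QQ, ∑ a ∈ rr q, ∫ x in (b / X)..(2 * b / X),
          ‖tp X (cq q (fun n => ((err n : ℝ) : ℂ))) ((a : ℝ) / q + σ * x)‖ ^ 2 := by
      have e2 : ∑ q ∈ QQ, ∑ a ∈ rr q, ∫ x in (b / X)..(2 * b / X),
          ‖tp X (cq q (fun n => ((err n : ℝ) : ℂ))) ((a : ℝ) / q + σ * x)‖ ^ 2 =
          ∫ x in (b / X)..(2 * b / X), ∑ q ∈ QQ, ∑ a ∈ rr q,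
          ‖tp X (cq q (fun n => ((err n : ℝ) : ℂ))) ((a : ℝ) / q + σ * x)‖ ^ 2 := by
        rw [intervalIntegral.integral_finsetSum]
        · refine sum_congr rfl fun q _ => ?_
          rw [intervalIntegral.integral_finsetSum]
          intro a _
          exact (hc q a).intervalIntegrable _ _
        · intro q _
          exact (continuous_finsetSum _ fun a _ => hc q a).intervalIntegrable _ _
      rw [e2]
      refine intervalIntegral.integral_mono_on hle (C3.intervalIntegrable _ _)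
        ((continuous_finsetSum _ fun q _ => continuous_finsetSum _ fun a _ => hc q
          a).intervalIntegrable _ _) ?_
      intro x _
      unfold FF1
      exact sum_le_sum fun q hq => lt_one q (hfam.1 q hq) X _ (σ * x) (S q)
    have e3 := ovc QQ N hfam hN1 X (fun n => ((err n : ℝ) : ℂ)) (b / X) (2 * b / X) σ hle hσ
    refine e1.trans (e3.trans ?_)
    have e4 : ∑ k ∈ Icc 1 X, ‖((err k : ℝ) : ℂ)‖ ^ 2 ≤ X / L ^ (A + 8) := by
      refine le_trans (le_of_eq ?_) herr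
      refine sum_congr rfl fun k _ => ?_
      rw [Complex.norm_real, Real.norm_eq_abs, sq_abs]
    have e5 : (2 * b / X - b / X) * N + 1 ≤ 2 := by
      have : (2 * b / X - b / X) * N = b * N / X := by ring
      rw [this]
      have : b * N / X ≤ 1 := by rw [div_le_one hX0]; exact hNb
      linarith
    have e6 : (1 + Real.log N) ^ 2 ≤ 4 * L ^ 2 := by nlinarith
    have e7 : 0 ≤ (2 * b / X - b / X) * N + 1 := by
      have : (2 * b / X - b / X) * N = b * N / X := by ring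
      rw [this]
      positivity
    calc 3 * (1 + Real.log N) ^ 2 * ((2 * b / X - b / X) * N + 1) *
        ∑ k ∈ Icc 1 X, ‖((err k : ℝ) : ℂ)‖ ^ 2 ≤ 3 * (4 * L ^ 2) * 2 * (X / L ^ (A + 8)) := by
          refine mul_le_mul (mul_le_mul (mul_le_mul_of_nonneg_left e6 (by norm_num)) e5 e7
            (by positivity)) e4 (sum_nonneg fun _ _ => by positivity) (by positivity)
      _ = _ := by ring
  -- the sum
  refine hint.trans ?_
  have e1 : X / L ^ (A + 8) = X / L ^ (A + 4) / L ^ 4 := by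
    rw [pow_add, pow_add, div_div, mul_assoc]
    congr 2
    ring
  have e2 : X / L ^ (A + 6) = X / L ^ (A + 4) / L ^ 2 := by
    rw [div_div, ← pow_add]
  have hZ : 0 ≤ X / L ^ (A + 4) := by positivity
  have q1 : X / L ^ (A + 6) ≤ 1 / 10 * (X / L ^ (A + 4)) := by
    rw [e2, div_le_iff₀ (by positivity)]
    have : 10 ≤ L ^ 2 := by nlinarith
    nlinarith
  have q2 : 3 * (X / L ^ (A + 8)) ≤ 1 / 10 * (X / L ^ (A + 4)) := by
    rw [e1, ← mul_div_assoc, div_le_iff₀ (by positivity)]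
    have h1 : L ≤ L ^ 4 := le_self_pow₀ hL1 (by norm_num)
    have : 30 ≤ L ^ 4 := by linarith
    nlinarith
  have q3 : 3 * (24 * L ^ 2 * (X / L ^ (A + 8))) ≤ 1 / 10 * (X / L ^ (A + 4)) := by
    rw [e1]
    have : 3 * (24 * L ^ 2 * (X / L ^ (A + 4) / L ^ 4)) = 72 * (X / L ^ (A + 4)) / L ^ 2 := by
      field_simp
      ring
    rw [this, div_le_iff₀ (by positivity)]
    have : 720 ≤ L ^ 2 := by nlinarith
    nlinarith
  have p3' := mul_le_mul_of_nonneg_left p3 (by norm_num : (0 : ℝ) ≤ 3)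
  linarith

end Pool.MP_dd84fd_nt.DX
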