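import Pool.Agent.Lib.MP_dd84fd_nt.DX.LtAo

/-!
# DX-LtCt: the number of the characters with a large narrow sum (helper33)
-/

set_option autoImplicit false

namespace Pool.MP_dd84fd_nt.DX

open Finset Pool.MP_67663b_nt.Odd Pool.MP_dd84fd_nt.PL Pool.MP_dd84fd_nt.HX Pool.MP_dd84fd_nt.HXP
open Pool.MP_dd84fd_nt.JX (Adm ZJ)
open Pool.MP_dd84fd_nt.JXP

/-- the numbers in the bound of the measure -/
theorem cnt_num (L M N Ur : ℝ) (V C2 j : ℕ) (hL : 1 ≤ L) (hL2 : 168 * 4 ^ j ≤ L)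
    (hM : 0 < M) (hNM : N ≤ M ^ j) (hN1 : 1 ≤ N) (hlN : Real.log N ≤ L) (hU0 : 1 ≤ Ur)
    (hU : Ur ≤ 2 ^ j * M ^ j) (hlU : 1 + Real.log Ur ≤ L ^ 2) :
    1 / (M / L ^ V) ^ (2 * j) * (3 * (1 + Real.log N) ^ 2 * (N + 13 * Ur) *
      ((L ^ C2) ^ (2 * j) * (Ur * (1 + Real.log Ur) ^ (2 ^ (2 * j))))) ≤
      L ^ (2 * j * (V + C2) + 2 * 4 ^ j + 3) := by
  have hL0 : 0 < L := by linarith
  have hlN0 : 0 ≤ Real.log N := Real.log_nonneg hN1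
  have hlU0 : 0 ≤ Real.log Ur := Real.log_nonneg hU0
  have h2j : (1 : ℝ) ≤ 2 ^ j := one_le_pow₀ (by norm_num)
  have hMj : 0 < M ^ j := by positivity
  have e1 : (1 + Real.log N) ^ 2 ≤ 4 * L ^ 2 := by nlinarith
  have e2 : N + 13 * Ur ≤ 14 * (2 ^ j * M ^ j) := by nlinarith
  have e3 : (1 + Real.log Ur) ^ (2 ^ (2 * j)) ≤ L ^ (2 * 4 ^ j) := by
    have h1 : (2 : ℕ) ^ (2 * j) = 4 ^ j := by rw [pow_mul]; norm_num
    rw [h1, pow_mul L 2 (4 ^ j)]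
    exact pow_le_pow_left₀ (by linarith) hlU _
  have e4 : (1 : ℝ) / (M / L ^ V) ^ (2 * j) = L ^ (2 * j * V) / (M ^ j * M ^ j) := by
    rw [div_pow, one_div_div, ← pow_mul, mul_comm V (2 * j), ← pow_add]
    congr 2
    ring
  rw [e4]
  have e5 : (L ^ C2) ^ (2 * j) = L ^ (2 * j * C2) := by rw [← pow_mul, mul_comm]
  rw [e5]
  calc L ^ (2 * j * V) / (M ^ j * M ^ j) * (3 * (1 + Real.log N) ^ 2 * (N + 13 * Ur) *
      (L ^ (2 * j * C2) * (Ur * (1 + Real.log Ur) ^ (2 ^ (2 * j))))) ≤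
      L ^ (2 * j * V) / (M ^ j * M ^ j) * (3 * (4 * L ^ 2) * (14 * (2 ^ j * M ^ j)) *
      (L ^ (2 * j * C2) * ((2 ^ j * M ^ j) * L ^ (2 * 4 ^ j)))) := by
        refine mul_le_mul_of_nonneg_left ?_ (by positivity)
        refine mul_le_mul (mul_le_mul (mul_le_mul_of_nonneg_left e1 (by norm_num)) e2
          (by linarith) (by positivity)) ?_ (by positivity) (by positivity)
        refine mul_le_mul_of_nonneg_left ?_ (by positivity)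
        exact mul_le_mul hU e3 (by positivity) (by positivity)
    _ = (168 * 4 ^ j) * L ^ (2 * j * (V + C2) + 2 * 4 ^ j + 2) := by
        have h4 : (4 : ℝ) ^ j = 2 ^ j * 2 ^ j := by rw [← mul_pow]; norm_num
        rw [h4]
        have h5 : L ^ (2 * j * (V + C2) + 2 * 4 ^ j + 2) =
            L ^ (2 * j * V) * L ^ (2 * j * C2) * L ^ (2 * 4 ^ j) * L ^ 2 := by
          rw [← pow_add, ← pow_add, ← pow_add]
          congr 1
          ring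
        rw [h5]
        field_simp
        ring
    _ ≤ L * L ^ (2 * j * (V + C2) + 2 * 4 ^ j + 2) :=
        mul_le_mul_of_nonneg_right hL2 (by positivity)
    _ = _ := by ring

/-- one grid point -/
theorem lt_cnt (V C2 : ℕ) (τ : ℝ) (hτ : 0 < τ) : ∃ X0 : ℕ, ∀ X : ℕ, X0 ≤ X →
    ∀ (QQ : Finset ℕ) (N : ℝ), Fam QQ N → 1 ≤ N → N ≤ X →
    ∀ (M : ℝ) (MM : Finset ℕ) (a : ℕ → ℂ), (X : ℝ) ^ τ / 2 ≤ M → 2 * M ≤ X → 1 ≤ M →
    (∀ m ∈ MM, M < (m : ℝ) ∧ (m : ℝ) ≤ 2 * M) → (∀ m ∈ MM, ‖a m‖ ≤ (Real.log X) ^ C2) →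
    ∀ (u : ℕ) (S : (q : ℕ) → Finset (DirichletCharacter ℂ q)),
    (∀ q ∈ QQ, ∀ χ ∈ S q, M / (Real.log X) ^ V ≤ ‖Au q MM a χ u‖) →
    ∑ q ∈ QQ, ∑ χ ∈ S q, wg q χ ≤
      (Real.log X) ^ (2 * ⌈2 / τ⌉₊ * (V + C2) + 2 * 4 ^ ⌈2 / τ⌉₊ + 3) := by
  obtain ⟨X1, hX1⟩ := lt_big (168 * 4 ^ ⌈2 / τ⌉₊)
  obtain ⟨X2, hX2⟩ := lt_big (⌈2 / τ⌉₊ + 1)
  refine ⟨max (max X1 X2) (max (2 ^ ⌈2 / τ⌉₊) 3), ?_⟩
  intro X hX QQ N hfam hN1 hNX M MM a hM1 hM2 hM3 hMM ha u S hS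
  simp only [max_le_iff] at hX
  obtain ⟨⟨gX1, gX2⟩, gX3, gX4⟩ := hX
  have g1 := hX1 X gX1
  have g2 := hX2 X gX2
  set j := ⌈2 / τ⌉₊ with hj
  obtain ⟨L, hL⟩ : ∃ L : ℝ, L = Real.log X := ⟨_, rfl⟩
  rw [← hL] at g1 g2 ha hS ⊢
  have h4j : (1 : ℝ) ≤ 4 ^ j := one_le_pow₀ (by norm_num)
  have hL1 : 1 ≤ L := by linarith
  have hL0 : 0 < L := by linarith
  have hXn : 1 ≤ X := by omega
  have hX0 : (0 : ℝ) < X := by exact_mod_cast hXn
  have hX1R : (1 : ℝ) ≤ X := by exact_mod_cast hXn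
  have hM0 : 0 < M := by linarith
  set U := ⌊2 * M⌋₊ with hU
  have hU1 : 1 ≤ U := Nat.le_floor (by push_cast; linarith)
  have hU2 : (U : ℝ) ≤ 2 * M := Nat.floor_le (by linarith)
  have h1 := lt_meas QQ N hfam hN1 j U u hU1 MM
    (fun m hm => ⟨by
      have := (hMM m hm).1
      have h0 : (0 : ℝ) < m := by linarith
      exact_mod_cast h0, Nat.le_floor (hMM m hm).2⟩) a (L ^ C2) (by positivity) ha (M / L ^ V)
    (by positivity) S hS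
  refine h1.trans ?_
  have hXM : (X : ℝ) ≤ M ^ j := by
    have e1 : ((X : ℝ) ^ τ / 2) ^ j ≤ M ^ j := pow_le_pow_left₀ (by positivity) hM1 j
    refine le_trans ?_ e1
    rw [div_pow, le_div_iff₀ (by positivity)]
    have e2 : ((X : ℝ) ^ τ) ^ j = (X : ℝ) ^ (τ * j) := by
      rw [← Real.rpow_natCast, ← Real.rpow_mul hX0.le]
    rw [e2]
    have e3 : (2 : ℝ) ≤ τ * j := by
      have := Nat.le_ceil (2 / τ)
      rw [div_le_iff₀ hτ] at this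
      rw [hj]
      linarith
    have e4 : (X : ℝ) ^ (2 : ℝ) ≤ (X : ℝ) ^ (τ * j) := Real.rpow_le_rpow_of_exponent_le hX1R e3
    refine le_trans ?_ e4
    rw [Real.rpow_two]
    have e5 : (2 : ℝ) ^ j ≤ X := by exact_mod_cast gX3
    nlinarith
  have hlN : Real.log N ≤ L := by
    rw [hL]
    exact Real.log_le_log (by linarith) hNX
  have hUj1 : (1 : ℝ) ≤ ((U ^ j : ℕ) : ℝ) := by
    exact_mod_cast Nat.one_le_pow _ _ hU1
  have hUj2 : ((U ^ j : ℕ) : ℝ) ≤ 2 ^ j * M ^ j := by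
    push_cast
    rw [← mul_pow]
    exact pow_le_pow_left₀ (Nat.cast_nonneg _) hU2 j
  have hlU : 1 + Real.log ((U ^ j : ℕ) : ℝ) ≤ L ^ 2 := by
    push_cast
    rw [Real.log_pow]
    have e1 : Real.log U ≤ L := by
      rw [hL]
      exact Real.log_le_log (by exact_mod_cast hU1) (hU2.trans hM2)
    have e2 : (j : ℝ) * Real.log U ≤ j * L := mul_le_mul_of_nonneg_left e1 (Nat.cast_nonneg _)
    nlinarith
  exact cnt_num L M N _ V C2 j hL1 g1 hM0 (hNX.trans hXM) hN1 hlN hUj1 hUj2 hlU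

/-- the characters with a large narrow sum -/
theorem lt_Z (V C2 : ℕ) (τ : ℝ) (hτ : 0 < τ) : ∃ X0 : ℕ, ∀ X : ℕ, X0 ≤ X →
    ∀ (QQ : Finset ℕ) (N : ℝ), Fam QQ N → 1 ≤ N → N ≤ X →
    ∀ (I : ℕ) (M : ℕ → ℝ) (MM : ℕ → Finset ℕ) (a : ℕ → ℕ → ℂ), (I : ℝ) ≤ (Real.log X) ^ C2 →
    (∀ i, (X : ℝ) ^ τ / 2 ≤ M i ∧ 2 * M i ≤ X ∧
    (∀ m ∈ MM i, M i < (m : ℝ) ∧ (m : ℝ) ≤ 2 * M i) ∧ (∀ m ∈ MM i, ‖a i m‖ ≤ (Real.log X) ^ C2)) →
    ∀ (S : (q : ℕ) → Finset (DirichletCharacter ℂ q)),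
    (∀ q ∈ QQ, ∀ χ ∈ S q, ∃ i < I, ∃ u, 2 * (M i / (Real.log X) ^ V) < ‖Au q (MM i) (a i) χ u‖) →
    ∑ q ∈ QQ, ∑ χ ∈ S q, wg q χ ≤
      (Real.log X) ^ (V + 2 * C2 + 1 + (2 * ⌈2 / τ⌉₊ * (V + C2) + 2 * 4 ^ ⌈2 / τ⌉₊ + 3)) := by
  classical
  obtain ⟨X1, hX1⟩ := lt_cnt V C2 τ hτ
  obtain ⟨X2, hX2⟩ := lt_big 6
  obtain ⟨X3, hX3⟩ := lt_log (V + C2) 2 τ hτ
  refine ⟨max (max X1 X2) (max X3 3), ?_⟩
  intro X hX QQ N hfam hN1 hNX I M MM a hI hb S hS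
  simp only [max_le_iff] at hX
  obtain ⟨⟨gX1, gX2⟩, gX3, gX4⟩ := hX
  have g1 := hX1 X gX1
  have g2 := hX2 X gX2
  have g3 := hX3 X gX3
  obtain ⟨L, hL⟩ : ∃ L : ℝ, L = Real.log X := ⟨_, rfl⟩
  rw [← hL] at g1 g2 g3 hI hb hS ⊢
  set E := 2 * ⌈2 / τ⌉₊ * (V + C2) + 2 * 4 ^ ⌈2 / τ⌉₊ + 3 with hE
  have hL1 : 1 ≤ L := by linarith
  have hL0 : 0 < L := by linarith
  have hP1 : (1 : ℝ) ≤ L ^ (V + C2) := one_le_pow₀ hL1
  have hMP : ∀ i, L ^ (V + C2) ≤ M i := fun i => by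
    have := (hb i).1
    linarith
  set w : ℕ → ℕ := fun i => ⌊M i / L ^ (V + C2)⌋₊ with hw
  set m0 : ℕ → ℕ := fun i => ⌊M i⌋₊ with hm0
  set G : ℕ := ⌈4 * L ^ (V + C2)⌉₊ with hG
  have hw1 : ∀ i, 1 ≤ w i := by
    intro i
    refine Nat.le_floor ?_
    rw [Nat.cast_one, le_div_iff₀ (by positivity)]
    linarith [hMP i]
  have hw2 : ∀ i, M i ≤ 2 * L ^ (V + C2) * w i := by
    intro i
    have e1 : M i / L ^ (V + C2) < w i + 1 := Nat.lt_floor_add_one _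
    rw [div_lt_iff₀ (by positivity)] at e1
    have e2 : (1 : ℝ) ≤ w i := by exact_mod_cast hw1 i
    nlinarith
  have hw3 : ∀ i, L ^ C2 * (w i : ℝ) ≤ M i / L ^ V := by
    intro i
    have hMi : 0 ≤ M i := by linarith [hMP i]
    have e1 : (w i : ℝ) ≤ M i / L ^ (V + C2) := Nat.floor_le (by positivity)
    calc L ^ C2 * (w i : ℝ) ≤ L ^ C2 * (M i / L ^ (V + C2)) :=
          mul_le_mul_of_nonneg_left e1 (by positivity)
      _ = M i / L ^ V := by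
          rw [pow_add]
          field_simp
  have hgrid : ∀ i, ∀ m ∈ MM i, m0 i < m ∧ m ≤ m0 i + G * w i := by
    intro i m hm
    obtain ⟨e1, e2⟩ := (hb i).2.2.1 m hm
    have hMi : 0 ≤ M i := by linarith [hMP i]
    constructor
    · rw [hm0]
      simp only
      exact (Nat.floor_lt hMi).2 e1
    · have e3 : M i < m0 i + 1 := Nat.lt_floor_add_one _
      have e4 : 4 * L ^ (V + C2) ≤ G := Nat.le_ceil _
      have e5 : (1 : ℝ) ≤ w i := by exact_mod_cast hw1 i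
      have e6 : 2 * M i ≤ G * w i := by
        have := mul_le_mul_of_nonneg_right e4 (by linarith : (0 : ℝ) ≤ w i)
        linarith [hw2 i]
      have e7 : (m : ℝ) ≤ m0 i + G * w i := by linarith [hMP i]
      exact_mod_cast e7
  -- every character of `S` has a large value on the grid
  have h1 : ∀ q ∈ QQ, ∀ χ ∈ S q, wg q χ ≤ ∑ i ∈ range I, ∑ g ∈ range (G + 1),
      (if M i / L ^ V ≤ ‖Au q (MM i) (a i) χ (m0 i + g * w i)‖ then wg q χ else 0) := by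
    intro q hq χ hχ
    obtain ⟨i, hi, u, hu⟩ := hS q hq χ hχ
    obtain ⟨g, hg, hgu⟩ := lt_grid q (MM i) (a i) χ (m0 i) G (w i) (L ^ C2) (hw1 i) (hgrid i)
      (hb i).2.2.2 (by positivity) u
    have e1 : M i / L ^ V ≤ ‖Au q (MM i) (a i) χ (m0 i + g * w i)‖ := by
      have e2 : ‖Au q (MM i) (a i) χ u‖ ≤ ‖Au q (MM i) (a i) χ (m0 i + g * w i)‖ +
          ‖Au q (MM i) (a i) χ u - Au q (MM i) (a i) χ (m0 i + g * w i)‖ := by
        have := norm_add_le (Au q (MM i) (a i) χ (m0 i + g * w i))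
          (Au q (MM i) (a i) χ u - Au q (MM i) (a i) χ (m0 i + g * w i))
        rwa [add_sub_cancel] at this
      have := hw3 i
      linarith
    have n1 : ∀ i' g', 0 ≤ (if M i' / L ^ V ≤ ‖Au q (MM i') (a i') χ (m0 i' + g' * w i')‖
        then wg q χ else 0) := by
      intro i' g'
      split_ifs
      · exact wg_nonneg q χ
      · exact le_refl _
    calc wg q χ = (if M i / L ^ V ≤ ‖Au q (MM i) (a i) χ (m0 i + g * w i)‖
        then wg q χ else 0) := by rw [if_pos e1]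
      _ ≤ ∑ g ∈ range (G + 1), (if M i / L ^ V ≤ ‖Au q (MM i) (a i) χ (m0 i + g * w i)‖
        then wg q χ else 0) := single_le_sum (f := fun g' => (if M i / L ^ V ≤
          ‖Au q (MM i) (a i) χ (m0 i + g' * w i)‖ then wg q χ else 0)) (fun g' _ => n1 i g') hg
      _ ≤ _ := single_le_sum (f := fun i' => ∑ g' ∈ range (G + 1), (if M i' / L ^ V ≤
          ‖Au q (MM i') (a i') χ (m0 i' + g' * w i')‖ then wg q χ else 0))
          (fun i' _ => sum_nonneg fun g' _ => n1 i' g') (mem_range.2 hi)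
  have h2 : ∀ i ∈ range I, ∀ g ∈ range (G + 1), ∑ q ∈ QQ, ∑ χ ∈ S q,
      (if M i / L ^ V ≤ ‖Au q (MM i) (a i) χ (m0 i + g * w i)‖ then wg q χ else 0) ≤ L ^ E := by
    intro i _ g _
    obtain ⟨b1, b2, b3, b4⟩ := hb i
    have := g1 QQ N hfam hN1 hNX (M i) (MM i) (a i) b1 b2 (hP1.trans (hMP i)) b3 b4
      (m0 i + g * w i) (fun q => (S q).filter fun χ =>
        M i / L ^ V ≤ ‖Au q (MM i) (a i) χ (m0 i + g * w i)‖)
      (fun q _ χ hχ => (mem_filter.1 hχ).2)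
    simpa only [sum_filter] using this
  have h3 : ∑ q ∈ QQ, ∑ χ ∈ S q, wg q χ ≤ ∑ i ∈ range I, ∑ g ∈ range (G + 1),
      ∑ q ∈ QQ, ∑ χ ∈ S q,
      (if M i / L ^ V ≤ ‖Au q (MM i) (a i) χ (m0 i + g * w i)‖ then wg q χ else 0) := by
    refine (sum_le_sum fun q hq => sum_le_sum fun χ hχ => h1 q hq χ hχ).trans (le_of_eq ?_)
    rw [swap3]
    refine sum_congr rfl fun i _ => ?_
    calc _ = ∑ q ∈ QQ, ∑ g ∈ range (G + 1), ∑ χ ∈ S q,
        (if M i / L ^ V ≤ ‖Au q (MM i) (a i) χ (m0 i + g * w i)‖ then wg q χ else 0) :=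
          sum_congr rfl fun q _ => sum_comm
      _ = _ := sum_comm
  have h4 : ∑ i ∈ range I, ∑ g ∈ range (G + 1), ∑ q ∈ QQ, ∑ χ ∈ S q,
      (if M i / L ^ V ≤ ‖Au q (MM i) (a i) χ (m0 i + g * w i)‖ then wg q χ else 0) ≤
      I * (((G + 1 : ℕ) : ℝ) * L ^ E) := by
    have e1 : ∀ i ∈ range I, ∑ g ∈ range (G + 1), ∑ q ∈ QQ, ∑ χ ∈ S q,
      (if M i / L ^ V ≤ ‖Au q (MM i) (a i) χ (m0 i + g * w i)‖ then wg q χ else 0) ≤
      ((G + 1 : ℕ) : ℝ) * L ^ E := by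
      intro i hi
      have := sum_le_card_nsmul _ _ _ (h2 i hi)
      rwa [card_range, nsmul_eq_mul] at this
    have := sum_le_card_nsmul _ _ _ e1
    rwa [card_range, nsmul_eq_mul] at this
  refine h3.trans (h4.trans ?_)
  have h5 : ((G + 1 : ℕ) : ℝ) ≤ L ^ (V + C2 + 1) := by
    have e1 : (G : ℝ) < 4 * L ^ (V + C2) + 1 := Nat.ceil_lt_add_one (by positivity)
    push_cast
    rw [pow_succ]
    nlinarith
  calc (I : ℝ) * (((G + 1 : ℕ) : ℝ) * L ^ E) ≤ L ^ C2 * (L ^ (V + C2 + 1) * L ^ E) := by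
        refine mul_le_mul hI (mul_le_mul_of_nonneg_right h5 (by positivity)) (by positivity)
          (by positivity)
    _ = _ := by
        rw [← pow_add, ← pow_add]
        congr 1
        ring

end Pool.MP_dd84fd_nt.DX
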