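import Pool.Agent.Lib.MP_dd84fd_nt.DX.LtAb

/-!
# DX-LtGr: grids, blocks at a character, covering of an interval (helper33)
-/

set_option autoImplicit false

namespace Pool.MP_dd84fd_nt.DX

open Finset Pool.MP_67663b_nt.Odd Pool.MP_dd84fd_nt.PL Pool.MP_dd84fd_nt.HX Pool.MP_dd84fd_nt.HXP

/-- the sums `Au` are controlled by their values on a grid -/
theorem lt_grid (q : ℕ) (MM : Finset ℕ) (a : ℕ → ℂ) (χ : DirichletCharacter ℂ q) (m0 G w : ℕ)
    (R : ℝ) (hw : 1 ≤ w) (hMM : ∀ m ∈ MM, m0 < m ∧ m ≤ m0 + G * w) (ha : ∀ m ∈ MM, ‖a m‖ ≤ R)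
    (hR : 0 ≤ R) (u : ℕ) :
    ∃ g ∈ range (G + 1), ‖Au q MM a χ u - Au q MM a χ (m0 + g * w)‖ ≤ R * w := by
  classical
  have key : ∀ u1 u2 : ℕ, u1 ≤ u2 → u2 ≤ u1 + w → ‖Au q MM a χ u2 - Au q MM a χ u1‖ ≤ R * w := by
    intro u1 u2 h1 h2
    have e1 : Au q MM a χ u2 - Au q MM a χ u1 =
        ∑ m ∈ MM.filter (fun m => u1 < m ∧ m ≤ u2), a m * χ (m : ZMod q) := by
      unfold Au
      have e2 : MM.filter (fun m => m ≤ u2) =
          MM.filter (fun m => m ≤ u1) ∪ MM.filter (fun m => u1 < m ∧ m ≤ u2) := by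
        ext m
        simp only [mem_filter, mem_union]
        constructor
        · rintro ⟨h3, h4⟩
          rcases le_or_gt m u1 with h | h
          · exact Or.inl ⟨h3, h⟩
          · exact Or.inr ⟨h3, h, h4⟩
        · rintro (⟨h3, h4⟩ | ⟨h3, h4, h5⟩)
          · exact ⟨h3, by omega⟩
          · exact ⟨h3, h5⟩
      rw [e2, sum_union]
      · ring
      · rw [disjoint_left]
        intro m h3 h4
        rw [mem_filter] at h3 h4
        omega
    rw [e1]
    refine (norm_sum_le _ _).trans ?_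
    have e3 : ∀ m ∈ MM.filter (fun m => u1 < m ∧ m ≤ u2), ‖a m * χ (m : ZMod q)‖ ≤ R := by
      intro m hm
      rw [mem_filter] at hm
      rw [norm_mul]
      calc ‖a m‖ * ‖χ (m : ZMod q)‖ ≤ R * 1 :=
            mul_le_mul (ha m hm.1) (DirichletCharacter.norm_le_one χ _) (norm_nonneg _) hR
        _ = R := mul_one R
    refine (sum_le_card_nsmul _ _ _ e3).trans ?_
    rw [nsmul_eq_mul, mul_comm]
    refine mul_le_mul_of_nonneg_left ?_ hR
    have e4 : (MM.filter (fun m => u1 < m ∧ m ≤ u2)).card ≤ (Ioc u1 u2).card := by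
      refine card_le_card ?_
      intro m hm
      rw [mem_filter] at hm
      exact mem_Ioc.2 hm.2
    rw [Nat.card_Ioc] at e4
    exact_mod_cast (by omega : (MM.filter (fun m => u1 < m ∧ m ≤ u2)).card ≤ w)
  rcases le_or_gt u m0 with h | h
  · refine ⟨0, mem_range.2 (by omega), ?_⟩
    have e1 : ∀ v, v ≤ m0 → Au q MM a χ v = 0 := by
      intro v hv
      unfold Au
      rw [filter_false_of_mem, sum_empty]
      intro m hm
      have := (hMM m hm).1
      omega
    rw [e1 u h, e1 (m0 + 0 * w) (by omega), sub_zero, norm_zero]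
    positivity
  · rcases le_or_gt ((u - m0) / w) G with hg | hg
    · refine ⟨(u - m0) / w, mem_range.2 (by omega), ?_⟩
      have h1 : (u - m0) / w * w ≤ u - m0 := Nat.div_mul_le_self _ _
      have h2 : u - m0 < (u - m0) / w * w + w := Nat.lt_div_mul_add (by omega)
      exact key _ _ (by omega) (by omega)
    · refine ⟨G, mem_range.2 (by omega), ?_⟩
      have h1 : G * w ≤ (u - m0) / w * w := Nat.mul_le_mul_right w hg.le
      have h2 : (u - m0) / w * w ≤ u - m0 := Nat.div_mul_le_self _ _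
      have e1 : Au q MM a χ u = Au q MM a χ (m0 + G * w) := by
        unfold Au
        congr 1
        refine filter_congr fun m hm => ?_
        have := (hMM m hm).2
        omega
      rw [e1, sub_self, norm_zero]
      positivity

/-- a type II sum at a character -/
theorem cX_blk (q X K : ℕ) (MM : Finset ℕ) (a c : ℕ → ℝ)
    (hM0 : ∀ m ∈ MM, 1 ≤ m) (ha : ∀ m, a m ≠ 0 → m ∈ MM) (hK : ∀ m, a m ≠ 0 → m * K ≤ X)
    (χ : DirichletCharacter ℂ q) (θ : ℝ) :
    cX q X (fun n => ((∑ m ∈ n.divisors, (if n / m ≤ K then a m * c (n / m) else 0) : ℝ) : ℂ)) χ θ =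
      bX q K MM (fun m => (a m : ℂ)) (fun k => (c k : ℂ)) χ θ := by
  classical
  set G : ℕ → ℂ := fun n =>
    ((∑ m ∈ n.divisors, (if n / m ≤ K then a m * c (n / m) else 0) : ℝ) : ℂ) * χ (n : ZMod q) *
      ee ((n : ℝ) * θ) with hG
  have hL : cX q X (fun n => ((∑ m ∈ n.divisors,
      (if n / m ≤ K then a m * c (n / m) else 0) : ℝ) : ℂ)) χ θ = ∑ n ∈ Icc 1 X, G n := rfl
  -- the right side as a sum over `n`
  have hR : bX q K MM (fun m => (a m : ℂ)) (fun k => (c k : ℂ)) χ θ =
      ∑ n ∈ Icc 1 (X * K), G n := by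
    have e1 : bX q K MM (fun m => (a m : ℂ)) (fun k => (c k : ℂ)) χ θ =
        ∑ m ∈ Icc 1 X, ∑ k ∈ Icc 1 K, (a m : ℂ) * χ (m : ZMod q) * ((c k : ℂ) * χ (k : ZMod q) *
          ee ((k : ℝ) * ((m : ℝ) * θ))) := by
      unfold bX cX
      have e2 : ∀ m, (a m : ℂ) * χ (m : ZMod q) * ∑ k ∈ Icc 1 K, (c k : ℂ) * χ (k : ZMod q) *
          ee ((k : ℝ) * ((m : ℝ) * θ)) = ∑ k ∈ Icc 1 K, (a m : ℂ) * χ (m : ZMod q) *
          ((c k : ℂ) * χ (k : ZMod q) * ee ((k : ℝ) * ((m : ℝ) * θ))) := fun m => mul_sum _ _ _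
      rw [sum_congr rfl fun m _ => e2 m]
      set f : ℕ → ℂ := fun m => ∑ k ∈ Icc 1 K, (a m : ℂ) * χ (m : ZMod q) *
          ((c k : ℂ) * χ (k : ZMod q) * ee ((k : ℝ) * ((m : ℝ) * θ))) with hf
      have hf0 : ∀ m, a m = 0 → f m = 0 := by
        intro m hm
        rw [hf]
        simp only [hm, Complex.ofReal_zero, zero_mul, sum_const_zero]
      have hfK : K = 0 → ∀ m, f m = 0 := by
        intro h m
        rw [hf]
        simp only [h]
        rfl
      have e3 : ∑ m ∈ MM, f m = ∑ m ∈ MM ∪ Icc 1 X, f m := by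
        refine sum_subset subset_union_left ?_
        intro m _ hm
        refine hf0 m ?_
        by_contra h
        exact hm (ha m h)
      have e4 : ∑ m ∈ Icc 1 X, f m = ∑ m ∈ MM ∪ Icc 1 X, f m := by
        refine sum_subset subset_union_right ?_
        intro m hm hm'
        rcases Nat.eq_zero_or_pos K with h | h
        · exact hfK h m
        · refine hf0 m ?_
          by_contra h2
          apply hm'
          rw [mem_Icc]
          have h3 := hK m h2
          have h4 : m ≤ m * K := Nat.le_mul_of_pos_right m h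
          exact ⟨hM0 m (ha m h2), by omega⟩
      rw [e3, e4]
    rw [e1, pairs_sum X K (fun m k => (a m : ℂ) * χ (m : ZMod q) * ((c k : ℂ) * χ (k : ZMod q) *
          ee ((k : ℝ) * ((m : ℝ) * θ))))]
    refine sum_congr rfl fun n hn => ?_
    rw [mem_Icc] at hn
    rw [hG]
    simp only
    push_cast
    rw [sum_mul, sum_mul, sum_filter]
    refine sum_congr rfl fun m hm => ?_
    rw [Nat.mem_divisors] at hm
    have hm0 : 0 < m := Nat.pos_of_dvd_of_pos hm.1 hn.1
    have hnm : m * (n / m) = n := Nat.mul_div_cancel' hm.1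
    by_cases h : n / m ≤ K
    · rw [if_pos h]
      by_cases h0 : a m = 0
      · rw [h0]
        simp
      · have hmX : m ≤ X := by
          have h1 : 0 < n / m := Nat.div_pos (Nat.le_of_dvd hn.1 hm.1) hm0
          have h2 : m * 1 ≤ m * K := Nat.mul_le_mul_left m (by omega)
          have h3 := hK m h0
          omega
        rw [if_pos ⟨hmX, h⟩]
        have e5 : χ (n : ZMod q) = χ (m : ZMod q) * χ ((n / m : ℕ) : ZMod q) := by
          rw [← map_mul, ← Nat.cast_mul, hnm]
        have e6 : (n : ℝ) * θ = ((n / m : ℕ) : ℝ) * ((m : ℝ) * θ) := by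
          rw [← mul_assoc, ← Nat.cast_mul, mul_comm (n / m) m, hnm]
        rw [e5, e6]
        push_cast
        ring
    · rw [if_neg h, if_neg (fun h' => h h'.2)]
      simp
  rw [hL, hR]
  have e1 : ∑ n ∈ Icc 1 X, G n = ∑ n ∈ Icc 1 X ∪ Icc 1 (X * K), G n := by
    refine sum_subset subset_union_left ?_
    intro n hn hn'
    rw [mem_union, mem_Icc, mem_Icc] at hn
    rw [mem_Icc] at hn'
    rw [hG]
    simp only
    have : ∑ m ∈ n.divisors, (if n / m ≤ K then a m * c (n / m) else 0) = 0 := by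
      refine sum_eq_zero fun m hm => ?_
      rw [Nat.mem_divisors] at hm
      split_ifs with h
      · by_cases h0 : a m = 0
        · rw [h0, zero_mul]
        · have h3 := hK m h0
          have h4 : m * (n / m) ≤ m * K := Nat.mul_le_mul_left m h
          rw [Nat.mul_div_cancel' hm.1] at h4
          omega
      · rfl
    rw [this]
    simp
  have e2 : ∑ n ∈ Icc 1 (X * K), G n = ∑ n ∈ Icc 1 X ∪ Icc 1 (X * K), G n := by
    refine sum_subset subset_union_right ?_
    intro n hn hn'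
    rw [mem_union, mem_Icc, mem_Icc] at hn
    rw [mem_Icc] at hn'
    have hK0 : K = 0 := by
      rcases Nat.eq_zero_or_pos K with h | h
      · exact h
      · have : X ≤ X * K := Nat.le_mul_of_pos_right X h
        omega
    rw [hG]
    simp only
    have : ∑ m ∈ n.divisors, (if n / m ≤ K then a m * c (n / m) else 0) = 0 := by
      refine sum_eq_zero fun m hm => ?_
      rw [Nat.mem_divisors] at hm
      rw [if_neg]
      have h1 : 0 < n / m := Nat.div_pos (Nat.le_of_dvd (by omega) hm.1)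
        (Nat.pos_of_dvd_of_pos hm.1 (by omega))
      omega
    rw [this]
    simp
  rw [e1, e2]

/-- covering of a symmetric interval -/
theorem int_cover (g : ℝ → ℝ) (hg : Continuous g) (h0 : ∀ x, 0 ≤ g x) (δ T : ℝ)
    (hT0 : 0 ≤ T) (J : ℕ) (hT : T ≤ δ * 2 ^ J) :
    ∫ x in (-T)..T, g x ≤ (∫ x in (-δ)..δ, g x) +
      ∑ l ∈ range J, ((∫ x in (δ * 2 ^ l)..(2 * (δ * 2 ^ l)), g x) +
        ∫ x in (δ * 2 ^ l)..(2 * (δ * 2 ^ l)), g (-x)) := by
  have hi : ∀ a b : ℝ, IntervalIntegrable g MeasureTheory.volume a b := fun a b =>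
    hg.intervalIntegrable a b
  have h1 : ∀ J : ℕ, ∫ x in (-(δ * 2 ^ J))..(δ * 2 ^ J), g x = (∫ x in (-δ)..δ, g x) +
      ∑ l ∈ range J, ((∫ x in (δ * 2 ^ l)..(2 * (δ * 2 ^ l)), g x) +
        ∫ x in (δ * 2 ^ l)..(2 * (δ * 2 ^ l)), g (-x)) := by
    intro J
    induction J with
    | zero => simp
    | succ J ih =>
      rw [sum_range_succ, ← add_assoc, ← ih]
      have e1 : δ * 2 ^ (J + 1) = 2 * (δ * 2 ^ J) := by rw [pow_succ]; ring
      rw [e1]
      set b := δ * 2 ^ J
      have e2 : ∫ x in b..(2 * b), g (-x) = ∫ x in (-(2 * b))..(-b), g x :=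
        intervalIntegral.integral_comp_neg g
      rw [e2, ← intervalIntegral.integral_add_adjacent_intervals (hi (-(2 * b)) (-b)) (hi (-b) (2 * b)),
        ← intervalIntegral.integral_add_adjacent_intervals (hi (-b) b) (hi b (2 * b))]
      ring
  rw [← h1 J]
  refine intervalIntegral.integral_mono_interval (by linarith) (by linarith) hT ?_ (hi _ _)
  exact Filter.Eventually.of_forall fun x => h0 x

end Pool.MP_dd84fd_nt.DX
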