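import Pool.Agent.Lib.MP_dd84fd_nt.DX.Defs
import Pool.Agent.Lib.MP_dd84fd_nt.LX.PwGS
import Pool.Agent.Lib.MP_dd84fd_nt.L2G.CharOrth

/-!
# DX-LtPar: Parseval for the characters modulo `q` (helper33)

`cX q K c χ θ = ∑_{k ≤ K} c_k χ(k) e(kθ)`; `wg q χ = |gs χ|² / φ(q)`.
`lt_parseval`: `∑_{a ∈ rr q} |tp K (cq q c) (a/q + θ)|² = ∑_χ wg |cX|²`;
`lt_np`: the nonprincipal part is not changed if a constant is subtracted.
-/

set_option autoImplicit false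

namespace Pool.MP_dd84fd_nt.DX

open Finset Pool.MP_67663b_nt.Odd Pool.MP_dd84fd_nt.PL Pool.MP_dd84fd_nt.HX Pool.MP_dd84fd_nt.HXP
open Pool.MP_dd84fd_nt.LXP (tq gs_unit)

/-- `∑_{k ≤ K} c_k χ(k) e(kθ)` -/
noncomputable def cX (q K : ℕ) (c : ℕ → ℂ) (χ : DirichletCharacter ℂ q) (θ : ℝ) : ℂ :=
  ∑ k ∈ Icc 1 K, c k * χ (k : ZMod q) * ee ((k : ℝ) * θ)

/-- the weight of a character -/
noncomputable def wg (q : ℕ) (χ : DirichletCharacter ℂ q) : ℝ := ‖gs χ‖ ^ 2 / (Nat.totient q : ℝ)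

theorem wg_nonneg (q : ℕ) (χ : DirichletCharacter ℂ q) : 0 ≤ wg q χ := by
  unfold wg; positivity

theorem Sx_eq (ww : ℕ → ℕ → ℝ) (X q : ℕ) (χ : DirichletCharacter ℂ q) (x : ℝ) :
    Sx ww X χ x = cX q X (fun n => ((ww X n : ℝ) : ℂ)) χ x := rfl

private theorem lp_add (x y : ℝ) : ee (x + y) = ee x * ee y := by
  unfold ee
  rw [← Complex.exp_add]
  congr 1
  push_cast
  ring

private theorem lp_conj (x : ℝ) : (starRingEnd ℂ) (ee x) = ee (-x) := by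
  unfold ee
  rw [← Complex.exp_conj]
  congr 1
  rw [map_mul, map_mul, map_mul, Complex.conj_I, Complex.conj_ofReal, Complex.conj_ofReal,
    Complex.conj_ofNat]
  push_cast
  ring

private theorem lp_int (j : ℤ) : ee (j : ℝ) = 1 := by
  unfold ee
  rw [show (2 * (Real.pi : ℂ) * ((j : ℝ) : ℂ) * Complex.I) = (j : ℂ) * (2 * Real.pi * Complex.I) by
    push_cast; ring]
  exact Complex.exp_int_mul_two_pi_mul_I j

/-- sums over the reduced residues -/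
theorem sum_rr (q : ℕ) [NeZero q] {E : Type*} [AddCommMonoid E] (F : ZMod q → E) :
    ∑ a ∈ rr q, F (a : ZMod q) = ∑ b ∈ univ.filter (fun b : ZMod q => IsUnit b), F b := by
  classical
  refine sum_nbij' (fun a => (a : ZMod q)) (fun b => b.val) ?_ ?_ ?_ ?_ ?_
  · intro a ha
    unfold rr at ha
    rw [mem_filter, mem_range] at ha
    rw [mem_filter]
    exact ⟨mem_univ _, (ZMod.isUnit_iff_coprime a q).2 ha.2⟩
  · intro b hb
    rw [mem_filter] at hb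
    unfold rr
    rw [mem_filter, mem_range]
    refine ⟨ZMod.val_lt b, ?_⟩
    rw [← ZMod.isUnit_iff_coprime, ZMod.natCast_zmod_val]
    exact hb.2
  · intro a ha
    unfold rr at ha
    rw [mem_filter, mem_range] at ha
    exact ZMod.val_cast_of_lt ha.1
  · intro b _
    exact ZMod.natCast_zmod_val b
  · intro a _
    rfl

theorem gs_eq (q : ℕ) [NeZero q] (χ : DirichletCharacter ℂ q) : gs χ = tq q χ := by
  classical
  have h := sum_rr q (fun b : ZMod q => χ b * ee ((b.val : ℝ) / q))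
  have h1 : gs χ = ∑ a ∈ rr q, χ (a : ZMod q) * ee ((((a : ZMod q)).val : ℝ) / q) := by
    unfold gs
    refine sum_congr rfl fun a ha => ?_
    unfold rr at ha
    rw [mem_filter, mem_range] at ha
    rw [ZMod.val_cast_of_lt ha.1]
  rw [h1, h]
  unfold tq
  rw [sum_filter]
  refine sum_congr rfl fun b _ => ?_
  split_ifs with hb
  · rfl
  · rw [MulChar.map_nonunit χ hb, zero_mul]

theorem gs_inv_lt (q : ℕ) [NeZero q] (χ : DirichletCharacter ℂ q) : ‖gs χ⁻¹‖ = ‖gs χ‖ := by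
  have hq : 0 < q := Nat.pos_of_ne_zero (NeZero.ne q)
  have hc : Nat.Coprime (q - 1) q := by
    rcases Nat.lt_or_ge 1 q with h | h
    · have : Nat.Coprime (q - 1) (q - 1 + 1) := by simp
      rwa [Nat.sub_add_cancel (by omega)] at this
    · have : q = 1 := by omega
      rw [this]
      exact Nat.coprime_one_right _
  have h1 := gs_unit q χ (q - 1) hc
  have h2 : (starRingEnd ℂ) (tq q χ⁻¹) =
      ∑ y : ZMod q, χ y * ee (((q - 1 : ℕ) : ℝ) * ((y.val : ℝ) / q)) := by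
    unfold tq
    rw [map_sum]
    refine sum_congr rfl fun y _ => ?_
    rw [map_mul, lp_conj]
    have e1 : (starRingEnd ℂ) ((χ⁻¹ : DirichletCharacter ℂ q) y) = χ y := by
      by_cases hy : IsUnit y
      · rw [L2G.co_inv_apply q χ y hy, ← L2G.co_char_conj q χ y hy, Complex.conj_conj]
      · rw [MulChar.map_nonunit _ hy, MulChar.map_nonunit _ hy, map_zero]
    rw [e1]
    congr 1
    have e2 : (((q - 1 : ℕ) : ℝ) * ((y.val : ℝ) / q)) = -((y.val : ℝ) / q) + ((y.val : ℤ) : ℝ) := by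
      have hq0 : (q : ℝ) ≠ 0 := by exact_mod_cast hq.ne'
      rw [Nat.cast_sub (by omega : 1 ≤ q)]
      push_cast
      field_simp
      ring
    rw [e2, lp_add, lp_int, mul_one]
  have h3 : ‖χ ((q - 1 : ℕ) : ZMod q)‖ = 1 := by
    have hu : IsUnit ((q - 1 : ℕ) : ZMod q) := (ZMod.isUnit_iff_coprime _ _).2 hc
    obtain ⟨u, hu⟩ := hu
    rw [← hu]
    exact DirichletCharacter.unit_norm_eq_one χ u
  rw [gs_eq, gs_eq]
  calc ‖tq q χ⁻¹‖ = ‖(starRingEnd ℂ) (tq q χ⁻¹)‖ := (RCLike.norm_conj _).symm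
    _ = ‖tq q χ‖ := by rw [h2, h1, norm_mul, RCLike.norm_conj, h3, one_mul]

/-- the character sums of `V(b) = tp K (cq q c) (b/q + θ)` -/
theorem lt_coef (q : ℕ) [NeZero q] (K : ℕ) (c : ℕ → ℂ) (θ : ℝ) (χ : DirichletCharacter ℂ q) :
    ∑ b : ZMod q, tp K (cq q c) ((b.val : ℝ) / q + θ) * χ b = gs χ * cX q K c χ⁻¹ θ := by
  unfold tp cX
  have h1 : ∀ b : ZMod q, (∑ k ∈ Icc 1 K, cq q c k * ee ((k : ℝ) * ((b.val : ℝ) / q + θ))) * χ b =
      ∑ k ∈ Icc 1 K, cq q c k * ee ((k : ℝ) * θ) * (χ b * ee ((k : ℝ) * ((b.val : ℝ) / q))) := by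
    intro b
    rw [sum_mul]
    refine sum_congr rfl fun k _ => ?_
    rw [mul_add, lp_add]
    ring
  rw [sum_congr rfl fun b _ => h1 b, sum_comm, mul_sum]
  refine sum_congr rfl fun k _ => ?_
  rw [← mul_sum]
  by_cases hk : Nat.Coprime k q
  · rw [gs_unit q χ k hk, gs_eq]
    have hu : IsUnit ((k : ℕ) : ZMod q) := (ZMod.isUnit_iff_coprime k q).2 hk
    rw [L2G.co_inv_apply q χ _ hu, ← L2G.co_char_conj q χ _ hu]
    unfold cq
    rw [if_pos hk]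
    ring
  · have hu : ¬ IsUnit ((k : ℕ) : ZMod q) := fun h => hk ((ZMod.isUnit_iff_coprime k q).1 h)
    rw [MulChar.map_nonunit _ hu]
    unfold cq
    rw [if_neg hk]
    ring

private theorem lt_mass (q : ℕ) [NeZero q] (K : ℕ) (c : ℕ → ℂ) (θ : ℝ) (lam : ℂ) :
    ∑ a ∈ rr q, ‖tp K (cq q c) ((a : ℝ) / q + θ) - lam‖ ^ 2 =
      (1 / (Nat.totient q : ℝ)) * ∑ χ : DirichletCharacter ℂ q,
        ‖∑ b : ZMod q, (tp K (cq q c) ((b.val : ℝ) / q + θ) - lam) * χ b‖ ^ 2 := by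
  classical
  have hφ : (0 : ℝ) < Nat.totient q := by
    exact_mod_cast Nat.totient_pos.2 (Nat.pos_of_ne_zero (NeZero.ne q))
  rw [L2G.co_parseval_zmod q (fun b => tp K (cq q c) ((b.val : ℝ) / q + θ) - lam),
    ← sum_rr q (fun b : ZMod q => ‖tp K (cq q c) ((b.val : ℝ) / q + θ) - lam‖ ^ 2), ← mul_assoc,
    one_div, inv_mul_cancel₀ hφ.ne', one_mul]
  refine sum_congr rfl fun a ha => ?_
  unfold rr at ha
  rw [mem_filter, mem_range] at ha
  rw [ZMod.val_cast_of_lt ha.1]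

/-- re-indexing by the inverse -/
private theorem lt_reindex (q : ℕ) [NeZero q] (K : ℕ) (c : ℕ → ℂ) (θ : ℝ)
    (S : Finset (DirichletCharacter ℂ q)) (hS : ∀ χ, χ ∈ S → χ⁻¹ ∈ S) :
    ∑ χ ∈ S, ‖gs χ‖ ^ 2 * ‖cX q K c χ⁻¹ θ‖ ^ 2 = ∑ χ ∈ S, ‖gs χ‖ ^ 2 * ‖cX q K c χ θ‖ ^ 2 := by
  refine sum_nbij' (fun χ => χ⁻¹) (fun χ => χ⁻¹) hS hS (fun χ _ => inv_inv χ)
    (fun χ _ => inv_inv χ) ?_
  intro χ _
  rw [gs_inv_lt]

/-- Parseval -/
theorem lt_parseval (q : ℕ) [NeZero q] (K : ℕ) (c : ℕ → ℂ) (θ : ℝ) :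
    ∑ a ∈ rr q, ‖tp K (cq q c) ((a : ℝ) / q + θ)‖ ^ 2 =
      ∑ χ : DirichletCharacter ℂ q, wg q χ * ‖cX q K c χ θ‖ ^ 2 := by
  have h := lt_mass q K c θ 0
  simp only [sub_zero] at h
  rw [h, sum_congr rfl fun χ _ => by rw [lt_coef q K c θ χ, norm_mul, mul_pow],
    lt_reindex q K c θ univ (fun _ _ => mem_univ _), mul_sum]
  refine sum_congr rfl fun χ _ => ?_
  unfold wg
  ring

/-- the nonprincipal part -/
theorem lt_np (q : ℕ) [NeZero q] (K : ℕ) (c : ℕ → ℂ) (θ : ℝ) (lam : ℂ) :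
    ∑ χ ∈ (univ : Finset (DirichletCharacter ℂ q)).filter (fun χ => χ ≠ 1),
      wg q χ * ‖cX q K c χ θ‖ ^ 2 ≤
      ∑ a ∈ rr q, ‖tp K (cq q c) ((a : ℝ) / q + θ) - lam‖ ^ 2 := by
  classical
  rw [lt_mass q K c θ lam]
  have hφ : (0 : ℝ) < Nat.totient q := by
    exact_mod_cast Nat.totient_pos.2 (Nat.pos_of_ne_zero (NeZero.ne q))
  have h1 : ∑ χ ∈ (univ : Finset (DirichletCharacter ℂ q)).filter (fun χ => χ ≠ 1),
      wg q χ * ‖cX q K c χ θ‖ ^ 2 = (1 / (Nat.totient q : ℝ)) *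
      ∑ χ ∈ (univ : Finset (DirichletCharacter ℂ q)).filter (fun χ => χ ≠ 1),
        ‖∑ b : ZMod q, (tp K (cq q c) ((b.val : ℝ) / q + θ) - lam) * χ b‖ ^ 2 := by
    have h2 : ∀ χ ∈ (univ : Finset (DirichletCharacter ℂ q)).filter (fun χ => χ ≠ 1),
        ‖∑ b : ZMod q, (tp K (cq q c) ((b.val : ℝ) / q + θ) - lam) * χ b‖ ^ 2 =
        ‖gs χ‖ ^ 2 * ‖cX q K c χ⁻¹ θ‖ ^ 2 := by
      intro χ hχ
      rw [mem_filter] at hχ
      have h3 : ∑ b : ZMod q, (tp K (cq q c) ((b.val : ℝ) / q + θ) - lam) * χ b =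
          ∑ b : ZMod q, tp K (cq q c) ((b.val : ℝ) / q + θ) * χ b := by
        rw [sum_congr rfl fun b _ => sub_mul _ _ _, sum_sub_distrib, ← mul_sum,
          MulChar.sum_eq_zero_of_ne_one hχ.2, mul_zero, sub_zero]
      rw [h3, lt_coef, norm_mul, mul_pow]
    rw [sum_congr rfl h2, lt_reindex q K c θ _ (fun χ hχ => by
      rw [mem_filter] at hχ ⊢
      exact ⟨mem_univ _, inv_ne_one.2 hχ.2⟩), mul_sum]
    refine sum_congr rfl fun χ _ => ?_
    unfold wg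
    ring
  rw [h1]
  refine mul_le_mul_of_nonneg_left ?_ (by positivity)
  exact sum_le_sum_of_subset_of_nonneg (filter_subset _ _) fun χ _ _ => by positivity

theorem cX_cont (q K : ℕ) (c : ℕ → ℂ) (χ : DirichletCharacter ℂ q) :
    Continuous (cX q K c χ) := by
  unfold cX
  refine continuous_finsetSum _ fun k _ => continuous_const.mul ?_
  have : Continuous ee := by unfold ee; fun_prop
  exact this.comp (by fun_prop)

end Pool.MP_dd84fd_nt.DX
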