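import Pool.Agent.Lib.MP_dd84fd_nt.DX.MainL
import Pool.Agent.Lib.MP_dd84fd_nt.DX.LtMain

/-!
# Project ED: the three theorems with explicit moduli
-/

set_option autoImplicit false

namespace Pool.MP_dd84fd_nt.DX

open Finset Pool.MP_67663b_nt.Odd Pool.MP_dd84fd_nt.En Pool.MP_dd84fd_nt.E2 Pool.MP_dd84fd_nt.LS
open Pool.MP_dd84fd_nt.GX Pool.MP_dd84fd_nt.HX Pool.MP_dd84fd_nt.IX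
open Pool.MP_dd84fd_nt.LX Pool.MP_dd84fd_nt.MX

/-- exponent `1/3` -/
theorem fin_j (A : ℕ) : ∃ C : ℕ, ∀ θ ε : ℝ, 1 / 3 ≤ θ → θ ≤ 1 → 0 < ε → ∀ K : ℕ,
    ∃ X0 : ℕ, ∀ X : ℕ, X0 ≤ X → ∃ D : Finset ℕ,
      (D.card : ℝ) ≤ (Real.log X) ^ C ∧
      (∀ d ∈ D, (Real.log X) ^ K ≤ (d : ℝ) ∧ (d : ℝ) ≤ (X : ℝ) ^ (1 - θ) ∧ ExF C X d) ∧
      ∀ P : ℕ → Prop, ∀ _ : DecidablePred P,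
        (∀ n, P n → Even n ∧ (∀ d ∈ D, (d : ℝ) ≤ (n : ℝ) ^ (1 - θ) → ¬ d ∣ n) ∧ Exc A n) →
        (((Icc 1 X).filter P).card : ℝ) ≤ (X : ℝ) ^ (θ + ε) := fin_jx lightE A

/-- exponents `1/5 ≤ θ < 1/3` -/
theorem fin_l : ∀ θ ε : ℝ, 1 / 5 ≤ θ → θ < 1 / 3 → 0 < ε → ∃ C : ℕ, ∀ K : ℕ,
    ∃ X0 : ℕ, ∀ X : ℕ, X0 ≤ X → ∃ D : Finset ℕ, (D.card : ℝ) ≤ (Real.log X) ^ C ∧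
      (∀ d ∈ D, (Real.log X) ^ K ≤ (d : ℝ) ∧ (d : ℝ) ≤ (X : ℝ) ^ (1 - θ) ∧ ExF C X d) ∧
      ∀ P : ℕ → Prop, ∀ _ : DecidablePred P,
        (∀ n, P n → Even n ∧ (∀ d ∈ D, (d : ℝ) ≤ (n : ℝ) ^ (1 - θ) → ¬ d ∣ n) ∧
          BadL 4 θ n) →
        (((Icc 1 X).filter P).card : ℝ) ≤ (X : ℝ) ^ (θ + ε) := fin_lx lightE

/-- exponents `1/7 ≤ θ ≤ 1` -/
theorem fin_m : ∀ ε : ℝ, 0 < ε → ∃ C : ℕ, ∀ θ : ℝ, 1 / 7 ≤ θ → θ ≤ 1 → ∀ K : ℕ,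
    ∃ X0 : ℕ, ∀ X : ℕ, X0 ≤ X → ∃ D : Finset ℕ, (D.card : ℝ) ≤ (Real.log X) ^ C ∧
      (∀ d ∈ D, (Real.log X) ^ K ≤ (d : ℝ) ∧ (d : ℝ) ≤ (X : ℝ) ^ (1 - θ) ∧ ExF C X d) ∧
      ∀ P : ℕ → Prop, ∀ _ : DecidablePred P,
        (∀ n, P n → Even n ∧ (∀ d ∈ D, (d : ℝ) ≤ (n : ℝ) ^ (1 - θ) → ¬ d ∣ n) ∧
          BadM (1 / 40) 2 n) →
        (((Icc 1 X).filter P).card : ℝ) ≤ (X : ℝ) ^ (θ + ε) := fin_mx lightE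

end Pool.MP_dd84fd_nt.DX
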