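import Pool.Agent.Lib.MP_dd84fd_nt.DX.MsB
import Pool.Agent.Lib.MP_dd84fd_nt.DX.ArF
import Pool.Agent.Lib.MP_dd84fd_nt.DX.MnE

/-!
# DX-MsE: the mass of a narrow function without bad characters (assembly)

`W_- = tp X ww - tp X (fI gg)`.  `msM = npM + mnM` (`ms_split`), `npM W_- ≤ 2 npM (tp X ww) + 2 npM (tp X fI)` (`np_sub`),
`ms_b`, `LightE` with `Y = nonpr`, `ar_f`, `mn_e`.  `A' =` the one of `LightE` for `A + 4`.
-/

set_option autoImplicit false

namespace Pool.MP_dd84fd_nt.DX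

open Finset Pool.MP_67663b_nt.Odd Pool.MP_dd84fd_nt.En Pool.MP_dd84fd_nt.E2 Pool.MP_dd84fd_nt.LS
open Pool.MP_dd84fd_nt.GX Pool.MP_dd84fd_nt.HX Pool.MP_dd84fd_nt.IX
open Pool.MP_dd84fd_nt.PL (rr tp)

private theorem mse_WI (ww gg : ℕ → ℕ → ℝ) (w X : ℕ) :
    WI ww gg (-1) w X = fun θ => tp X (fun k => (ww X k : ℂ)) θ -
      tp X (fun k => (fI gg X w k : ℂ)) θ := by
  funext θ
  unfold WI tp
  rw [← Finset.sum_sub_distrib]
  refine Finset.sum_congr rfl fun n _ => ?_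
  push_cast
  ring

private theorem mse_cont (X : ℕ) (c : ℕ → ℂ) : Continuous (tp X c) := by
  unfold tp ee
  fun_prop

private theorem mse_nonpr (q : ℕ) (χ : DirichletCharacter ℂ q) (h : χ ∈ nonpr q) : χ ≠ 1 := by
  unfold nonpr at h
  by_cases hq : q = 0
  · rw [dif_pos hq] at h
    exact absurd h (Finset.notMem_empty _)
  · rw [dif_neg hq] at h
    simp only [Finset.mem_filter] at h
    exact h.2

theorem ms_e (hL : LightE) : MassE := by
  intro A
  obtain ⟨B, hB⟩ := hL (A + 4)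
  refine ⟨B, ?_⟩
  intro K0 C1 C2 K1 K2 τ hτ
  obtain ⟨A', hA'⟩ := hB K0 C1 C2 K1 K2 τ hτ
  refine ⟨A', ?_⟩
  intro th e hadm ww gg hw hdec hmaj
  obtain ⟨XL, hXL⟩ := hA' th e hadm ww gg hw hdec
  obtain ⟨D0, hD0⟩ := mn_e (A + 4) K0 C1 K1 K2 ww gg hw hmaj
  refine ⟨max D0 1, ?_⟩
  intro D' hD'
  have hD1 : 1 ≤ D' := le_trans (le_max_right _ _) hD'
  obtain ⟨Xn, hXn⟩ := hD0 D' (le_trans (le_max_left _ _) hD') th e τ hadm
  obtain ⟨Xf, hXf⟩ := ar_f (A + 4) K0 C1 K1 K2 th e τ hadm ww gg hw D' hD1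
  obtain ⟨Xb, hXb⟩ := ms_b (A + 4) K0 C1 K1 K2 th e τ hadm ww gg hw
  refine ⟨max (max XL Xn) (max (max Xf Xb) 8), ?_⟩
  intro X hX n QQ N hDsk hvN
  have hXL' : XL ≤ X := le_trans (le_trans (le_max_left _ _) (le_max_left _ _)) hX
  have hXn' : Xn ≤ X := le_trans (le_trans (le_max_right _ _) (le_max_left _ _)) hX
  have hXf' : Xf ≤ X :=
    le_trans (le_trans (le_trans (le_max_left _ _) (le_max_left _ _)) (le_max_right _ _)) hX
  have hXb' : Xb ≤ X :=
    le_trans (le_trans (le_trans (le_max_right _ _) (le_max_left _ _)) (le_max_right _ _)) hX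
  have hX8 : 8 ≤ X := le_trans (le_trans (le_max_right _ _) (le_max_right _ _)) hX
  have hX0 : (0 : ℝ) ≤ X := Nat.cast_nonneg X
  have hlog : (2 : ℝ) ≤ Real.log X := by
    rw [Real.le_log_iff_exp_le (by positivity)]
    have h1 : Real.exp 2 = Real.exp 1 ^ 2 := by
      rw [← Real.exp_nat_mul]
      norm_num
    have h2 := Real.exp_one_lt_d9
    have h3 : (8 : ℝ) ≤ X := by exact_mod_cast hX8
    have h4 := Real.exp_pos 1
    rw [h1]
    nlinarith
  have hlog0 : (0 : ℝ) < Real.log X := by linarith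
  set T : ℝ := 4 * (Real.log X) ^ K2 with hT
  have hT0 : 0 ≤ T := by positivity
  have hQ1 : ∀ q ∈ QQ, 1 ≤ q := fun q hq => (hDsk.2.2.1 q hq).1
  have hchM : chM ww X T QQ ≤ X / (Real.log X) ^ (A + 4) := by
    have := hXL X hXL' n QQ N hDsk (fun q => nonpr q) (fun q hq χ hχ =>
      ⟨mse_nonpr q χ hχ, hvN q hq χ (mse_nonpr q χ hχ)⟩)
    exact this
  have h1 := hXb X hXb' n QQ N hDsk
  have h2 := hXf X hXf' n QQ N hDsk
  have h3 := hXn X hXn' n QQ N hDsk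
  have hcont : Continuous (WI ww gg (-1) (wX D' X) X) := by
    rw [mse_WI]
    exact (mse_cont _ _).sub (mse_cont _ _)
  have h4 := ms_split X T QQ hQ1 (WI ww gg (-1) (wX D' X) X) hcont
  have h5 : npM X T QQ (WI ww gg (-1) (wX D' X) X) ≤
      2 * npM X T QQ (tp X (fun k => (ww X k : ℂ))) +
        2 * npM X T QQ (tp X (fun k => (fI gg X (wX D' X) k : ℂ))) := by
    rw [mse_WI]
    exact (np_sub X T hT0 QQ _ _ (mse_cont _ _) (mse_cont _ _)).1
  have h6 : 9 * ((X : ℝ) / (Real.log X) ^ (A + 4)) ≤ X / (Real.log X) ^ A := by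
    have h7 : (0 : ℝ) < (Real.log X) ^ A := by positivity
    have h8 : (16 : ℝ) ≤ (Real.log X) ^ 4 := by
      calc (16 : ℝ) = 2 ^ 4 := by norm_num
        _ ≤ (Real.log X) ^ 4 := by gcongr
    rw [pow_add, ← div_div, mul_div_assoc']
    rw [div_le_iff₀ (by positivity)]
    have h9 : 0 ≤ (X : ℝ) / (Real.log X) ^ A := by positivity
    nlinarith
  have h10 : msM X T QQ (WI ww gg (-1) (wX D' X) X) ≤ X / (Real.log X) ^ A := by
    rw [h4]
    linarith
  exact h10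

end Pool.MP_dd84fd_nt.DX
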