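import Pool.Agent.Lib.MP_dd84fd_nt.DX.MsDefs

/-!
# DX-MnS: means over the reduced residues of sums with rough support

`∑_(a ∈ rr q) tp X c (a/q + x) = ∑_n c_n e(n x) R_q(n)`, `R_q(n) = ∑_(a ∈ rr q) e(n a / q) = ∑_(d | (n,q)) μ(q/d) d`.
* `mn_smooth`: `q` divides a product of primes `≤ w` and `c` is supported on the `n` without prime factor `≤ w`:
  `(n, q) = 1` and `R_q(n) = μ(q)`;
* `mn_triv`: `|R_q(n)| ≤ ∑_(d | (n,q)) d`, so the sum is `≤ ∑_(d | q) d ∑_(n ≤ X, d | n) |c_n| ≤ τ(q) V X`.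
-/

set_option autoImplicit false

namespace Pool.MP_dd84fd_nt.DX

open Finset Pool.MP_67663b_nt.Odd
open Pool.MP_dd84fd_nt.PL (rr tp)

private theorem mns_geom (m n : ℕ) (hm : 1 ≤ m) :
    ∑ j ∈ range m, ee ((n : ℝ) * ((j : ℝ) / m)) = if m ∣ n then (m : ℂ) else 0 := by
  have hm0 : (m : ℝ) ≠ 0 := by
    have : m ≠ 0 := by omega
    exact_mod_cast this
  have h1 : ∀ j : ℕ, ee ((n : ℝ) * ((j : ℝ) / m)) = (ee ((n : ℝ) / m)) ^ j := by
    intro j
    induction j with
    | zero => simp [ee_zero]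
    | succ k ih =>
      rw [pow_succ, ← ih, ← ee_add]
      congr 1
      push_cast
      ring
  rw [Finset.sum_congr rfl (fun j _ => h1 j)]
  by_cases hd : m ∣ n
  · obtain ⟨k, rfl⟩ := hd
    have h2 : ee (((m * k : ℕ) : ℝ) / m) = 1 := by
      have : ((m * k : ℕ) : ℝ) / m = ((k : ℤ) : ℝ) := by
        push_cast
        field_simp
      rw [this, ee_int]
    rw [h2, if_pos (dvd_mul_right m k)]
    simp
  · rw [if_neg hd]
    have hne : ee ((n : ℝ) / m) ≠ 1 := by
      intro h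
      unfold ee at h
      rw [Complex.exp_eq_one_iff] at h
      obtain ⟨z, hz⟩ := h
      have hpi : (2 * Real.pi * Complex.I : ℂ) ≠ 0 := by
        simp [Real.pi_ne_zero]
      have h3 : (((n : ℝ) / m : ℝ) : ℂ) = (z : ℂ) := by
        have h4 : (2 * Real.pi * Complex.I : ℂ) * (((n : ℝ) / m : ℝ) : ℂ) =
            (2 * Real.pi * Complex.I : ℂ) * (z : ℂ) := by
          rw [mul_comm _ (z : ℂ), ← hz]
          ring
        exact mul_left_cancel₀ hpi h4
      have h5 : ((n : ℝ) / m : ℝ) = (z : ℝ) := by exact_mod_cast h3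
      rw [div_eq_iff hm0] at h5
      have h6 : (n : ℤ) = z * m := by exact_mod_cast h5
      apply hd
      have h7 : (m : ℤ) ∣ (n : ℤ) := ⟨z, by rw [h6]; ring⟩
      exact_mod_cast h7
    have h2 := geom_sum_eq hne m
    rw [h2]
    have h3 : ee ((n : ℝ) / m) ^ m = 1 := by
      rw [← h1 m]
      have : (n : ℝ) * ((m : ℝ) / m) = ((n : ℤ) : ℝ) := by
        rw [div_self hm0]
        push_cast
        ring
      rw [this, ee_int]
    rw [h3]
    simp

private theorem mns_ind (r b : ℕ) (hr : r ≠ 0) :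
    ∑ d ∈ r.divisors.filter (fun d => d ∣ b), ((ArithmeticFunction.moebius d : ℤ) : ℂ) =
      if Nat.Coprime b r then 1 else 0 := by
  have h1 : r.divisors.filter (fun d => d ∣ b) = (Nat.gcd r b).divisors := by
    ext d
    simp only [Finset.mem_filter, Nat.mem_divisors, Nat.dvd_gcd_iff]
    have : Nat.gcd r b ≠ 0 := Nat.gcd_ne_zero_left hr
    tauto
  rw [h1]
  have h2 : ∑ d ∈ (Nat.gcd r b).divisors, (ArithmeticFunction.moebius d : ℤ) =
      if Nat.gcd r b = 1 then 1 else 0 := by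
    have h3 := congrArg (fun f : ArithmeticFunction ℤ => f (Nat.gcd r b))
      ArithmeticFunction.moebius_mul_coe_zeta
    simp only [ArithmeticFunction.coe_mul_zeta_apply, ArithmeticFunction.one_apply] at h3
    exact h3
  have h4 : (∑ d ∈ (Nat.gcd r b).divisors, ((ArithmeticFunction.moebius d : ℤ) : ℂ)) =
      ((∑ d ∈ (Nat.gcd r b).divisors, (ArithmeticFunction.moebius d : ℤ) : ℤ) : ℂ) := by
    push_cast
    rfl
  rw [h4, h2]
  have h5 : Nat.Coprime b r ↔ Nat.gcd r b = 1 := by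
    rw [Nat.gcd_comm]
  by_cases h : Nat.gcd r b = 1
  · rw [if_pos h, if_pos (h5.mpr h)]
    simp
  · rw [if_neg h, if_neg (fun hh => h (h5.mp hh))]
    simp

/-- the Ramanujan sum -/
private theorem mns_ram (r n : ℕ) (hr : 1 ≤ r) :
    ∑ a ∈ rr r, ee ((n : ℝ) * ((a : ℝ) / r)) =
      ∑ d ∈ r.divisors, ((ArithmeticFunction.moebius d : ℤ) : ℂ) *
        (if r / d ∣ n then ((r / d : ℕ) : ℂ) else 0) := by
  have hr0 : r ≠ 0 := by omega
  have hr1 : (r : ℝ) ≠ 0 := by exact_mod_cast hr0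
  have e1 : ∑ b ∈ rr r, ee ((n : ℝ) * ((b : ℝ) / r)) =
      ∑ b ∈ Finset.range r, ∑ d ∈ r.divisors, if d ∣ b then
        ((ArithmeticFunction.moebius d : ℤ) : ℂ) * ee ((n : ℝ) * ((b : ℝ) / r)) else 0 := by
    unfold rr
    rw [Finset.sum_filter]
    refine Finset.sum_congr rfl fun b _ => ?_
    rw [← Finset.sum_filter, ← Finset.sum_mul, mns_ind r b hr0]
    split_ifs <;> simp
  rw [e1, Finset.sum_comm]
  refine Finset.sum_congr rfl fun d hd => ?_
  rw [Nat.mem_divisors] at hd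
  obtain ⟨m, hm⟩ := hd.1
  have hd0 : d ≠ 0 := by
    rintro rfl
    exact hr0 (by rw [hm, zero_mul])
  have hm0 : m ≠ 0 := by
    rintro rfl
    exact hr0 (by rw [hm, mul_zero])
  have hd1 : (d : ℝ) ≠ 0 := by exact_mod_cast hd0
  have hm1 : (m : ℝ) ≠ 0 := by exact_mod_cast hm0
  have hrd : r / d = m := by
    rw [hm]
    exact Nat.mul_div_cancel_left m (Nat.pos_of_ne_zero hd0)
  rw [hrd]
  have e3 : (∑ b ∈ Finset.range r, if d ∣ b then
      ((ArithmeticFunction.moebius d : ℤ) : ℂ) * ee ((n : ℝ) * ((b : ℝ) / r)) else 0) =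
      ∑ j ∈ Finset.range m,
        ((ArithmeticFunction.moebius d : ℤ) : ℂ) * ee ((n : ℝ) * ((j : ℝ) / m)) := by
    rw [← Finset.sum_filter]
    symm
    refine Finset.sum_bij (fun j _ => d * j) ?_ ?_ ?_ ?_
    · intro j hj
      rw [Finset.mem_range] at hj
      rw [Finset.mem_filter, Finset.mem_range, hm]
      exact ⟨Nat.mul_lt_mul_of_pos_left hj (Nat.pos_of_ne_zero hd0), dvd_mul_right d j⟩
    · intro j _ j' _ h
      exact Nat.eq_of_mul_eq_mul_left (Nat.pos_of_ne_zero hd0) h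
    · intro b hb
      rw [Finset.mem_filter, Finset.mem_range] at hb
      obtain ⟨j, rfl⟩ := hb.2
      refine ⟨j, ?_, rfl⟩
      rw [Finset.mem_range]
      have := hb.1
      rw [hm] at this
      exact Nat.lt_of_mul_lt_mul_left this
    · intro j _
      congr 2
      rw [hm]
      push_cast
      field_simp
  rw [e3, ← Finset.mul_sum, mns_geom m n (Nat.one_le_iff_ne_zero.mpr hm0)]

private theorem mns_expand (q X : ℕ) (c : ℕ → ℂ) (x : ℝ) :
    ∑ a ∈ rr q, tp X c ((a : ℝ) / q + x) =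
      ∑ n ∈ Icc 1 X, c n * ee ((n : ℝ) * x) * ∑ a ∈ rr q, ee ((n : ℝ) * ((a : ℝ) / q)) := by
  unfold tp
  rw [Finset.sum_comm]
  refine Finset.sum_congr rfl fun n _ => ?_
  rw [Finset.mul_sum]
  refine Finset.sum_congr rfl fun a _ => ?_
  rw [mul_add, ee_add]
  ring

theorem mn_smooth (q w X : ℕ) (hq : 1 ≤ q) (hw : ∀ p : ℕ, p.Prime → p ∣ q → p ≤ w) (c : ℕ → ℂ)
    (hc : ∀ n ∈ Icc 1 X, c n ≠ 0 → ∀ p : ℕ, p.Prime → p ≤ w → ¬ p ∣ n) (x : ℝ) :
    ∑ a ∈ rr q, tp X c ((a : ℝ) / q + x) =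
      ((ArithmeticFunction.moebius q : ℤ) : ℂ) * tp X c x := by
  rw [mns_expand]
  unfold tp
  rw [Finset.mul_sum]
  refine Finset.sum_congr rfl fun n hn => ?_
  by_cases h0 : c n = 0
  · rw [h0]; ring
  have hcop : Nat.Coprime n q := by
    apply Nat.Coprime.symm
    refine Nat.coprime_of_dvd fun p hp hpq hpn => ?_
    exact hc n hn h0 p hp (hw p hp hpq) hpn
  have h1 : ∑ a ∈ rr q, ee ((n : ℝ) * ((a : ℝ) / q)) = ((ArithmeticFunction.moebius q : ℤ) : ℂ) := by
    rw [mns_ram q n hq, Finset.sum_eq_single q]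
    · rw [Nat.div_self (by omega)]
      simp
    · intro d hd hdq
      have hdd := Nat.dvd_of_mem_divisors hd
      rw [if_neg, mul_zero]
      intro h
      have h2 : q / d ∣ q := Nat.div_dvd_of_dvd hdd
      have h3 : q / d ∣ 1 := by
        have := Nat.dvd_gcd h h2
        rwa [hcop.gcd_eq_one] at this
      have h4 : q / d = 1 := Nat.dvd_one.mp h3
      apply hdq
      have h5 := Nat.div_mul_cancel hdd
      rw [h4, one_mul] at h5
      exact h5
    · intro h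
      exact absurd (Nat.mem_divisors_self q (by omega)) h
  rw [h1]
  ring

theorem mn_triv (q X : ℕ) (hq : 1 ≤ q) (c : ℕ → ℂ) (V : ℝ) (hV : ∀ n ∈ Icc 1 X, ‖c n‖ ≤ V)
    (x : ℝ) : ‖∑ a ∈ rr q, tp X c ((a : ℝ) / q + x)‖ ≤ (q.divisors.card : ℝ) * V * X := by
  rw [mns_expand]
  rcases Nat.eq_zero_or_pos X with hX | hX
  · subst hX
    simp
  have hV0 : 0 ≤ V := le_trans (norm_nonneg _) (hV 1 (Finset.mem_Icc.mpr ⟨le_refl _, hX⟩))
  have h1 : ∀ n ∈ Icc 1 X,
      ‖c n * ee ((n : ℝ) * x) * ∑ a ∈ rr q, ee ((n : ℝ) * ((a : ℝ) / q))‖ ≤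
        ∑ d ∈ q.divisors, V * (if q / d ∣ n then ((q / d : ℕ) : ℝ) else 0) := by
    intro n hn
    rw [norm_mul, norm_mul, norm_ee, mul_one, ← Finset.mul_sum]
    refine mul_le_mul (hV n hn) ?_ (norm_nonneg _) hV0
    rw [mns_ram q n hq]
    refine (norm_sum_le _ _).trans (Finset.sum_le_sum fun d _ => ?_)
    rw [norm_mul]
    have h2 : ‖((ArithmeticFunction.moebius d : ℤ) : ℂ)‖ ≤ 1 := by
      rw [Complex.norm_intCast]
      have := ArithmeticFunction.abs_moebius_le_one (n := d)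
      exact_mod_cast this
    have h3 : ‖(if q / d ∣ n then ((q / d : ℕ) : ℂ) else 0)‖ =
        (if q / d ∣ n then ((q / d : ℕ) : ℝ) else 0) := by
      split_ifs
      · rw [Complex.norm_natCast]
      · exact norm_zero
    rw [h3]
    have h4 : (0 : ℝ) ≤ (if q / d ∣ n then ((q / d : ℕ) : ℝ) else 0) := by
      split_ifs <;> positivity
    calc ‖((ArithmeticFunction.moebius d : ℤ) : ℂ)‖ * _ ≤ 1 * _ := mul_le_mul_of_nonneg_right h2 h4
      _ = _ := one_mul _
  refine (norm_sum_le _ _).trans ((Finset.sum_le_sum h1).trans ?_)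
  rw [Finset.sum_comm]
  have h5 : ∀ d ∈ q.divisors, ∑ n ∈ Icc 1 X, V * (if q / d ∣ n then ((q / d : ℕ) : ℝ) else 0) ≤
      V * X := by
    intro d hd
    have hdd := Nat.dvd_of_mem_divisors hd
    have hm : 1 ≤ q / d := Nat.div_pos (Nat.le_of_dvd (by omega) hdd)
      (Nat.pos_of_ne_zero (by rintro rfl; exact absurd (zero_dvd_iff.mp hdd) (by omega)))
    rw [← Finset.mul_sum]
    refine mul_le_mul_of_nonneg_left ?_ hV0
    rw [← Finset.sum_filter, Finset.sum_const, nsmul_eq_mul]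
    have h6 : ((Icc 1 X).filter (fun n => q / d ∣ n)).card = X / (q / d) := by
      have := Nat.card_multiples X (q / d)
      rw [← Nat.Ioc_filter_dvd_card_eq_div X (q / d)]
      congr 1
    rw [h6]
    have h7 : X / (q / d) * (q / d) ≤ X := Nat.div_mul_le_self X (q / d)
    exact_mod_cast h7
  calc ∑ d ∈ q.divisors, ∑ n ∈ Icc 1 X, V * (if q / d ∣ n then ((q / d : ℕ) : ℝ) else 0)
      ≤ ∑ d ∈ q.divisors, V * X := Finset.sum_le_sum h5
    _ = (q.divisors.card : ℝ) * V * X := by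
        rw [Finset.sum_const, nsmul_eq_mul]
        ring

end Pool.MP_dd84fd_nt.DX
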