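import Pool.Agent.Lib.MP_dd84fd_nt.DX.MsDefs
import Pool.Agent.Lib.MP_dd84fd_nt.PL.BMass

/-!
# DX-MsA: the mass on the discs, elementary facts

* `ms_split`: `∑_a |G a|² = ∑_a |G a - m|² + φ(q) |m|²`, `m` the mean (`#rr q = φ(q)`), integrated over `x`
  (all integrands are continuous);
* `np_le`: from `ms_split`, `mnM ≥ 0`;
* `np_sub`: `|u - v|² ≤ 2|u|² + 2|v|²`, `mnR` is linear;
* `ms_ls`: `PL.overlap` with `F = ‖tp X c‖²`, `s = -T/X`, `t = T/X`, and `PL.tp_l2`.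
-/

set_option autoImplicit false

namespace Pool.MP_dd84fd_nt.DX

open Finset Pool.MP_67663b_nt.Odd Pool.MP_dd84fd_nt.En Pool.MP_dd84fd_nt.E2 Pool.MP_dd84fd_nt.LS
open Pool.MP_dd84fd_nt.GX Pool.MP_dd84fd_nt.HX Pool.MP_dd84fd_nt.IX
open Pool.MP_dd84fd_nt.PL (rr tp Fam)

private theorem msA_card (q : ℕ) : (rr q).card = Nat.totient q := by
  unfold rr Nat.totient
  congr 1
  ext a
  simp only [mem_filter, mem_range]
  rw [Nat.coprime_comm]

private theorem msA_point {ι : Type*} (s : Finset ι) (n : ℝ) (hn : (s.card : ℝ) = n) (hn0 : n ≠ 0)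
    (G : ι → ℂ) :
    ∑ a ∈ s, ‖G a‖ ^ 2 = ∑ a ∈ s, ‖G a - (1 / (n : ℂ)) * ∑ b ∈ s, G b‖ ^ 2 +
      n * ‖(1 / (n : ℂ)) * ∑ b ∈ s, G b‖ ^ 2 := by
  set m : ℂ := (1 / (n : ℂ)) * ∑ b ∈ s, G b with hm
  have hsum : ∑ b ∈ s, G b = (n : ℂ) * m := by
    rw [hm, ← mul_assoc, mul_one_div_cancel (by exact_mod_cast hn0), one_mul]
  have h1 : ∀ a ∈ s, ‖G a - m‖ ^ 2 = ‖G a‖ ^ 2 + ‖m‖ ^ 2 - 2 * (G a * (starRingEnd ℂ) m).re := by
    intro a _
    rw [← Complex.normSq_eq_norm_sq, ← Complex.normSq_eq_norm_sq, ← Complex.normSq_eq_norm_sq,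
      Complex.normSq_sub]
  rw [sum_congr rfl h1, sum_sub_distrib, sum_add_distrib, sum_const, nsmul_eq_mul, hn, ← mul_sum,
    ← Complex.re_sum, ← sum_mul, hsum]
  have h2 : ((n : ℂ) * m * (starRingEnd ℂ) m).re = n * ‖m‖ ^ 2 := by
    rw [mul_assoc, Complex.mul_conj', Complex.re_ofReal_mul, ← Complex.ofReal_pow, Complex.ofReal_re]
  rw [h2]
  ring

private theorem msA_cont (F : ℝ → ℂ) (hF : Continuous F) (a q : ℕ) :
    Continuous fun x : ℝ => F ((a : ℝ) / q + x) :=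
  hF.comp (continuous_const.add continuous_id)

private theorem msA_contm (F : ℝ → ℂ) (hF : Continuous F) (q : ℕ) :
    Continuous fun x : ℝ => mnR q (fun b => F ((b : ℝ) / q + x)) := by
  unfold mnR
  exact continuous_const.mul (continuous_finsetSum _ fun b _ => msA_cont F hF b q)

theorem ms_split (X : ℕ) (T : ℝ) (QQ : Finset ℕ) (hQ : ∀ q ∈ QQ, 1 ≤ q) (F : ℝ → ℂ)
    (hF : Continuous F) : msM X T QQ F = npM X T QQ F + mnM X T QQ F := by
  unfold msM npM mnM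
  rw [← sum_add_distrib]
  refine sum_congr rfl fun q hq => ?_
  have hphi : (Nat.totient q : ℝ) ≠ 0 := by
    have := Nat.totient_pos.2 (hQ q hq)
    exact_mod_cast this.ne'
  have hc1 : ∀ a ∈ rr q, IntervalIntegrable (fun x : ℝ => ‖F ((a : ℝ) / q + x)‖ ^ 2)
      MeasureTheory.volume (-(T / X)) (T / X) := fun a _ =>
    ((msA_cont F hF a q).norm.pow 2).intervalIntegrable _ _
  have hc2 : ∀ a ∈ rr q, IntervalIntegrable
      (fun x : ℝ => ‖F ((a : ℝ) / q + x) - mnR q (fun b => F ((b : ℝ) / q + x))‖ ^ 2)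
      MeasureTheory.volume (-(T / X)) (T / X) := fun a _ =>
    (((msA_cont F hF a q).sub (msA_contm F hF q)).norm.pow 2).intervalIntegrable _ _
  rw [← intervalIntegral.integral_finsetSum hc1, ← intervalIntegral.integral_finsetSum hc2,
    ← intervalIntegral.integral_const_mul, ← intervalIntegral.integral_add]
  · refine intervalIntegral.integral_congr fun x _ => ?_
    have h := msA_point (rr q) (Nat.totient q : ℝ) (by rw [msA_card]) hphi
      (fun b => F ((b : ℝ) / q + x))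
    simp only [Complex.ofReal_natCast] at h
    simpa only [mnR] using h
  · exact (continuous_finsetSum _ fun a _ =>
      ((msA_cont F hF a q).sub (msA_contm F hF q)).norm.pow 2).intervalIntegrable _ _
  · exact (continuous_const.mul ((msA_contm F hF q).norm.pow 2)).intervalIntegrable _ _

private theorem msA_TX (X : ℕ) (T : ℝ) (hT : 0 ≤ T) : -(T / X) ≤ T / X := by
  have : 0 ≤ T / X := div_nonneg hT (Nat.cast_nonneg X)
  linarith

theorem np_le (X : ℕ) (T : ℝ) (hT : 0 ≤ T) (QQ : Finset ℕ) (hQ : ∀ q ∈ QQ, 1 ≤ q) (F : ℝ → ℂ)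
    (hF : Continuous F) : npM X T QQ F ≤ msM X T QQ F := by
  rw [ms_split X T QQ hQ F hF]
  have h : 0 ≤ mnM X T QQ F := by
    unfold mnM
    refine sum_nonneg fun q _ => mul_nonneg (Nat.cast_nonneg _) ?_
    exact intervalIntegral.integral_nonneg (msA_TX X T hT) fun x _ => by positivity
  linarith

private theorem msA_sq_sub (u v : ℂ) : ‖u - v‖ ^ 2 ≤ 2 * ‖u‖ ^ 2 + 2 * ‖v‖ ^ 2 := by
  have h1 := norm_sub_le u v
  have h2 := norm_nonneg (u - v)
  nlinarith [norm_nonneg u, norm_nonneg v, sq_nonneg (‖u‖ - ‖v‖)]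

private theorem msA_sq_add (u v : ℂ) : ‖u + v‖ ^ 2 ≤ 2 * ‖u‖ ^ 2 + 2 * ‖v‖ ^ 2 := by
  have h1 := norm_add_le u v
  have h2 := norm_nonneg (u + v)
  nlinarith [norm_nonneg u, norm_nonneg v, sq_nonneg (‖u‖ - ‖v‖)]

/-- integration of a pointwise bound, summed over `q` and `a` -/
private theorem msA_int (X : ℕ) (T : ℝ) (hT : 0 ≤ T) (QQ : Finset ℕ) (f g h : ℕ → ℕ → ℝ → ℝ)
    (hf : ∀ q a, Continuous (f q a)) (hg : ∀ q a, Continuous (g q a)) (hh : ∀ q a, Continuous (h q a))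
    (hle : ∀ q a x, f q a x ≤ 2 * g q a x + 2 * h q a x) :
    ∑ q ∈ QQ, ∑ a ∈ rr q, ∫ x in (-(T / X))..(T / X), f q a x ≤
      2 * (∑ q ∈ QQ, ∑ a ∈ rr q, ∫ x in (-(T / X))..(T / X), g q a x) +
      2 * (∑ q ∈ QQ, ∑ a ∈ rr q, ∫ x in (-(T / X))..(T / X), h q a x) := by
  rw [mul_sum, mul_sum, ← sum_add_distrib]
  refine sum_le_sum fun q _ => ?_
  rw [mul_sum, mul_sum, ← sum_add_distrib]
  refine sum_le_sum fun a _ => ?_
  have i1 : IntervalIntegrable (fun x => 2 * g q a x) MeasureTheory.volume (-(T / X)) (T / X) :=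
    (continuous_const.mul (hg q a)).intervalIntegrable _ _
  have i2 : IntervalIntegrable (fun x => 2 * h q a x) MeasureTheory.volume (-(T / X)) (T / X) :=
    (continuous_const.mul (hh q a)).intervalIntegrable _ _
  rw [← intervalIntegral.integral_const_mul, ← intervalIntegral.integral_const_mul,
    ← intervalIntegral.integral_add i1 i2]
  exact intervalIntegral.integral_mono_on (msA_TX X T hT) ((hf q a).intervalIntegrable _ _)
    (i1.add i2) fun x _ => hle q a x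

theorem np_sub (X : ℕ) (T : ℝ) (hT : 0 ≤ T) (QQ : Finset ℕ) (F G : ℝ → ℂ)
    (hF : Continuous F) (hG : Continuous G) :
    npM X T QQ (fun θ => F θ - G θ) ≤ 2 * npM X T QQ F + 2 * npM X T QQ G ∧
      npM X T QQ (fun θ => F θ + G θ) ≤ 2 * npM X T QQ F + 2 * npM X T QQ G := by
  have c1 : ∀ (H : ℝ → ℂ), Continuous H → ∀ q a : ℕ, Continuous fun x : ℝ =>
      ‖H ((a : ℝ) / q + x) - mnR q (fun b => H ((b : ℝ) / q + x))‖ ^ 2 := fun H hH q a =>
    ((msA_cont H hH a q).sub (msA_contm H hH q)).norm.pow 2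
  constructor
  · unfold npM
    refine msA_int X T hT QQ
      (fun q a x => ‖(F ((a : ℝ) / q + x) - G ((a : ℝ) / q + x)) -
        mnR q (fun b => F ((b : ℝ) / q + x) - G ((b : ℝ) / q + x))‖ ^ 2)
      (fun q a x => ‖F ((a : ℝ) / q + x) - mnR q (fun b => F ((b : ℝ) / q + x))‖ ^ 2)
      (fun q a x => ‖G ((a : ℝ) / q + x) - mnR q (fun b => G ((b : ℝ) / q + x))‖ ^ 2)
      (c1 (fun θ => F θ - G θ) (hF.sub hG)) (c1 F hF) (c1 G hG) ?_
    intro q a x
    have e : (F ((a : ℝ) / q + x) - G ((a : ℝ) / q + x)) -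
        mnR q (fun b => F ((b : ℝ) / q + x) - G ((b : ℝ) / q + x)) =
        (F ((a : ℝ) / q + x) - mnR q (fun b => F ((b : ℝ) / q + x))) -
        (G ((a : ℝ) / q + x) - mnR q (fun b => G ((b : ℝ) / q + x))) := by
      unfold mnR
      rw [sum_sub_distrib]
      ring
    simp only [e]
    exact msA_sq_sub _ _
  · unfold npM
    refine msA_int X T hT QQ
      (fun q a x => ‖(F ((a : ℝ) / q + x) + G ((a : ℝ) / q + x)) -
        mnR q (fun b => F ((b : ℝ) / q + x) + G ((b : ℝ) / q + x))‖ ^ 2)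
      (fun q a x => ‖F ((a : ℝ) / q + x) - mnR q (fun b => F ((b : ℝ) / q + x))‖ ^ 2)
      (fun q a x => ‖G ((a : ℝ) / q + x) - mnR q (fun b => G ((b : ℝ) / q + x))‖ ^ 2)
      (c1 (fun θ => F θ + G θ) (hF.add hG)) (c1 F hF) (c1 G hG) ?_
    intro q a x
    have e : (F ((a : ℝ) / q + x) + G ((a : ℝ) / q + x)) -
        mnR q (fun b => F ((b : ℝ) / q + x) + G ((b : ℝ) / q + x)) =
        (F ((a : ℝ) / q + x) - mnR q (fun b => F ((b : ℝ) / q + x))) +
        (G ((a : ℝ) / q + x) - mnR q (fun b => G ((b : ℝ) / q + x))) := by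
      unfold mnR
      rw [sum_add_distrib]
      ring
    simp only [e]
    exact msA_sq_add _ _

theorem ms_add (X : ℕ) (T : ℝ) (hT : 0 ≤ T) (QQ : Finset ℕ) (F G : ℝ → ℂ)
    (hF : Continuous F) (hG : Continuous G) :
    msM X T QQ (fun θ => F θ + G θ) ≤ 2 * msM X T QQ F + 2 * msM X T QQ G := by
  have c1 : ∀ (H : ℝ → ℂ), Continuous H → ∀ q a : ℕ, Continuous fun x : ℝ =>
      ‖H ((a : ℝ) / q + x)‖ ^ 2 := fun H hH q a => (msA_cont H hH a q).norm.pow 2
  unfold msM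
  exact msA_int X T hT QQ
    (fun q a x => ‖F ((a : ℝ) / q + x) + G ((a : ℝ) / q + x)‖ ^ 2)
    (fun q a x => ‖F ((a : ℝ) / q + x)‖ ^ 2) (fun q a x => ‖G ((a : ℝ) / q + x)‖ ^ 2)
    (c1 (fun θ => F θ + G θ) (hF.add hG)) (c1 F hF) (c1 G hG) fun q a x => msA_sq_add _ _

private theorem msA_ee_cont : Continuous ee := by
  unfold ee
  fun_prop

private theorem msA_ee_per (k : ℕ) (x : ℝ) : ee ((k : ℝ) * (x + 1)) = ee ((k : ℝ) * x) := by
  unfold ee
  have h : (2 * (Real.pi : ℂ) * (((k : ℝ) * (x + 1) : ℝ) : ℂ) * Complex.I) =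
      (2 * (Real.pi : ℂ) * (((k : ℝ) * x : ℝ) : ℂ) * Complex.I) + (k : ℤ) * (2 * Real.pi * Complex.I) := by
    push_cast
    ring
  rw [h, Complex.exp_add, Complex.exp_int_mul_two_pi_mul_I, mul_one]

theorem ms_ls (X : ℕ) (T N : ℝ) (hT : 0 ≤ T) (QQ : Finset ℕ) (hN : Fam QQ N) (hN1 : 1 ≤ N)
    (c : ℕ → ℂ) :
    msM X T QQ (tp X c) ≤ (2 * T * N / X + 1) * ∑ n ∈ Icc 1 X, ‖c n‖ ^ 2 := by
  have hcont : Continuous (tp X c) := by
    unfold tp
    refine continuous_finsetSum _ fun k _ => ?_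
    exact continuous_const.mul (msA_ee_cont.comp (continuous_const.mul continuous_id))
  have hper : ∀ x, tp X c (x + 1) = tp X c x := by
    intro x
    unfold tp
    refine sum_congr rfl fun k _ => ?_
    rw [msA_ee_per]
  have h := Pool.MP_dd84fd_nt.PL.overlap QQ N hN hN1 (fun x => ‖tp X c x‖ ^ 2) (hcont.norm.pow 2)
    (fun x => by positivity) (fun x => by simp only [hper]) (-(T / X)) (T / X) (msA_TX X T hT)
  rw [Pool.MP_dd84fd_nt.PL.tp_l2] at h
  unfold msM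
  refine h.trans (le_of_eq ?_)
  ring

end Pool.MP_dd84fd_nt.DX
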