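import Pool.Agent.Lib.MP_dd84fd_nt.DX.MsDefs
import Pool.Agent.Lib.MP_dd84fd_nt.LX.PwGS
import Pool.Agent.Lib.MP_dd84fd_nt.L2G.CharOrth

/-!
# DX-Pla: Plancherel on the reduced residues

* `pla_np`: `L2G.co_parseval_zmod` (`∑_χ |∑_b F b χ b|² = φ(q) ∑_(b unit) |F b|²`) for `F b = G a - m`; the term
  `χ = 1` vanishes and for `χ ≠ 1` the constant `m` disappears (`∑_a χ(a) = 0`).  `rr q` and the units of
  `ZMod q`: as in `LX/PwGS.lean` (`sum_zr`, `tq_range`).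
* `pla_gs`: `∑_a χ(a) e(n a/q) = conj χ(n) gs χ` for `(n,q) = 1` (`LXP.gs_unit`), so
  `∑_a χ(a) ∑_(n, (n,q)=1) c_n e(n (a/q + x)) = gs χ ∑_n c_n conj χ(n) e(n x)`, `conj χ = χ⁻¹`.
* `gs_inv`: `conj (gs χ) = ∑_a χ⁻¹(a) e(-a/q) = χ⁻¹(-1) gs χ⁻¹`.
-/

set_option autoImplicit false

namespace Pool.MP_dd84fd_nt.DX

open Finset Pool.MP_67663b_nt.Odd
open Pool.MP_dd84fd_nt.PL (rr)

private theorem pl_zr {M : Type} [AddCommMonoid M] (q : ℕ) [NeZero q] (f : ZMod q → M) :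
    ∑ y : ZMod q, f y = ∑ y ∈ range q, f (y : ZMod q) := by
  refine sum_nbij' (fun y => y.val) (fun y => (y : ZMod q)) ?_ ?_ ?_ ?_ ?_
  · intro y _
    exact mem_range.2 (ZMod.val_lt y)
  · intro y _
    exact mem_univ _
  · intro y _
    exact ZMod.natCast_zmod_val y
  · intro y hy
    exact ZMod.val_cast_of_lt (mem_range.1 hy)
  · intro y _
    rw [ZMod.natCast_zmod_val]

private theorem pl_rr {M : Type} [AddCommMonoid M] (q : ℕ) [NeZero q] (f : ℕ → M) (g : ZMod q → M)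
    (h1 : ∀ a, a < q → Nat.Coprime a q → g (a : ZMod q) = f a) (h2 : ∀ b, ¬ IsUnit b → g b = 0) :
    ∑ b : ZMod q, g b = ∑ a ∈ rr q, f a := by
  rw [pl_zr]
  unfold rr
  rw [sum_filter]
  refine sum_congr rfl fun a ha => ?_
  split_ifs with hc
  · exact h1 a (mem_range.1 ha) hc
  · refine h2 _ fun h => hc ?_
    exact (ZMod.isUnit_iff_coprime a q).1 h

private theorem pl_chi (q : ℕ) [NeZero q] (χ : DirichletCharacter ℂ q) (G : ℕ → ℂ) :
    ∑ b : ZMod q, G b.val * χ b = ∑ a ∈ rr q, χ (a : ZMod q) * G a := by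
  refine pl_rr q _ _ ?_ ?_
  · intro a ha _
    rw [ZMod.val_cast_of_lt ha]
    ring
  · intro b hb
    rw [MulChar.map_nonunit χ hb, mul_zero]

private theorem pl_card (q : ℕ) : (rr q).card = Nat.totient q := by
  unfold rr
  rw [Nat.totient_eq_card_coprime]
  congr 1
  ext a
  simp [Nat.coprime_comm]

private theorem pl_sumchi (q : ℕ) [NeZero q] (χ : DirichletCharacter ℂ q) (hχ : χ ≠ 1) :
    ∑ a ∈ rr q, χ (a : ZMod q) = 0 := by
  have h := pl_chi q χ (fun _ => 1)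
  simp only [one_mul, mul_one] at h
  rw [← h]
  exact MulChar.sum_eq_zero_of_ne_one hχ

private theorem pl_conj (q : ℕ) [NeZero q] (χ : DirichletCharacter ℂ q) (a : ZMod q) :
    (starRingEnd ℂ) (χ a) = χ⁻¹ a := by
  by_cases hu : IsUnit a
  · obtain ⟨u, hu⟩ := hu
    rw [← hu]
    have h1 : ‖χ (u : ZMod q)‖ = 1 := DirichletCharacter.unit_norm_eq_one χ u
    rw [← Complex.inv_eq_conj h1]
    have h2 : χ⁻¹ (u : ZMod q) * χ (u : ZMod q) = 1 := by
      rw [← MulChar.mul_apply, inv_mul_cancel, MulChar.one_apply_coe]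
    exact (eq_inv_of_mul_eq_one_left h2).symm
  · rw [MulChar.map_nonunit _ hu, MulChar.map_nonunit _ hu, map_zero]

private theorem pl_add (x y : ℝ) : ee (x + y) = ee x * ee y := by
  unfold ee
  rw [← Complex.exp_add]
  congr 1
  push_cast
  ring

private theorem pl_eeconj (x : ℝ) : (starRingEnd ℂ) (ee x) = ee (-x) := by
  unfold ee
  rw [← Complex.exp_conj]
  congr 1
  rw [map_mul, map_mul, map_mul, Complex.conj_I, Complex.conj_ofReal, Complex.conj_ofReal, map_ofNat]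
  push_cast
  ring

private theorem pl_eenat (n : ℕ) : ee (n : ℝ) = 1 := by
  unfold ee
  rw [Complex.exp_eq_one_iff]
  exact ⟨n, by push_cast; ring⟩

private theorem pl_gstq (q : ℕ) [NeZero q] (χ : DirichletCharacter ℂ q) :
    gs χ = LXP.tq q χ := by
  unfold gs LXP.tq
  rw [← pl_chi q χ (fun a => ee ((a : ℝ) / q))]
  exact sum_congr rfl fun b _ => mul_comm _ _

theorem pla_np (q : ℕ) (hq : 1 ≤ q) (G : ℕ → ℂ) :
    ∑ a ∈ rr q, ‖G a - mnR q G‖ ^ 2 =
      1 / (Nat.totient q : ℝ) * ∑ χ ∈ nonpr q, ‖∑ a ∈ rr q, χ (a : ZMod q) * G a‖ ^ 2 := by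
  classical
  have hq0 : q ≠ 0 := by omega
  have : NeZero q := ⟨hq0⟩
  have hphi : (0 : ℝ) < (Nat.totient q : ℝ) := by exact_mod_cast Nat.totient_pos.2 (by omega)
  have hphi' : (Nat.totient q : ℂ) ≠ 0 := by exact_mod_cast hphi.ne'
  have h1 := L2G.co_parseval_zmod q (fun b => G b.val - mnR q G)
  have h2 : ∑ b ∈ univ.filter (fun b : ZMod q => IsUnit b), ‖G b.val - mnR q G‖ ^ 2 =
      ∑ a ∈ rr q, ‖G a - mnR q G‖ ^ 2 := by
    rw [sum_filter]
    refine pl_rr q _ _ ?_ ?_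
    · intro a ha hc
      rw [if_pos ((ZMod.isUnit_iff_coprime a q).2 hc), ZMod.val_cast_of_lt ha]
    · intro b hb
      rw [if_neg hb]
  rw [h2] at h1
  have h3 : ∀ χ : DirichletCharacter ℂ q, ∑ b : ZMod q, (G b.val - mnR q G) * χ b =
      ∑ a ∈ rr q, χ (a : ZMod q) * G a - mnR q G * ∑ a ∈ rr q, χ (a : ZMod q) := by
    intro χ
    rw [pl_chi q χ (fun a => G a - mnR q G), mul_sum, ← sum_sub_distrib]
    exact sum_congr rfl fun a _ => by ring
  have h4 : ∑ χ : DirichletCharacter ℂ q, ‖∑ b : ZMod q, (G b.val - mnR q G) * χ b‖ ^ 2 =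
      ∑ χ ∈ nonpr q, ‖∑ a ∈ rr q, χ (a : ZMod q) * G a‖ ^ 2 := by
    unfold nonpr
    rw [dif_neg hq0, sum_filter]
    refine sum_congr rfl fun χ _ => ?_
    rw [h3 χ]
    split_ifs with hχ
    · rw [pl_sumchi q χ hχ, mul_zero, sub_zero]
    · rw [not_not] at hχ
      subst hχ
      have h5 : ∀ a ∈ rr q, (1 : DirichletCharacter ℂ q) (a : ZMod q) = 1 := by
        intro a ha
        unfold rr at ha
        exact MulChar.one_apply ((ZMod.isUnit_iff_coprime a q).2 (mem_filter.1 ha).2)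
      rw [sum_congr rfl fun a ha => by rw [h5 a ha, one_mul], sum_congr rfl h5, sum_const, pl_card,
        nsmul_eq_mul, mul_one]
      unfold mnR
      rw [mul_comm (1 / (Nat.totient q : ℂ)), mul_assoc, one_div, inv_mul_cancel₀ hphi', mul_one,
        sub_self, norm_zero]
      norm_num
  rw [h4] at h1
  rw [h1]
  field_simp

theorem pla_gs (q : ℕ) (hq : 1 ≤ q) (X : ℕ) (c : ℕ → ℂ) (χ : DirichletCharacter ℂ q) (x : ℝ) :
    ∑ a ∈ rr q, χ (a : ZMod q) * (∑ n ∈ Icc 1 X, (if Nat.Coprime n q then c n else 0) *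
        ee ((n : ℝ) * ((a : ℝ) / q + x))) =
      gs χ * ∑ n ∈ Icc 1 X, c n * χ⁻¹ (n : ZMod q) * ee ((n : ℝ) * x) := by
  have : NeZero q := ⟨by omega⟩
  simp only [mul_sum]
  rw [sum_comm]
  refine sum_congr rfl fun n _ => ?_
  split_ifs with hc
  · have h1 := LXP.gs_unit q χ n hc
    rw [pl_conj, ← pl_gstq] at h1
    have h2 := pl_chi q χ (fun a => ee ((n : ℝ) * ((a : ℝ) / q)))
    rw [sum_congr rfl fun b _ => mul_comm _ _, h1] at h2
    have h3 : ∀ a ∈ rr q, χ (a : ZMod q) * (c n * ee ((n : ℝ) * ((a : ℝ) / q + x))) =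
        (c n * ee ((n : ℝ) * x)) * (χ (a : ZMod q) * ee ((n : ℝ) * ((a : ℝ) / q))) := by
      intro a _
      rw [mul_add, pl_add]
      ring
    rw [sum_congr rfl h3, ← mul_sum, ← h2]
    ring
  · rw [MulChar.map_nonunit χ⁻¹ (fun h => hc ((ZMod.isUnit_iff_coprime n q).1 h))]
    simp

theorem gs_inv (q : ℕ) (hq : 1 ≤ q) (χ : DirichletCharacter ℂ q) : ‖gs χ⁻¹‖ = ‖gs χ‖ := by
  have : NeZero q := ⟨by omega⟩
  have hc : Nat.Coprime (q - 1) q := by
    have : Nat.Coprime (q - 1) (q - 1 + 1) := by simp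
    rwa [Nat.sub_add_cancel hq] at this
  have hu : IsUnit ((q - 1 : ℕ) : ZMod q) := (ZMod.isUnit_iff_coprime _ _).2 hc
  have h1 := LXP.gs_unit q χ⁻¹ (q - 1) hc
  have h2 : (starRingEnd ℂ) (gs χ) =
      ∑ y : ZMod q, χ⁻¹ y * ee (((q - 1 : ℕ) : ℝ) * ((y.val : ℝ) / q)) := by
    rw [pl_gstq]
    unfold LXP.tq
    rw [map_sum]
    refine sum_congr rfl fun y _ => ?_
    rw [map_mul, pl_conj, pl_eeconj]
    congr 1
    have hq' : (q : ℝ) ≠ 0 := by exact_mod_cast (by omega : q ≠ 0)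
    have h3 : ((q - 1 : ℕ) : ℝ) * ((y.val : ℝ) / q) = (y.val : ℝ) + -((y.val : ℝ) / q) := by
      rw [Nat.cast_sub hq]
      field_simp
      push_cast
      ring
    rw [h3, pl_add, pl_eenat, one_mul]
  have h4 : ‖(starRingEnd ℂ) (gs χ)‖ = ‖gs χ⁻¹‖ := by
    rw [h2, h1, ← pl_gstq, norm_mul, RCLike.norm_conj]
    obtain ⟨u, hu⟩ := hu
    rw [← hu, DirichletCharacter.unit_norm_eq_one, one_mul]
  rw [← h4, RCLike.norm_conj]

theorem nonpr_inv (q : ℕ) (f : DirichletCharacter ℂ q → ℝ) :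
    ∑ χ ∈ nonpr q, f χ⁻¹ = ∑ χ ∈ nonpr q, f χ := by
  classical
  unfold nonpr
  split_ifs with h
  · simp
  · have : NeZero q := ⟨h⟩
    refine sum_nbij' (fun χ => χ⁻¹) (fun χ => χ⁻¹) ?_ ?_ ?_ ?_ ?_
    · intro χ hχ
      rw [mem_filter] at hχ ⊢
      exact ⟨mem_univ _, fun h' => hχ.2 (inv_eq_one.1 h')⟩
    · intro χ hχ
      rw [mem_filter] at hχ ⊢
      exact ⟨mem_univ _, fun h' => hχ.2 (inv_eq_one.1 h')⟩
    · intro χ _
      exact inv_inv χ
    · intro χ _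
      exact inv_inv χ
    · intro χ _
      rfl

end Pool.MP_dd84fd_nt.DX
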