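import Pool.Agent.Lib.MP_dd84fd_nt.DX.MsA
import Pool.Agent.Lib.MP_dd84fd_nt.DX.Pla
import Pool.Agent.Lib.MP_dd84fd_nt.JX.PlNC

/-!
# DX-MsB: the nonprincipal part of a rough function

`F = tp X ww`.  For `q ∈ QQ`, `F = F1 + F2`, `F1` the sum over `(n, q) = 1`.  `npM` of `F1` is exactly `chM` with `χ⁻¹`
(`pla_np`, `pla_gs`, `gs_inv`, `nonpr_inv`).  `F2` depends on `q`: by `ms_ls` for the single modulus `q` (`QQ = {q}`,
`N = q`) its mass is `≤ 2 K0² #{n ≤ X rough, (n,q) > 1} ≤ 2 K0² 10 X^(9/10)` (private `ixNC_count`, `ixNC_pf` of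
`JX/PlNC.lean`: copy them), and there are `≤ X^(e/2)` moduli.
-/

set_option autoImplicit false

namespace Pool.MP_dd84fd_nt.DX

open Finset Pool.MP_67663b_nt.Odd Pool.MP_dd84fd_nt.En Pool.MP_dd84fd_nt.E2 Pool.MP_dd84fd_nt.LS
open Pool.MP_dd84fd_nt.GX Pool.MP_dd84fd_nt.HX Pool.MP_dd84fd_nt.IX
open Pool.MP_dd84fd_nt.PL (rr tp)
open Pool.MP_dd84fd_nt.JX (Adm)

private theorem msB_log_pow (C : ℝ) (K : ℕ) {ε : ℝ} (hε : 0 < ε) : ∃ X0 : ℕ, ∀ X : ℕ, X0 ≤ X →
    C * (Real.log X) ^ K ≤ (X : ℝ) ^ ε := by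
  have h1 := (isLittleO_log_rpow_rpow_atTop (K : ℝ) hε).bound
    (show (0 : ℝ) < 1 / (|C| + 1) by positivity)
  have h2 := tendsto_natCast_atTop_atTop (R := ℝ) |>.eventually h1
  obtain ⟨X0, hX0⟩ := Filter.eventually_atTop.mp h2
  refine ⟨max X0 1, fun X hX => ?_⟩
  have h3 := hX0 X ((le_max_left _ _).trans hX)
  have hX1 : (1 : ℝ) ≤ X := by exact_mod_cast (le_max_right _ _).trans hX
  have hl : 0 ≤ Real.log X := Real.log_nonneg hX1
  rw [Real.norm_of_nonneg (by positivity), Real.norm_of_nonneg (by positivity),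
    Real.rpow_natCast] at h3
  have h4 : C * (Real.log X) ^ K ≤ (|C| + 1) * (Real.log X) ^ K := by
    apply mul_le_mul_of_nonneg_right _ (by positivity)
    linarith [le_abs_self C]
  refine h4.trans ?_
  have h5 : (|C| + 1) * (Real.log X) ^ K ≤ (|C| + 1) * (1 / (|C| + 1) * (X : ℝ) ^ ε) :=
    mul_le_mul_of_nonneg_left h3 (by positivity)
  refine h5.trans (le_of_eq ?_)
  have : |C| + 1 ≠ 0 := by positivity
  field_simp

private theorem msB_ee_cont : Continuous ee := by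
  unfold ee
  fun_prop

private theorem msB_tp_cont (K : ℕ) (c : ℕ → ℂ) : Continuous (tp K c) := by
  unfold tp
  refine continuous_finsetSum _ fun k _ => ?_
  exact continuous_const.mul (msB_ee_cont.comp (continuous_const.mul continuous_id))

private theorem msB_sx_cont (ww : ℕ → ℕ → ℝ) (X : ℕ) {q : ℕ} (χ : DirichletCharacter ℂ q) :
    Continuous (Sx ww X χ) := by
  unfold Sx
  refine continuous_finsetSum _ fun k _ => ?_
  exact continuous_const.mul (msB_ee_cont.comp (continuous_const.mul continuous_id))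

/-- the number of `z`-rough numbers `k ≤ X` with `(k, q) > 1` -/
private theorem msB_count (X q z : ℕ) (hz : 1 ≤ z) (hq : 1 ≤ q) :
    ((((Icc 1 X).filter (fun k => ¬ Nat.Coprime k q ∧ Rgh z k)).card : ℕ) : ℝ) ≤
      ((q.primeFactors.filter (fun p => z ≤ p)).card : ℝ) * (X / z) := by
  classical
  have hsub : (Icc 1 X).filter (fun k => ¬ Nat.Coprime k q ∧ Rgh z k) ⊆
      (q.primeFactors.filter (fun p => z ≤ p)).biUnion
        (fun p => (Icc 1 X).filter (fun k => p ∣ k)) := by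
    intro k hk
    rw [mem_filter, mem_Icc] at hk
    obtain ⟨⟨hk1, hkX⟩, hc, hr⟩ := hk
    rw [mem_biUnion]
    obtain ⟨p, hp, hpk, hpq⟩ := Nat.Prime.not_coprime_iff_dvd.1 hc
    refine ⟨p, ?_, ?_⟩
    · rw [mem_filter, Nat.mem_primeFactors]
      exact ⟨⟨hp, hpq, by omega⟩, hr.2 p (Nat.mem_primeFactors.2 ⟨hp, hpk, by omega⟩)⟩
    · rw [mem_filter, mem_Icc]
      exact ⟨⟨hk1, hkX⟩, hpk⟩
  have h1 := (card_le_card hsub).trans card_biUnion_le
  have h2 : ((∑ p ∈ q.primeFactors.filter (fun p => z ≤ p),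
      ((Icc 1 X).filter (fun k => p ∣ k)).card : ℕ) : ℝ) ≤
      ∑ p ∈ q.primeFactors.filter (fun p => z ≤ p), ((X : ℝ) / z) := by
    push_cast
    refine sum_le_sum fun p hp => ?_
    rw [mem_filter] at hp
    have h3 : ((Icc 1 X).filter (fun n => p ∣ n)).card = X / p := by
      have h3 : Icc 1 X = Ioc 0 X := by
        ext n
        rw [mem_Icc, mem_Ioc]
        omega
      rw [h3]
      exact Nat.Ioc_filter_dvd_card_eq_div X p
    rw [h3]
    have hz0 : (0 : ℝ) < z := by exact_mod_cast hz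
    have h4 : (z : ℝ) ≤ p := by exact_mod_cast hp.2
    calc ((X / p : ℕ) : ℝ) ≤ (X : ℝ) / p := Nat.cast_div_le
      _ ≤ X / z := by gcongr
  rw [sum_const, nsmul_eq_mul] at h2
  exact le_trans (by exact_mod_cast h1) h2

/-- a number `q ≤ X` has at most `10` prime factors `≥ X^(1/10)` -/
private theorem msB_pf (X q z : ℕ) (hX : 2 ≤ X) (hq : 1 ≤ q) (hqX : q ≤ X)
    (hz : (X : ℝ) ^ (1 / 10 : ℝ) ≤ z) :
    (q.primeFactors.filter (fun p => z ≤ p)).card ≤ 10 := by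
  classical
  have hX1 : (1 : ℝ) < X := by exact_mod_cast (by omega : 1 < X)
  have hX0 : (0 : ℝ) < X := by linarith
  by_contra hcon
  push Not at hcon
  set P := q.primeFactors.filter (fun p => z ≤ p) with hP
  have h1 : z ^ P.card ≤ q := by
    calc z ^ P.card = ∏ _p ∈ P, z := by rw [prod_const]
      _ ≤ ∏ p ∈ P, p := prod_le_prod' fun p hp => (mem_filter.1 hp).2
      _ ≤ ∏ p ∈ q.primeFactors, p := by
          refine prod_le_prod_of_subset_of_one_le' (filter_subset _ _) fun p hp _ => ?_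
          exact (Nat.prime_of_mem_primeFactors hp).one_le
      _ ≤ q := Nat.le_of_dvd (by omega) (Nat.prod_primeFactors_dvd q)
  have hz1 : (1 : ℝ) < z := lt_of_lt_of_le (Real.one_lt_rpow hX1 (by norm_num)) hz
  have h2 : (z : ℝ) ^ 11 ≤ X := by
    calc (z : ℝ) ^ 11 ≤ (z : ℝ) ^ P.card := pow_le_pow_right₀ hz1.le (by omega)
      _ ≤ q := by exact_mod_cast h1
      _ ≤ X := by exact_mod_cast hqX
  have h3 : (X : ℝ) ^ (11 / 10 : ℝ) ≤ X := by
    calc (X : ℝ) ^ (11 / 10 : ℝ) = ((X : ℝ) ^ (1 / 10 : ℝ)) ^ 11 := by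
          rw [← Real.rpow_natCast ((X : ℝ) ^ (1 / 10 : ℝ)) 11, ← Real.rpow_mul hX0.le]
          norm_num
      _ ≤ (z : ℝ) ^ 11 := pow_le_pow_left₀ (by positivity) hz 11
      _ ≤ X := h2
  have h4 : (X : ℝ) < (X : ℝ) ^ (11 / 10 : ℝ) := by
    calc (X : ℝ) = (X : ℝ) ^ (1 : ℝ) := (Real.rpow_one _).symm
      _ < (X : ℝ) ^ (11 / 10 : ℝ) := Real.rpow_lt_rpow_of_exponent_lt hX1 (by norm_num)
  linarith

/-- one modulus: the part `(n, q) = 1` -/
private theorem msB_f1 (ww : ℕ → ℕ → ℝ) (X : ℕ) (T : ℝ) (q : ℕ) (hq : 1 ≤ q) :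
    npM X T {q} (tp X (fun k => if Nat.Coprime k q then (ww X k : ℂ) else 0)) =
      chM ww X T {q} := by
  unfold npM chM
  rw [sum_singleton, sum_singleton]
  set F := tp X (fun k => if Nat.Coprime k q then (ww X k : ℂ) else 0) with hF
  have hFc : Continuous F := msB_tp_cont _ _
  have hmc : Continuous (fun x : ℝ => mnR q (fun b => F ((b : ℝ) / q + x))) := by
    unfold mnR
    exact continuous_const.mul (continuous_finsetSum _ fun b _ =>
      hFc.comp (continuous_const.add continuous_id))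
  have hpt : ∀ x : ℝ, ∑ a ∈ rr q, ‖F ((a : ℝ) / q + x) - mnR q (fun b => F ((b : ℝ) / q + x))‖ ^ 2 =
      ∑ χ ∈ nonpr q, ‖gs χ‖ ^ 2 / (Nat.totient q : ℝ) * ‖Sx ww X χ⁻¹ x‖ ^ 2 := by
    intro x
    rw [pla_np q hq (fun a => F ((a : ℝ) / q + x)), mul_sum]
    refine sum_congr rfl fun χ _ => ?_
    have h' : ∑ a ∈ rr q, χ (a : ZMod q) * F ((a : ℝ) / q + x) = gs χ * Sx ww X χ⁻¹ x :=
      pla_gs q hq X (fun n => (ww X n : ℂ)) χ x
    rw [h', norm_mul, mul_pow]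
    ring
  rw [← intervalIntegral.integral_finsetSum]
  · rw [intervalIntegral.integral_congr fun x _ => hpt x, intervalIntegral.integral_finsetSum]
    · rw [← nonpr_inv q (fun χ => ‖gs χ‖ ^ 2 / (Nat.totient q : ℝ) *
        (∫ x in (-(T / X))..(T / X), ‖Sx ww X χ x‖ ^ 2))]
      refine sum_congr rfl fun χ _ => ?_
      rw [intervalIntegral.integral_const_mul, gs_inv q hq χ]
    · intro χ _
      exact (continuous_const.mul ((msB_sx_cont ww X χ⁻¹).norm.pow 2)).intervalIntegrable _ _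
  · intro a _
    exact (((hFc.comp (continuous_const.add continuous_id)).sub hmc).norm.pow 2).intervalIntegrable _ _

/-- one modulus: the part `(n, q) > 1` -/
private theorem msB_f2 (ww : ℕ → ℕ → ℝ) (X q K0 : ℕ) (T : ℝ) (hT : 0 ≤ T) (hq : 1 ≤ q) (hqX : q ≤ X)
    (hX : 2 ≤ X) (hTq : 2 * T * q / X ≤ 1) (hw : ∀ n, |ww X n| ≤ K0 * rg (zI X) n) :
    npM X T {q} (tp X (fun k => if Nat.Coprime k q then 0 else (ww X k : ℂ))) ≤
      20 * (K0 : ℝ) ^ 2 * (X : ℝ) ^ (9 / 10 : ℝ) := by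
  classical
  have hXr : (2 : ℝ) ≤ X := by exact_mod_cast hX
  have hX0 : (0 : ℝ) < X := by linarith
  set z : ℕ := zI X with hz
  have hzX : (X : ℝ) ^ (1 / 10 : ℝ) ≤ z := Nat.le_ceil _
  have hz0 : (0 : ℝ) < z := lt_of_lt_of_le (by positivity) hzX
  have hz1 : 1 ≤ z := by
    have : 0 < z := by exact_mod_cast hz0
    omega
  set c : ℕ → ℂ := fun k => if Nat.Coprime k q then 0 else (ww X k : ℂ) with hc
  have h0 := np_le X T hT {q} (fun q' hq' => by
    rw [mem_singleton] at hq'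
    omega) (tp X c) (msB_tp_cont X c)
  have h1 := ms_ls X T (q : ℝ) hT {q} ⟨fun q' hq' => by
        rw [mem_singleton] at hq'; omega, fun q' hq' q'' hq'' => by
        rw [mem_singleton] at hq' hq''
        rw [hq', hq'', Nat.lcm_self]⟩ (by exact_mod_cast hq) c
  refine (h0.trans h1).trans ?_
  have h3 : ∑ k ∈ Icc 1 X, ‖c k‖ ^ 2 ≤ (K0 : ℝ) ^ 2 * 10 * (X : ℝ) ^ (9 / 10 : ℝ) := by
    have h4 : ∀ k ∈ Icc 1 X, ‖c k‖ ^ 2 ≤
        if ¬ Nat.Coprime k q ∧ Rgh z k then (K0 : ℝ) ^ 2 else 0 := by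
      intro k hk
      have h5 := hw k
      by_cases hk1 : Nat.Coprime k q
      · rw [if_neg (fun h => h.1 hk1), hc]
        simp only [if_pos hk1, norm_zero]
        norm_num
      · have h6 : c k = (ww X k : ℂ) := by
          rw [hc]
          simp only [if_neg hk1]
        rw [h6, Complex.norm_real, Real.norm_eq_abs]
        unfold rg at h5
        by_cases hk2 : Rgh z k
        · rw [if_pos ⟨hk1, hk2⟩]
          rw [if_pos hk2, mul_one] at h5
          exact pow_le_pow_left₀ (abs_nonneg _) h5 2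
        · rw [if_neg (fun h => hk2 h.2)]
          rw [if_neg hk2, mul_zero] at h5
          have h7 : |ww X k| = 0 := le_antisymm h5 (abs_nonneg _)
          rw [h7]
          norm_num
    refine (sum_le_sum h4).trans ?_
    rw [← sum_filter, sum_const, nsmul_eq_mul]
    have h8 := msB_count X q z hz1 hq
    have h9 : ((q.primeFactors.filter (fun p => z ≤ p)).card : ℝ) ≤ 10 := by
      exact_mod_cast msB_pf X q z hX hq hqX hzX
    have h10 : (X : ℝ) / z ≤ (X : ℝ) ^ (9 / 10 : ℝ) := by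
      rw [div_le_iff₀ hz0]
      calc (X : ℝ) = (X : ℝ) ^ (9 / 10 : ℝ) * (X : ℝ) ^ (1 / 10 : ℝ) := by
            rw [← Real.rpow_add hX0]
            norm_num
        _ ≤ _ := by gcongr
    have h11 : ((((Icc 1 X).filter (fun k => ¬ Nat.Coprime k q ∧ Rgh z k)).card : ℕ) : ℝ) ≤
        10 * (X : ℝ) ^ (9 / 10 : ℝ) := by
      refine h8.trans ?_
      apply mul_le_mul h9 h10 (by positivity) (by norm_num)
    calc ((((Icc 1 X).filter (fun k => ¬ Nat.Coprime k q ∧ Rgh z k)).card : ℕ) : ℝ) * (K0 : ℝ) ^ 2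
        ≤ 10 * (X : ℝ) ^ (9 / 10 : ℝ) * (K0 : ℝ) ^ 2 := by gcongr
      _ = _ := by ring
  calc (2 * T * q / X + 1) * ∑ k ∈ Icc 1 X, ‖c k‖ ^ 2
      ≤ 2 * ((K0 : ℝ) ^ 2 * 10 * (X : ℝ) ^ (9 / 10 : ℝ)) :=
        mul_le_mul (by linarith) h3 (sum_nonneg fun k _ => by positivity) (by norm_num)
    _ = _ := by ring

theorem ms_b (A K0 C1 K1 K2 : ℕ) (th e τ : ℝ) (hA : Adm th e τ) (ww gg : ℕ → ℕ → ℝ)
    (hw : W1 K0 C1 ww gg) : ∃ X0 : ℕ, ∀ X : ℕ, X0 ≤ X → ∀ (n : ℕ) (QQ : Finset ℕ) (N : ℝ),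
    Dsk th e X n K1 QQ N →
    npM X (4 * (Real.log X) ^ K2) QQ (tp X (fun k => (ww X k : ℂ))) ≤
      2 * chM ww X (4 * (Real.log X) ^ K2) QQ + X / (Real.log X) ^ A := by
  classical
  obtain ⟨XA, hXA⟩ := hw
  obtain ⟨hth1, hth2, he0, hτ1, hτ2⟩ := hA
  obtain ⟨X1, hX1⟩ := msB_log_pow 8 K2 (ε := 12 / 100) (by norm_num)
  obtain ⟨X2, hX2⟩ := msB_log_pow (40 * (K0 : ℝ) ^ 2) A (ε := 8 / 100) (by norm_num)
  refine ⟨max XA (max X1 (max X2 3)), fun X hX n QQ N hD => ?_⟩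
  simp only [max_le_iff] at hX
  obtain ⟨hXA', hX1', hX2', hX3⟩ := hX
  have hXr : (3 : ℝ) ≤ X := by exact_mod_cast hX3
  have hX0 : (0 : ℝ) < X := by linarith
  have hX1r : (1 : ℝ) ≤ X := by linarith
  have hl1 := hX1 X hX1'
  have hl2 := hX2 X hX2'
  have hL0 : 0 < Real.log X := Real.log_pos (by linarith)
  obtain ⟨-, -, hq1, hlcm, hcard, hN1, hN⟩ := hD
  have hT0 : 0 ≤ 4 * (Real.log X) ^ K2 := by positivity
  have hN88 : N ≤ (X : ℝ) ^ (88 / 100 : ℝ) :=
    hN.trans (Real.rpow_le_rpow_of_exponent_le hX1r (by linarith))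
  have hone : ∀ q ∈ QQ, npM X (4 * (Real.log X) ^ K2) {q} (tp X (fun k => (ww X k : ℂ))) ≤
      2 * chM ww X (4 * (Real.log X) ^ K2) {q} +
        2 * (20 * (K0 : ℝ) ^ 2 * (X : ℝ) ^ (9 / 10 : ℝ)) := by
    intro q hq
    have hqN : (q : ℝ) ≤ N := by
      have := hlcm q hq q hq
      rwa [Nat.lcm_self] at this
    have hqX : q ≤ X := by
      have h1 : (q : ℝ) ≤ X := by
        refine (hqN.trans hN88).trans ?_
        calc (X : ℝ) ^ (88 / 100 : ℝ) ≤ (X : ℝ) ^ (1 : ℝ) :=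
              Real.rpow_le_rpow_of_exponent_le hX1r (by norm_num)
          _ = X := Real.rpow_one _
      exact_mod_cast h1
    have hTq : 2 * (4 * (Real.log X) ^ K2) * q / X ≤ 1 := by
      rw [div_le_one hX0]
      calc 2 * (4 * (Real.log X) ^ K2) * q = (8 * (Real.log X) ^ K2) * q := by ring
        _ ≤ (X : ℝ) ^ (12 / 100 : ℝ) * (X : ℝ) ^ (88 / 100 : ℝ) :=
            mul_le_mul hl1 (hqN.trans hN88) (by positivity) (by positivity)
        _ = X := by rw [← Real.rpow_add hX0]; norm_num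
    have hsp : (tp X (fun k => (ww X k : ℂ))) = fun θ =>
        tp X (fun k => if Nat.Coprime k q then (ww X k : ℂ) else 0) θ +
        tp X (fun k => if Nat.Coprime k q then 0 else (ww X k : ℂ)) θ := by
      funext θ
      unfold tp
      rw [← sum_add_distrib]
      refine sum_congr rfl fun k _ => ?_
      by_cases hk : Nat.Coprime k q
      · simp only [if_pos hk]
        ring
      · simp only [if_neg hk]
        ring
    rw [hsp]
    refine ((np_sub X _ hT0 {q} _ _ (msB_tp_cont X _) (msB_tp_cont X _)).2).trans ?_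
    have h1 := msB_f1 ww X (4 * (Real.log X) ^ K2) q (hq1 q hq).1
    have h2 := msB_f2 ww X q K0 (4 * (Real.log X) ^ K2) hT0 (hq1 q hq).1 hqX (by omega) hTq
      (fun n => ((hXA X hXA').1 n).1)
    rw [h1]
    linarith
  have hsum : npM X (4 * (Real.log X) ^ K2) QQ (tp X (fun k => (ww X k : ℂ))) =
      ∑ q ∈ QQ, npM X (4 * (Real.log X) ^ K2) {q} (tp X (fun k => (ww X k : ℂ))) := by
    unfold npM
    exact sum_congr rfl fun q _ => (sum_singleton _ _).symm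
  have hch : chM ww X (4 * (Real.log X) ^ K2) QQ =
      ∑ q ∈ QQ, chM ww X (4 * (Real.log X) ^ K2) {q} := by
    unfold chM
    exact sum_congr rfl fun q _ => (sum_singleton _ _).symm
  rw [hsum, hch]
  refine (sum_le_sum hone).trans ?_
  rw [sum_add_distrib, ← mul_sum, sum_const, nsmul_eq_mul]
  have hcard' : (QQ.card : ℝ) ≤ (X : ℝ) ^ (1 / 50 : ℝ) :=
    hcard.trans (Real.rpow_le_rpow_of_exponent_le hX1r (by linarith))
  have hfin : (QQ.card : ℝ) * (2 * (20 * (K0 : ℝ) ^ 2 * (X : ℝ) ^ (9 / 10 : ℝ))) ≤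
      X / (Real.log X) ^ A := by
    rw [le_div_iff₀ (by positivity)]
    calc (QQ.card : ℝ) * (2 * (20 * (K0 : ℝ) ^ 2 * (X : ℝ) ^ (9 / 10 : ℝ))) * (Real.log X) ^ A
        = (QQ.card : ℝ) * (X : ℝ) ^ (9 / 10 : ℝ) * (40 * (K0 : ℝ) ^ 2 * (Real.log X) ^ A) := by ring
      _ ≤ (X : ℝ) ^ (1 / 50 : ℝ) * (X : ℝ) ^ (9 / 10 : ℝ) * (X : ℝ) ^ (8 / 100 : ℝ) := by
          gcongr
      _ = X := by
          rw [← Real.rpow_add hX0, ← Real.rpow_add hX0]
          norm_num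
  linarith

end Pool.MP_dd84fd_nt.DX
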