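import Pool.Agent.Lib.MP_dd84fd_nt.DX.Defs

/-!
# Project ED: the mass on the discs, definitions

`mnR q G`: mean of `G` over the reduced residues `a`, `0 ≤ a < q`.  `msM`: the mass of `F` on the discs of
radius `T/X` around the fractions `a/q`, `q ∈ QQ`; `mnM`: the mass of the means; `npM`: the mass of the
rest (`msM = npM + mnM`).  `nonpr q`: the nonprincipal characters modulo `q`.  `chM`: what the nonprincipal
characters contribute.
-/

set_option autoImplicit false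

namespace Pool.MP_dd84fd_nt.DX

open Finset Pool.MP_67663b_nt.Odd Pool.MP_dd84fd_nt.En Pool.MP_dd84fd_nt.E2 Pool.MP_dd84fd_nt.LS
open Pool.MP_dd84fd_nt.GX Pool.MP_dd84fd_nt.HX Pool.MP_dd84fd_nt.IX
open Pool.MP_dd84fd_nt.PL (rr)

/-- mean over the reduced residues -/
noncomputable def mnR (q : ℕ) (G : ℕ → ℂ) : ℂ := (1 / (Nat.totient q : ℂ)) * ∑ a ∈ rr q, G a

/-- the mass on the discs -/
noncomputable def msM (X : ℕ) (T : ℝ) (QQ : Finset ℕ) (F : ℝ → ℂ) : ℝ :=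
  ∑ q ∈ QQ, ∑ a ∈ rr q, ∫ x in (-(T / X))..(T / X), ‖F ((a : ℝ) / q + x)‖ ^ 2

/-- the mass of the means -/
noncomputable def mnM (X : ℕ) (T : ℝ) (QQ : Finset ℕ) (F : ℝ → ℂ) : ℝ :=
  ∑ q ∈ QQ, (Nat.totient q : ℝ) *
    ∫ x in (-(T / X))..(T / X), ‖mnR q (fun b => F ((b : ℝ) / q + x))‖ ^ 2

/-- the mass of the part orthogonal to the constants -/
noncomputable def npM (X : ℕ) (T : ℝ) (QQ : Finset ℕ) (F : ℝ → ℂ) : ℝ :=
  ∑ q ∈ QQ, ∑ a ∈ rr q, ∫ x in (-(T / X))..(T / X),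
    ‖F ((a : ℝ) / q + x) - mnR q (fun b => F ((b : ℝ) / q + x))‖ ^ 2

/-- the nonprincipal characters -/
noncomputable def nonpr (q : ℕ) : Finset (DirichletCharacter ℂ q) :=
  open Classical in
  if h : q = 0 then ∅ else
    haveI : NeZero q := ⟨h⟩
    univ.filter (fun χ => χ ≠ 1)

/-- the contribution of the nonprincipal characters -/
noncomputable def chM (ww : ℕ → ℕ → ℝ) (X : ℕ) (T : ℝ) (QQ : Finset ℕ) : ℝ :=
  ∑ q ∈ QQ, ∑ χ ∈ nonpr q, ‖gs χ‖ ^ 2 / (Nat.totient q : ℝ) *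
    (∫ x in (-(T / X))..(T / X), ‖Sx ww X χ x‖ ^ 2)

end Pool.MP_dd84fd_nt.DX
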