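import Pool.Agent.Lib.MP_dd84fd_nt.DX.Defs

/-!
# DX-PrP: sums over primes in an interval, twisted by `e(k m x)`

`ψ = χ.primitiveCharacter`.  `χ(m) = ψ(m)` for `m` prime, `m ∤ q`, and `χ(m) = 0` for `m ∣ q` (`χ = changeLevel _ ψ`); `q ≤ X` has `≤ 10` prime
factors `≥ X^(1/10)` (private `ixNC_pf` of `JX/PlNC.lean`; `≤ 11` is easy too).  `∑_(u < m ≤ y) ψ(m) = prS ψ y - prS ψ u`, both arguments are
`≥ X^(1/11)` (`u + 1 ≥ X^(1/10)`) and `≤ X`, so it is `≤ 2 v/L^Bb` for `u ≤ y ≤ v`.  Partial summation with `e(k m x)`, variation on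
`(u, v]` at most `2π k |x| v ≤ 2π L^B` (`k v ≤ X`): `≤ (1 + 2π L^B) 2 v/L^Bb ≤ 20 L^B v/L^Bb` (`L ≥ 1`).
See `BX_mod_Ex.lean` in the store (private `ex_abel`, `ex_part`, to be copied).
-/

set_option autoImplicit false

namespace Pool.MP_dd84fd_nt.DX

open Finset Pool.MP_67663b_nt.Odd

/-- a number `q ≤ X` has at most `10` prime factors `≥ X^(1/10)` -/
private theorem prp_pf (X q z : ℕ) (hX : 2 ≤ X) (hq : 1 ≤ q) (hqX : q ≤ X)
    (hz : (X : ℝ) ^ (1 / 10 : ℝ) ≤ z) :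
    (q.primeFactors.filter (fun p => z ≤ p)).card ≤ 10 := by
  classical
  have hX1 : (1 : ℝ) < X := by exact_mod_cast (by omega : 1 < X)
  have hX0 : (0 : ℝ) < X := by linarith
  by_contra hcon
  push Not at hcon
  set P := q.primeFactors.filter (fun p => z ≤ p) with hP
  have h1 : z ^ P.card ≤ q := by
    calc z ^ P.card = ∏ _p ∈ P, z := by rw [prod_const]
      _ ≤ ∏ p ∈ P, p := prod_le_prod' fun p hp => (mem_filter.1 hp).2
      _ ≤ ∏ p ∈ q.primeFactors, p := by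
          refine prod_le_prod_of_subset_of_one_le' (filter_subset _ _) fun p hp _ => ?_
          exact (Nat.prime_of_mem_primeFactors hp).one_le
      _ ≤ q := Nat.le_of_dvd (by omega) (Nat.prod_primeFactors_dvd q)
  have hz1 : (1 : ℝ) < z := lt_of_lt_of_le (Real.one_lt_rpow hX1 (by norm_num)) hz
  have h2 : (z : ℝ) ^ 11 ≤ X := by
    calc (z : ℝ) ^ 11 ≤ (z : ℝ) ^ P.card := pow_le_pow_right₀ hz1.le (by omega)
      _ ≤ q := by exact_mod_cast h1
      _ ≤ X := by exact_mod_cast hqX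
  have h3 : (X : ℝ) ^ (11 / 10 : ℝ) ≤ X := by
    calc (X : ℝ) ^ (11 / 10 : ℝ) = ((X : ℝ) ^ (1 / 10 : ℝ)) ^ 11 := by
          rw [← Real.rpow_natCast ((X : ℝ) ^ (1 / 10 : ℝ)) 11, ← Real.rpow_mul hX0.le]
          norm_num
      _ ≤ (z : ℝ) ^ 11 := pow_le_pow_left₀ (by positivity) hz 11
      _ ≤ X := h2
  have h4 : (X : ℝ) < (X : ℝ) ^ (11 / 10 : ℝ) := by
    calc (X : ℝ) = (X : ℝ) ^ (1 : ℝ) := (Real.rpow_one _).symm
      _ < (X : ℝ) ^ (11 / 10 : ℝ) := Real.rpow_lt_rpow_of_exponent_lt hX1 (by norm_num)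
  linarith

/-- a character and the primitive character which induces it, at primes `p ≥ z` -/
private theorem prp_induced (X q z : ℕ) (hX : 2 ≤ X) (hq : 1 ≤ q) (hqX : q ≤ X)
    (hz : (X : ℝ) ^ (1 / 10 : ℝ) ≤ z) (χ : DirichletCharacter ℂ q) (s : Finset ℕ) (b : ℕ → ℂ)
    (hb : ∀ n, ‖b n‖ = 1) (hs : ∀ p ∈ s, p.Prime ∧ z ≤ p) :
    ‖∑ p ∈ s, (χ (p : ZMod q)) * b p -
      ∑ p ∈ s, (χ.primitiveCharacter (p : ZMod χ.conductor)) * b p‖ ≤ 10 := by
  classical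
  have : NeZero q := ⟨by omega⟩
  rw [← sum_sub_distrib]
  have h1 : ∑ p ∈ s, ((χ (p : ZMod q)) * b p -
      (χ.primitiveCharacter (p : ZMod χ.conductor)) * b p) =
      ∑ p ∈ s.filter (fun p => p ∣ q), ((χ (p : ZMod q)) * b p -
        (χ.primitiveCharacter (p : ZMod χ.conductor)) * b p) := by
    symm
    apply sum_subset (filter_subset _ _)
    intro p hp hp2
    rw [mem_filter, not_and] at hp2
    have hc : Nat.Coprime p q := (Nat.Prime.coprime_iff_not_dvd (hs p hp).1).2 (hp2 hp)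
    have h2 : IsCoprime (p : ℤ) (q : ℤ) := Nat.isCoprime_iff_coprime.mpr hc
    have h3 := DirichletCharacter.primitiveCharacter_apply_of_isCoprime χ h2
    push_cast at h3
    rw [h3, sub_self]
  rw [h1]
  refine (norm_sum_le _ _).trans ?_
  have h4 : ∀ p ∈ s.filter (fun p => p ∣ q), ‖(χ (p : ZMod q)) * b p -
      (χ.primitiveCharacter (p : ZMod χ.conductor)) * b p‖ ≤ 1 := by
    intro p hp
    rw [mem_filter] at hp
    have h2 : χ (p : ZMod q) = 0 := by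
      apply MulChar.map_nonunit
      rw [ZMod.isUnit_iff_coprime]
      intro hcop
      exact (Nat.Prime.coprime_iff_not_dvd (hs p hp.1).1).1 hcop hp.2
    rw [h2, zero_mul, zero_sub, norm_neg, norm_mul, hb, mul_one]
    exact DirichletCharacter.norm_le_one _ _
  refine (sum_le_sum h4).trans ?_
  rw [sum_const, nsmul_eq_mul, mul_one]
  have h5 : s.filter (fun p => p ∣ q) ⊆ q.primeFactors.filter (fun p => z ≤ p) := by
    intro p hp
    rw [mem_filter] at hp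
    exact mem_filter.2 ⟨Nat.mem_primeFactors.2 ⟨(hs p hp.1).1, hp.2, by omega⟩, (hs p hp.1).2⟩
  have h6 := (card_le_card h5).trans (prp_pf X q z hX hq hqX hz)
  exact_mod_cast h6

/-- partial summation -/
private theorem prp_abel (a b : ℕ → ℂ) (N : ℕ) :
    ∑ n ∈ Icc 1 N, a n * b n =
      (∑ n ∈ Icc 1 N, a n) * b N - ∑ m ∈ range N, (∑ n ∈ Icc 1 m, a n) * (b (m + 1) - b m) := by
  induction N with
  | zero => simp
  | succ N ih =>
    rw [Finset.sum_Icc_succ_top (by omega), ih, Finset.sum_Icc_succ_top (by omega), sum_range_succ]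
    ring

private theorem prp_part (a : ℕ → ℂ) (N : ℕ) (M x : ℝ) (hM : ∀ y ≤ N, ‖∑ n ∈ Icc 1 y, a n‖ ≤ M) :
    ‖∑ n ∈ Icc 1 N, a n * ee ((n : ℝ) * x)‖ ≤ M * (1 + N * (2 * Real.pi * |x|)) := by
  rw [prp_abel a (fun n => ee ((n : ℝ) * x)) N]
  refine (norm_sub_le _ _).trans ?_
  rw [mul_add, mul_one]
  refine add_le_add ?_ ?_
  · rw [norm_mul, norm_ee, mul_one]
    exact hM N le_rfl
  · refine (norm_sum_le _ _).trans ?_
    have h : ∀ m ∈ range N, ‖(∑ n ∈ Icc 1 m, a n) *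
        (ee (((m + 1 : ℕ) : ℝ) * x) - ee ((m : ℝ) * x))‖ ≤ M * (2 * Real.pi * |x|) := by
      intro m hm
      rw [norm_mul]
      have h1 := norm_ee_sub_ee_le (((m + 1 : ℕ) : ℝ) * x) ((m : ℝ) * x)
      have e : ((m + 1 : ℕ) : ℝ) * x - (m : ℝ) * x = x := by push_cast; ring
      rw [e] at h1
      have h2 := hM m (mem_range.1 hm).le
      exact mul_le_mul h2 h1 (norm_nonneg _) ((norm_nonneg _).trans h2)
    refine (sum_le_sum h).trans ?_
    rw [sum_const, card_range, nsmul_eq_mul]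
    exact le_of_eq (by ring)

/-- `X^(1/11) + 1 ≤ X^(1/10)` and `1 ≤ log X` for `X ≥ 2^110` -/
private theorem prp_big (X : ℕ) (hX : 2 ^ 110 ≤ X) :
    (X : ℝ) ^ (1 / 11 : ℝ) + 1 ≤ (X : ℝ) ^ (1 / 10 : ℝ) ∧ 1 ≤ Real.log X := by
  have hX1 : ((2 : ℝ) ^ 110) ≤ X := by exact_mod_cast hX
  have hX0 : (0 : ℝ) < X := lt_of_lt_of_le (by positivity) hX1
  obtain ⟨t, ht⟩ : ∃ t, t = (X : ℝ) ^ (1 / 110 : ℝ) := ⟨_, rfl⟩
  have ht2 : 2 ≤ t := by
    have h1 : ((2 : ℝ) ^ 110) ^ (1 / 110 : ℝ) ≤ (X : ℝ) ^ (1 / 110 : ℝ) :=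
      Real.rpow_le_rpow (by positivity) hX1 (by norm_num)
    rw [← Real.rpow_natCast, ← Real.rpow_mul (by norm_num)] at h1
    norm_num at h1
    rw [ht]
    norm_num
    exact h1
  have h10 : (X : ℝ) ^ (1 / 11 : ℝ) = t ^ 10 := by
    rw [ht, ← Real.rpow_natCast, ← Real.rpow_mul hX0.le]
    norm_num
  have h11 : (X : ℝ) ^ (1 / 10 : ℝ) = t ^ 11 := by
    rw [ht, ← Real.rpow_natCast, ← Real.rpow_mul hX0.le]
    norm_num
  constructor
  · rw [h10, h11]
    have h3 : (1 : ℝ) ≤ t ^ 10 := one_le_pow₀ (by linarith)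
    nlinarith
  · have h4 := Real.log_le_log (by positivity) hX1
    rw [Real.log_pow] at h4
    have h5 := Real.log_two_gt_d9
    push_cast at h4
    linarith

theorem pr_part (B : ℕ) : ∃ X0 : ℕ, ∀ X : ℕ, X0 ≤ X → ∀ Bb q : ℕ, 1 ≤ q → q ≤ X →
    ∀ χ : DirichletCharacter ℂ q, ¬ BadC Bb X χ.primitiveCharacter → ∀ k u v : ℕ, 1 ≤ k →
    (X : ℝ) ^ (1 / 10 : ℝ) ≤ u + 1 → k * v ≤ X → ∀ x : ℝ, |x| ≤ (Real.log X) ^ B / X →
    ‖∑ m ∈ (Ioc u v).filter Nat.Prime, χ (m : ZMod q) * ee (((k * m : ℕ) : ℝ) * x)‖ ≤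
      20 * (Real.log X) ^ B * (v / (Real.log X) ^ Bb) + 11 := by
  classical
  refine ⟨2 ^ 110, fun X hX Bb q hq hqX χ hbad k u v hk hu hkv x hx => ?_⟩
  obtain ⟨hb1, hL1⟩ := prp_big X hX
  obtain ⟨L, hL⟩ : ∃ L, L = Real.log X := ⟨_, rfl⟩
  rw [← hL] at hL1 hx ⊢
  have hX2 : 2 ≤ X := le_trans (by norm_num) hX
  have hX0 : (0 : ℝ) < X := by exact_mod_cast (by omega : 0 < X)
  have hX1 : (1 : ℝ) ≤ X := by exact_mod_cast (by omega : 1 ≤ X)
  have hL0 : 0 < L := by linarith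
  have hvX : v ≤ X := le_trans (Nat.le_mul_of_pos_left v (by omega)) hkv
  have hLb : 0 < L ^ Bb := by positivity
  have hLB : 1 ≤ L ^ B := one_le_pow₀ hL1
  have hV : 0 ≤ (v : ℝ) / L ^ Bb := by positivity
  rcases Nat.lt_or_ge u v with huv | huv
  swap
  · rw [Ioc_eq_empty (by omega), filter_empty, sum_empty, norm_zero]
    positivity
  set ψ := χ.primitiveCharacter with hψ
  -- the sums over primes
  have hprS : ∀ y : ℕ, (X : ℝ) ^ (1 / 11 : ℝ) ≤ y → y ≤ v → ‖prS ψ y‖ ≤ v / L ^ Bb := by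
    intro y hy1 hy2
    by_contra hcon
    push Not at hcon
    apply hbad
    refine ⟨y, hy1, hy2.trans hvX, lt_of_le_of_lt ?_ hcon⟩
    rw [← hL]
    have : (y : ℝ) ≤ v := by exact_mod_cast hy2
    exact div_le_div_of_nonneg_right this hLb.le
  have hu11 : (X : ℝ) ^ (1 / 11 : ℝ) ≤ u := by linarith
  have hM : ∀ y ≤ v, ‖∑ n ∈ Icc 1 y, (if n.Prime ∧ u < n then ψ (n : ZMod χ.conductor) else 0)‖ ≤
      2 * (v / L ^ Bb) := by
    intro y hy
    rcases Nat.lt_or_ge u y with h1 | h1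
    · have h2 : ∑ n ∈ Icc 1 y, (if n.Prime ∧ u < n then ψ (n : ZMod χ.conductor) else 0) =
          prS ψ y - prS ψ u := by
        unfold prS
        have h3 : (Icc 1 u).filter Nat.Prime ⊆ (Icc 1 y).filter Nat.Prime :=
          filter_subset_filter _ (Icc_subset_Icc le_rfl h1.le)
        rw [← sum_sdiff h3, add_sub_cancel_right, ← sum_filter]
        refine sum_congr ?_ fun _ _ => rfl
        ext n
        simp only [mem_filter, mem_sdiff, mem_Icc]
        constructor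
        · rintro ⟨h4, h5, h6⟩
          exact ⟨⟨h4, h5⟩, fun h7 => by omega⟩
        · rintro ⟨⟨h4, h5⟩, h6⟩
          refine ⟨h4, h5, ?_⟩
          by_contra h7
          exact h6 ⟨⟨h4.1, by omega⟩, h5⟩
      rw [h2]
      have h3 := hprS y (hu11.trans (by exact_mod_cast h1.le)) hy
      have h4 := hprS u hu11 huv.le
      have h5 := norm_sub_le (prS ψ y) (prS ψ u)
      linarith
    · rw [sum_eq_zero, norm_zero]
      · positivity
      · intro n hn
        rw [mem_Icc] at hn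
        rw [if_neg]
        omega
  have hpart := prp_part (fun n => if n.Prime ∧ u < n then ψ (n : ZMod χ.conductor) else 0) v
    (2 * (v / L ^ Bb)) ((k : ℝ) * x) hM
  -- rewrite the sums
  have hsum : ∑ n ∈ Icc 1 v, (if n.Prime ∧ u < n then ψ (n : ZMod χ.conductor) else 0) *
      ee ((n : ℝ) * ((k : ℝ) * x)) =
      ∑ m ∈ (Ioc u v).filter Nat.Prime, ψ (m : ZMod χ.conductor) *
        ee (((k * m : ℕ) : ℝ) * x) := by
    have h1 : ∀ n ∈ Icc 1 v, (if n.Prime ∧ u < n then ψ (n : ZMod χ.conductor) else 0) *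
        ee ((n : ℝ) * ((k : ℝ) * x)) = if n.Prime ∧ u < n then ψ (n : ZMod χ.conductor) *
        ee (((k * n : ℕ) : ℝ) * x) else 0 := by
      intro n _
      rw [ite_mul, zero_mul]
      have : (n : ℝ) * ((k : ℝ) * x) = ((k * n : ℕ) : ℝ) * x := by push_cast; ring
      rw [this]
    rw [sum_congr rfl h1, ← sum_filter]
    refine sum_congr ?_ fun _ _ => rfl
    ext n
    simp only [mem_filter, mem_Icc, mem_Ioc]
    constructor
    · rintro ⟨h4, h5, h6⟩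
      exact ⟨⟨h6, h4.2⟩, h5⟩
    · rintro ⟨h4, h5⟩
      exact ⟨⟨h5.one_le, h4.2⟩, h5, h4.1⟩
  have hind := prp_induced X q (u + 1) hX2 hq hqX (by push_cast; exact hu) χ
    ((Ioc u v).filter Nat.Prime) (fun m => ee (((k * m : ℕ) : ℝ) * x)) (fun n => norm_ee _)
    (fun p hp => by
      rw [mem_filter, mem_Ioc] at hp
      exact ⟨hp.2, hp.1.1⟩)
  rw [hsum] at hpart
  -- the size
  have hsize : (v : ℝ) * (2 * Real.pi * |(k : ℝ) * x|) ≤ 2 * Real.pi * L ^ B := by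
    have h1 : |(k : ℝ) * x| = k * |x| := by rw [abs_mul, Nat.abs_cast]
    rw [h1]
    have h2 : (k : ℝ) * v ≤ X := by exact_mod_cast hkv
    have h3 : (k : ℝ) * v * |x| ≤ X * (L ^ B / X) :=
      mul_le_mul h2 hx (abs_nonneg _) hX0.le
    have h4 : (X : ℝ) * (L ^ B / X) = L ^ B := by field_simp
    rw [h4] at h3
    have h5 : (v : ℝ) * (2 * Real.pi * (k * |x|)) = 2 * Real.pi * ((k : ℝ) * v * |x|) := by ring
    rw [h5]
    exact mul_le_mul_of_nonneg_left h3 (by positivity)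
  have hfin : 2 * ((v : ℝ) / L ^ Bb) * (1 + v * (2 * Real.pi * |(k : ℝ) * x|)) ≤
      20 * L ^ B * (v / L ^ Bb) := by
    have h1 : 1 + (v : ℝ) * (2 * Real.pi * |(k : ℝ) * x|) ≤ 10 * L ^ B := by
      have h2 := Real.pi_lt_d2
      nlinarith
    calc 2 * ((v : ℝ) / L ^ Bb) * (1 + v * (2 * Real.pi * |(k : ℝ) * x|))
        ≤ 2 * ((v : ℝ) / L ^ Bb) * (10 * L ^ B) :=
          mul_le_mul_of_nonneg_left h1 (by positivity)
      _ = _ := by ring
  have htri : ∀ a b : ℂ, ‖a‖ ≤ ‖b‖ + ‖a - b‖ := fun a b => by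
    have := norm_add_le b (a - b)
    rwa [add_sub_cancel] at this
  refine (htri _ (∑ m ∈ (Ioc u v).filter Nat.Prime, ψ (m : ZMod χ.conductor) *
        ee (((k * m : ℕ) : ℝ) * x))).trans ?_
  linarith [hpart, hind, hfin]

end Pool.MP_dd84fd_nt.DX
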