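import Pool.Agent.Lib.MP_dd84fd_nt.DX.Defs
import Pool.Agent.Lib.MP_dd84fd_nt.E2.PiSW

/-!
# DX-SWb: characters of small conductor are not bad (Siegel-Walfisz)

`χ ≠ 1` modulo `r ≤ (log X)^k`, `X^(1/11) ≤ y ≤ X`.  `∑_(p ≤ y) χ(p) = ∑_(c mod r, (c,r)=1) χ(c) π(y; r, c)` (the `p ∣ r` give `0`) and
`∑_c χ(c) = 0`, so it is `∑_c χ(c) (π(y; r, c) - Li y / φ(r))`; `E2.pi_sw` with `X := y`, `t := y`, exponents `A = B + 2k + 2`,
`B = k + 1` (`r ≤ (log X)^k ≤ (11 log y)^k ≤ (log y)^(k+1)`): each difference is `≤ y/(log y)^(B+2k+2)`, `φ(r) ≤ (log y)^(k+1)`,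
`log y ≥ (log X)/11`; total `< y/(log X)^B` for large `X`.
-/

set_option autoImplicit false

namespace Pool.MP_dd84fd_nt.DX

open Finset

/-- the sum over primes by residue classes, minus a constant -/
private theorem swb_split (r : ℕ) [NeZero r] (χ : DirichletCharacter ℂ r) (hχ : χ ≠ 1) (y : ℕ)
    (w : ℂ) : prS χ y = ∑ a : ZMod r, χ a *
      ((((Icc 1 y).filter (fun n => n.Prime ∧ n ≡ a.val [MOD r])).card : ℂ) - w) := by
  classical
  have h0 : ∑ a : ZMod r, χ a = 0 := MulChar.sum_eq_zero_of_ne_one hχ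
  have h1 : ∑ a : ZMod r, χ a *
      ((((Icc 1 y).filter (fun n => n.Prime ∧ n ≡ a.val [MOD r])).card : ℂ) - w) =
      ∑ a : ZMod r, χ a *
        (((Icc 1 y).filter (fun n => n.Prime ∧ n ≡ a.val [MOD r])).card : ℂ) := by
    simp_rw [mul_sub]
    rw [Finset.sum_sub_distrib, ← Finset.sum_mul, h0, zero_mul, sub_zero]
  rw [h1]
  unfold prS
  rw [← Finset.sum_fiberwise ((Icc 1 y).filter Nat.Prime) (fun p => (p : ZMod r))]
  refine Finset.sum_congr rfl fun a _ => ?_
  have h2 : ((Icc 1 y).filter Nat.Prime).filter (fun p : ℕ => (p : ZMod r) = a) =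
      (Icc 1 y).filter (fun n : ℕ => n.Prime ∧ n ≡ a.val [MOD r]) := by
    rw [Finset.filter_filter]
    refine Finset.filter_congr fun n _ => ?_
    refine and_congr_right fun _ => ?_
    rw [← ZMod.natCast_eq_natCast_iff, ZMod.natCast_zmod_val]
  rw [h2, Finset.sum_congr rfl (g := fun _ => χ a), Finset.sum_const, nsmul_eq_mul, mul_comm]
  intro p hp
  rw [Finset.mem_filter] at hp
  have h3 := (ZMod.natCast_eq_natCast_iff _ _ _).2 hp.2.2
  rw [ZMod.natCast_zmod_val] at h3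
  rw [h3]

theorem sw_bad (B k : ℕ) : ∃ X0 : ℕ, ∀ X : ℕ, X0 ≤ X → ∀ r : ℕ, 1 ≤ r →
    (r : ℝ) ≤ (Real.log X) ^ k → ∀ χ : DirichletCharacter ℂ r, χ ≠ 1 → ¬ BadC B X χ := by
  obtain ⟨X1, hX1⟩ := E2.pi_sw (B + 2 * k + 2) (k + 1)
  have hloglim : Filter.Tendsto (fun X : ℕ => Real.log (X : ℝ)) Filter.atTop Filter.atTop :=
    Real.tendsto_log_atTop.comp tendsto_natCast_atTop_atTop
  have ev := (hloglim.eventually_ge_atTop ((11 : ℝ) ^ (k + B + 1))).and
    (Filter.eventually_ge_atTop (X1 ^ 11 + 4))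
  obtain ⟨X0, hX0⟩ := Filter.eventually_atTop.1 ev
  refine ⟨X0, fun X hX r hr hrk χ hχ hbad => ?_⟩
  obtain ⟨h1, h2⟩ := hX0 X hX
  obtain ⟨y, hy1, hy2, hy3⟩ := hbad
  have hX4 : (4 : ℝ) ≤ X := by
    have : 4 ≤ X := by omega
    exact_mod_cast this
  have hXpos : (0 : ℝ) < X := by linarith
  have hXr : (1 : ℝ) ≤ (X : ℝ) ^ (1 / 11 : ℝ) := Real.one_le_rpow (by linarith) (by norm_num)
  have hypos : (0 : ℝ) < y := by linarith
  -- log X ≤ 11 log y
  have hlog : Real.log X ≤ 11 * Real.log y := by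
    have h3 : Real.log ((X : ℝ) ^ (1 / 11 : ℝ)) ≤ Real.log y :=
      Real.log_le_log (by positivity) hy1
    rw [Real.log_rpow hXpos] at h3
    linarith
  have hpow : (11 : ℝ) ^ (k + B) ≤ Real.log y := by
    have h3 : (11 : ℝ) ^ (k + B + 1) = 11 * 11 ^ (k + B) := by rw [pow_succ]; ring
    rw [h3] at h1
    linarith
  have hyl1 : (1 : ℝ) ≤ Real.log y := le_trans (one_le_pow₀ (by norm_num)) hpow
  have hyl0 : (0 : ℝ) < Real.log y := by linarith
  have hXl0 : (0 : ℝ) ≤ Real.log X := Real.log_nonneg (by linarith)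
  have hX1y : X1 ≤ y := by
    have h3 : ((X1 : ℝ) ^ 11) ≤ X := by
      have : X1 ^ 11 ≤ X := by omega
      exact_mod_cast this
    have h4 : (X1 : ℝ) ≤ (X : ℝ) ^ (1 / 11 : ℝ) := by
      have h5 : ((X1 : ℝ) ^ 11) ^ (1 / 11 : ℝ) ≤ (X : ℝ) ^ (1 / 11 : ℝ) :=
        Real.rpow_le_rpow (by positivity) h3 (by norm_num)
      have h6 : ((X1 : ℝ) ^ 11) ^ (1 / 11 : ℝ) = X1 := by
        rw [← Real.rpow_natCast, ← Real.rpow_mul (by positivity)]
        norm_num
      linarith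
    have h7 : (X1 : ℝ) ≤ y := h4.trans hy1
    exact_mod_cast h7
  -- comparison of powers
  have hk1 : (Real.log X) ^ k ≤ (Real.log y) ^ (k + 1) := by
    calc (Real.log X) ^ k ≤ (11 * Real.log y) ^ k := pow_le_pow_left₀ hXl0 hlog k
      _ = 11 ^ k * (Real.log y) ^ k := mul_pow _ _ _
      _ ≤ Real.log y * (Real.log y) ^ k := by
          refine mul_le_mul_of_nonneg_right (le_trans ?_ hpow) (by positivity)
          exact pow_le_pow_right₀ (by norm_num) (by omega)
      _ = (Real.log y) ^ (k + 1) := by ring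
  have hB1 : (Real.log X) ^ B ≤ (Real.log y) ^ (B + 1) := by
    calc (Real.log X) ^ B ≤ (11 * Real.log y) ^ B := pow_le_pow_left₀ hXl0 hlog B
      _ = 11 ^ B * (Real.log y) ^ B := mul_pow _ _ _
      _ ≤ Real.log y * (Real.log y) ^ B := by
          refine mul_le_mul_of_nonneg_right (le_trans ?_ hpow) (by positivity)
          exact pow_le_pow_right₀ (by norm_num) (by omega)
      _ = (Real.log y) ^ (B + 1) := by ring
  have hXB0 : (0 : ℝ) < (Real.log X) ^ B := by
    have : (0 : ℝ) < Real.log X := Real.log_pos (by linarith)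
    positivity
  have hry : (r : ℝ) ≤ (Real.log y) ^ (k + 1) := hrk.trans hk1
  have : NeZero r := ⟨by omega⟩
  -- the bound
  have hb : ‖prS χ y‖ ≤ r * ((y : ℝ) / (Real.log y) ^ (B + 2 * k + 2)) := by
    rw [swb_split r χ hχ y ((E2.Li y / (Nat.totient r : ℝ) : ℝ) : ℂ)]
    refine (norm_sum_le _ _).trans ?_
    have h3 : ∀ a ∈ (univ : Finset (ZMod r)), ‖χ a *
        ((((Icc 1 y).filter (fun n => n.Prime ∧ n ≡ a.val [MOD r])).card : ℂ) -
          ((E2.Li y / (Nat.totient r : ℝ) : ℝ) : ℂ))‖ ≤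
        (y : ℝ) / (Real.log y) ^ (B + 2 * k + 2) := by
      intro a _
      by_cases ha : IsUnit a
      · have hc : Nat.Coprime a.val r := by
          rw [← ZMod.isUnit_iff_coprime, ZMod.natCast_zmod_val]
          exact ha
        have h4 := hX1 y hX1y r a.val hr hry hc y le_rfl
        rw [norm_mul]
        have h5 : ‖χ a‖ ≤ 1 := DirichletCharacter.norm_le_one χ a
        have h6 : ‖(((((Icc 1 y).filter (fun n => n.Prime ∧ n ≡ a.val [MOD r])).card : ℂ)) -
          ((E2.Li y / (Nat.totient r : ℝ) : ℝ) : ℂ))‖ =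
          |(((Icc 1 y).filter (fun n => n.Prime ∧ n ≡ a.val [MOD r])).card : ℝ) -
            E2.Li y / (Nat.totient r : ℝ)| := by
          rw [← Real.norm_eq_abs, ← Complex.norm_real]
          congr 1
          push_cast
          ring
        rw [h6]
        calc ‖χ a‖ * _ ≤ 1 * _ := mul_le_mul_of_nonneg_right h5 (abs_nonneg _)
          _ ≤ _ := by rw [one_mul]; exact h4
      · rw [MulChar.map_nonunit χ ha, zero_mul, norm_zero]
        positivity
    refine (Finset.sum_le_sum h3).trans ?_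
    rw [Finset.sum_const, Finset.card_univ, ZMod.card, nsmul_eq_mul]
  have hfin : (r : ℝ) * ((y : ℝ) / (Real.log y) ^ (B + 2 * k + 2)) ≤ (y : ℝ) / (Real.log X) ^ B := by
    have h3 : (r : ℝ) * ((y : ℝ) / (Real.log y) ^ (B + 2 * k + 2)) ≤
        (Real.log y) ^ (k + 1) * ((y : ℝ) / (Real.log y) ^ (B + 2 * k + 2)) :=
      mul_le_mul_of_nonneg_right hry (by positivity)
    have h4 : (Real.log y) ^ (k + 1) * ((y : ℝ) / (Real.log y) ^ (B + 2 * k + 2)) =
        (y : ℝ) / (Real.log y) ^ (B + 1 + k) := by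
      have h5 : (Real.log y) ^ (B + 2 * k + 2) =
          (Real.log y) ^ (k + 1) * (Real.log y) ^ (B + 1 + k) := by
        rw [← pow_add]
        congr 1
        omega
      rw [h5]
      field_simp
    rw [h4] at h3
    refine h3.trans ?_
    refine div_le_div_of_nonneg_left hypos.le hXB0 ?_
    refine hB1.trans ?_
    exact pow_le_pow_right₀ hyl1 (by omega)
  linarith

end Pool.MP_dd84fd_nt.DX
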