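import Pool.Agent.Lib.MP_dd84fd_nt.DX.Defs
import Pool.Agent.Lib.MP_dd84fd_nt.LX.LAll
import Pool.Agent.Lib.MP_dd84fd_nt.E2.MinorP

/-!
# DX-ScQ: from one scale to all scales, with a property of the moduli

`ScQ Bad Q C θ`: at most `X^θ` bad even numbers in `(X/2, X]` outside the multiples of few moduli `d`
with `Q X d`.  `thinQ`, `allQ8`, `ext_q`: as `KX.thinG`, `LX.allG8`, `MX.ext_th`.
`ExD` at the scale `Y` gives `ExF` at the scale `X ≤ Y^8`.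
-/

set_option autoImplicit false

namespace Pool.MP_dd84fd_nt.DX

open Finset Pool.MP_67663b_nt.Odd Pool.MP_dd84fd_nt.En Pool.MP_dd84fd_nt.E2 Pool.MP_dd84fd_nt.LS
open Pool.MP_dd84fd_nt.GX Pool.MP_dd84fd_nt.HX

open Classical in
/-- the statement for one scale -/
def ScQ (Bad : ℕ → Prop) (Q : ℕ → ℕ → Prop) (C : ℕ) (θ : ℝ) : Prop := ∀ K : ℕ, ∃ X0 : ℕ,
  ∀ X : ℕ, X0 ≤ X → ∃ D : Finset ℕ, (D.card : ℝ) ≤ (Real.log X) ^ C ∧
    (∀ d ∈ D, (Real.log X) ^ K ≤ (d : ℝ) ∧ Q X d) ∧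
    (((Icc 1 X).filter (fun n => X < 2 * n ∧ Even n ∧ (∀ d ∈ D, ¬ d ∣ n) ∧
      Bad n)).card : ℝ) ≤ (X : ℝ) ^ θ

/-- the property of the moduli in the final statements: `d = r/h`, `h ≤ (log X)^C`, `r` the conductor of
a primitive character with a large sum over primes -/
def ExF (C X d : ℕ) : Prop :=
  ∃ r h : ℕ, d * h = r ∧ (h : ℝ) ≤ Real.log X ^ C ∧ ∃ χ : DirichletCharacter ℂ r,
    χ.IsPrimitive ∧ ∃ y : ℕ, (X : ℝ) ^ (1 / 100 : ℝ) ≤ y ∧ y ≤ X ∧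
      (y : ℝ) / Real.log X ^ C < ‖∑ p ∈ (Icc 1 y).filter Nat.Prime, χ (p : ZMod r)‖

theorem ExF.mono {C C' X d : ℕ} (h : ExF C X d) (hC : C ≤ C') (hL : 1 ≤ Real.log X) :
    ExF C' X d := by
  obtain ⟨r, k, e1, e2, χ, e3, y, e4, e5, e6⟩ := h
  refine ⟨r, k, e1, e2.trans (pow_le_pow_right₀ hL hC), χ, e3, y, e4, e5, lt_of_le_of_lt ?_ e6⟩
  exact div_le_div_of_nonneg_left (Nat.cast_nonneg _) (by positivity) (pow_le_pow_right₀ hL hC)

theorem exD_mono {C C' X d : ℕ} (h : ExD C X d) (hC : C ≤ C') (hL : 1 ≤ Real.log X) :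
    ExD C' X d := by
  obtain ⟨r, k, e1, e2, χ, e3, y, e4, e5, e6⟩ := h
  refine ⟨r, k, e1, e2.trans (pow_le_pow_right₀ hL hC), χ, e3, y, e4, e5, lt_of_le_of_lt ?_ e6⟩
  exact div_le_div_of_nonneg_left (Nat.cast_nonneg _) (by positivity) (pow_le_pow_right₀ hL hC)

/-- the passage from the scale `Y` to the scale `X` -/
theorem exD_exF (C X Y d : ℕ) (hYX : Y ≤ X) (hXY : X ≤ Y ^ 8) (hL : 10 ≤ Real.log X)
    (h : ExD C Y d) : ExF C X d := by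
  obtain ⟨r, k, e1, e2, χ, e3, y, e4, e5, e6⟩ := h
  have hX0 : 0 < X := by
    rcases Nat.eq_zero_or_pos X with h | h
    · exfalso
      subst h
      simp at hL
      linarith
    · exact h
  have hY0 : 0 < Y := by
    rcases Nat.eq_zero_or_pos Y with h | h
    · exfalso
      subst h
      simp at hXY
      omega
    · exact h
  have hX0r : (0 : ℝ) < X := by exact_mod_cast hX0
  have hY0r : (0 : ℝ) < Y := by exact_mod_cast hY0
  have hXr : (1 : ℝ) ≤ X := by exact_mod_cast hX0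
  have hYXr : (Y : ℝ) ≤ X := by exact_mod_cast hYX
  have hXYr : (X : ℝ) ≤ (Y : ℝ) ^ 8 := by exact_mod_cast hXY
  have l1 : Real.log Y ≤ Real.log X := Real.log_le_log hY0r hYXr
  have l2 : Real.log X ≤ 8 * Real.log Y := by
    have := Real.log_le_log hX0r hXYr
    rw [Real.log_pow] at this
    exact_mod_cast this
  have l3 : 0 < Real.log Y := by linarith
  refine ⟨r, k, e1, e2.trans (pow_le_pow_left₀ l3.le l1 _), χ, e3, y, ?_, e5.trans hYX,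
    lt_of_le_of_lt ?_ e6⟩
  · refine le_trans ?_ e4
    have h1 : (X : ℝ) ^ (1 / 88 : ℝ) ≤ (Y : ℝ) ^ (1 / 11 : ℝ) := by
      calc (X : ℝ) ^ (1 / 88 : ℝ) ≤ ((Y : ℝ) ^ 8) ^ (1 / 88 : ℝ) :=
            Real.rpow_le_rpow hX0r.le hXYr (by norm_num)
        _ = (Y : ℝ) ^ (1 / 11 : ℝ) := by
            rw [← Real.rpow_natCast, ← Real.rpow_mul hY0r.le]
            norm_num
    exact (Real.rpow_le_rpow_of_exponent_le hXr (by norm_num)).trans h1
  · exact div_le_div_of_nonneg_left (Nat.cast_nonneg _) (by positivity)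
      (pow_le_pow_left₀ l3.le l1 _)

open Classical in
/-- one scale, moduli `≤ (X/2)^(1-θ)` -/
theorem thinQ (Bad : ℕ → Prop) (Q : ℕ → ℕ → Prop) (C : ℕ) (θ ε : ℝ) (h1 : 0 ≤ θ) (hε : 0 < ε)
    (H : ScQ Bad Q C (θ + ε / 2)) : ∀ K : ℕ,
    ∃ X0 : ℕ, ∀ X : ℕ, X0 ≤ X → ∃ D : Finset ℕ,
      (D.card : ℝ) ≤ (Real.log X) ^ C ∧
      (∀ d ∈ D, (Real.log X) ^ K ≤ (d : ℝ) ∧ (d : ℝ) ≤ ((X : ℝ) / 2) ^ (1 - θ) ∧ Q X d) ∧
      (((Icc 1 X).filter (fun n => X < 2 * n ∧ Even n ∧ (∀ d ∈ D, ¬ d ∣ n) ∧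
        Bad n)).card : ℝ) ≤ (X : ℝ) ^ (θ + ε) := by
  intro K
  obtain ⟨X1, hX1⟩ := H K
  obtain ⟨X2, hX2⟩ := MP_log_pow 3 C (ε := ε / 2) (by positivity)
  obtain ⟨X3, hX3⟩ := MP_log_large 1
  refine ⟨max X1 (max X2 (max X3 1)), fun X hX => ?_⟩
  simp only [max_le_iff] at hX
  obtain ⟨hXa, hXb, hXc, hXd⟩ := hX
  obtain ⟨D, g1, g2, g3⟩ := hX1 X hXa
  have hC3 := hX2 X hXb
  have hL := hX3 X hXc
  have hXR : (1 : ℝ) ≤ X := by exact_mod_cast hXd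
  have hX0 : (0 : ℝ) < X := by linarith
  obtain ⟨D1, hD1⟩ : ∃ D1 : Finset ℕ, D1 = D.filter
    (fun d : ℕ => (d : ℝ) ≤ ((X : ℝ) / 2) ^ (1 - θ)) := ⟨_, rfl⟩
  obtain ⟨D2, hD2⟩ : ∃ D2 : Finset ℕ, D2 = D.filter
    (fun d : ℕ => ¬ (d : ℝ) ≤ ((X : ℝ) / 2) ^ (1 - θ)) := ⟨_, rfl⟩
  have hc1 : (D1.card : ℝ) ≤ D.card := by
    rw [hD1]
    exact_mod_cast card_filter_le _ _
  have hc2 : (D2.card : ℝ) ≤ D.card := by
    rw [hD2]
    exact_mod_cast card_filter_le _ _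
  refine ⟨D1, hc1.trans g1, fun d hd => ?_, ?_⟩
  · rw [hD1, mem_filter] at hd
    exact ⟨(g2 d hd.1).1, hd.2, (g2 d hd.1).2⟩
  · have hsub : (Icc 1 X).filter (fun n => X < 2 * n ∧ Even n ∧ (∀ d ∈ D1, ¬ d ∣ n) ∧
        Bad n) ⊆
        (Icc 1 X).filter (fun n => X < 2 * n ∧ Even n ∧ (∀ d ∈ D, ¬ d ∣ n) ∧ Bad n) ∪
        D2.biUnion (fun d => (Ioc 0 X).filter (fun n => d ∣ n)) := by
      intro n hn
      rw [mem_filter, mem_Icc] at hn
      obtain ⟨⟨n1, n2⟩, n3, n4, n5, n6⟩ := hn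
      rw [mem_union]
      by_cases hdiv : ∀ d ∈ D, ¬ d ∣ n
      · left
        rw [mem_filter, mem_Icc]
        exact ⟨⟨n1, n2⟩, n3, n4, hdiv, n6⟩
      · right
        push Not at hdiv
        obtain ⟨d, hd, hdn⟩ := hdiv
        rw [mem_biUnion]
        refine ⟨d, ?_, ?_⟩
        · rw [hD2, mem_filter]
          refine ⟨hd, fun hle => ?_⟩
          exact n5 d (by rw [hD1, mem_filter]; exact ⟨hd, hle⟩) hdn
        · rw [mem_filter, mem_Ioc]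
          exact ⟨⟨by omega, n2⟩, hdn⟩
    have h4 : (((Icc 1 X).filter (fun n => X < 2 * n ∧ Even n ∧ (∀ d ∈ D1, ¬ d ∣ n) ∧
        Bad n)).card : ℝ) ≤ (((Icc 1 X).filter (fun n => X < 2 * n ∧ Even n ∧
        (∀ d ∈ D, ¬ d ∣ n) ∧ Bad n)).card : ℝ) +
        ∑ d ∈ D2, (((Ioc 0 X).filter (fun n => d ∣ n)).card : ℝ) := by
      have h5 := (card_le_card hsub).trans ((card_union_le _ _).trans
        (Nat.add_le_add_left card_biUnion_le _))
      exact_mod_cast h5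
    have hb : (X : ℝ) ^ (1 - θ) ≤ 2 * ((X : ℝ) / 2) ^ (1 - θ) := by
      have e1 : (X : ℝ) ^ (1 - θ) = (2 : ℝ) ^ (1 - θ) * ((X : ℝ) / 2) ^ (1 - θ) := by
        rw [← Real.mul_rpow (by norm_num) (by positivity)]
        congr 1
        ring
      have e2 : (2 : ℝ) ^ (1 - θ) ≤ 2 := by
        have : (2 : ℝ) ^ (1 - θ) ≤ (2 : ℝ) ^ (1 : ℝ) :=
          Real.rpow_le_rpow_of_exponent_le (by norm_num) (by linarith)
        rwa [Real.rpow_one] at this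
      rw [e1]
      exact mul_le_mul_of_nonneg_right e2 (by positivity)
    have h5 : ∀ d ∈ D2, (((Ioc 0 X).filter (fun n => d ∣ n)).card : ℝ) ≤
        2 * (X : ℝ) ^ θ := by
      intro d hd
      rw [hD2, mem_filter, not_le] at hd
      rw [Nat.Ioc_filter_dvd_card_eq_div]
      have h6 : (0 : ℝ) < ((X : ℝ) / 2) ^ (1 - θ) := by positivity
      have h7 : (0 : ℝ) < d := h6.trans hd.2
      calc ((X / d : ℕ) : ℝ) ≤ (X : ℝ) / d := Nat.cast_div_le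
        _ ≤ 2 * (X : ℝ) ^ θ := by
            rw [div_le_iff₀ h7]
            have e1 : (X : ℝ) = (X : ℝ) ^ θ * (X : ℝ) ^ (1 - θ) := by
              rw [← Real.rpow_add hX0]
              rw [show θ + (1 - θ) = 1 by ring, Real.rpow_one]
            have e2 : (X : ℝ) ^ (1 - θ) ≤ 2 * d := by linarith [hd.2]
            have e3 : (0 : ℝ) < (X : ℝ) ^ θ := by positivity
            calc (X : ℝ) = (X : ℝ) ^ θ * (X : ℝ) ^ (1 - θ) := e1
              _ ≤ (X : ℝ) ^ θ * (2 * d) := mul_le_mul_of_nonneg_left e2 e3.le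
              _ = 2 * (X : ℝ) ^ θ * d := by ring
    have h6 := sum_le_card_nsmul D2 _ _ h5
    rw [nsmul_eq_mul] at h6
    have h8 : (X : ℝ) ^ θ ≤ (X : ℝ) ^ (θ + ε / 2) :=
      Real.rpow_le_rpow_of_exponent_le hXR (by linarith)
    have h9 : (0 : ℝ) < (X : ℝ) ^ (θ + ε / 2) := by positivity
    have h10 : (1 : ℝ) ≤ (Real.log X) ^ C := one_le_pow₀ hL
    have h11 : (D2.card : ℝ) * (2 * (X : ℝ) ^ θ) ≤
        (Real.log X) ^ C * (2 * (X : ℝ) ^ (θ + ε / 2)) :=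
      mul_le_mul (hc2.trans g1) (by linarith) (by positivity) (by positivity)
    have h12 : (X : ℝ) ^ (θ + ε) = (X : ℝ) ^ (ε / 2) * (X : ℝ) ^ (θ + ε / 2) := by
      rw [← Real.rpow_add hX0]
      congr 1
      ring
    rw [h12]
    have h13 := mul_le_mul_of_nonneg_right hC3 h9.le
    have h14 := mul_le_mul_of_nonneg_right h10 h9.le
    linarith

private theorem fin_scale (X n : ℕ) (hn : 1 ≤ n) (hnX : n ≤ X) :
    ∃ i, i ≤ Nat.log 2 X ∧ n ≤ X / 2 ^ i ∧ X / 2 ^ i < 2 * n := by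
  have h0 : X / n ≠ 0 := by
    have := Nat.div_pos hnX hn
    omega
  refine ⟨Nat.log 2 (X / n), ?_, ?_, ?_⟩
  · exact Nat.log_mono_right (Nat.div_le_self _ _)
  · rw [Nat.le_div_iff_mul_le (by positivity)]
    have h1 := Nat.pow_log_le_self 2 h0
    have h2 : n * 2 ^ Nat.log 2 (X / n) ≤ n * (X / n) := Nat.mul_le_mul_left _ h1
    exact h2.trans (Nat.mul_div_le _ _)
  · rw [Nat.div_lt_iff_lt_mul (by positivity)]
    have h1 := Nat.lt_pow_succ_log_self (b := 2) (by norm_num) (X / n)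
    rw [Nat.div_lt_iff_lt_mul hn, pow_succ] at h1
    calc X < 2 ^ Nat.log 2 (X / n) * 2 * n := h1
      _ = 2 * n * 2 ^ Nat.log 2 (X / n) := by ring

private theorem fin_log2 (X : ℕ) (hL : 1 ≤ Real.log X) :
    ((Nat.log 2 X : ℕ) : ℝ) + 1 ≤ 3 * Real.log X := by
  have h1 := Real.natLog_le_logb X 2
  have h2 : (0.6931471803 : ℝ) < Real.log 2 := Real.log_two_gt_d9
  have h3 : Real.logb 2 X ≤ 2 * Real.log X := by
    rw [Real.logb, div_le_iff₀ (by linarith)]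
    nlinarith
  push_cast at h1 h3
  linarith

/-- all scales -/
theorem allQ8 (Bad : ℕ → Prop) (Q Q' : ℕ → ℕ → Prop)
    (hQ : ∀ X Y d : ℕ, Y ≤ X → X ≤ Y ^ 8 → 10 ≤ Real.log X → Q Y d → Q' X d) (C' : ℕ) (θ ε : ℝ) (h1 : 1 / 8 ≤ θ) (h2 : θ ≤ 1) (hε : 0 < ε)
    (H : ScQ Bad Q C' (θ + ε / 4)) : ∀ K : ℕ,
    ∃ X0 : ℕ, ∀ X : ℕ, X0 ≤ X → ∃ D : Finset ℕ,
      (D.card : ℝ) ≤ (Real.log X) ^ (C' + 2) ∧
      (∀ d ∈ D, (Real.log X) ^ K ≤ (d : ℝ) ∧ (d : ℝ) ≤ (X : ℝ) ^ (1 - θ) ∧ Q' X d) ∧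
      ∀ P : ℕ → Prop, ∀ _ : DecidablePred P,
        (∀ n, P n → Even n ∧ (∀ d ∈ D, (d : ℝ) ≤ (n : ℝ) ^ (1 - θ) → ¬ d ∣ n) ∧ Bad n) →
        (((Icc 1 X).filter P).card : ℝ) ≤ (X : ℝ) ^ (θ + ε) := by
  intro K
  obtain ⟨Y0, hY0⟩ := thinQ Bad Q C' θ (ε / 2) (by linarith) (by positivity)
    (by rw [show ε / 2 / 2 = ε / 4 by ring]; exact H) (K + 1)
  obtain ⟨X1, hX1⟩ := MP_log_large (max 10 (8 ^ (K + 1)))
  obtain ⟨X4, hX4⟩ := MP_log_pow 4 1 (ε := ε / 2) (by positivity)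
  refine ⟨max (Y0 ^ 8) (max X1 X4), fun X hX => ?_⟩
  simp only [max_le_iff] at hX
  obtain ⟨hXY, hX1', hX4'⟩ := hX
  have hL := hX1 X hX1'
  have hL10 : 10 ≤ Real.log X := (le_max_left _ _).trans hL
  have hLK : 8 ^ (K + 1) ≤ Real.log X := (le_max_right _ _).trans hL
  have e4 := hX4 X hX4'
  rw [pow_one] at e4
  clear hX1 hX4
  obtain ⟨L, hLdef⟩ : ∃ L : ℝ, L = Real.log X := ⟨_, rfl⟩
  rw [← hLdef] at hL10 hLK e4
  have hXpos : (0 : ℝ) < X := by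
    rcases Nat.eq_zero_or_pos X with h | h
    · exfalso
      subst h
      simp at hLdef
      linarith
    · exact_mod_cast h
  have hX1R : (1 : ℝ) ≤ X := by
    have : 1 ≤ X := by
      have : 0 < X := by exact_mod_cast hXpos
      omega
    exact_mod_cast this
  have hL0 : 0 < L := by linarith
  -- the scales
  obtain ⟨I, hI⟩ : ∃ I : Finset ℕ, I = (range (Nat.log 2 X + 1)).filter
    (fun i => X ≤ (X / 2 ^ i) ^ 8) := ⟨_, rfl⟩
  have hIcard : (I.card : ℝ) ≤ 3 * L := by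
    have h1 : I.card ≤ Nat.log 2 X + 1 := by
      rw [hI]
      exact (card_filter_le _ _).trans (by rw [card_range])
    have h2 := fin_log2 X (by rw [← hLdef]; linarith)
    rw [← hLdef] at h2
    have h3 : (I.card : ℝ) ≤ (Nat.log 2 X : ℝ) + 1 := by exact_mod_cast h1
    linarith
  have hYi : ∀ i ∈ I, X ≤ (X / 2 ^ i) ^ 8 := by
    intro i hi
    rw [hI, mem_filter] at hi
    exact hi.2
  classical
  have hex : ∀ i ∈ I, ∃ D : Finset ℕ, (D.card : ℝ) ≤ (Real.log (X / 2 ^ i : ℕ)) ^ C' ∧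
      (∀ d ∈ D, (Real.log (X / 2 ^ i : ℕ)) ^ (K + 1) ≤ (d : ℝ) ∧
        (d : ℝ) ≤ (((X / 2 ^ i : ℕ) : ℝ) / 2) ^ (1 - θ) ∧ Q (X / 2 ^ i) d) ∧
      (((Icc 1 (X / 2 ^ i)).filter (fun n => X / 2 ^ i < 2 * n ∧ Even n ∧ (∀ d ∈ D, ¬ d ∣ n) ∧
        Bad n)).card : ℝ) ≤ ((X / 2 ^ i : ℕ) : ℝ) ^ (θ + ε / 2) := by
    intro i hi
    obtain ⟨D, d1, d2, d3⟩ := hY0 (X / 2 ^ i) ((Nat.pow_le_pow_iff_left (by norm_num)).1
      (hXY.trans (hYi i hi)))
    refine ⟨D, d1, d2, ?_⟩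
    convert d3 using 3
  choose! f hf1 hf2 hf3 using hex
  -- facts about the scales
  have hsc : ∀ i ∈ I, (1 : ℝ) ≤ (X / 2 ^ i : ℕ) ∧ ((X / 2 ^ i : ℕ) : ℝ) ≤ X ∧
      L / 8 ≤ Real.log (X / 2 ^ i : ℕ) ∧ Real.log (X / 2 ^ i : ℕ) ≤ L := by
    intro i hi
    have h1 : (X : ℝ) ≤ ((X / 2 ^ i : ℕ) : ℝ) ^ 8 := by exact_mod_cast hYi i hi
    have h2 : (1 : ℝ) ≤ (X / 2 ^ i : ℕ) := by
      by_contra hlt
      push Not at hlt
      have h3 : (X / 2 ^ i : ℕ) = 0 := by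
        have : (X / 2 ^ i : ℕ) < 1 := by exact_mod_cast hlt
        exact Nat.lt_one_iff.1 this
      rw [h3, Nat.cast_zero, zero_pow (by norm_num)] at h1
      linarith
    have h3 : ((X / 2 ^ i : ℕ) : ℝ) ≤ X := by exact_mod_cast Nat.div_le_self _ _
    refine ⟨h2, h3, ?_, ?_⟩
    · have h4 := Real.log_le_log hXpos h1
      rw [Real.log_pow, ← hLdef] at h4
      push_cast at h4
      linarith
    · rw [hLdef]
      exact Real.log_le_log (by linarith) h3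
  refine ⟨I.biUnion f, ?_, ?_, ?_⟩
  · -- the cardinality
    rw [← hLdef]
    have hci : ∀ i ∈ I, ((f i).card : ℝ) ≤ L ^ C' := by
      intro i hi
      obtain ⟨s1, s2, s3, s4⟩ := hsc i hi
      exact (hf1 i hi).trans (pow_le_pow_left₀ (by linarith) s4 _)
    have h1 : ((I.biUnion f).card : ℝ) ≤ ∑ i ∈ I, ((f i).card : ℝ) := by
      exact_mod_cast card_biUnion_le
    have h2 := sum_le_card_nsmul I _ _ hci
    rw [nsmul_eq_mul] at h2
    have h3 : 0 < L ^ C' := by positivity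
    calc ((I.biUnion f).card : ℝ) ≤ I.card * L ^ C' := h1.trans h2
      _ ≤ 3 * L * L ^ C' := mul_le_mul_of_nonneg_right hIcard h3.le
      _ ≤ L * L * L ^ C' := by
          refine mul_le_mul_of_nonneg_right ?_ h3.le
          exact mul_le_mul_of_nonneg_right (by linarith) hL0.le
      _ = L ^ (C' + 2) := by ring
  · intro d hd
    rw [mem_biUnion] at hd
    obtain ⟨i, hi, hd⟩ := hd
    obtain ⟨s1, s2, s3, s4⟩ := hsc i hi
    obtain ⟨d1, d2, d3⟩ := hf2 i hi d hd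
    refine ⟨?_, d2.trans (Real.rpow_le_rpow (by linarith) (by linarith) (by linarith)),
      hQ X (X / 2 ^ i) d (Nat.div_le_self _ _) (hYi i hi) (by rw [← hLdef]; exact hL10) d3⟩
    rw [← hLdef]
    refine le_trans ?_ d1
    calc L ^ K = L ^ K * 1 := (mul_one _).symm
      _ ≤ L ^ K * (L / 8 ^ (K + 1)) := by
          refine mul_le_mul_of_nonneg_left ?_ (by positivity)
          rw [le_div_iff₀ (by positivity), one_mul]
          exact hLK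
      _ = (L / 8) ^ (K + 1) := by
          rw [_root_.div_pow, pow_succ L K]
          ring
      _ ≤ (Real.log (X / 2 ^ i : ℕ)) ^ (K + 1) := pow_le_pow_left₀ (by positivity) s3 _
  · -- the exceptions
    intro P _ hP
    have hsub : (Icc 1 X).filter P ⊆
        Icc 1 ⌊(X : ℝ) ^ (1 / 8 : ℝ)⌋₊ ∪ I.biUnion (fun i => (Icc 1 (X / 2 ^ i)).filter
          (fun n => X / 2 ^ i < 2 * n ∧ Even n ∧ (∀ d ∈ f i, ¬ d ∣ n) ∧ Bad n)) := by
      intro n hn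
      rw [mem_filter, mem_Icc] at hn
      obtain ⟨⟨hn1, hnX⟩, hPn⟩ := hn
      obtain ⟨hev, hap, hexc⟩ := hP n hPn
      rw [mem_union]
      by_cases hsq : n ≤ ⌊(X : ℝ) ^ (1 / 8 : ℝ)⌋₊
      · exact Or.inl (mem_Icc.2 ⟨hn1, hsq⟩)
      · right
        rw [not_le, Nat.floor_lt (by positivity)] at hsq
        obtain ⟨i, hi1, hi2, hi3⟩ := fin_scale X n hn1 hnX
        have hiI : i ∈ I := by
          rw [hI, mem_filter, mem_range]
          refine ⟨by omega, ?_⟩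
          have h1 : (X : ℝ) ≤ (n : ℝ) ^ 8 := by
            have h2 : ((X : ℝ) ^ (1 / 8 : ℝ)) ^ 8 = X := by
              rw [← Real.rpow_natCast, ← Real.rpow_mul hXpos.le]
              norm_num
            rw [← h2]
            exact pow_le_pow_left₀ (by positivity) hsq.le 8
          have h2 : X ≤ n ^ 8 := by exact_mod_cast h1
          exact h2.trans (Nat.pow_le_pow_left hi2 8)
        rw [mem_biUnion]
        refine ⟨i, hiI, ?_⟩
        rw [mem_filter, mem_Icc]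
        refine ⟨⟨hn1, hi2⟩, hi3, hev, fun d hd => hap d (mem_biUnion.2 ⟨i, hiI, hd⟩) ?_, hexc⟩
        -- the size of `d`
        have hi3R : ((X / 2 ^ i : ℕ) : ℝ) ≤ 2 * n := by exact_mod_cast hi3.le
        exact (hf2 i hiI d hd).2.1.trans
          (Real.rpow_le_rpow (by positivity) (by linarith) (by linarith))
    have h1 : (((Icc 1 X).filter P).card : ℝ) ≤
        ⌊(X : ℝ) ^ (1 / 8 : ℝ)⌋₊ + ∑ i ∈ I, (((Icc 1 (X / 2 ^ i)).filter
          (fun n => X / 2 ^ i < 2 * n ∧ Even n ∧ (∀ d ∈ f i, ¬ d ∣ n) ∧ Bad n)).card : ℝ) := by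
      have h2 := (card_le_card hsub).trans ((card_union_le _ _).trans
        (Nat.add_le_add_left card_biUnion_le _))
      rw [Nat.card_Icc, Nat.add_sub_cancel] at h2
      exact_mod_cast h2
    have h2 : ∀ i ∈ I, (((Icc 1 (X / 2 ^ i)).filter
          (fun n => X / 2 ^ i < 2 * n ∧ Even n ∧ (∀ d ∈ f i, ¬ d ∣ n) ∧ Bad n)).card : ℝ) ≤
        (X : ℝ) ^ (θ + ε / 2) := by
      intro i hi
      obtain ⟨s1, s2, s3, s4⟩ := hsc i hi
      exact (hf3 i hi).trans (Real.rpow_le_rpow (by linarith) s2 (by linarith))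
    have h3 := sum_le_card_nsmul I _ _ h2
    rw [nsmul_eq_mul] at h3
    have h4 : (⌊(X : ℝ) ^ (1 / 8 : ℝ)⌋₊ : ℝ) ≤ (X : ℝ) ^ (θ + ε / 2) :=
      (Nat.floor_le (by positivity)).trans
        (Real.rpow_le_rpow_of_exponent_le hX1R (by linarith))
    have h5 : (X : ℝ) ^ (θ + ε) = (X : ℝ) ^ (ε / 2) * (X : ℝ) ^ (θ + ε / 2) := by
      rw [← Real.rpow_add hXpos]
      congr 1
      ring
    have h6 : (0 : ℝ) < (X : ℝ) ^ (θ + ε / 2) := by positivity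
    rw [h5]
    have h7 : (I.card : ℝ) * (X : ℝ) ^ (θ + ε / 2) ≤ 3 * L * (X : ℝ) ^ (θ + ε / 2) :=
      mul_le_mul_of_nonneg_right hIcard h6.le
    have h8 : 4 * L * (X : ℝ) ^ (θ + ε / 2) ≤ (X : ℝ) ^ (ε / 2) * (X : ℝ) ^ (θ + ε / 2) :=
      mul_le_mul_of_nonneg_right e4 h6.le
    have h9 : (X : ℝ) ^ (θ + ε / 2) ≤ L * (X : ℝ) ^ (θ + ε / 2) :=
      le_mul_of_one_le_left h6.le (by linarith)
    linarith


/-- the exponent `θ0` and the exponents `θ ≥ θ0` -/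
theorem ext_q (Bad : ℕ → Prop) (Q : ℕ → ℕ → Prop) (C : ℕ) (θ0 ε : ℝ) (h0 : 0 < θ0)
    (hε : 0 < ε)
    (H : ∀ K : ℕ, ∃ X0 : ℕ, ∀ X : ℕ, X0 ≤ X → ∃ D : Finset ℕ,
      (D.card : ℝ) ≤ (Real.log X) ^ C ∧
      (∀ d ∈ D, (Real.log X) ^ K ≤ (d : ℝ) ∧ (d : ℝ) ≤ (X : ℝ) ^ (1 - θ0) ∧ Q X d) ∧
      ∀ P : ℕ → Prop, ∀ _ : DecidablePred P,
        (∀ n, P n → Even n ∧ (∀ d ∈ D, (d : ℝ) ≤ (n : ℝ) ^ (1 - θ0) → ¬ d ∣ n) ∧ Bad n) →
        (((Icc 1 X).filter P).card : ℝ) ≤ (X : ℝ) ^ (θ0 + ε / 2)) :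
    ∀ θ : ℝ, θ0 ≤ θ → θ ≤ 1 → ∀ K : ℕ, ∃ X0 : ℕ, ∀ X : ℕ, X0 ≤ X → ∃ D : Finset ℕ,
      (D.card : ℝ) ≤ (Real.log X) ^ C ∧
      (∀ d ∈ D, (Real.log X) ^ K ≤ (d : ℝ) ∧ (d : ℝ) ≤ (X : ℝ) ^ (1 - θ) ∧ Q X d) ∧
      ∀ P : ℕ → Prop, ∀ _ : DecidablePred P,
        (∀ n, P n → Even n ∧ (∀ d ∈ D, (d : ℝ) ≤ (n : ℝ) ^ (1 - θ) → ¬ d ∣ n) ∧ Bad n) →
        (((Icc 1 X).filter P).card : ℝ) ≤ (X : ℝ) ^ (θ + ε) := by
  classical
  intro θ hθ hθ1 K
  obtain ⟨X1, hX1⟩ := H K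
  obtain ⟨X2, hX2⟩ := MP_log_pow 2 C (ε := ε / 2) (by positivity)
  obtain ⟨X3, hX3⟩ := MP_log_large 1
  refine ⟨max X1 (max X2 (max X3 1)), fun X hX => ?_⟩
  simp only [max_le_iff] at hX
  obtain ⟨x1, x2, x3, x4⟩ := hX
  obtain ⟨D, d1, d2, d3⟩ := hX1 X x1
  have hpow := hX2 X x2
  have hL1 := hX3 X x3
  have hXp : (0 : ℝ) < X := by exact_mod_cast (by omega : 0 < X)
  have hX1r : (1 : ℝ) ≤ X := by exact_mod_cast x4
  have hθ0 : 0 ≤ θ := h0.le.trans hθ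
  refine ⟨D.filter (fun d : ℕ => (d : ℝ) ≤ (X : ℝ) ^ (1 - θ)), ?_, ?_, ?_⟩
  · refine le_trans ?_ d1
    exact_mod_cast card_filter_le _ _
  · intro d hd
    rw [mem_filter] at hd
    exact ⟨(d2 d hd.1).1, hd.2, (d2 d hd.1).2.2⟩
  · intro P hPd hP
    obtain ⟨Q, hQ⟩ : ∃ Q : ℕ → Prop, Q = fun n => P n ∧
      ∀ d ∈ D, (d : ℝ) ≤ (n : ℝ) ^ (1 - θ0) → ¬ d ∣ n := ⟨_, rfl⟩
    have hQd : DecidablePred Q := Classical.decPred Q
    have hb1 := d3 Q hQd (fun n hn => by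
      rw [hQ] at hn
      obtain ⟨i1, i2, i3⟩ := hP n hn.1
      exact ⟨i1, hn.2, i3⟩)
    obtain ⟨E, hE⟩ : ∃ E : Finset ℕ, E = D.biUnion (fun d =>
      (Icc 1 ⌊(X : ℝ) ^ θ⌋₊).image (fun m => m * d)) := ⟨_, rfl⟩
    have hEc : (E.card : ℝ) ≤ (Real.log X) ^ C * (X : ℝ) ^ θ := by
      have h1 : (E.card : ℝ) ≤ ∑ _d ∈ D, (X : ℝ) ^ θ := by
        rw [hE]
        have h2 : ((D.biUnion (fun d =>
            (Icc 1 ⌊(X : ℝ) ^ θ⌋₊).image (fun m => m * d))).card : ℝ) ≤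
            ∑ d ∈ D, (((Icc 1 ⌊(X : ℝ) ^ θ⌋₊).image (fun m => m * d)).card : ℝ) := by
          exact_mod_cast card_biUnion_le
        refine h2.trans (sum_le_sum fun d _ => ?_)
        have h3 : (((Icc 1 ⌊(X : ℝ) ^ θ⌋₊).image (fun m => m * d)).card : ℝ) ≤
            (⌊(X : ℝ) ^ θ⌋₊ : ℝ) := by
          have := card_image_le (s := Icc 1 ⌊(X : ℝ) ^ θ⌋₊) (f := fun m => m * d)
          rw [Nat.card_Icc, Nat.add_sub_cancel] at this
          exact_mod_cast this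
        exact h3.trans (Nat.floor_le (by positivity))
      rw [sum_const, nsmul_eq_mul] at h1
      exact h1.trans (mul_le_mul_of_nonneg_right d1 (by positivity))
    have hsub : (Icc 1 X).filter P ⊆ (Icc 1 X).filter Q ∪ E := by
      intro n hn
      rw [mem_filter, mem_Icc] at hn
      obtain ⟨⟨n1, n2⟩, n3⟩ := hn
      rw [mem_union]
      by_cases hc : ∀ d ∈ D, (d : ℝ) ≤ (n : ℝ) ^ (1 - θ0) → ¬ d ∣ n
      · left
        rw [mem_filter, mem_Icc]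
        refine ⟨⟨n1, n2⟩, ?_⟩
        rw [hQ]
        exact ⟨n3, hc⟩
      · right
        push Not at hc
        obtain ⟨d, hd, hd1, hd2⟩ := hc
        have hn0 : (0 : ℝ) < n := by exact_mod_cast (by omega : 0 < n)
        have hnX : (n : ℝ) ≤ X := by exact_mod_cast n2
        have hlt : (n : ℝ) ^ (1 - θ) < d := by
          by_contra hcon
          rw [not_lt] at hcon
          have h4 : d ∈ D.filter (fun d : ℕ => (d : ℝ) ≤ (X : ℝ) ^ (1 - θ)) := by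
            rw [mem_filter]
            exact ⟨hd, hcon.trans (Real.rpow_le_rpow hn0.le hnX (by linarith))⟩
          exact (hP n n3).2.1 d h4 hcon hd2
        obtain ⟨m, hm⟩ := hd2
        rw [hE, mem_biUnion]
        refine ⟨d, hd, ?_⟩
        rw [mem_image]
        refine ⟨m, ?_, by rw [hm, mul_comm]⟩
        have hd0 : (0 : ℝ) < d := lt_of_le_of_lt (Real.rpow_nonneg hn0.le _) hlt
        rw [mem_Icc]
        constructor
        · rcases Nat.eq_zero_or_pos m with h5 | h5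
          · rw [h5] at hm
            omega
          · exact h5
        · refine Nat.le_floor ?_
          have h5 : (n : ℝ) = d * m := by exact_mod_cast hm
          have h6 : (n : ℝ) = (n : ℝ) ^ (1 - θ) * (n : ℝ) ^ θ := by
            rw [← Real.rpow_add hn0]
            norm_num
          have h7 : (n : ℝ) ^ (1 - θ) * (n : ℝ) ^ θ ≤ d * (n : ℝ) ^ θ :=
            mul_le_mul_of_nonneg_right hlt.le (by positivity)
          have h8 : (d : ℝ) * m ≤ d * (n : ℝ) ^ θ := by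
            rw [← h5]
            rw [← h6] at h7
            exact h7
          exact (le_of_mul_le_mul_left h8 hd0).trans (Real.rpow_le_rpow hn0.le hnX hθ0)
    have hcard : (((Icc 1 X).filter P).card : ℝ) ≤ ((Icc 1 X).filter Q).card + E.card := by
      have := (card_le_card hsub).trans (card_union_le _ _)
      exact_mod_cast this
    have e1 : (X : ℝ) ^ (θ0 + ε / 2) ≤ (X : ℝ) ^ θ * (X : ℝ) ^ (ε / 2) := by
      rw [← Real.rpow_add hXp]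
      exact Real.rpow_le_rpow_of_exponent_le hX1r (by linarith)
    have e2 : (X : ℝ) ^ (θ + ε) = (X : ℝ) ^ θ * (X : ℝ) ^ (ε / 2) * (X : ℝ) ^ (ε / 2) := by
      rw [← Real.rpow_add hXp, ← Real.rpow_add hXp]
      congr 1
      ring
    have hA : 1 ≤ (X : ℝ) ^ (ε / 2) := Real.one_le_rpow hX1r (by positivity)
    have hB : 0 < (X : ℝ) ^ θ := by positivity
    have hLC : 1 ≤ (Real.log X) ^ C := one_le_pow₀ hL1
    have e3 : (Real.log X) ^ C * (X : ℝ) ^ θ ≤ (X : ℝ) ^ (ε / 2) / 2 * (X : ℝ) ^ θ :=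
      mul_le_mul_of_nonneg_right (by linarith) hB.le
    have e4 : (X : ℝ) ^ (ε / 2) / 2 * (X : ℝ) ^ θ ≤
        (X : ℝ) ^ θ * (X : ℝ) ^ (ε / 2) * (X : ℝ) ^ (ε / 2) / 2 := by
      have h5 : (X : ℝ) ^ θ * (X : ℝ) ^ (ε / 2) ≤
          (X : ℝ) ^ θ * (X : ℝ) ^ (ε / 2) * (X : ℝ) ^ (ε / 2) :=
        le_mul_of_one_le_right (by positivity) hA
      linarith
    have e5 : (X : ℝ) ^ θ * (X : ℝ) ^ (ε / 2) ≤
        (X : ℝ) ^ θ * (X : ℝ) ^ (ε / 2) * (X : ℝ) ^ (ε / 2) / 2 := by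
      have h5 : 2 ≤ (X : ℝ) ^ (ε / 2) := by linarith
      have h6 : 0 ≤ (X : ℝ) ^ θ * (X : ℝ) ^ (ε / 2) := by positivity
      have := mul_le_mul_of_nonneg_left h5 h6
      linarith
    rw [e2]
    linarith


end Pool.MP_dd84fd_nt.DX
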